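import Pool.Agent.VN.Defs
/-!
# Existence and basic properties of ShortLex normal forms
-/
namespace Pool.Agent.VN
open Pool.Agent.SLX Relation

section rk
variable {A : Type}

/-- value of a string in base `B` -/
def rkB (e : A → ℕ) (B : ℕ) : List A → ℕ
  | [] => 0
  | a :: w => e a * B ^ w.length + rkB e B w

theorem rkB_lt (e : A → ℕ) (B : ℕ) (he : ∀ a, e a < B) (w : List A) :
    rkB e B w < B ^ w.length := by
  induction w with
  | nil => simp [rkB]
  | cons a w ih =>
    rw [rkB, List.length_cons, pow_succ]
    have h1 : (e a + 1) * B ^ w.length ≤ B * B ^ w.length := Nat.mul_le_mul_right _ (he a)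
    nlinarith

theorem rkB_append (e : A → ℕ) (B : ℕ) (u v : List A) :
    rkB e B (u ++ v) = rkB e B u * B ^ v.length + rkB e B v := by
  induction u with
  | nil => simp [rkB]
  | cons a u ih =>
    rw [List.cons_append, rkB, rkB, ih, List.length_append, pow_add]
    ring

theorem rkB_app (e : A → ℕ) (B : ℕ) (hB : 0 < B) (p q v v' : List A)
    (hl : v.length = v'.length) (h : rkB e B v < rkB e B v') :
    rkB e B (p ++ v ++ q) < rkB e B (p ++ v' ++ q) := by
  rw [rkB_append, rkB_append, rkB_append e B (p ++ v'), rkB_append e B p v', hl]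
  have h1 : 0 < B ^ q.length := pow_pos hB _
  have h2 : rkB e B p * B ^ v'.length + rkB e B v < rkB e B p * B ^ v'.length + rkB e B v' := by
    omega
  have h3 := Nat.mul_lt_mul_of_pos_right h2 h1
  omega

theorem rkB_lex [LinearOrder A] (e : A → ℕ) (B : ℕ) (he : ∀ a, e a < B)
    (hmono : ∀ a b, a < b → e a < e b) {u v : List A} (hl : u.length = v.length)
    (h : List.Lex (· < ·) u v) : rkB e B u < rkB e B v := by
  induction h with
  | nil => simp at hl
  | cons h ih =>
    rename_i a u v
    rw [List.length_cons, List.length_cons] at hl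
    have := ih (by omega)
    rw [rkB, rkB]
    have h2 : u.length = v.length := by omega
    rw [h2]
    omega
  | rel h =>
    rename_i a u b v
    rw [List.length_cons, List.length_cons] at hl
    have h2 : u.length = v.length := by omega
    have h3 := rkB_lt e B he u
    rw [rkB, rkB, ← h2]
    have h4 : (e a + 1) * B ^ u.length ≤ e b * B ^ u.length :=
      Nat.mul_le_mul_right _ (hmono a b h)
    nlinarith

end rk

section ex
variable {A G : Type} [LinearOrder A] [Group G] {π : A → G} {E : Set (List A × List A)}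

theorem red_of_irr (h : IsSystem π E) {u v : List A} (he : val π u = val π v)
    (hv : ∀ w, ¬ Step E v w) : ReflTransGen (Step E) u v := by
  obtain ⟨w, h1, h2⟩ := h.exists_common he
  rcases ReflTransGen.cases_head h2 with h3 | ⟨c, h3, _⟩
  · rw [h3]
    exact h1
  · exact absurd h3 (hv c)

theorem red_len (h : IsSystem π E) {u v : List A} (hs : ReflTransGen (Step E) u v) :
    v.length ≤ u.length := by
  induction hs with
  | refl => exact le_rfl
  | tail _ h2 ih => exact (h.step_length h2).trans ih

theorem step_rk (h : IsSystem π E) (e : A → ℕ) (B : ℕ) (he : ∀ a, e a < B) (hB : 0 < B)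
    (hmono : ∀ a b, a < b → e a < e b) {u v : List A} (hs : Step E u v)
    (hl : v.length = u.length) : rkB e B v < rkB e B u := by
  obtain ⟨p, l, r, q, hr, rfl, rfl⟩ := hs
  have h1 := h.rule l r hr
  rw [List.shortlex_def] at h1
  simp only [List.length_append] at hl
  rcases h1 with h2 | h2
  · omega
  · exact rkB_app e B hB p q r l h2.1 (rkB_lex e B he hmono h2.1 h2.2)

theorem red_rk (h : IsSystem π E) (e : A → ℕ) (B : ℕ) (he : ∀ a, e a < B) (hB : 0 < B)
    (hmono : ∀ a b, a < b → e a < e b) {u v : List A} (hs : ReflTransGen (Step E) u v)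
    (hl : v.length = u.length) : v = u ∨ rkB e B v < rkB e B u := by
  induction hs with
  | refl => exact Or.inl rfl
  | tail h1 h2 ih =>
    rename_i b c
    have h3 := h.step_length h2
    have h4 := red_len h h1
    have h5 := step_rk h e B he hB hmono h2 (by omega)
    rcases ih (by omega) with h6 | h6
    · rw [h6] at h5
      exact Or.inr h5
    · exact Or.inr (h5.trans h6)

omit [LinearOrder A] in
theorem red_eqv {u v : List A} (h : ReflTransGen (Step E) u v) : EqvGen (Step E) u v := by
  induction h with
  | refl => exact EqvGen.refl _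
  | tail _ h7 ih => exact EqvGen.trans _ _ _ ih (EqvGen.rel _ _ h7)

theorem exists_NF {A G : Type} [Finite A] [LinearOrder A] [Group G] {π : A → G}
    {E : Set (List A × List A)} (h : IsSystem π E) : Nonempty (NF A G π) := by
  classical
  have hex : ∀ g : G, ∃ v : List A, val π v = g ∧ ∀ w, ¬ Step E v w := by
    intro g
    obtain ⟨w, hw⟩ := h.surj g
    obtain ⟨v, hv, _⟩ := h.complete w
    refine ⟨v, ?_, hv.2⟩
    rw [← hw, h.presents]
    apply EqvGen.symm
    exact red_eqv hv.1
  choose nf hval hirr using hex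
  have : Fintype A := Fintype.ofFinite A
  set e : A → ℕ := fun a => (Finset.univ.filter (fun b => b < a)).card with he
  have hmono : ∀ a b, a < b → e a < e b := by
    intro a b hab
    apply Finset.card_lt_card
    rw [Finset.ssubset_iff_of_subset]
    · refine ⟨a, ?_, ?_⟩
      · simp [hab]
      · simp
    · intro c hc
      simp only [Finset.mem_filter, Finset.mem_univ, true_and] at hc ⊢
      exact hc.trans hab
  set B : ℕ := Fintype.card A + 1 with hB
  have heB : ∀ a, e a < B := by
    intro a
    have := Finset.card_le_univ (Finset.univ.filter (fun b => b < a))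
    rw [hB]
    exact Nat.lt_succ_of_le this
  have hB0 : 0 < B := Nat.succ_pos _
  obtain ⟨R, hR⟩ := h.exists_bound
  have hred : ∀ w, ReflTransGen (Step E) w (nf (val π w)) := fun w =>
    red_of_irr h (hval _).symm (hirr _)
  refine ⟨⟨nf, rkB e B, R, hval, ?_, ?_, ?_, ?_⟩⟩
  · intro w
    exact red_len h (hred w)
  · intro w hl hne
    rcases red_rk h e B heB hB0 hmono (hred w) hl with h1 | h1
    · exact absurd h1 hne
    · exact h1
  · intro p q v v' hl hlt
    exact rkB_app e B hB0 p q v v' hl hlt
  · intro w hw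
    rcases ReflTransGen.cases_head (hred w) with h1 | ⟨c, h1, _⟩
    · exact h1.symm
    · exfalso
      obtain ⟨p, l, r, q, hr, hw', _⟩ := h1
      have h2 := hw p l q hw' (hR l r hr).1
      apply hirr (val π l) r
      rw [h2]
      exact ⟨[], l, r, [], hr, by simp, by simp⟩

end ex

section basic
variable {A G : Type} [Group G] {π : A → G}

theorem nf1_vnil : val π [] = 1 := rfl

theorem nf1_vcons (a : A) (w : List A) : val π (a :: w) = π a * val π w := by
  simp [val]

theorem nf1_vapp (u v : List A) : val π (u ++ v) = val π u * val π v := by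
  simp [val]

theorem NF.l_val (F : NF A G π) (w : List A) : F.l (val π w) ≤ w.length := F.nf_le w

theorem NF.l_one (F : NF A G π) : F.l 1 = 0 := by
  have := F.l_val []
  rw [nf1_vnil, List.length_nil] at this
  omega

theorem NF.nf_one (F : NF A G π) : F.nf 1 = [] := List.length_eq_zero_iff.1 F.l_one

theorem NF.l_eq_zero (F : NF A G π) {g : G} (h : F.l g = 0) : g = 1 := by
  have h1 : F.nf g = [] := List.length_eq_zero_iff.1 h
  rw [← F.val_nf g, h1, nf1_vnil]

theorem NF.l_mul (F : NF A G π) (g h : G) : F.l (g * h) ≤ F.l g + F.l h := by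
  have h1 := F.l_val (F.nf g ++ F.nf h)
  rw [nf1_vapp, F.val_nf, F.val_nf, List.length_append] at h1
  exact h1

theorem NF.factor (F : NF A G π) {p f q : List A}
    (h : F.nf (val π (p ++ f ++ q)) = p ++ f ++ q) : F.nf (val π f) = f := by
  by_contra hne
  have hv : val π (p ++ F.nf (val π f) ++ q) = val π (p ++ f ++ q) := by
    rw [nf1_vapp, nf1_vapp, nf1_vapp, nf1_vapp, F.val_nf]
  have h1 := F.nf_le (p ++ F.nf (val π f) ++ q)
  rw [hv, h] at h1
  simp only [List.length_append] at h1
  have h2 := F.nf_le f
  have h3 : (F.nf (val π f)).length = f.length := by omega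
  have h4 := F.rk_lt f h3 hne
  have h5 := F.rk_app p q _ _ h3 h4
  have h6 : (F.nf (val π (p ++ F.nf (val π f) ++ q))).length =
      (p ++ F.nf (val π f) ++ q).length := by
    rw [hv, h]
    simp only [List.length_append]
    omega
  by_cases h7 : F.nf (val π (p ++ F.nf (val π f) ++ q)) = p ++ F.nf (val π f) ++ q
  · rw [← h7, hv, h] at h5
    exact lt_irrefl _ h5
  · have h8 := F.rk_lt _ h6 h7
    rw [hv, h] at h8
    exact lt_irrefl _ (h8.trans h5)

theorem NF.exists_inv [Finite A] (F : NF A G π) : ∃ κ : ℕ, ∀ g, F.l g⁻¹ ≤ κ * F.l g := by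
  obtain ⟨κ, hκ⟩ := (Set.finite_range (fun a : A => F.l (π a)⁻¹)).bddAbove
  refine ⟨κ, fun g => ?_⟩
  have h1 : ∀ w : List A, F.l (val π w)⁻¹ ≤ κ * w.length := by
    intro w
    induction w with
    | nil => simp [nf1_vnil, F.l_one]
    | cons a w ih =>
      rw [nf1_vcons, mul_inv_rev, List.length_cons]
      have h2 := F.l_mul (val π w)⁻¹ (π a)⁻¹
      have h3 : F.l (π a)⁻¹ ≤ κ := hκ ⟨a, rfl⟩
      rw [Nat.mul_succ]
      omega
  have h2 := h1 (F.nf g)
  rw [F.val_nf] at h2
  exact h2

theorem NF.finite_ball [Finite A] (F : NF A G π) (n : ℕ) : {g | F.l g ≤ n}.Finite := by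
  have h1 : {w : List A | w.length ≤ n}.Finite := List.finite_length_le A n
  refine (h1.image (val π)).subset ?_
  intro g hg
  exact ⟨F.nf g, hg, F.val_nf g⟩

theorem NF.inn_eq (F : NF A G π) : ∀ l : List G, F.inn l = (F.wd l).length
  | [] => rfl
  | [_] => rfl
  | x :: y :: l => by
    have ih := NF.inn_eq F (y :: l)
    rw [NF.inn, NF.wd, List.length_append, ih]
    rfl

end basic

end Pool.Agent.VN
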