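import Pool.Agent.VN.Centre
/-!
# Finitely generated abelian normal subgroups

If for every `T` there are only finitely many conjugacy classes of elements `w` with translation
number at most `T`, then every finitely generated abelian normal subgroup has a centralizer of
finite index.
-/
namespace Pool.Agent.VN
open Pool.Agent.SLX

/-- Structure of finitely generated abelian groups. -/
theorem fg_ab_equiv (B : Type) [CommGroup B] [Group.FG B] :
    ∃ (n : ℕ) (F : Type) (_ : AddCommGroup F) (_ : Finite F),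
      Nonempty (Additive B ≃+ (Fin n →₀ ℤ) × F) := by
  obtain ⟨n, ι, hι, p, hp, e, ⟨f⟩⟩ := AddCommGroup.equiv_free_prod_directSum_zmod (Additive B)
  have h1 : ∀ i, NeZero (p i ^ e i) := fun i => ⟨pow_ne_zero _ (hp i).ne_zero⟩
  have h2 : ∀ i, Finite (ZMod (p i ^ e i)) := fun i => inferInstance
  have h3 : Finite (DirectSum ι fun i => ZMod (p i ^ e i)) :=
    Finite.of_equiv _ DFinsupp.equivFunOnFintype.symm
  exact ⟨n, _, inferInstance, h3, ⟨f⟩⟩

section ab
variable (B : Type) [CommGroup B] [Group.FG B]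

theorem fg_ab_torsion_finite : {b : B | IsOfFinOrder b}.Finite := by
  obtain ⟨n, F, _, hF, ⟨f⟩⟩ := fg_ab_equiv B
  have h0 : ∀ b : B, IsOfFinOrder b → (f (Additive.ofMul b)).1 = 0 := by
    intro b hb
    obtain ⟨k, hk, hk'⟩ := isOfFinOrder_iff_pow_eq_one.1 hb
    have h1 : k • (f (Additive.ofMul b)) = 0 := by
      rw [← map_nsmul, ← ofMul_pow, hk', ofMul_one, map_zero]
    have h2 : k • (f (Additive.ofMul b)).1 = 0 := by
      rw [← Prod.smul_fst, h1]
      rfl
    ext i
    have h3 := DFunLike.congr_fun h2 i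
    simp only [Finsupp.smul_apply, Finsupp.coe_zero, Pi.zero_apply, nsmul_eq_mul] at h3 ⊢
    rcases mul_eq_zero.1 h3 with h4 | h4
    · have : k = 0 := by exact_mod_cast h4
      omega
    · exact h4
  apply Set.Finite.of_finite_image (f := fun b : B => (f (Additive.ofMul b)).2)
    (Set.toFinite _)
  intro a ha b hb hab
  have h1 : f (Additive.ofMul a) = f (Additive.ofMul b) := by
    apply Prod.ext
    · rw [h0 a ha, h0 b hb]
    · exact hab
  exact f.injective h1

theorem fg_ab_root_bound (s : B) (hs : ¬ IsOfFinOrder s) :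
    ∃ N : ℕ, ∀ q : ℕ, N < q → ∀ u : B, u ^ q ≠ s := by
  obtain ⟨n, F, _, hF, ⟨f⟩⟩ := fg_ab_equiv B
  have h0 : (f (Additive.ofMul s)).1 ≠ 0 := by
    intro h
    apply hs
    rw [isOfFinOrder_iff_pow_eq_one]
    have : Fintype F := Fintype.ofFinite F
    refine ⟨Fintype.card F, Fintype.card_pos, ?_⟩
    have h1 : Fintype.card F • f (Additive.ofMul s) = 0 := by
      apply Prod.ext
      · rw [Prod.smul_fst, h, smul_zero]
        rfl
      · rw [Prod.smul_snd, card_nsmul_eq_zero]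
        rfl
    have h2 : f (Additive.ofMul (s ^ Fintype.card F)) = 0 := by
      rw [ofMul_pow, map_nsmul, h1]
    have h3 := (map_eq_zero_iff f f.injective).1 h2
    exact Additive.ofMul.injective (h3.trans ofMul_one.symm)
  obtain ⟨i, hi⟩ := DFunLike.ne_iff.1 h0
  refine ⟨((f (Additive.ofMul s)).1 i).natAbs, fun q hq u hu => ?_⟩
  have h1 : f (Additive.ofMul s) = q • f (Additive.ofMul u) := by
    rw [← map_nsmul, ← ofMul_pow, hu]
  have h2 : (f (Additive.ofMul s)).1 i = q * (f (Additive.ofMul u)).1 i := by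
    rw [h1]
    simp
  have h3 : (q : ℤ) ∣ (f (Additive.ofMul s)).1 i := ⟨_, h2⟩
  have h4 := Int.natAbs_dvd_natAbs.2 h3
  have h5 := Nat.le_of_dvd (Int.natAbs_pos.2 (by simpa using hi)) h4
  simp only [Int.natAbs_natCast] at h5
  omega

theorem fg_ab_pow_finite (q : ℕ) (hq : 0 < q) :
    Finite (B ⧸ (powMonoidHom q : B →* B).range) := by
  apply CommGroup.finite_of_fg_isMulTorsion
  intro b
  rw [isOfFinOrder_iff_pow_eq_one]
  refine ⟨q, hq, ?_⟩
  induction b using QuotientGroup.induction_on with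
  | H b =>
    rw [← QuotientGroup.mk_pow, QuotientGroup.eq_one_iff]
    exact ⟨b, rfl⟩

end ab

variable {G : Type} [Group G]

theorem finOrder_coe (A : Subgroup G) (a : A) : IsOfFinOrder (a : G) ↔ IsOfFinOrder a := by
  simp only [isOfFinOrder_iff_pow_eq_one]
  constructor
  · rintro ⟨k, hk, h⟩
    exact ⟨k, hk, Subtype.ext (by simpa using h)⟩
  · rintro ⟨k, hk, h⟩
    refine ⟨k, hk, ?_⟩
    have := congrArg (fun t : A => (t : G)) h
    simpa using this

/-- Powers of the product of a conjugate and the inverse of a conjugate of an element of an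
abelian normal subgroup have linearly bounded length. -/
theorem len_diff_pow (l : G → ℕ) (hone : l 1 = 0) (hmul : ∀ g h, l (g * h) ≤ l g + l h)
    (v x y : G) (hc : Commute (x⁻¹ * v * x) (y⁻¹ * v⁻¹ * y)) (n : ℕ) :
    l (((x⁻¹ * v * x) * (y⁻¹ * v⁻¹ * y)) ^ n) ≤
      (l v + l v⁻¹) * n + (l x⁻¹ + l x + l y⁻¹ + l y) := by
  have hp : ∀ (g : G) (k : ℕ), l (g ^ k) ≤ k * l g := by
    intro g k
    induction k with
    | zero => simp [hone]
    | succ k ih =>
      rw [pow_succ]
      have := hmul (g ^ k) g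
      have h : (k + 1) * l g = k * l g + l g := by ring
      omega
  have hconj : ∀ (g z : G) (k : ℕ), (z⁻¹ * g * z) ^ k = z⁻¹ * g ^ k * z := by
    intro g z k
    have := conj_pow (i := k) (a := z⁻¹) (b := g)
    simpa using this
  rw [hc.mul_pow, hconj, hconj]
  have h1 := hmul (x⁻¹ * v ^ n * x) (y⁻¹ * v⁻¹ ^ n * y)
  have h2 := hmul (x⁻¹ * v ^ n) x
  have h3 := hmul x⁻¹ (v ^ n)
  have h4 := hmul (y⁻¹ * v⁻¹ ^ n) y
  have h5 := hmul y⁻¹ (v⁻¹ ^ n)
  have h6 := hp v n
  have h7 := hp v⁻¹ n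
  have h8 : (l v + l v⁻¹) * n = n * l v + n * l v⁻¹ := by ring
  omega

/-- **Elements of finitely generated abelian normal subgroups have finitely many conjugates**, if
for every `T` there are only finitely many conjugacy classes of translation number at
most `T`. -/
theorem fc_of_normal_ab (l : G → ℕ) (hone : l 1 = 0) (hmul : ∀ g h, l (g * h) ≤ l g + l h)
    (hcl : ∀ T : ℕ, ∃ S : Set G, S.Finite ∧ ∀ w : G,
      (∃ c : ℕ, ∀ n : ℕ, l (w ^ n) ≤ T * n + c) → ∃ x : G, x⁻¹ * w * x ∈ S)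
    (A : Subgroup G) [hN : A.Normal] (hA : A.FG) (hc : ∀ a ∈ A, ∀ b ∈ A, a * b = b * a)
    (v : G) (hv : v ∈ A) : (Set.range (fun g : G => g⁻¹ * v * g)).Finite := by
  classical
  by_contra hinf
  have hinf : (Set.range (fun g : G => g⁻¹ * v * g)).Infinite := hinf
  have hAfg : Group.FG A := (Group.fg_iff_subgroup_fg A).2 hA
  let _ : CommGroup A := { (inferInstance : Group A) with
    mul_comm := fun a b => Subtype.ext (hc a a.2 b b.2) }
  have hconj : ∀ a ∈ A, ∀ x : G, x⁻¹ * a * x ∈ A := by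
    intro a ha x
    have := hN.conj_mem a ha x⁻¹
    simpa using this
  obtain ⟨S, hS, hS'⟩ := hcl (l v + l v⁻¹)
  -- bounds for the roots of the elements of `S`
  have hroot : ∀ s : G, ∃ N : ℕ, ∀ q : ℕ, N < q → ∀ u ∈ A, ¬ IsOfFinOrder s → u ^ q ≠ s := by
    intro s
    by_cases hs : s ∈ A
    · by_cases hf : IsOfFinOrder s
      · exact ⟨0, fun q _ u _ h => absurd hf h⟩
      · have hf' : ¬ IsOfFinOrder (⟨s, hs⟩ : A) := by
          intro h
          apply hf
          exact (finOrder_coe A ⟨s, hs⟩).2 h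
        obtain ⟨N, hN'⟩ := fg_ab_root_bound A ⟨s, hs⟩ hf'
        refine ⟨N, fun q hq u hu _ h => hN' q hq ⟨u, hu⟩ ?_⟩
        apply Subtype.ext
        simpa using h
    · exact ⟨0, fun q _ u hu _ h => hs (h ▸ A.pow_mem hu q)⟩
  choose N hNs using hroot
  obtain ⟨q, hq0, hq⟩ : ∃ q : ℕ, 0 < q ∧ ∀ s ∈ S, N s < q := by
    obtain ⟨b, hb⟩ := (hS.image N).bddAbove
    exact ⟨b + 1, Nat.succ_pos _, fun s hs => Nat.lt_succ_of_le (hb ⟨s, hs, rfl⟩)⟩
  -- two conjugates that differ by a `q`-th power of infinite order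
  have hQ := fg_ab_pow_finite A q hq0
  set R : Subgroup A := (powMonoidHom q : A →* A).range with hR
  have key : ∃ x y u : G, u ∈ A ∧ (x⁻¹ * v * x) * (y⁻¹ * v⁻¹ * y) = u ^ q ∧
      ¬ IsOfFinOrder (u ^ q) := by
    set cl : Set.range (fun g : G => g⁻¹ * v * g) → A ⧸ R := fun t =>
      QuotientGroup.mk ⟨t.1, by
        obtain ⟨g, hg⟩ := t.2
        rw [← hg]
        exact hconj v hv g⟩ with hcl'
    have hInf : Infinite (Set.range (fun g : G => g⁻¹ * v * g)) := hinf.to_subtype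
    obtain ⟨c, hcinf⟩ := Finite.exists_infinite_fiber cl
    have hcinf' : (cl ⁻¹' {c}).Infinite := Set.infinite_coe_iff.1 hcinf
    obtain ⟨t0, ht0⟩ := hcinf'.nonempty
    obtain ⟨y, hy⟩ := t0.2
    simp only at hy
    -- infinitely many quotients
    have hinj : Function.Injective (fun t : Set.range (fun g : G => g⁻¹ * v * g) =>
        (t : G) * (t0 : G)⁻¹) := by
      intro a b hab
      simp only at hab
      exact Subtype.ext (mul_right_cancel hab)
    have hinf2 : ((fun t : Set.range (fun g : G => g⁻¹ * v * g) => (t : G) * (t0 : G)⁻¹) ''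
        (cl ⁻¹' {c})).Infinite := hcinf'.image hinj.injOn
    have htor : ((fun a : A => (a : G)) '' {b : A | IsOfFinOrder b}).Finite :=
      (fg_ab_torsion_finite A).image _
    obtain ⟨w, hw, hw'⟩ := (hinf2.sdiff htor).nonempty
    obtain ⟨t, ht, htw⟩ := hw
    obtain ⟨x, hx⟩ := t.2
    simp only at hx htw
    have ht1 : cl t = cl t0 := by
      rw [Set.mem_preimage, Set.mem_singleton_iff] at ht ht0
      rw [ht, ht0]
    have ht2 := QuotientGroup.eq.1 ht1.symm
    obtain ⟨u, hu⟩ := ht2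
    have hu' : (u : G) ^ q = (t0 : G)⁻¹ * t := by
      have := congrArg (fun a : A => (a : G)) hu
      simpa using this
    have htA : (t : G) ∈ A := by
      rw [← hx]
      exact hconj v hv x
    have ht0A : (t0 : G) ∈ A := by
      rw [← hy]
      exact hconj v hv y
    have h1 : (x⁻¹ * v * x) * (y⁻¹ * v⁻¹ * y) = (u : G) ^ q := by
      have h2 : y⁻¹ * v⁻¹ * y = (t0 : G)⁻¹ := by
        rw [← hy]
        group
      rw [h2, hx, hu', hc _ htA _ (A.inv_mem ht0A)]
    refine ⟨x, y, u, u.2, h1, ?_⟩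
    intro hfin
    apply hw'
    refine ⟨u ^ q, ?_, ?_⟩
    · show IsOfFinOrder (u ^ q)
      rw [← finOrder_coe]
      simpa using hfin
    · show ((u ^ q : A) : G) = w
      rw [← htw]
      have : ((u ^ q : A) : G) = (u : G) ^ q := by simp
      rw [this, hu', hc _ htA _ (A.inv_mem ht0A)]
  obtain ⟨x, y, u, hu, hxy, hord⟩ := key
  have hcm : Commute (x⁻¹ * v * x) (y⁻¹ * v⁻¹ * y) :=
    hc _ (hconj v hv x) _ (hconj v⁻¹ (A.inv_mem hv) y)
  have hlen : ∃ c : ℕ, ∀ n : ℕ, l ((u ^ q) ^ n) ≤ (l v + l v⁻¹) * n + c := by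
    refine ⟨l x⁻¹ + l x + l y⁻¹ + l y, fun n => ?_⟩
    rw [← hxy]
    exact len_diff_pow l hone hmul v x y hcm n
  obtain ⟨z, hz⟩ := hS' _ hlen
  have h1 : z⁻¹ * u ^ q * z = (z⁻¹ * u * z) ^ q := by
    have := conj_pow (i := q) (a := z⁻¹) (b := u)
    simpa using this.symm
  refine hNs _ q (hq _ hz) (z⁻¹ * u * z) (hconj u hu z) ?_ h1.symm
  intro hfin
  apply hord
  obtain ⟨k, hk, hk'⟩ := isOfFinOrder_iff_pow_eq_one.1 hfin
  rw [isOfFinOrder_iff_pow_eq_one]
  refine ⟨k, hk, ?_⟩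
  have h2 : (z⁻¹ * u ^ q * z) ^ k = z⁻¹ * (u ^ q) ^ k * z := by
    have := conj_pow (i := k) (a := z⁻¹) (b := u ^ q)
    simpa using this
  rw [h2] at hk'
  have h3 : (u ^ q) ^ k = z * (z⁻¹ * (u ^ q) ^ k * z) * z⁻¹ := by group
  rw [h3, hk']
  group

/-- Finitely generated abelian normal subgroups have a centralizer of finite index. -/
theorem centralizer_fi_of_normal_ab (l : G → ℕ) (hone : l 1 = 0)
    (hmul : ∀ g h, l (g * h) ≤ l g + l h)
    (hcl : ∀ T : ℕ, ∃ S : Set G, S.Finite ∧ ∀ w : G,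
      (∃ c : ℕ, ∀ n : ℕ, l (w ^ n) ≤ T * n + c) → ∃ x : G, x⁻¹ * w * x ∈ S)
    (A : Subgroup G) [hN : A.Normal] (hA : A.FG) (hc : ∀ a ∈ A, ∀ b ∈ A, a * b = b * a) :
    (Subgroup.centralizer (A : Set G)).FiniteIndex :=
  centralizer_fi_of_fg A hA (fc_of_normal_ab l hone hmul hcl A hA hc)

end Pool.Agent.VN
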