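import Pool.Agent.BRW.BFIX
import Pool.Agent.VNP.AsExt
/-!
# The asymptotic dimension of `ℤ^n` is at least `n`
-/
namespace Pool.Agent.VN
open Set Metric

/-- The projection of the line to `[0, N]`. -/
noncomputable def clampR (N t : ℝ) : ℝ := max 0 (min N t)

/-- The theorem of Poincaré and Miranda on the cube `[0, N]^n`. -/
theorem miranda {n : ℕ} (N : ℝ) (hN : 0 < N) (F : (Fin n → ℝ) → (Fin n → ℝ)) (hF : Continuous F)
    (h0 : ∀ x : Fin n → ℝ, (∀ j, 0 ≤ x j ∧ x j ≤ N) → ∀ i, x i = 0 → 0 ≤ F x i)
    (h1 : ∀ x : Fin n → ℝ, (∀ j, 0 ≤ x j ∧ x j ≤ N) → ∀ i, x i = N → F x i ≤ 0) :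
    ∃ x : Fin n → ℝ, (∀ j, 0 ≤ x j ∧ x j ≤ N) ∧ ∀ i, F x i = 0 := by
  set e := EuclideanSpace.equiv (Fin n) ℝ with he
  set cl : (Fin n → ℝ) → (Fin n → ℝ) := fun x i => clampR N (x i) with hcl
  have hclc : Continuous cl := by
    apply continuous_pi
    intro i
    exact continuous_const.max (continuous_const.min (continuous_apply i))
  have hcl0 : ∀ x i, 0 ≤ cl x i ∧ cl x i ≤ N := by
    intro x i
    constructor
    · exact le_max_left _ _
    · exact max_le hN.le (min_le_left _ _)
  set g : EuclideanSpace ℝ (Fin n) → EuclideanSpace ℝ (Fin n) :=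
    fun x => e.symm (cl (e x + F (cl (e x)))) with hg
  have hgc : Continuous g := by
    apply e.symm.continuous.comp
    apply hclc.comp
    exact e.continuous.add (hF.comp (hclc.comp e.continuous))
  have hnorm : ∀ y : Fin n → ℝ, (∀ i, 0 ≤ y i ∧ y i ≤ N) → ‖e.symm y‖ ≤ Real.sqrt (n * N ^ 2) := by
    intro y hy
    rw [EuclideanSpace.norm_eq]
    apply Real.sqrt_le_sqrt
    have h2 : ∀ i, ‖(e.symm y) i‖ ^ 2 ≤ N ^ 2 := by
      intro i
      have h3 : (e.symm y) i = y i := rfl
      rw [h3, Real.norm_eq_abs, abs_of_nonneg (hy i).1]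
      exact pow_le_pow_left₀ (hy i).1 (hy i).2 2
    calc ∑ i, ‖(e.symm y) i‖ ^ 2 ≤ ∑ _i : Fin n, N ^ 2 := Finset.sum_le_sum (fun i _ => h2 i)
      _ = n * N ^ 2 := by simp
  obtain ⟨x, _, hx⟩ := Pool.Agent.BRW.brouwer (f := g) (M := Real.sqrt (n * N ^ 2))
    (Real.sqrt_nonneg _) hgc.continuousOn (by
      intro x _
      rw [mem_closedBall_zero_iff]
      exact hnorm _ (hcl0 _))
  have hex : e x = cl (e x + F (cl (e x))) := by
    have := congrArg e hx
    rw [hg] at this
    simp only [ContinuousLinearEquiv.apply_symm_apply] at this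
    exact this.symm
  have hbox : ∀ i, 0 ≤ e x i ∧ e x i ≤ N := by
    intro i
    rw [hex]
    exact hcl0 _ i
  have hclx : cl (e x) = e x := by
    funext i
    show max 0 (min N (e x i)) = e x i
    rw [min_eq_right (hbox i).2, max_eq_right (hbox i).1]
  rw [hclx] at hex
  refine ⟨e x, hbox, fun i => ?_⟩
  have h3 : e x i = max 0 (min N (e x i + F (e x) i)) := congrFun hex i
  have h4 := h0 (e x) hbox i
  have h5 := h1 (e x) hbox i
  have h6 := hbox i
  generalize e x i = t at h3 h4 h5 h6
  generalize F (e x) i = s at h3 h4 h5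
  rcases le_total (t + s) N with h7 | h7
  · rw [min_eq_right h7] at h3
    rcases le_total 0 (t + s) with h8 | h8
    · rw [max_eq_right h8] at h3
      linarith
    · rw [max_eq_left h8] at h3
      have := h4 h3
      linarith
  · rw [min_eq_left h7, max_eq_right hN.le] at h3
    have := h5 h3
    linarith

/-- The hat function. -/
noncomputable def hat {n : ℕ} (v : Fin n → ℤ) (x : Fin n → ℝ) : ℝ :=
  ∏ j, max 0 (1 - |x j - (v j : ℝ)|)

theorem hat_cont {n : ℕ} (v : Fin n → ℤ) : Continuous (hat v) := by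
  unfold hat
  refine continuous_finsetProd _ (fun j _ => ?_)
  exact continuous_const.max
    (continuous_const.sub ((continuous_apply j).sub continuous_const).abs)

theorem hat_nonneg {n : ℕ} (v : Fin n → ℤ) (x : Fin n → ℝ) : 0 ≤ hat v x :=
  Finset.prod_nonneg (fun _ _ => le_max_left _ _)

theorem hat_ne {n : ℕ} {v : Fin n → ℤ} {x : Fin n → ℝ} (h : hat v x ≠ 0) (j : Fin n) :
    |x j - (v j : ℝ)| < 1 := by
  by_contra hcon
  push Not at hcon
  apply h
  apply Finset.prod_eq_zero (Finset.mem_univ j)
  rw [max_eq_left]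
  linarith

/-- **The discrete Hex argument.** -/
theorem hex {n m : ℕ} (hmn : m ≤ n) (c : (Fin n → ℤ) → Fin m) (b : ℕ)
    (hb : ∀ x y : Fin n → ℤ, Relation.ReflTransGen
      (fun u v : Fin n → ℤ => c u = c v ∧ ∀ j, |v j - u j| ≤ 1) x y → ∀ j, |y j - x j| ≤ (b : ℤ)) :
    False := by
  classical
  set adj : (Fin n → ℤ) → (Fin n → ℤ) → Prop := fun u v => c u = c v ∧ ∀ j, |v j - u j| ≤ 1
    with hadj
  set col : (Fin n → ℤ) → Fin n := fun v => Fin.castLE hmn (c v) with hcol
  have hcolinj : ∀ u v, col u = col v → c u = c v := fun u v h => Fin.castLE_injective hmn h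
  set low : (Fin n → ℤ) → Prop := fun v => ∃ u, Relation.ReflTransGen adj v u ∧ u (col v) ≤ 0
    with hlow
  set sgn : (Fin n → ℤ) → ℝ := fun v => if low v then 1 else -1 with hsgn
  set NN : ℤ := (b : ℤ) + 1 with hNN
  set N : ℝ := (NN : ℝ) with hNdef
  have hN : 0 < N := by
    rw [hNdef, hNN]
    push_cast
    positivity
  set V : Finset (Fin n → ℤ) := Fintype.piFinset (fun _ => Finset.Icc 0 NN) with hV
  set F : (Fin n → ℝ) → (Fin n → ℝ) := fun x i =>
    ∑ v ∈ V, if col v = i then hat v x * sgn v else 0 with hF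
  have hFc : Continuous F := by
    apply continuous_pi
    intro i
    refine continuous_finsetSum _ (fun v _ => ?_)
    by_cases h : col v = i
    · simp only [h, if_true]
      exact (hat_cont v).mul continuous_const
    · simp only [h, if_false]
      exact continuous_const
  obtain ⟨x, hx, hx0⟩ := miranda N hN F hFc (by
    intro x hx i hxi
    apply Finset.sum_nonneg
    intro v hv
    by_cases h : col v = i
    · rw [if_pos h]
      by_cases h2 : hat v x = 0
      · rw [h2, zero_mul]
      · have h3 := hat_ne h2 i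
        rw [hxi] at h3
        have h4 : v i = 0 := by
          rw [abs_lt] at h3
          have h5 : (v i : ℝ) < 1 := by linarith [h3.1]
          have h6 : (-1 : ℝ) < v i := by linarith [h3.2]
          have h7 : v i < 1 := by exact_mod_cast h5
          have h8 : -1 < v i := by exact_mod_cast h6
          omega
        have h5 : low v := ⟨v, Relation.ReflTransGen.refl, by rw [h, h4]⟩
        have h6 : sgn v = 1 := if_pos h5
        rw [h6, mul_one]
        exact hat_nonneg v x
    · rw [if_neg h]) (by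
    intro x hx i hxi
    apply Finset.sum_nonpos
    intro v hv
    by_cases h : col v = i
    · rw [if_pos h]
      by_cases h2 : hat v x = 0
      · rw [h2, zero_mul]
      · have h3 := hat_ne h2 i
        rw [hxi] at h3
        have h4 : v i = NN := by
          rw [abs_lt, hNdef] at h3
          have h5 : (NN : ℝ) - v i < 1 := h3.2
          have h6 : (-1 : ℝ) < NN - v i := h3.1
          have h7 : NN - v i < 1 := by exact_mod_cast h5
          have h8 : -1 < NN - v i := by exact_mod_cast h6
          omega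
        have h5 : ¬ low v := by
          rintro ⟨u, hu, hu0⟩
          have h6 := hb v u hu i
          rw [h] at hu0
          rw [h4] at h6
          have h7 := neg_abs_le (u i - NN)
          omega
        have h6 : sgn v = -1 := if_neg h5
        rw [h6]
        have := hat_nonneg v x
        linarith
    · rw [if_neg h])
  -- the contradiction
  set v0 : Fin n → ℤ := fun j => ⌊x j⌋ with hv0
  have hv0V : v0 ∈ V := by
    rw [hV, Fintype.mem_piFinset]
    intro j
    rw [Finset.mem_Icc]
    refine ⟨Int.floor_nonneg.2 (hx j).1, ?_⟩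
    have h1 : (⌊x j⌋ : ℝ) ≤ NN := (Int.floor_le (x j)).trans (hx j).2
    exact_mod_cast h1
  have hat0 : 0 < hat v0 x := by
    apply Finset.prod_pos
    intro j _
    apply lt_max_of_lt_right
    have h1 := Int.floor_le (x j)
    have h2 := Int.lt_floor_add_one (x j)
    have h3 : |x j - (v0 j : ℝ)| < 1 := by
      rw [abs_lt]
      constructor
      · show -1 < x j - (⌊x j⌋ : ℝ)
        linarith
      · show x j - (⌊x j⌋ : ℝ) < 1
        linarith
    linarith
  have hsame : ∀ v, hat v x ≠ 0 → col v = col v0 → sgn v = sgn v0 := by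
    intro v hv hc
    have h1 : ∀ j, |v0 j - v j| ≤ 1 := by
      intro j
      have h2 := hat_ne hv j
      have h3 := hat_ne hat0.ne' j
      rw [abs_lt] at h2 h3
      have h4 : (v0 j : ℝ) - v j < 2 := by linarith [h2.2, h3.1]
      have h5 : (-2 : ℝ) < v0 j - v j := by linarith [h2.1, h3.2]
      have h6 : v0 j - v j < 2 := by exact_mod_cast h4
      have h7 : -2 < v0 j - v j := by exact_mod_cast h5
      rw [abs_le]
      omega
    have hcc : c v = c v0 := hcolinj v v0 hc
    have ha : adj v v0 := ⟨hcc, h1⟩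
    have ha' : adj v0 v := ⟨hcc.symm, fun j => by rw [abs_sub_comm]; exact h1 j⟩
    have hiff : low v ↔ low v0 := by
      constructor
      · rintro ⟨u, hu, hu0⟩
        exact ⟨u, Relation.ReflTransGen.head ha' hu, by rw [← hc]; exact hu0⟩
      · rintro ⟨u, hu, hu0⟩
        exact ⟨u, Relation.ReflTransGen.head ha hu, by rw [hc]; exact hu0⟩
    by_cases h : low v0
    · have e1 : sgn v = 1 := if_pos (hiff.2 h)
      have e2 : sgn v0 = 1 := if_pos h
      rw [e1, e2]
    · have e1 : sgn v = -1 := if_neg (fun h' => h (hiff.1 h'))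
      have e2 : sgn v0 = -1 := if_neg h
      rw [e1, e2]
  have h1 : F x (col v0) = sgn v0 * ∑ v ∈ V, (if col v = col v0 then hat v x else 0) := by
    rw [Finset.mul_sum]
    apply Finset.sum_congr rfl
    intro v _
    by_cases h : col v = col v0
    · rw [if_pos h, if_pos h]
      by_cases h2 : hat v x = 0
      · rw [h2]
        ring
      · rw [hsame v h2 h]
        ring
    · rw [if_neg h, if_neg h, mul_zero]
  have h2 : 0 < ∑ v ∈ V, (if col v = col v0 then hat v x else 0) := by
    apply Finset.sum_pos'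
    · intro v _
      by_cases h : col v = col v0
      · rw [if_pos h]
        exact hat_nonneg v x
      · rw [if_neg h]
    · exact ⟨v0, hv0V, by rw [if_pos rfl]; exact hat0⟩
  have h3 : sgn v0 ≠ 0 := by
    by_cases h : low v0
    · have e2 : sgn v0 = 1 := if_pos h
      rw [e2]
      norm_num
    · have e2 : sgn v0 = -1 := if_neg h
      rw [e2]
      norm_num
  have h4 := hx0 (col v0)
  rw [h1] at h4
  exact (mul_ne_zero h3 h2.ne') h4

/-- **The asymptotic dimension of `ℤ^n` is at least `n`.** -/
theorem rank_le {n D : ℕ} (h : VNP.AsdimLE (Multiplicative (Fin n → ℤ)) D) : n ≤ D := by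
  classical
  by_contra hn
  push Not at hn
  set F : Set (Multiplicative (Fin n → ℤ)) := {u | ∀ j, |Multiplicative.toAdd u j| ≤ 1} with hF
  have hFfin : F.Finite := by
    have h1 : (Set.pi Set.univ (fun _ : Fin n => Set.Icc (-1 : ℤ) 1)).Finite :=
      Set.Finite.pi' (fun _ => Set.finite_Icc _ _) |>.subset (by
        intro f hf i
        exact hf i (Set.mem_univ i))
    apply (h1.preimage (f := fun u : Multiplicative (Fin n → ℤ) => Multiplicative.toAdd u)
      Multiplicative.toAdd.injective.injOn).subset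
    intro u hu
    rw [Set.mem_preimage]
    intro j _
    exact abs_le.1 (hu j)
  obtain ⟨K, hK, c, hc⟩ := h F hFfin
  obtain ⟨b, hb⟩ : ∃ b : ℕ, ∀ k ∈ K, ∀ j, |Multiplicative.toAdd k j| ≤ (b : ℤ) := by
    obtain ⟨b, hb⟩ := (hK.image (fun k => ∑ j, (Multiplicative.toAdd k j).natAbs)).bddAbove
    refine ⟨b, fun k hk j => ?_⟩
    have h1 := hb ⟨k, hk, rfl⟩
    have h2 : (Multiplicative.toAdd k j).natAbs ≤ ∑ j, (Multiplicative.toAdd k j).natAbs :=
      Finset.single_le_sum (f := fun j => (Multiplicative.toAdd k j).natAbs)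
        (fun _ _ => Nat.zero_le _) (Finset.mem_univ j)
    have h3 : (Multiplicative.toAdd k j).natAbs ≤ b := h2.trans h1
    rw [Int.abs_eq_natAbs]
    exact_mod_cast h3
  refine hex (m := D + 1) hn (fun v => c (Multiplicative.ofAdd v)) b ?_
  intro x y hxy j
  have h1 : Relation.ReflTransGen (fun u v => c u = c v ∧ u⁻¹ * v ∈ F)
      (Multiplicative.ofAdd x) (Multiplicative.ofAdd y) := by
    induction hxy with
    | refl => exact Relation.ReflTransGen.refl
    | tail _ h2 ih =>
      refine ih.tail ⟨h2.1, fun j => ?_⟩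
      have h3 := h2.2 j
      rw [toAdd_mul, toAdd_inv, toAdd_ofAdd, toAdd_ofAdd, Pi.add_apply, Pi.neg_apply]
      rw [show ∀ a b : ℤ, -a + b = b - a from fun a b => by ring]
      exact h3
  have h2 := hb _ (hc _ _ h1) j
  rw [toAdd_mul, toAdd_inv, toAdd_ofAdd, toAdd_ofAdd, Pi.add_apply, Pi.neg_apply] at h2
  rw [show ∀ a b : ℤ, b - a = -a + b from fun a b => by ring]
  exact h2

/-- A group of asymptotic dimension at most `D` contains no `ℤ^n` with `n > D`. -/
theorem rank_le_of_injective {G : Type} [Group G] {n D : ℕ} (h : VNP.AsdimLE G D)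
    (φ : Multiplicative (Fin n → ℤ) →* G) (hφ : Function.Injective φ) : n ≤ D :=
  rank_le (VNP.asdimLE_of_injective φ hφ h)

end Pool.Agent.VN
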