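import Pool.Agent.VN.Defs

/-!
# Hitting sets: exactness of the complex of the sets that hit all members of a family
-/

set_option autoImplicit false

open scoped BigOperators

namespace Pool.Agent.VN

/-- boundary on chains of finite sets: delete a point if the rest still hits all members of `I` -/
noncomputable def hb (I : List (Finset ℕ)) : (Finset ℕ →₀ ZMod 2) →ₗ[ZMod 2] (Finset ℕ →₀ ZMod 2) :=
  Finsupp.linearCombination (ZMod 2) (fun S : Finset ℕ => ∑ s ∈ S,
    if (∀ J ∈ I, ((S.erase s) ∩ J).Nonempty) then Finsupp.single (S.erase s) (1 : ZMod 2) else 0)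

/-- keep the sets that meet `J` -/
private noncomputable def hf (J : Finset ℕ) :
    (Finset ℕ →₀ ZMod 2) →ₗ[ZMod 2] (Finset ℕ →₀ ZMod 2) :=
  Finsupp.linearCombination (ZMod 2) (fun S : Finset ℕ =>
    if (S ∩ J).Nonempty then Finsupp.single S (1 : ZMod 2) else 0)

private theorem hb_single (I : List (Finset ℕ)) (S : Finset ℕ) :
    hb I (Finsupp.single S 1) = ∑ s ∈ S,
      if (∀ J ∈ I, ((S.erase s) ∩ J).Nonempty) then
        Finsupp.single (S.erase s) (1 : ZMod 2) else 0 := by
  simp [hb, Finsupp.linearCombination_single]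

private theorem hf_single (J S : Finset ℕ) :
    hf J (Finsupp.single S 1) = if (S ∩ J).Nonempty then Finsupp.single S (1 : ZMod 2) else 0 := by
  simp [hf, Finsupp.linearCombination_single]

private theorem h_add_self (c : Finset ℕ →₀ ZMod 2) : c + c = 0 := by
  ext S
  exact CharTwo.add_self_eq_zero _

private theorem h_decomp (c : Finset ℕ →₀ ZMod 2) :
    c = ∑ S ∈ c.support, c S • Finsupp.single S (1 : ZMod 2) := by
  conv_lhs => rw [← Finsupp.sum_single c]
  refine Finset.sum_congr rfl fun S _ => ?_
  rw [Finsupp.smul_single, smul_eq_mul, mul_one]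

private theorem h_eq (L M : (Finset ℕ →₀ ZMod 2) →ₗ[ZMod 2] (Finset ℕ →₀ ZMod 2))
    (c : Finset ℕ →₀ ZMod 2)
    (h : ∀ S ∈ c.support, L (Finsupp.single S 1) = M (Finsupp.single S 1)) : L c = M c := by
  conv_lhs => rw [h_decomp c]
  conv_rhs => rw [h_decomp c]
  rw [map_sum, map_sum]
  refine Finset.sum_congr rfl fun S hS => ?_
  rw [map_smul, map_smul, h S hS]

private theorem h_supp (L : (Finset ℕ →₀ ZMod 2) →ₗ[ZMod 2] (Finset ℕ →₀ ZMod 2))
    (c : Finset ℕ →₀ ZMod 2) (P : Finset ℕ → Prop)
    (h : ∀ S ∈ c.support, ∀ T ∈ (L (Finsupp.single S 1)).support, P T) :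
    ∀ T ∈ (L c).support, P T := by
  intro T hT
  rw [Finsupp.mem_support_iff] at hT
  rw [h_decomp c, map_sum, Finsupp.finsetSum_apply] at hT
  obtain ⟨S, hS, hne⟩ := Finset.exists_ne_zero_of_sum_ne_zero hT
  refine h S hS T ?_
  rw [Finsupp.mem_support_iff]
  intro h0
  apply hne
  rw [map_smul, Finsupp.smul_apply, h0, smul_zero]

private theorem hb_supp (I : List (Finset ℕ)) (S T : Finset ℕ)
    (h : T ∈ (hb I (Finsupp.single S 1)).support) :
    (∃ s ∈ S, T = S.erase s) ∧ ∀ J ∈ I, (T ∩ J).Nonempty := by
  rw [Finsupp.mem_support_iff, hb_single, Finsupp.finsetSum_apply] at h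
  obtain ⟨s, hs, hne⟩ := Finset.exists_ne_zero_of_sum_ne_zero h
  by_cases hh : ∀ J ∈ I, ((S.erase s) ∩ J).Nonempty
  · rw [if_pos hh] at hne
    have : S.erase s = T := by
      by_contra hST
      exact hne (Finsupp.single_eq_of_ne (Ne.symm hST))
    subst this
    exact ⟨⟨s, hs, rfl⟩, hh⟩
  · rw [if_neg hh] at hne
    exact absurd rfl hne

private theorem hf_supp (J S T : Finset ℕ)
    (h : T ∈ (hf J (Finsupp.single S 1)).support) : T = S ∧ (S ∩ J).Nonempty := by
  rw [Finsupp.mem_support_iff, hf_single] at h
  by_cases hh : (S ∩ J).Nonempty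
  · rw [if_pos hh] at h
    refine ⟨?_, hh⟩
    by_contra hST
    exact h (Finsupp.single_eq_of_ne hST)
  · rw [if_neg hh] at h
    exact absurd rfl h

private theorem hb_cons (I0 : Finset ℕ) (I : List (Finset ℕ)) (c : Finset ℕ →₀ ZMod 2) :
    hb (I0 :: I) c = hf I0 (hb I c) := by
  refine h_eq _ ((hf I0).comp (hb I)) c fun S _ => ?_
  rw [LinearMap.comp_apply, hb_single, hb_single, map_sum]
  refine Finset.sum_congr rfl fun s _ => ?_
  by_cases h1 : ∀ J ∈ I, ((S.erase s) ∩ J).Nonempty
  · rw [if_pos h1, hf_single]
    by_cases h0 : ((S.erase s) ∩ I0).Nonempty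
    · rw [if_pos h0, if_pos]
      intro J hJ
      rcases List.mem_cons.1 hJ with rfl | hJ
      · exact h0
      · exact h1 J hJ
    · rw [if_neg h0, if_neg]
      intro hh
      exact h0 (hh I0 List.mem_cons_self)
  · rw [if_neg h1, map_zero, if_neg]
    intro hh
    exact h1 fun J hJ => hh J (List.mem_cons_of_mem _ hJ)

private theorem hb_hb (I : List (Finset ℕ)) (c : Finset ℕ →₀ ZMod 2) : hb I (hb I c) = 0 := by
  have key : ((hb I).comp (hb I)) c =
      (0 : (Finset ℕ →₀ ZMod 2) →ₗ[ZMod 2] (Finset ℕ →₀ ZMod 2)) c := by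
    refine h_eq _ _ c fun S _ => ?_
    rw [LinearMap.comp_apply, LinearMap.zero_apply, hb_single, map_sum]
    have h1 : ∀ s ∈ S, hb I (if (∀ J ∈ I, ((S.erase s) ∩ J).Nonempty) then
        Finsupp.single (S.erase s) (1 : ZMod 2) else 0) = ∑ t ∈ S.erase s,
        (if (∀ J ∈ I, (((S.erase s).erase t) ∩ J).Nonempty) then
          Finsupp.single ((S.erase s).erase t) (1 : ZMod 2) else 0) := by
      intro s _
      by_cases h : ∀ J ∈ I, ((S.erase s) ∩ J).Nonempty
      · rw [if_pos h, hb_single]
      · rw [if_neg h, map_zero]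
        symm
        refine Finset.sum_eq_zero fun t _ => ?_
        rw [if_neg]
        intro hh
        apply h
        intro J hJ
        exact (hh J hJ).mono (Finset.inter_subset_inter (Finset.erase_subset _ _) (le_refl _))
    rw [Finset.sum_congr rfl h1, Finset.sum_sigma']
    refine Finset.sum_involution (fun x _ => ⟨x.2, x.1⟩) ?_ ?_ ?_ ?_
    · rintro ⟨s, t⟩ _
      have : (S.erase t).erase s = (S.erase s).erase t := Finset.erase_right_comm
      simp only [this]
      exact h_add_self _
    · rintro ⟨s, t⟩ hx _ he
      rw [Finset.mem_sigma, Finset.mem_erase] at hx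
      have h2 : t = s := congrArg Sigma.fst he
      exact hx.2.1 h2
    · rintro ⟨s, t⟩ hx
      simp only [Finset.mem_sigma, Finset.mem_erase] at hx ⊢
      exact ⟨hx.2.2, Ne.symm hx.2.1, hx.1⟩
    · rintro ⟨s, t⟩ _
      rfl
  exact key

/-- change of the family away from `I0` -/
private theorem hb_map (I0 : Finset ℕ) (I : List (Finset ℕ)) (c : Finset ℕ →₀ ZMod 2)
    (h : ∀ S ∈ c.support, Disjoint S I0) : hb (I.map (· \ I0)) c = hb I c := by
  refine h_eq _ _ c fun S hS => ?_
  rw [hb_single, hb_single]
  refine Finset.sum_congr rfl fun s _ => ?_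
  have h1 : ∀ J : Finset ℕ, S.erase s ∩ (J \ I0) = S.erase s ∩ J := by
    intro J
    ext x
    simp only [Finset.mem_inter, Finset.mem_sdiff, Finset.mem_erase]
    constructor
    · rintro ⟨h1, h2, _⟩
      exact ⟨h1, h2⟩
    · rintro ⟨h1, h2⟩
      exact ⟨h1, h2, fun h3 => Finset.disjoint_left.1 (h S hS) h1.2 h3⟩
  have h2 : (∀ J ∈ I.map (· \ I0), ((S.erase s) ∩ J).Nonempty) ↔
      ∀ J ∈ I, ((S.erase s) ∩ J).Nonempty := by
    simp only [List.mem_map, forall_exists_index, and_imp, forall_apply_eq_imp_iff₂, h1]
  simp only [h2]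

theorem hit_exact (I : List (Finset ℕ)) (U : Finset ℕ) (j : ℕ)
    (hcov : ∀ K : List (Finset ℕ), K ⊆ I → K.length ≤ j → ∃ u ∈ U, ∀ J ∈ K, u ∉ J)
    (ζ : Finset ℕ →₀ ZMod 2)
    (hζ : ∀ S ∈ ζ.support, S ⊆ U ∧ S.card = j ∧ ∀ J ∈ I, (S ∩ J).Nonempty)
    (hz : hb I ζ = 0) :
    ∃ η : Finset ℕ →₀ ZMod 2,
      (∀ S ∈ η.support, S ⊆ U ∧ S.card = j + 1 ∧ ∀ J ∈ I, (S ∩ J).Nonempty) ∧ hb I η = ζ := by
  induction hn : I.length using Nat.strong_induction_on generalizing I U j ζ with
  | _ n ih =>
    rcases I with _ | ⟨I0, I⟩
    · -- the empty family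
      obtain ⟨u, hu, -⟩ := hcov [] (List.Subset.refl _) (Nat.zero_le _)
      let h : (Finset ℕ →₀ ZMod 2) →ₗ[ZMod 2] (Finset ℕ →₀ ZMod 2) :=
        Finsupp.linearCombination (ZMod 2) (fun S : Finset ℕ =>
          if u ∈ S then 0 else Finsupp.single (insert u S) (1 : ZMod 2))
      have hs : ∀ S, h (Finsupp.single S 1) =
          if u ∈ S then 0 else Finsupp.single (insert u S) (1 : ZMod 2) := by
        intro S
        simp [h, Finsupp.linearCombination_single]
      have hb0 : ∀ S, hb [] (Finsupp.single S 1) =
          ∑ s ∈ S, Finsupp.single (S.erase s) (1 : ZMod 2) := by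
        intro S
        rw [hb_single]
        refine Finset.sum_congr rfl fun s _ => ?_
        rw [if_pos]
        intro J hJ
        exact absurd hJ (List.not_mem_nil)
      refine ⟨h ζ, ?_, ?_⟩
      · refine h_supp h ζ _ fun S hS T hT => ?_
        rw [hs] at hT
        by_cases huS : u ∈ S
        · rw [if_pos huS] at hT
          simp at hT
        · rw [if_neg huS] at hT
          have hT' : T = insert u S := by
            by_contra hne
            rw [Finsupp.mem_support_iff] at hT
            exact hT (Finsupp.single_eq_of_ne hne)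
          obtain ⟨h1, h2, h3⟩ := hζ S hS
          subst hT'
          refine ⟨Finset.insert_subset hu h1, ?_, fun J hJ => absurd hJ List.not_mem_nil⟩
          rw [Finset.card_insert_of_notMem huS, h2]
      · have key : ((hb []).comp h + h.comp (hb [])) ζ =
            (LinearMap.id : (Finset ℕ →₀ ZMod 2) →ₗ[ZMod 2] (Finset ℕ →₀ ZMod 2)) ζ := by
          refine h_eq _ _ ζ fun S _ => ?_
          rw [LinearMap.add_apply, LinearMap.comp_apply, LinearMap.comp_apply, hs, hb0,
            LinearMap.id_apply, map_sum]
          by_cases huS : u ∈ S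
          · rw [if_pos huS, map_zero, zero_add, Finset.sum_eq_single_of_mem u huS]
            · rw [hs, if_neg (Finset.notMem_erase u S), Finset.insert_erase huS]
            · intro s _ hne
              rw [hs, if_pos (Finset.mem_erase.2 ⟨hne.symm, huS⟩)]
          · rw [if_neg huS, hb0, Finset.sum_insert huS, Finset.erase_insert huS, add_assoc]
            have h4 : ∑ s ∈ S, Finsupp.single ((insert u S).erase s) (1 : ZMod 2) =
                ∑ s ∈ S, h (Finsupp.single (S.erase s) 1) := by
              refine Finset.sum_congr rfl fun s hsS => ?_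
              have hus : u ≠ s := fun h5 => huS (h5 ▸ hsS)
              rw [hs, if_neg fun h5 => huS (Finset.mem_of_mem_erase h5),
                Finset.erase_insert_of_ne hus]
            rw [h4, h_add_self, add_zero]
        rw [LinearMap.add_apply, LinearMap.comp_apply, LinearMap.comp_apply, hz, map_zero,
          add_zero, LinearMap.id_apply] at key
        exact key
    · rcases j with _ | j
      · -- the empty set does not meet `I0`
        have h0 : ζ = 0 := by
          rw [← Finsupp.support_eq_empty, Finset.eq_empty_iff_forall_notMem]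
          intro S hS
          obtain ⟨-, h2, h3⟩ := hζ S hS
          rw [Finset.card_eq_zero] at h2
          subst h2
          have := h3 I0 List.mem_cons_self
          simp at this
        exact ⟨0, by simp, by rw [map_zero, h0]⟩
      · have hlen : I.length < n := by
          rw [← hn]; simp
        have hcons := hb_cons I0 I
        -- the faces dropped because of `I0`
        have hξ0 : hf I0 (hb I ζ) = 0 := by rw [← hcons, hz]
        have hξd : ∀ T ∈ (hb I ζ).support, Disjoint T I0 := by
          intro T hT
          by_contra hnd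
          rw [Finset.not_disjoint_iff_nonempty_inter] at hnd
          have h1 : (hf I0 (hb I ζ)) T = (hb I ζ) T := by
            have h2 : ∀ c : Finset ℕ →₀ ZMod 2, (hf I0 c) T = c T := by
              intro c
              conv_lhs => rw [h_decomp c]
              conv_rhs => rw [h_decomp c]
              rw [map_sum, Finsupp.finsetSum_apply, Finsupp.finsetSum_apply]
              refine Finset.sum_congr rfl fun S _ => ?_
              rw [map_smul, Finsupp.smul_apply, Finsupp.smul_apply, hf_single]
              by_cases hST : T = S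
              · subst hST
                rw [if_pos hnd]
              · rw [Finsupp.single_eq_of_ne hST]
                split_ifs
                · rw [Finsupp.single_eq_of_ne hST]
                · rfl
            exact h2 _
          rw [hξ0] at h1
          rw [Finsupp.mem_support_iff] at hT
          exact hT h1.symm
        have hξs : ∀ T ∈ (hb I ζ).support, T ⊆ U ∧ T.card = j ∧ ∀ J ∈ I, (T ∩ J).Nonempty := by
          refine h_supp (hb I) ζ _ fun S hS T hT => ?_
          obtain ⟨⟨s, hs, rfl⟩, h2⟩ := hb_supp I S T hT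
          obtain ⟨h3, h4, -⟩ := hζ S hS
          refine ⟨(Finset.erase_subset _ _).trans h3, ?_, h2⟩
          rw [Finset.card_erase_of_mem hs, h4]
          rfl
        -- the smaller system away from `I0`
        obtain ⟨χ, hχ, hχ'⟩ := ih I.length hlen (I.map (· \ I0)) (U \ I0) j
          (by
            intro K hK hKj
            have hex : ∀ J ∈ K, ∃ J' ∈ I, J' \ I0 = J := fun J hJ => by
              have := hK hJ
              rwa [List.mem_map] at this
            choose! g hg1 hg2 using hex
            obtain ⟨u, hu, hu'⟩ := hcov (I0 :: K.map g)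
              (by
                intro J hJ
                rcases List.mem_cons.1 hJ with rfl | hJ
                · exact List.mem_cons_self
                · obtain ⟨J', hJ', rfl⟩ := List.mem_map.1 hJ
                  exact List.mem_cons_of_mem _ (hg1 J' hJ'))
              (by simpa using hKj)
            refine ⟨u, Finset.mem_sdiff.2 ⟨hu, hu' I0 List.mem_cons_self⟩, fun J hJ huJ => ?_⟩
            rw [← hg2 J hJ, Finset.mem_sdiff] at huJ
            exact hu' (g J) (List.mem_cons_of_mem _ (List.mem_map_of_mem hJ)) huJ.1)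
          (hb I ζ)
          (by
            intro T hT
            obtain ⟨h1, h2, h3⟩ := hξs T hT
            have h4 := hξd T hT
            refine ⟨fun x hx => Finset.mem_sdiff.2 ⟨h1 hx, fun h5 =>
              Finset.disjoint_left.1 h4 hx h5⟩, h2, fun J hJ => ?_⟩
            obtain ⟨J', hJ', rfl⟩ := List.mem_map.1 hJ
            obtain ⟨x, hx⟩ := h3 J' hJ'
            rw [Finset.mem_inter] at hx
            exact ⟨x, Finset.mem_inter.2 ⟨hx.1, Finset.mem_sdiff.2 ⟨hx.2, fun h5 =>
              Finset.disjoint_left.1 h4 hx.1 h5⟩⟩⟩)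
          (by rw [hb_map I0 I _ hξd, hb_hb])
          (by rw [List.length_map])
        have hχd : ∀ T ∈ χ.support, Disjoint T I0 := fun T hT => by
          rw [Finset.disjoint_left]
          intro x hx h1
          exact (Finset.mem_sdiff.1 ((hχ T hT).1 hx)).2 h1
        rw [hb_map I0 I χ hχd] at hχ'
        -- the cycle `ζ + χ` for the smaller family
        obtain ⟨ω, hω, hω'⟩ := ih I.length hlen I U (j + 1)
          (fun K hK hKj => hcov K (fun J hJ => List.mem_cons_of_mem _ (hK hJ)) hKj)
          (ζ + χ)
          (by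
            intro T hT
            rcases Finset.mem_union.1 (Finsupp.support_add hT) with h1 | h1
            · obtain ⟨h2, h3, h4⟩ := hζ T h1
              exact ⟨h2, h3, fun J hJ => h4 J (List.mem_cons_of_mem _ hJ)⟩
            · obtain ⟨h2, h3, h4⟩ := hχ T h1
              refine ⟨fun x hx => (Finset.mem_sdiff.1 (h2 hx)).1, h3, fun J hJ => ?_⟩
              exact (h4 (J \ I0) (List.mem_map_of_mem hJ)).mono
                (Finset.inter_subset_inter (le_refl _) Finset.sdiff_subset))
          (by rw [map_add, hχ', h_add_self])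
          rfl
        refine ⟨hf I0 ω, ?_, ?_⟩
        · refine h_supp (hf I0) ω _ fun S hS T hT => ?_
          obtain ⟨rfl, h2⟩ := hf_supp I0 S T hT
          obtain ⟨h3, h4, h5⟩ := hω T hS
          refine ⟨h3, h4, fun J hJ => ?_⟩
          rcases List.mem_cons.1 hJ with rfl | hJ
          · exact h2
          · exact h5 J hJ
        · have h1 : hb (I0 :: I) (hf I0 ω) = hf I0 (hb I ω) := by
            rw [hcons]
            refine h_eq ((hf I0).comp ((hb I).comp (hf I0))) ((hf I0).comp (hb I)) ω
              fun S _ => ?_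
            rw [LinearMap.comp_apply, LinearMap.comp_apply, LinearMap.comp_apply, hf_single]
            by_cases h2 : (S ∩ I0).Nonempty
            · rw [if_pos h2]
            · rw [if_neg h2, map_zero, map_zero]
              symm
              rw [hb_single, map_sum]
              refine Finset.sum_eq_zero fun s _ => ?_
              split_ifs with h3
              · rw [hf_single, if_neg]
                intro h4
                exact h2 (h4.mono (Finset.inter_subset_inter (Finset.erase_subset _ _)
                  (le_refl _)))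
              · rw [map_zero]
          rw [h1, hω', map_add]
          have h2 : hf I0 ζ =
              (LinearMap.id : (Finset ℕ →₀ ZMod 2) →ₗ[ZMod 2] (Finset ℕ →₀ ZMod 2)) ζ := by
            refine h_eq _ _ ζ fun S hS => ?_
            rw [hf_single, if_pos ((hζ S hS).2.2 I0 List.mem_cons_self)]
            rfl
          have h3 : hf I0 χ = (0 : (Finset ℕ →₀ ZMod 2) →ₗ[ZMod 2] (Finset ℕ →₀ ZMod 2)) χ := by
            refine h_eq _ _ χ fun S hS => ?_
            rw [hf_single, if_neg, LinearMap.zero_apply]
            rw [Finset.not_nonempty_iff_eq_empty, ← Finset.disjoint_iff_inter_eq_empty]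
            exact hχd S hS
          rw [h2, h3, LinearMap.id_apply, LinearMap.zero_apply, add_zero]

end Pool.Agent.VN
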