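import Pool.Agent.VN.Chain
import Pool.Agent.VN.Hit
import Pool.Agent.VN.NFBasic
/-!
# Exactness for one word

For a fixed word `w` the nondegenerate lists of points whose increments have normal forms with
concatenation `w` correspond to the sets of cut positions hitting all the short forbidden
factors, so the graded complex of such lists is exact by `hit_exact`.
-/
namespace Pool.Agent.VN
open Pool.Agent.SLX

section Seg
variable {A G : Type} [Group G] {π : A → G}

theorem vnil : val π [] = 1 := rfl

theorem vapp (u v : List A) : val π (u ++ v) = val π u * val π v := by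
  simp [val]

/-- The part of `w` between the positions `a` and `b`. -/
def seg (w : List A) (a b : ℕ) : List A := (w.take b).drop a

/-- The point at position `s`. -/
def pt (π : A → G) (x : G) (w : List A) (s : ℕ) : G := x * val π (w.take s)

theorem seg_append (w : List A) {a b c : ℕ} (h1 : a ≤ b) (h2 : b ≤ c) (h3 : c ≤ w.length) :
    seg w a c = seg w a b ++ seg w b c := by
  unfold seg
  have h4 : w.take c = w.take b ++ (w.take c).drop b := by
    have h5 := List.take_append_drop b (w.take c)
    rw [List.take_take, min_eq_left h2] at h5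
    exact h5.symm
  have h6 : a - (w.take b).length = 0 := by
    rw [List.length_take]
    omega
  conv_lhs => rw [h4]
  rw [List.drop_append, h6, List.drop_zero]

theorem length_seg (w : List A) {a b : ℕ} (h : b ≤ w.length) : (seg w a b).length = b - a := by
  unfold seg
  rw [List.length_drop, List.length_take]
  omega

theorem seg_full (w : List A) : seg w 0 w.length = w := by
  unfold seg
  rw [List.take_length, List.drop_zero]

theorem seg_self (w : List A) {a b : ℕ} (h : b ≤ a) : seg w a b = [] := by
  unfold seg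
  rw [List.drop_eq_nil_iff, List.length_take]
  omega

theorem pt_seg (x : G) (w : List A) {a b : ℕ} (h : a ≤ b) :
    (pt π x w a)⁻¹ * pt π x w b = val π (seg w a b) := by
  unfold pt seg
  have h5 := List.take_append_drop a (w.take b)
  rw [List.take_take, min_eq_left h] at h5
  rw [← congrArg (val π) h5, vapp]
  group

theorem pt_zero (x : G) (w : List A) : pt π x w 0 = x := by
  unfold pt
  rw [List.take_zero, vnil, mul_one]

/-- The part of `w` between two positions is a normal form. -/
def Rn (F : NF A G π) (w : List A) (a b : ℕ) : Prop := F.nf (val π (seg w a b)) = seg w a b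

theorem Rn_of_le (F : NF A G π) (w : List A) {a b : ℕ} (h : b ≤ a) : Rn F w a b := by
  unfold Rn
  rw [seg_self w h, vnil, F.nf_one]

theorem Rn_sub (F : NF A G π) (w : List A) {a b c d : ℕ} (h1 : a ≤ c) (h2 : d ≤ b)
    (h3 : b ≤ w.length) (h : Rn F w a b) : Rn F w c d := by
  rcases le_total d c with h4 | h4
  · exact Rn_of_le F w h4
  · unfold Rn at h ⊢
    apply F.factor (p := seg w a c) (q := seg w d b)
    rw [← seg_append w h1 h4 (h2.trans h3), ← seg_append w (h1.trans h4) h2 h3]
    exact h

theorem seg_factor (w : List A) {c d : ℕ} (h1 : c ≤ d) (h2 : d ≤ w.length) {p f q : List A}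
    (h : seg w c d = p ++ f ++ q) :
    c + p.length + f.length ≤ d ∧ seg w (c + p.length) (c + p.length + f.length) = f := by
  have h3 := congrArg List.length h
  rw [length_seg w h2, List.length_append, List.length_append] at h3
  refine ⟨by omega, ?_⟩
  have h4 : seg w (c + p.length) (c + p.length + f.length) =
      seg (seg w c d) p.length (p.length + f.length) := by
    unfold seg
    rw [List.take_drop, List.take_take, List.drop_drop, ← add_assoc]
    congr 2
    · omega
  rw [h4, h]
  unfold seg
  rw [List.append_assoc, ← List.append_assoc, List.take_left' (by simp), List.drop_left' rfl]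

theorem exists_short (F : NF A G π) (w : List A) {c d : ℕ} (h1 : c ≤ d) (h2 : d ≤ w.length)
    (h : ¬ Rn F w c d) : ∃ c' d', c ≤ c' ∧ d' ≤ d ∧ d' - c' ≤ F.N ∧ ¬ Rn F w c' d' := by
  by_contra hno
  push Not at hno
  apply h
  apply F.loc
  intro p f q hpfq hf
  obtain ⟨h3, h4⟩ := seg_factor w h1 h2 hpfq
  have h5 := hno (c + p.length) (c + p.length + f.length) (by omega) h3 (by omega)
  unfold Rn at h5
  rw [h4] at h5
  exact h5

theorem wd_len (F : NF A G π) (x : G) (w : List A) : ∀ (L : List ℕ) (lo hi : ℕ),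
    L.Pairwise (· < ·) → (∀ s ∈ L, lo ≤ s ∧ s ≤ hi) → hi ≤ w.length →
    (F.wd (L.map (pt π x w))).length ≤ hi - lo
  | [], lo, hi, _, _, _ => by simp [NF.wd]
  | [a], lo, hi, _, _, _ => by simp [NF.wd]
  | a :: c :: t, lo, hi, hp, hs, hw => by
    have ih := wd_len F x w (c :: t) c hi (List.pairwise_cons.1 hp).2 (by
      intro s hs'
      refine ⟨?_, (hs s (List.mem_cons_of_mem _ hs')).2⟩
      rcases List.mem_cons.1 hs' with h | h
      · exact h.ge
      · exact ((List.pairwise_cons.1 (List.pairwise_cons.1 hp).2).1 s h).le) hw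
    have h1 : a < c := (List.pairwise_cons.1 hp).1 c List.mem_cons_self
    have h2 := hs a List.mem_cons_self
    have h3 := hs c (List.mem_cons_of_mem _ List.mem_cons_self)
    have h4 : (F.nf ((pt π x w a)⁻¹ * pt π x w c)).length ≤ c - a := by
      rw [pt_seg x w h1.le]
      have h5 := F.nf_le (seg w a c)
      rw [length_seg w (h3.2.trans hw)] at h5
      exact h5
    simp only [List.map_cons, NF.wd, List.length_append] at ih ⊢
    omega

theorem wd_iff (F : NF A G π) (x : G) (w : List A) : ∀ (L : List ℕ) (a b : ℕ),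
    (a :: L).Pairwise (· < ·) → (∀ s ∈ a :: L, s ≤ b) → (a :: L).getLast? = some b →
    b ≤ w.length →
    (F.wd ((a :: L).map (pt π x w)) = seg w a b ↔ (a :: L).IsChain (Rn F w))
  | [], a, b, _, _, hb, _ => by
    simp at hb
    subst hb
    simp [NF.wd, seg_self]
  | c :: t, a, b, hp, hs, hb, hw => by
    have hp' := (List.pairwise_cons.1 hp).2
    have h1 : a < c := (List.pairwise_cons.1 hp).1 c List.mem_cons_self
    have hs' : ∀ s ∈ c :: t, s ≤ b := fun s h => hs s (List.mem_cons_of_mem _ h)
    have h3 : c ≤ b := hs' c List.mem_cons_self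
    have hb' : (c :: t).getLast? = some b := by
      rw [List.getLast?_cons_cons] at hb
      exact hb
    have ih := wd_iff F x w t c b hp' hs' hb' hw
    have h4 : (F.wd ((c :: t).map (pt π x w))).length ≤ b - c :=
      wd_len F x w (c :: t) c b hp' (by
        intro s hs''
        refine ⟨?_, hs' s hs''⟩
        rcases List.mem_cons.1 hs'' with h | h
        · exact h.ge
        · exact ((List.pairwise_cons.1 hp').1 s h).le) hw
    have h5 : (F.nf (val π (seg w a c))).length ≤ c - a := by
      have h5 := F.nf_le (seg w a c)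
      rw [length_seg w (h3.trans hw)] at h5
      exact h5
    have h6 : F.wd ((a :: c :: t).map (pt π x w)) =
        F.nf (val π (seg w a c)) ++ F.wd ((c :: t).map (pt π x w)) := by
      simp only [List.map_cons, NF.wd]
      rw [pt_seg x w h1.le]
    rw [h6, seg_append w h1.le h3 hw, List.isChain_cons_cons, ← ih]
    constructor
    · intro h
      have h7 := congrArg List.length h
      rw [List.length_append, List.length_append, length_seg w (h3.trans hw),
        length_seg w hw] at h7
      have h8 := List.append_inj h (by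
        rw [length_seg w (h3.trans hw)]
        omega)
      exact h8
    · rintro ⟨h7, h8⟩
      rw [h8]
      unfold Rn at h7
      rw [h7]

theorem chain_iff (F : NF A G π) (w : List A) : ∀ (L : List ℕ) (a b : ℕ),
    (a :: L).Pairwise (· < ·) → (∀ s ∈ a :: L, s ≤ b) → (a :: L).getLast? = some b →
    b ≤ w.length →
    ((a :: L).IsChain (Rn F w) ↔ ∀ c d, a ≤ c → d ≤ b → ¬ Rn F w c d →
      ∃ s ∈ a :: L, c < s ∧ s < d)
  | [], a, b, _, _, hb, _ => by
    simp at hb
    subst hb
    constructor
    · intro _ c d h1 h2 h3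
      exact absurd (Rn_of_le F w (h2.trans h1)) h3
    · intro _
      simp
  | e :: t, a, b, hp, hs, hb, hw => by
    have hp' := (List.pairwise_cons.1 hp).2
    have h1 : a < e := (List.pairwise_cons.1 hp).1 e List.mem_cons_self
    have hs' : ∀ s ∈ e :: t, s ≤ b := fun s h => hs s (List.mem_cons_of_mem _ h)
    have h3 : e ≤ b := hs' e List.mem_cons_self
    have hb' : (e :: t).getLast? = some b := by
      rw [List.getLast?_cons_cons] at hb
      exact hb
    have ih := chain_iff F w t e b hp' hs' hb' hw
    rw [List.isChain_cons_cons, ih]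
    constructor
    · rintro ⟨h4, h5⟩ c d hc hd hn
      rcases le_or_gt d e with h6 | h6
      · exact absurd (Rn_sub F w hc h6 (h3.trans hw) h4) hn
      · rcases le_or_gt e c with h7 | h7
        · obtain ⟨s, hs1, hs2⟩ := h5 c d h7 hd hn
          exact ⟨s, List.mem_cons_of_mem _ hs1, hs2⟩
        · exact ⟨e, List.mem_cons_of_mem _ List.mem_cons_self, h7, h6⟩
    · intro h
      constructor
      · by_contra hn
        obtain ⟨s, hs1, hs2, hs3⟩ := h a e le_rfl h3 hn
        rcases List.mem_cons.1 hs1 with h4 | h4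
        · omega
        · rcases List.mem_cons.1 h4 with h5 | h5
          · omega
          · have := (List.pairwise_cons.1 hp').1 s h5
            omega
      · intro c d hc hd hn
        obtain ⟨s, hs1, hs2, hs3⟩ := h c d (h1.le.trans hc) hd hn
        rcases List.mem_cons.1 hs1 with h4 | h4
        · omega
        · exact ⟨s, h4, hs2, hs3⟩

theorem nd_of_chain (F : NF A G π) (x : G) (w : List A) : ∀ (L : List ℕ),
    L.Pairwise (· < ·) → (∀ s ∈ L, s ≤ w.length) → L.IsChain (Rn F w) →
    nd (L.map (pt π x w))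
  | [], _, _, _ => by simp [nd]
  | [a], _, _, _ => by simp [nd]
  | a :: c :: t, hp, hs, hc => by
    have ih := nd_of_chain F x w (c :: t) (List.pairwise_cons.1 hp).2
      (fun s h => hs s (List.mem_cons_of_mem _ h)) (List.isChain_cons_cons.1 hc).2
    have h1 : a < c := (List.pairwise_cons.1 hp).1 c List.mem_cons_self
    have h2 : Rn F w a c := (List.isChain_cons_cons.1 hc).1
    have h3 : c ≤ w.length := hs c (List.mem_cons_of_mem _ List.mem_cons_self)
    unfold nd at ih ⊢
    simp only [List.map_cons] at ih ⊢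
    rw [List.isChain_cons_cons]
    refine ⟨?_, ih⟩
    intro h4
    have h5 := pt_seg (π := π) x w h1.le
    rw [h4, inv_mul_cancel] at h5
    unfold Rn at h2
    rw [← h5, F.nf_one] at h2
    have h6 := congrArg List.length h2
    rw [length_seg w h3, List.length_nil] at h6
    omega

theorem pos_inj (F : NF A G π) (x : G) (w : List A) : ∀ (L L' : List ℕ) (a : ℕ),
    (a :: L).Pairwise (· < ·) → (a :: L').Pairwise (· < ·) → (∀ s ∈ a :: L, s ≤ w.length) →
    (∀ s ∈ a :: L', s ≤ w.length) → (a :: L).IsChain (Rn F w) → (a :: L').IsChain (Rn F w) →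
    L.map (pt π x w) = L'.map (pt π x w) → L = L'
  | [], [], _, _, _, _, _, _, _, _ => rfl
  | [], c' :: t', _, _, _, _, _, _, _, h => by simp at h
  | c :: t, [], _, _, _, _, _, _, _, h => by simp at h
  | c :: t, c' :: t', a, hp, hp', hs, hs', hc, hc', h => by
    simp only [List.map_cons, List.cons.injEq] at h
    have h1 : a < c := (List.pairwise_cons.1 hp).1 c List.mem_cons_self
    have h1' : a < c' := (List.pairwise_cons.1 hp').1 c' List.mem_cons_self
    have h2 : Rn F w a c := (List.isChain_cons_cons.1 hc).1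
    have h2' : Rn F w a c' := (List.isChain_cons_cons.1 hc').1
    have h3 : c ≤ w.length := hs c (List.mem_cons_of_mem _ List.mem_cons_self)
    have h3' : c' ≤ w.length := hs' c' (List.mem_cons_of_mem _ List.mem_cons_self)
    have h5 := pt_seg (π := π) x w h1.le
    have h5' := pt_seg (π := π) x w h1'.le
    rw [h.1, h5'] at h5
    unfold Rn at h2 h2'
    rw [← h5, h2'] at h2
    have h6 := congrArg List.length h2
    rw [length_seg w h3, length_seg w h3'] at h6
    have h7 : c = c' := by omega
    subst h7
    have ih := pos_inj F x w t t' c (List.pairwise_cons.1 hp).2 (List.pairwise_cons.1 hp').2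
      (fun s h => hs s (List.mem_cons_of_mem _ h)) (fun s h => hs' s (List.mem_cons_of_mem _ h))
      (List.isChain_cons_cons.1 hc).2 (List.isChain_cons_cons.1 hc').2 h.2
    rw [ih]

theorem pos_exists (F : NF A G π) (x : G) (w : List A) : ∀ (t : List G) (y : G) (a : ℕ),
    a ≤ w.length → y = pt π x w a → nd (y :: t) → F.wd (y :: t) = seg w a w.length →
    ∃ L : List ℕ, (a :: L).Pairwise (· < ·) ∧ (∀ s ∈ a :: L, s ≤ w.length) ∧
      (a :: L).getLast? = some w.length ∧ (a :: L).map (pt π x w) = y :: t
  | [], y, a, ha, hy, _, hw => by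
    have h1 := congrArg List.length hw
    rw [length_seg w le_rfl] at h1
    simp only [NF.wd, List.length_nil] at h1
    have h2 : a = w.length := by omega
    subst h2
    exact ⟨[], by simp, by simp, by simp, by simp [hy]⟩
  | y' :: t', y, a, ha, hy, hnd, hw => by
    have hne : y ≠ y' := (List.isChain_cons_cons.1 hnd).1
    have hnd' : nd (y' :: t') := (List.isChain_cons_cons.1 hnd).2
    have hw2 : F.nf (y⁻¹ * y') ++ F.wd (y' :: t') = seg w a w.length := hw
    have hpos : 0 < (F.nf (y⁻¹ * y')).length := by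
      rcases Nat.eq_zero_or_pos (F.nf (y⁻¹ * y')).length with h | h
      · exfalso
        apply hne
        have h1 : y⁻¹ * y' = 1 := F.l_eq_zero h
        exact (inv_mul_eq_one.1 h1)
      · exact h
    obtain ⟨h3, h4⟩ := seg_factor w ha le_rfl (p := []) (f := F.nf (y⁻¹ * y'))
      (q := F.wd (y' :: t')) (by rw [List.nil_append, hw2])
    rw [List.length_nil, add_zero] at h3 h4
    set c := a + (F.nf (y⁻¹ * y')).length with hc
    have hac : a ≤ c := by omega
    have hw3 : F.wd (y' :: t') = seg w c w.length := by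
      rw [seg_append w hac h3 le_rfl, h4] at hw2
      exact List.append_cancel_left hw2
    have hy' : y' = pt π x w c := by
      have h5 := pt_seg (π := π) x w hac
      rw [h4, F.val_nf, ← hy] at h5
      exact (mul_left_cancel h5).symm
    obtain ⟨L, h6, h7, h8, h9⟩ := pos_exists F x w t' y' c h3 hy' hnd' hw3
    refine ⟨c :: L, ?_, ?_, ?_, ?_⟩
    · rw [List.pairwise_cons]
      refine ⟨?_, h6⟩
      intro s hs
      rcases List.mem_cons.1 hs with h | h
      · omega
      · have := (List.pairwise_cons.1 h6).1 s h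
        omega
    · intro s hs
      rcases List.mem_cons.1 hs with h | h
      · omega
      · exact h7 s h
    · rw [List.getLast?_cons_cons]
      exact h8
    · rw [List.map_cons, h9, ← hy]

/-! ### Cut sets -/

/-- The list of positions: `0`, the elements of `S` in increasing order, `q`. -/
def cutL (q : ℕ) (S : Finset ℕ) : List ℕ := 0 :: (S.sort ++ [q])

theorem mem_cutL {q : ℕ} {S : Finset ℕ} {s : ℕ} : s ∈ cutL q S ↔ s = 0 ∨ s ∈ S ∨ s = q := by
  simp [cutL]

theorem cutL_pairwise {q : ℕ} {S : Finset ℕ} (hq : 0 < q) (h : S ⊆ Finset.Ioo 0 q) :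
    (cutL q S).Pairwise (· < ·) := by
  unfold cutL
  rw [List.pairwise_cons, List.pairwise_append]
  refine ⟨?_, (Finset.sortedLT_sort S).pairwise, by simp, ?_⟩
  · intro s hs
    rcases List.mem_append.1 hs with h1 | h1
    · exact (Finset.mem_Ioo.1 (h ((Finset.mem_sort _).1 h1))).1
    · rw [List.mem_singleton] at h1
      omega
  · intro s hs t ht
    rw [List.mem_singleton] at ht
    rw [ht]
    exact (Finset.mem_Ioo.1 (h ((Finset.mem_sort _).1 hs))).2

theorem cutL_le {q : ℕ} {S : Finset ℕ} (h : S ⊆ Finset.Ioo 0 q) {s : ℕ} (hs : s ∈ cutL q S) :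
    s ≤ q := by
  rcases mem_cutL.1 hs with h1 | h1 | h1
  · omega
  · exact (Finset.mem_Ioo.1 (h h1)).2.le
  · omega

theorem cutL_last (q : ℕ) (S : Finset ℕ) : (cutL q S).getLast? = some q := by
  unfold cutL
  rw [← List.cons_append, List.getLast?_append]
  simp

theorem cutL_length (q : ℕ) (S : Finset ℕ) : (cutL q S).length = S.card + 2 := by
  unfold cutL
  simp

theorem cutL_toFinset (q : ℕ) (S : Finset ℕ) : (cutL q S).toFinset = insert 0 (insert q S) := by
  ext s
  rw [List.mem_toFinset, mem_cutL, Finset.mem_insert, Finset.mem_insert]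
  tauto

theorem cutL_erase {q : ℕ} {S : Finset ℕ} (hq : 0 < q) (h : S ⊆ Finset.Ioo 0 q) {s : ℕ}
    (hs : s ∈ S) : (cutL q S).erase s = cutL q (S.erase s) := by
  have hp := cutL_pairwise hq h
  have hp' := cutL_pairwise hq ((Finset.erase_subset s S).trans h)
  apply List.Pairwise.eq_of_mem_iff (hp.sublist List.erase_sublist) hp'
  intro t
  have hnd : (cutL q S).Nodup := hp.imp (fun h => h.ne)
  rw [hnd.mem_erase_iff, mem_cutL, mem_cutL, Finset.mem_erase]
  have h1 := Finset.mem_Ioo.1 (h hs)
  constructor
  · rintro ⟨h2, h3 | h3 | h3⟩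
    · exact Or.inl h3
    · exact Or.inr (Or.inl ⟨h2, h3⟩)
    · exact Or.inr (Or.inr h3)
  · rintro (h2 | h2 | h2)
    · exact ⟨by omega, Or.inl h2⟩
    · exact ⟨h2.1, Or.inr (Or.inl h2.2)⟩
    · exact ⟨by omega, Or.inr (Or.inr h2)⟩

theorem sum_eraseIdx {M : Type} [AddCommMonoid M] (L : List ℕ) (hL : L.Nodup) (g : List ℕ → M) :
    ∑ i ∈ Finset.range L.length, g (L.eraseIdx i) = ∑ s ∈ L.toFinset, g (L.erase s) := by
  refine Finset.sum_bij (fun i hi => L[i]'(Finset.mem_range.1 hi)) ?_ ?_ ?_ ?_
  · intro i hi
    rw [List.mem_toFinset]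
    exact List.getElem_mem _
  · intro i hi j hj hij
    exact (hL.getElem_inj_iff).1 hij
  · intro s hs
    rw [List.mem_toFinset, List.mem_iff_getElem] at hs
    obtain ⟨i, hi, h⟩ := hs
    exact ⟨i, Finset.mem_range.2 hi, h⟩
  · intro i hi
    rw [hL.erase_getElem]

/-- The short forbidden intervals of positions. -/
noncomputable def forb (F : NF A G π) (w : List A) : List (Finset ℕ) :=
  open Classical in
  ((((Finset.range (w.length + 1)) ×ˢ (Finset.range (w.length + 1))).filter
    (fun t => t.2 - t.1 ≤ F.N ∧ ¬ Rn F w t.1 t.2)).toList).map (fun t => Finset.Ioo t.1 t.2)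

theorem mem_forb {F : NF A G π} {w : List A} {J : Finset ℕ} :
    J ∈ forb F w ↔ ∃ c d, c ≤ w.length ∧ d ≤ w.length ∧ d - c ≤ F.N ∧ ¬ Rn F w c d ∧
      J = Finset.Ioo c d := by
  unfold forb
  simp only [List.mem_map, Finset.mem_toList, Finset.mem_filter, Finset.mem_product,
    Finset.mem_range, Prod.exists]
  constructor
  · rintro ⟨c, d, ⟨⟨h1, h2⟩, h3, h4⟩, h5⟩
    exact ⟨c, d, by omega, by omega, h3, h4, h5.symm⟩
  · rintro ⟨c, d, h1, h2, h3, h4, h5⟩
    exact ⟨c, d, ⟨⟨by omega, by omega⟩, h3, h4⟩, h5.symm⟩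

theorem good_iff (F : NF A G π) (w : List A) (hq : 0 < w.length) {S : Finset ℕ}
    (h : S ⊆ Finset.Ioo 0 w.length) :
    (∀ J ∈ forb F w, (S ∩ J).Nonempty) ↔ (cutL w.length S).IsChain (Rn F w) := by
  have h1 := chain_iff F w (S.sort (· ≤ ·) ++ [w.length]) 0 w.length (cutL_pairwise hq h)
    (fun s hs => cutL_le h hs) (cutL_last _ _) le_rfl
  have h2 : (cutL w.length S).IsChain (Rn F w) ↔ ∀ c d, 0 ≤ c → d ≤ w.length → ¬ Rn F w c d →
      ∃ s ∈ cutL w.length S, c < s ∧ s < d := h1
  rw [h2]
  constructor
  · intro h3 c d _ hd hn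
    have hcd : c ≤ d := by
      by_contra h4
      exact hn (Rn_of_le F w (by omega))
    obtain ⟨c', d', h4, h5, h6, h7⟩ := exists_short F w hcd hd hn
    have hcd' : c' ≤ d' := by
      by_contra h8
      exact h7 (Rn_of_le F w (by omega))
    obtain ⟨s, hs⟩ := h3 (Finset.Ioo c' d')
      (mem_forb.2 ⟨c', d', by omega, by omega, h6, h7, rfl⟩)
    rw [Finset.mem_inter, Finset.mem_Ioo] at hs
    exact ⟨s, mem_cutL.2 (Or.inr (Or.inl hs.1)), by omega, by omega⟩
  · intro h3 J hJ
    obtain ⟨c, d, h4, h5, h6, h7, rfl⟩ := mem_forb.1 hJ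
    obtain ⟨s, hs1, hs2, hs3⟩ := h3 c d (Nat.zero_le _) h5 h7
    refine ⟨s, ?_⟩
    rw [Finset.mem_inter, Finset.mem_Ioo]
    refine ⟨?_, hs2, hs3⟩
    rcases mem_cutL.1 hs1 with h8 | h8 | h8
    · omega
    · exact h8
    · omega

theorem chain_wd (F : NF A G π) (x : G) (w : List A) (hq : 0 < w.length) {S : Finset ℕ}
    (h : S ⊆ Finset.Ioo 0 w.length) :
    F.wd ((cutL w.length S).map (pt π x w)) = w ↔ (cutL w.length S).IsChain (Rn F w) := by
  have h1 := wd_iff F x w (S.sort (· ≤ ·) ++ [w.length]) 0 w.length (cutL_pairwise hq h)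
    (fun s hs => cutL_le h hs) (cutL_last _ _) le_rfl
  rw [seg_full] at h1
  exact h1

/-- The class of lists with first point `x` and word `w`. -/
def Pw (F : NF A G π) (x : G) (w : List A) (l : List G) : Prop := l.head? = some x ∧ F.wd l = w

/-- From chains of cut sets to chains of lists of points. -/
noncomputable def Tm (π : A → G) (x : G) (w : List A) : (Finset ℕ →₀ ZMod 2) →ₗ[ZMod 2] Ch G :=
  Finsupp.lmapDomain (ZMod 2) (ZMod 2) (fun S => (cutL w.length S).map (pt π x w))

theorem Tm_single (x : G) (w : List A) (S : Finset ℕ) :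
    Tm π x w (Finsupp.single S 1) =
      Finsupp.single ((cutL w.length S).map (pt π x w)) 1 := by
  unfold Tm
  rw [Finsupp.lmapDomain_apply, Finsupp.mapDomain_single]

theorem Pw_kill (F : NF A G π) (x : G) (w : List A) (l : List G) (h : F.wd l ≠ w) :
    fil (Pw F x w) (fil nd (Finsupp.single l (1 : ZMod 2))) = 0 := by
  by_cases h1 : nd l
  · rw [fil_single nd l h1, fil_single_of_not (Pw F x w) l (fun h2 => h h2.2)]
  · rw [fil_single_of_not nd l h1, map_zero]

theorem Pw_head (x : G) (w : List A) (S : Finset ℕ) :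
    ((cutL w.length S).map (pt π x w)).head? = some x := by
  unfold cutL
  rw [List.map_cons, List.head?_cons, pt_zero]

theorem word_step (F : NF A G π) (x : G) (w : List A) (hq : 0 < w.length) {S : Finset ℕ}
    (h : S ⊆ Finset.Ioo 0 w.length) :
    fil (Pw F x w) (D (Tm π x w (Finsupp.single S 1))) =
      Tm π x w (hb (forb F w) (Finsupp.single S 1)) := by
  classical
  have hp := cutL_pairwise hq h
  have hnd : (cutL w.length S).Nodup := hp.imp (fun h => h.ne)
  have h0 : (0 : ℕ) ∉ insert w.length S := by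
    rw [Finset.mem_insert]
    rintro (h1 | h1)
    · omega
    · exact absurd (Finset.mem_Ioo.1 (h h1)).1 (lt_irrefl _)
  have h1 : w.length ∉ S := by
    intro h1
    exact absurd (Finset.mem_Ioo.1 (h h1)).2 (lt_irrefl _)
  have hL : fil (Pw F x w) (D (Tm π x w (Finsupp.single S 1))) =
      ∑ s ∈ (cutL w.length S).toFinset, fil (Pw F x w) (fil nd (Finsupp.single
        (((cutL w.length S).erase s).map (pt π x w)) (1 : ZMod 2))) := by
    rw [Tm_single, D, LinearMap.comp_apply, bd_single, List.length_map, map_sum, map_sum,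
      ← sum_eraseIdx (cutL w.length S) hnd (fun L' => fil (Pw F x w) (fil nd (Finsupp.single
        (L'.map (pt π x w)) (1 : ZMod 2))))]
    apply Finset.sum_congr rfl
    intro i _
    rw [List.eraseIdx_map]
  rw [hL, cutL_toFinset, Finset.sum_insert h0, Finset.sum_insert h1]
  have hz0 : fil (Pw F x w) (fil nd (Finsupp.single
        (((cutL w.length S).erase 0).map (pt π x w)) (1 : ZMod 2))) = 0 := by
    apply Pw_kill
    intro h2
    have h3 := wd_len F x w ((cutL w.length S).erase 0) 1 w.length
      (hp.sublist List.erase_sublist) (by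
        intro s hs
        rw [hnd.mem_erase_iff] at hs
        exact ⟨by omega, cutL_le h hs.2⟩) le_rfl
    rw [h2] at h3
    omega
  have hzq : fil (Pw F x w) (fil nd (Finsupp.single
        (((cutL w.length S).erase w.length).map (pt π x w)) (1 : ZMod 2))) = 0 := by
    apply Pw_kill
    intro h2
    have h3 := wd_len F x w ((cutL w.length S).erase w.length) 0 (w.length - 1)
      (hp.sublist List.erase_sublist) (by
        intro s hs
        rw [hnd.mem_erase_iff] at hs
        have := cutL_le h hs.2
        exact ⟨by omega, by omega⟩) (by omega)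
    rw [h2] at h3
    omega
  rw [hz0, hzq, zero_add, zero_add]
  unfold hb
  rw [Finsupp.linearCombination_single, one_smul, map_sum]
  apply Finset.sum_congr rfl
  intro s hs
  have h2 := (Finset.erase_subset s S).trans h
  rw [cutL_erase hq h hs]
  by_cases h3 : ∀ J ∈ forb F w, (S.erase s ∩ J).Nonempty
  · rw [if_pos h3, Tm_single]
    have h4 := (good_iff F w hq h2).1 h3
    rw [fil_single nd _ (nd_of_chain F x w _ (cutL_pairwise hq h2)
      (fun s hs => cutL_le h2 hs) h4), fil_single (Pw F x w) _ ⟨Pw_head x w _,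
      (chain_wd F x w hq h2).2 h4⟩]
  · rw [if_neg h3, map_zero]
    apply Pw_kill
    intro h4
    exact h3 ((good_iff F w hq h2).2 ((chain_wd F x w hq h2).1 h4))

theorem word_comm (F : NF A G π) (x : G) (w : List A) (hq : 0 < w.length)
    (c : Finset ℕ →₀ ZMod 2) (hc : ∀ S ∈ c.support, S ⊆ Finset.Ioo 0 w.length) :
    fil (Pw F x w) (D (Tm π x w c)) = Tm π x w (hb (forb F w) c) := by
  have h1 : c = ∑ S ∈ c.support, c S • Finsupp.single S (1 : ZMod 2) := by
    conv_lhs => rw [← Finsupp.sum_single c]
    unfold Finsupp.sum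
    apply Finset.sum_congr rfl
    intro S _
    rw [Finsupp.smul_single, smul_eq_mul, mul_one]
  rw [h1]
  simp only [map_sum, map_smul]
  apply Finset.sum_congr rfl
  intro S hS
  rw [word_step F x w hq (hc S hS)]

theorem hb_supp (I : List (Finset ℕ)) (U : Finset ℕ) (c : Finset ℕ →₀ ZMod 2)
    (hc : ∀ S ∈ c.support, S ⊆ U) :
    ∀ S ∈ (hb I c).support, S ⊆ U ∧ ∀ J ∈ I, (S ∩ J).Nonempty := by
  classical
  have h1 : hb I c ∈ Finsupp.supported (ZMod 2) (ZMod 2)
      {S : Finset ℕ | S ⊆ U ∧ ∀ J ∈ I, (S ∩ J).Nonempty} := by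
    unfold hb
    rw [Finsupp.linearCombination_apply]
    apply Submodule.sum_mem
    intro S hS
    apply Submodule.smul_mem
    apply Submodule.sum_mem
    intro s _
    split_ifs with h2
    · exact Finsupp.single_mem_supported (ZMod 2) _
        ⟨(Finset.erase_subset s S).trans (hc S hS), h2⟩
    · exact Submodule.zero_mem _
  intro S hS
  exact (Finsupp.mem_supported _ _).1 h1 hS

end Seg

section Main
variable {A G : Type} [Group G] {π : A → G}

theorem word_exact (F : NF A G π) (x : G) (w : List A) (n : ℕ) (hn : n * F.N + 1 < w.length)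
    (ζ : Ch G)
    (hζ : ∀ l ∈ ζ.support, nd l ∧ l.length = n + 2 ∧ l.head? = some x ∧ F.wd l = w)
    (hz : fil (fun l => l.head? = some x ∧ F.wd l = w) (D ζ) = 0) :
    ∃ η : Ch G, (∀ l ∈ η.support, nd l ∧ l.length = n + 3 ∧ l.head? = some x ∧ F.wd l = w) ∧
      fil (fun l => l.head? = some x ∧ F.wd l = w) (D η) = ζ := by
  classical
  have hq : 0 < w.length := by omega
  -- the cut sets of the lists
  have hex : ∀ l ∈ ζ.support, ∃ S : Finset ℕ, S ⊆ Finset.Ioo 0 w.length ∧ S.card = n ∧
      (cutL w.length S).map (pt π x w) = l := by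
    intro l hl
    obtain ⟨h1, h2, h3, h4⟩ := hζ l hl
    cases l with
    | nil => simp at h3
    | cons y t =>
      rw [List.head?_cons, Option.some.injEq] at h3
      subst h3
      obtain ⟨L, h5, h6, h7, h8⟩ := pos_exists F y w t y 0 (Nat.zero_le _) (pt_zero y w).symm
        h1 (by rw [seg_full]; exact h4)
      have h9 : L ≠ [] := by
        rintro rfl
        simp at h7
        omega
      have h10 : L.getLast h9 = w.length := by
        have h11 : (0 :: L).getLast? = L.getLast? := by
          cases L with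
          | nil => exact absurd rfl h9
          | cons c t => rw [List.getLast?_cons_cons]
        rw [h11, List.getLast?_eq_getLast_of_ne_nil h9, Option.some.injEq] at h7
        exact h7
      have h11 : L = L.dropLast ++ [w.length] := by
        rw [← h10]
        exact (List.dropLast_append_getLast h9).symm
      set M := L.dropLast with hM
      rw [h11] at h5 h6 h8
      have h12 := List.pairwise_cons.1 h5
      have h13 := List.pairwise_append.1 h12.2
      have hMnd : M.Nodup := h13.1.imp (fun h => h.ne)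
      have hsort : M.toFinset.sort = M :=
        (List.toFinset_sort (· ≤ ·) hMnd).2 (h13.1.imp (fun h => h.le))
      refine ⟨M.toFinset, ?_, ?_, ?_⟩
      · intro s hs
        rw [List.mem_toFinset] at hs
        rw [Finset.mem_Ioo]
        exact ⟨h12.1 s (List.mem_append_left _ hs), h13.2.2 s hs _ (List.mem_singleton_self _)⟩
      · rw [List.toFinset_card_of_nodup hMnd]
        have h14 := congrArg List.length h8
        rw [List.length_map, h2, List.length_cons, List.length_append] at h14
        simp at h14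
        omega
      · unfold cutL
        rw [hsort]
        exact h8
  choose! Sof hSof using hex
  set c : Finset ℕ →₀ ZMod 2 := Finsupp.mapDomain Sof ζ with hc
  have hTc : Tm π x w c = ζ := by
    unfold Tm
    rw [Finsupp.lmapDomain_apply, hc, ← Finsupp.mapDomain_comp]
    conv_rhs => rw [← Finsupp.mapDomain_id (v := ζ)]
    apply Finsupp.mapDomain_congr
    intro l hl
    exact (hSof l hl).2.2
  have hcs : ∀ S ∈ c.support, ∃ l ∈ ζ.support, Sof l = S := by
    intro S hS
    have h1 := Finsupp.mapDomain_support hS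
    rw [Finset.mem_image] at h1
    exact h1
  have hcU : ∀ S ∈ c.support, S ⊆ Finset.Ioo 0 w.length := by
    intro S hS
    obtain ⟨l, hl, rfl⟩ := hcs S hS
    exact (hSof l hl).1
  have hgood : ∀ S ∈ c.support, S ⊆ Finset.Ioo 0 w.length ∧ S.card = n ∧
      ∀ J ∈ forb F w, (S ∩ J).Nonempty := by
    intro S hS
    obtain ⟨l, hl, rfl⟩ := hcs S hS
    refine ⟨(hSof l hl).1, (hSof l hl).2.1, ?_⟩
    rw [good_iff F w hq (hSof l hl).1, ← chain_wd F x w hq (hSof l hl).1, (hSof l hl).2.2]
    exact (hζ l hl).2.2.2
  have hinj : Set.InjOn (fun S : Finset ℕ => (cutL w.length S).map (pt π x w))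
      {S : Finset ℕ | S ⊆ Finset.Ioo 0 w.length ∧ ∀ J ∈ forb F w, (S ∩ J).Nonempty} := by
    intro S hS S' hS' h1
    have h2 : (cutL w.length S).map (pt π x w) = (cutL w.length S').map (pt π x w) := h1
    have h3 : (S.sort (· ≤ ·) ++ [w.length]).map (pt π x w) = (S'.sort (· ≤ ·) ++ [w.length]).map (pt π x w) := by
      unfold cutL at h2
      rw [List.map_cons, List.map_cons] at h2
      exact (List.cons.inj h2).2
    have h4 := pos_inj F x w (S.sort (· ≤ ·) ++ [w.length]) (S'.sort (· ≤ ·) ++ [w.length]) 0
      (cutL_pairwise hq hS.1) (cutL_pairwise hq hS'.1) (fun s hs => cutL_le hS.1 hs)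
      (fun s hs => cutL_le hS'.1 hs) ((good_iff F w hq hS.1).1 hS.2)
      ((good_iff F w hq hS'.1).1 hS'.2) h3
    have h5 : S.sort = S'.sort := List.append_cancel_right h4
    rw [← Finset.sort_toFinset S (· ≤ ·), ← Finset.sort_toFinset S' (· ≤ ·), h5]
  have hz' : hb (forb F w) c = 0 := by
    have h1 := word_comm F x w hq c hcU
    rw [hTc] at h1
    have h2 : fil (Pw F x w) (D ζ) = 0 := hz
    rw [h2] at h1
    have h3 := Finsupp.mapDomain_injOn (M := ZMod 2) _ hinj
    apply h3 (x₁ := hb (forb F w) c) (x₂ := 0)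
    · intro S hS
      exact hb_supp _ _ c hcU S hS
    · intro S hS
      simp at hS
    · rw [Finsupp.mapDomain_zero]
      exact h1.symm
  have hcov : ∀ K : List (Finset ℕ), K ⊆ forb F w → K.length ≤ n →
      ∃ u ∈ Finset.Ioo 0 w.length, ∀ J ∈ K, u ∉ J := by
    intro K hK hKn
    have h1 : (K.toFinset.biUnion id).card ≤ K.toFinset.card * F.N := by
      apply Finset.card_biUnion_le_card_mul
      intro J hJ
      rw [List.mem_toFinset] at hJ
      obtain ⟨a, b, _, _, h2, _, rfl⟩ := mem_forb.1 (hK hJ)
      rw [id, Nat.card_Ioo]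
      omega
    have h2 : K.toFinset.card * F.N ≤ n * F.N :=
      Nat.mul_le_mul_right _ ((List.toFinset_card_le K).trans hKn)
    have h3 : (K.toFinset.biUnion id).card < (Finset.Ioo 0 w.length).card := by
      rw [Nat.card_Ioo]
      omega
    obtain ⟨u, hu1, hu2⟩ := Finset.exists_mem_notMem_of_card_lt_card h3
    refine ⟨u, hu1, fun J hJ hJu => hu2 ?_⟩
    rw [Finset.mem_biUnion]
    exact ⟨J, List.mem_toFinset.2 hJ, hJu⟩
  obtain ⟨e, he1, he2⟩ := hit_exact (forb F w) (Finset.Ioo 0 w.length) n hcov c hgood hz'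
  refine ⟨Tm π x w e, ?_, ?_⟩
  · intro l hl
    have h1 := Finsupp.mapDomain_support hl
    rw [Finset.mem_image] at h1
    obtain ⟨S, hS, rfl⟩ := h1
    obtain ⟨h2, h3, h4⟩ := he1 S hS
    have h5 := (good_iff F w hq h2).1 h4
    refine ⟨nd_of_chain F x w _ (cutL_pairwise hq h2) (fun s hs => cutL_le h2 hs) h5, ?_,
      Pw_head x w S, (chain_wd F x w hq h2).2 h5⟩
    rw [List.length_map, cutL_length, h3]
  · have h1 := word_comm F x w hq e (fun S hS => (he1 S hS).1)
    rw [he2, hTc] at h1
    exact h1

end Main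

end Pool.Agent.VN
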