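import Pool.Agent.VN.Chain
import Pool.Agent.VN.NFBasic
import Pool.Agent.VN.Word
/-!
# Exactness of the graded pieces
-/
namespace Pool.Agent.VN
open Pool.Agent.SLX

section Graded
variable {A G : Type} [Group G] {π : A → G}

theorem gr_val_append (u v : List A) : val π (u ++ v) = val π u * val π v := by
  simp [val]

theorem gr_mul_inc (x y z : G) : x⁻¹ * z = (x⁻¹ * y) * (y⁻¹ * z) := by group

theorem gr_inn_erase_le (F : NF A G π) :
    ∀ (l : List G) (i : ℕ), F.inn (l.eraseIdx i) ≤ F.inn l := by
  intro l
  induction l with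
  | nil => intro i; simp
  | cons x l ih =>
    intro i
    cases l with
    | nil => cases i <;> simp [NF.inn]
    | cons y l' =>
      rcases i with _ | i
      · simp only [List.eraseIdx_cons_zero, NF.inn]
        omega
      · rcases i with _ | i
        · cases l' with
          | nil => simp [NF.inn]
          | cons z l'' =>
            simp only [List.eraseIdx_cons_succ, List.eraseIdx_cons_zero, NF.inn]
            have h1 := F.l_mul (x⁻¹ * y) (y⁻¹ * z)
            rw [← gr_mul_inc] at h1
            omega
        · have h1 := ih (i + 1)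
          simp only [List.eraseIdx_cons_succ, NF.inn] at h1 ⊢
          omega

theorem gr_last (F : NF A G π) : ∀ (l : List G) (x : G), l.head? = some x →
    l.getLast? = some (x * val π (F.wd l)) := by
  intro l
  induction l with
  | nil => intro x h; simp at h
  | cons x l ih =>
    intro x' h
    simp only [List.head?_cons, Option.some.injEq] at h
    subst h
    cases l with
    | nil => simp [NF.wd, val]
    | cons y l' =>
      have h1 := ih y (by simp)
      rw [List.getLast?_cons_cons, h1]
      simp only [NF.wd, gr_val_append, F.val_nf]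
      congr 1
      group

theorem gr_face (F : NF A G π) : ∀ (l : List G) (i : ℕ), nd l → 2 ≤ l.length → i < l.length →
    F.inn (l.eraseIdx i) = F.inn l →
    (l.eraseIdx i).head? = l.head? ∧
      (F.wd (l.eraseIdx i) = F.wd l ∨ F.rk (F.wd (l.eraseIdx i)) < F.rk (F.wd l)) := by
  intro l
  induction l with
  | nil => intro i h1 h2; simp at h2
  | cons x l ih =>
    intro i hnd h2 hi he
    cases l with
    | nil => simp at h2
    | cons y l' =>
      have hxy : x ≠ y := by
        have : List.IsChain (· ≠ ·) (x :: y :: l') := hnd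
        rw [List.isChain_cons_cons] at this
        exact this.1
      have hnd' : nd (y :: l') := by
        have : List.IsChain (· ≠ ·) (x :: y :: l') := hnd
        rw [List.isChain_cons_cons] at this
        exact this.2
      have hpos : 0 < F.l (x⁻¹ * y) := by
        rcases Nat.eq_zero_or_pos (F.l (x⁻¹ * y)) with h | h
        · exact absurd (inv_mul_eq_one.1 (F.l_eq_zero h)) hxy
        · exact h
      rcases i with _ | i
      · exfalso
        simp only [List.eraseIdx_cons_zero, NF.inn] at he
        omega
      · rcases i with _ | i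
        · cases l' with
          | nil =>
            exfalso
            simp only [List.eraseIdx_cons_succ, List.eraseIdx_cons_zero, NF.inn] at he
            omega
          | cons z l'' =>
            simp only [List.eraseIdx_cons_succ, List.eraseIdx_cons_zero, NF.inn, NF.wd] at he ⊢
            refine ⟨by simp, ?_⟩
            have hv : val π (F.nf (x⁻¹ * y) ++ F.nf (y⁻¹ * z)) = x⁻¹ * z := by
              rw [gr_val_append, F.val_nf, F.val_nf]
              group
            have hl : (F.nf (val π (F.nf (x⁻¹ * y) ++ F.nf (y⁻¹ * z)))).length =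
                (F.nf (x⁻¹ * y) ++ F.nf (y⁻¹ * z)).length := by
              rw [hv, List.length_append]
              simp only [NF.l] at he
              omega
            by_cases hc : F.nf (val π (F.nf (x⁻¹ * y) ++ F.nf (y⁻¹ * z))) =
                F.nf (x⁻¹ * y) ++ F.nf (y⁻¹ * z)
            · left
              rw [hv] at hc
              rw [hc, List.append_assoc]
            · right
              have h3 := F.rk_lt _ hl hc
              have h4 := F.rk_app [] (F.wd (z :: l'')) _ _ hl h3
              rw [hv] at h4
              simpa only [List.nil_append, List.append_assoc] using h4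
        · have hi' : i + 1 < (y :: l').length := by
            simp only [List.length_cons] at hi ⊢
            omega
          have h2' : 2 ≤ (y :: l').length := by omega
          have he' : F.inn ((y :: l').eraseIdx (i + 1)) = F.inn (y :: l') := by
            simp only [List.eraseIdx_cons_succ, NF.inn] at he ⊢
            omega
          obtain ⟨h3, h4⟩ := ih (i + 1) hnd' h2' hi' he'
          simp only [List.eraseIdx_cons_succ, NF.wd] at h3 h4 ⊢
          refine ⟨by simp, ?_⟩
          rcases h4 with h4 | h4
          · left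
            rw [h4]
          · right
            have hlen : (F.wd (y :: l'.eraseIdx i)).length = (F.wd (y :: l')).length := by
              rw [← F.inn_eq, ← F.inn_eq]
              simpa only [List.eraseIdx_cons_succ] using he'
            have h5 := F.rk_app (F.nf (x⁻¹ * y)) [] _ _ hlen h4
            simpa only [List.append_nil] using h5

theorem gr_last_erase (F : NF A G π) : ∀ (l : List G) (i : ℕ), nd l → 2 ≤ l.length →
    i < l.length → F.inn (l.eraseIdx i) = F.inn l → (l.eraseIdx i).getLast? = l.getLast? := by
  intro l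
  induction l with
  | nil => intro i h1 h2; simp at h2
  | cons x l ih =>
    intro i hnd h2 hi he
    cases l with
    | nil => simp at h2
    | cons y l' =>
      have hxy : x ≠ y := by
        have : List.IsChain (· ≠ ·) (x :: y :: l') := hnd
        rw [List.isChain_cons_cons] at this
        exact this.1
      have hnd' : nd (y :: l') := by
        have : List.IsChain (· ≠ ·) (x :: y :: l') := hnd
        rw [List.isChain_cons_cons] at this
        exact this.2
      have hpos : 0 < F.l (x⁻¹ * y) := by
        rcases Nat.eq_zero_or_pos (F.l (x⁻¹ * y)) with h | h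
        · exact absurd (inv_mul_eq_one.1 (F.l_eq_zero h)) hxy
        · exact h
      rcases i with _ | i
      · exfalso
        simp only [List.eraseIdx_cons_zero, NF.inn] at he
        omega
      · rcases i with _ | i
        · cases l' with
          | nil =>
            exfalso
            simp only [List.eraseIdx_cons_succ, List.eraseIdx_cons_zero, NF.inn] at he
            omega
          | cons z l'' =>
            simp only [List.eraseIdx_cons_succ, List.eraseIdx_cons_zero]
            rw [List.getLast?_cons_cons, List.getLast?_cons_cons, List.getLast?_cons_cons]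
        · have hi' : i + 1 < (y :: l').length := by
            simp only [List.length_cons] at hi ⊢
            omega
          have h2' : 2 ≤ (y :: l').length := by omega
          have he' : F.inn ((y :: l').eraseIdx (i + 1)) = F.inn (y :: l') := by
            simp only [List.eraseIdx_cons_succ, NF.inn] at he ⊢
            omega
          have h3 := ih (i + 1) hnd' h2' hi' he'
          simp only [List.eraseIdx_cons_succ] at h3 ⊢
          rw [List.getLast?_cons_cons, List.getLast?_cons_cons]
          exact h3

theorem gr_face_support (F : NF A G π) (q n : ℕ) (c : Ch G) (x : G) (w : List A)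
    (hc : ∀ l ∈ c.support, nd l ∧ l.length = n + 2 ∧ l.head? = some x ∧ F.wd l = w)
    (hw : w.length = q) (m : List G) (hm : m ∈ (D c).support) (hq : F.inn m = q) :
    m.head? = some x ∧ (F.wd m = w ∨ F.rk (F.wd m) < F.rk w) := by
  obtain ⟨hnd, l, hl, i, hi, rfl⟩ := mem_support_D hm
  obtain ⟨h1, h2, h3, h4⟩ := hc l hl
  have he : F.inn (l.eraseIdx i) = F.inn l := by
    rw [hq, F.inn_eq l, h4, hw]
  obtain ⟨h5, h6⟩ := gr_face F l i h1 (by omega) hi he
  rw [h5, h3, ← h4]
  exact ⟨rfl, h6⟩

theorem gr_fil_D_fil_D (F : NF A G π) (q : ℕ) (c : Ch G)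
    (hc : ∀ l ∈ c.support, F.inn l = q) :
    fil (fun l => F.inn l = q) (D (fil (fun l => F.inn l = q) (D c))) = 0 := by
  have h1 : D c = fil (fun l => F.inn l = q) (D c) + (D c - fil (fun l => F.inn l = q) (D c)) := by
    abel
  have h2 : fil (fun l => F.inn l = q) (D (D c - fil (fun l => F.inn l = q) (D c))) = 0 := by
    apply fil_eq_zero
    intro m hm hq
    obtain ⟨hnd, l, hl, i, hi, rfl⟩ := mem_support_D hm
    have h3 : F.inn l ≤ q := by
      by_contra hcon
      have h4 : (D c) l = 0 := by
        by_contra hne
        obtain ⟨_, l', hl', j, hj, rfl⟩ := mem_support_D (Finsupp.mem_support_iff.2 hne)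
        have := gr_inn_erase_le F l' j
        rw [hc l' hl'] at this
        omega
      rw [Finsupp.mem_support_iff, Finsupp.sub_apply, h4,
        fil_apply_of_not _ _ _ (by omega : ¬ F.inn l = q)] at hl
      simp at hl
    have h5 : F.inn l ≠ q := by
      intro h6
      rw [Finsupp.mem_support_iff, Finsupp.sub_apply, fil_apply _ _ _ h6] at hl
      simp at hl
    have h6 := gr_inn_erase_le F l i
    omega
  have h3 : fil (fun l => F.inn l = q) (D (D c)) = 0 := by
    rw [D_D, map_zero]
  rw [h1, map_add, map_add, h2, add_zero] at h3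
  exact h3

theorem gr_step (F : NF A G π) (q n : ℕ) (hn : n * F.N + 1 < q) (r : ℕ) (ζ : Ch G)
    (hζ : ∀ l ∈ ζ.support, nd l ∧ l.length = n + 2 ∧ F.inn l = q)
    (hr : ∀ l ∈ ζ.support, F.rk (F.wd l) ≤ r)
    (hz : fil (fun l => F.inn l = q) (D ζ) = 0) :
    ∃ η : Ch G, (∀ l ∈ η.support, nd l ∧ l.length = n + 3 ∧ F.inn l = q ∧
      ∃ l' ∈ ζ.support, l.head? = l'.head? ∧ l.getLast? = l'.getLast?) ∧
      ∀ m ∈ (ζ + fil (fun l => F.inn l = q) (D η)).support, F.inn m = q ∧ F.rk (F.wd m) < r := by
  classical
  -- the pairs
  set PP : Finset (G × List A) :=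
    (ζ.support.filter (fun l => F.rk (F.wd l) = r)).image (fun l => (l.headD 1, F.wd l)) with hPP
  have hP : ∀ p ∈ PP, ∃ l ∈ ζ.support, l.head? = some p.1 ∧ F.wd l = p.2 ∧
      F.rk p.2 = r ∧ p.2.length = q := by
    intro p hp
    rw [hPP, Finset.mem_image] at hp
    obtain ⟨l, hl, rfl⟩ := hp
    rw [Finset.mem_filter] at hl
    obtain ⟨h1, h2, h3⟩ := hζ l hl.1
    refine ⟨l, hl.1, ?_, rfl, hl.2, ?_⟩
    · cases l with
      | nil => simp at h2
      | cons a l => simp
    · rw [← F.inn_eq]
      exact h3
  have hP' : ∀ l ∈ ζ.support, F.rk (F.wd l) = r → ∀ x, l.head? = some x → (x, F.wd l) ∈ PP := by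
    intro l hl hr' x hx
    rw [hPP, Finset.mem_image]
    refine ⟨l, Finset.mem_filter.2 ⟨hl, hr'⟩, ?_⟩
    cases l with
    | nil => simp at hx
    | cons a l =>
      simp only [List.head?_cons, Option.some.injEq] at hx
      simp [hx]
  have hex : ∀ p : G × List A, ∃ η : Ch G, p ∈ PP →
      ((∀ l ∈ η.support, nd l ∧ l.length = n + 3 ∧ l.head? = some p.1 ∧ F.wd l = p.2) ∧
      fil (fun l => l.head? = some p.1 ∧ F.wd l = p.2) (D η) =
        fil (fun l => l.head? = some p.1 ∧ F.wd l = p.2) ζ) := by
    intro p
    by_cases hp : p ∈ PP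
    · obtain ⟨l0, hl0, h1, h2, h3, h4⟩ := hP p hp
      obtain ⟨η, hη1, hη2⟩ := word_exact F p.1 p.2 n (by rw [h4]; exact hn)
        (fil (fun l => l.head? = some p.1 ∧ F.wd l = p.2) ζ) (by
          intro l hl
          rw [mem_support_fil] at hl
          obtain ⟨h5, h6, h7⟩ := hζ l hl.1
          exact ⟨h5, h6, hl.2.1, hl.2.2⟩) (by
          have h5 : ζ = fil (fun l => l.head? = some p.1 ∧ F.wd l = p.2) ζ +
              (ζ - fil (fun l => l.head? = some p.1 ∧ F.wd l = p.2) ζ) := by abel
          have h6 : fil (fun l => l.head? = some p.1 ∧ F.wd l = p.2)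
              (D (ζ - fil (fun l => l.head? = some p.1 ∧ F.wd l = p.2) ζ)) = 0 := by
            apply fil_eq_zero
            rintro m hm ⟨hm1, hm2⟩
            obtain ⟨hnd, l, hl, i, hi, rfl⟩ := mem_support_D hm
            have hl' : l ∈ ζ.support ∧ ¬ (l.head? = some p.1 ∧ F.wd l = p.2) := by
              constructor
              · rw [Finsupp.mem_support_iff, Finsupp.sub_apply] at hl
                rw [Finsupp.mem_support_iff]
                intro h0
                by_cases hc : l.head? = some p.1 ∧ F.wd l = p.2
                · rw [fil_apply _ _ _ hc] at hl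
                  simp at hl
                · rw [fil_apply_of_not _ _ _ hc, h0] at hl
                  simp at hl
              · intro hc
                rw [Finsupp.mem_support_iff, Finsupp.sub_apply, fil_apply _ _ _ hc] at hl
                simp at hl
            obtain ⟨h7, h8, h9⟩ := hζ l hl'.1
            have he : F.inn (l.eraseIdx i) = F.inn l := by
              rw [h9, F.inn_eq, hm2, h4]
            obtain ⟨h10, h11⟩ := gr_face F l i h7 (by omega) hi he
            rcases h11 with h11 | h11
            · apply hl'.2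
              rw [← h10, ← h11]
              exact ⟨hm1, hm2⟩
            · rw [hm2, h3] at h11
              have := hr l hl'.1
              omega
          have h7 : fil (fun l => l.head? = some p.1 ∧ F.wd l = p.2) (D ζ) = 0 := by
            apply fil_eq_zero
            rintro m hm ⟨hm1, hm2⟩
            have h8 : F.inn m = q := by rw [F.inn_eq, hm2, h4]
            have h9 : fil (fun l => F.inn l = q) (D ζ) m = D ζ m := fil_apply _ _ _ h8
            rw [hz] at h9
            rw [Finsupp.mem_support_iff] at hm
            exact hm h9.symm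
          rw [h5, map_add, map_add, h6, add_zero] at h7
          exact h7)
      exact ⟨η, fun _ => ⟨hη1, hη2⟩⟩
    · exact ⟨0, fun h => absurd h hp⟩
  choose f hf using hex
  have hsup : ∀ l, l ∈ (∑ p ∈ PP, f p).support → ∃ p ∈ PP, l ∈ (f p).support := by
    intro l hl
    rw [Finsupp.mem_support_iff, Finsupp.finsetSum_apply] at hl
    obtain ⟨p, hp, hne⟩ := Finset.exists_ne_zero_of_sum_ne_zero hl
    exact ⟨p, hp, Finsupp.mem_support_iff.2 hne⟩
  refine ⟨∑ p ∈ PP, f p, ?_, ?_⟩
  · intro l hl
    obtain ⟨p, hp, hl'⟩ := hsup l hl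
    obtain ⟨h1, h2, h3, h4⟩ := (hf p hp).1 l hl'
    obtain ⟨l0, hl0, h5, h6, h7, h8⟩ := hP p hp
    refine ⟨h1, h2, by rw [F.inn_eq, h4, h8], l0, hl0, by rw [h3, h5], ?_⟩
    rw [gr_last F l _ h3, gr_last F l0 _ h5, h4, h6]
  · intro m hm
    have hq : F.inn m = q := by
      by_contra hcon
      rw [Finsupp.mem_support_iff, Finsupp.add_apply, fil_apply_of_not _ _ _ hcon, add_zero] at hm
      exact hcon (hζ m (Finsupp.mem_support_iff.2 hm)).2.2
    refine ⟨hq, ?_⟩
    by_contra hcon
    rw [Finsupp.mem_support_iff, Finsupp.add_apply, fil_apply _ _ _ hq, map_sum,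
      Finsupp.finsetSum_apply] at hm
    apply hm
    -- only the pair of m contributes
    have hzero : ∀ p ∈ PP, ¬ (m.head? = some p.1 ∧ F.wd m = p.2) → D (f p) m = 0 := by
      intro p hp hne
      by_contra h0
      obtain ⟨l0, hl0, h5, h6, h7, h8⟩ := hP p hp
      obtain ⟨h1, h2⟩ := gr_face_support F q (n + 1) (f p) p.1 p.2 (hf p hp).1 h8 m
        (Finsupp.mem_support_iff.2 h0) hq
      rcases h2 with h2 | h2
      · exact hne ⟨h1, h2⟩
      · rw [h7] at h2
        exact hcon h2
    by_cases hm0 : ∃ p ∈ PP, m.head? = some p.1 ∧ F.wd m = p.2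
    · obtain ⟨p, hp, hp1, hp2⟩ := hm0
      rw [Finset.sum_eq_single p]
      · have h1 : fil (fun l => l.head? = some p.1 ∧ F.wd l = p.2) (D (f p)) m = D (f p) m :=
          fil_apply _ _ _ ⟨hp1, hp2⟩
        have h2 : fil (fun l => l.head? = some p.1 ∧ F.wd l = p.2) ζ m = ζ m :=
          fil_apply _ _ _ ⟨hp1, hp2⟩
        rw [← h1, (hf p hp).2, h2]
        exact CharTwo.add_self_eq_zero _
      · intro p' hp' hne
        apply hzero p' hp'
        rintro ⟨h1, h2⟩
        apply hne
        rw [hp1, Option.some.injEq] at h1
        rw [hp2] at h2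
        exact Prod.ext h1.symm h2.symm
      · intro h; exact absurd hp h
    · rw [Finset.sum_eq_zero, add_zero]
      · by_contra hne
        have hmem := Finsupp.mem_support_iff.2 hne
        obtain ⟨h1, h2, h3⟩ := hζ m hmem
        have h4 := hr m hmem
        obtain ⟨x, hx⟩ : ∃ x, m.head? = some x := by
          cases m with
          | nil => simp at h2
          | cons a l => exact ⟨a, by simp⟩
        exact hm0 ⟨(x, F.wd m), hP' m hmem (by omega) x hx, hx, rfl⟩
      · intro p hp
        apply hzero p hp
        intro h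
        exact hm0 ⟨p, hp, h⟩

theorem gr_aux (F : NF A G π) (q n : ℕ) (hn : n * F.N + 1 < q) : ∀ (r : ℕ) (ζ : Ch G),
    (∀ l ∈ ζ.support, nd l ∧ l.length = n + 2 ∧ F.inn l = q) →
    (∀ l ∈ ζ.support, F.rk (F.wd l) < r) →
    (fil (fun l => F.inn l = q) (D ζ) = 0) →
    ∃ η : Ch G, (∀ l ∈ η.support, nd l ∧ l.length = n + 3 ∧ F.inn l = q ∧
      ∃ l' ∈ ζ.support, l.head? = l'.head? ∧ l.getLast? = l'.getLast?) ∧
      fil (fun l => F.inn l = q) (D η) = ζ := by
  intro r
  induction r with
  | zero =>
    intro ζ hζ hr hz
    have : ζ = 0 := by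
      rw [← Finsupp.support_eq_empty, Finset.eq_empty_iff_forall_notMem]
      intro l hl
      exact absurd (hr l hl) (by omega)
    subst this
    exact ⟨0, by simp, by simp⟩
  | succ r ih =>
    intro ζ hζ hr hz
    obtain ⟨η, hη1, hη2⟩ := gr_step F q n hn r ζ hζ (fun l hl => by
      have := hr l hl
      omega) hz
    have hD : ∀ m ∈ (fil (fun l => F.inn l = q) (D η)).support, nd m ∧ m.length = n + 2 ∧
        F.inn m = q ∧ ∃ l' ∈ ζ.support, m.head? = l'.head? ∧ m.getLast? = l'.getLast? := by
      intro m hm
      rw [mem_support_fil] at hm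
      obtain ⟨hm, hq⟩ := hm
      obtain ⟨hnd, l, hl, i, hi, rfl⟩ := mem_support_D hm
      obtain ⟨h1, h2, h3, l', hl', h4, h5⟩ := hη1 l hl
      have he : F.inn (l.eraseIdx i) = F.inn l := by rw [hq, h3]
      obtain ⟨h6, h7⟩ := gr_face F l i h1 (by omega) hi he
      refine ⟨hnd, ?_, hq, l', hl', by rw [h6, h4], ?_⟩
      · rw [List.length_eraseIdx, if_pos hi]
        omega
      · rw [← h5]
        exact gr_last_erase F l i h1 (by omega) hi he
    obtain ⟨η', hη1', hη2'⟩ := ih (ζ + fil (fun l => F.inn l = q) (D η)) (by
      intro l hl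
      rcases mem_support_add hl with h | h
      · exact hζ l h
      · obtain ⟨h1, h2, h3, _⟩ := hD l h
        exact ⟨h1, h2, h3⟩) (fun l hl => (hη2 l hl).2) (by
      rw [map_add, map_add, hz, zero_add]
      exact gr_fil_D_fil_D F q η (fun l hl => (hη1 l hl).2.2.1))
    refine ⟨η + η', ?_, ?_⟩
    · intro l hl
      rcases mem_support_add hl with h | h
      · exact hη1 l h
      · obtain ⟨h1, h2, h3, l', hl', h4, h5⟩ := hη1' l h
        refine ⟨h1, h2, h3, ?_⟩
        rcases mem_support_add hl' with h' | h'
        · exact ⟨l', h', h4, h5⟩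
        · obtain ⟨_, _, _, l'', hl'', h6, h7⟩ := hD l' h'
          exact ⟨l'', hl'', by rw [h4, h6], by rw [h5, h7]⟩
    · rw [map_add, map_add, hη2', add_comm ζ, ← add_assoc, add_self, zero_add]

theorem graded_exact (F : NF A G π) (q n : ℕ) (hn : n * F.N + 1 < q) (ζ : Ch G)
    (hζ : ∀ l ∈ ζ.support, nd l ∧ l.length = n + 2 ∧ F.inn l = q)
    (hz : fil (fun l => F.inn l = q) (D ζ) = 0) :
    ∃ η : Ch G, (∀ l ∈ η.support, nd l ∧ l.length = n + 3 ∧ F.inn l = q ∧
      ∃ l' ∈ ζ.support, l.head? = l'.head? ∧ l.getLast? = l'.getLast?) ∧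
      fil (fun l => F.inn l = q) (D η) = ζ := by
  refine gr_aux F q n hn (ζ.support.sup (fun l => F.rk (F.wd l)) + 1) ζ hζ ?_ hz
  intro l hl
  have := Finset.le_sup (f := fun l => F.rk (F.wd l)) hl
  omega

end Graded

end Pool.Agent.VN
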