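import Pool.Agent.VN.Chain
import Pool.Agent.VN.NFBasic
import Pool.Agent.VN.Graded
/-!
# Micro acyclicity: cycles of micro cells bound micro cells
-/
namespace Pool.Agent.VN
open Pool.Agent.SLX

variable {A G : Type} [Group G] {π : A → G}

/-- Total length of the broken path `b, l₀, l₁, ...` followed by the cost `ψ` of the end point. -/
private def tt (F : NF A G π) (ψ : G → ℕ) : G → List G → ℕ
  | b, [] => ψ b
  | b, x :: l => F.l (b⁻¹ * x) + tt F ψ x l

private theorem tt_eq (F : NF A G π) (ψ : G → ℕ) (l : List G) (b x y : G)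
    (hx : l.head? = some x) (hy : l.getLast? = some y) :
    tt F ψ b l = F.l (b⁻¹ * x) + F.inn l + ψ y := by
  induction l generalizing b x with
  | nil => simp at hx
  | cons a l ih =>
    obtain rfl : a = x := by simpa using hx
    cases l with
    | nil =>
      obtain rfl : a = y := by simpa using hy
      simp [tt, NF.inn]
    | cons c l =>
      have h1 := ih a c rfl (by simpa using hy)
      rw [tt, h1, NF.inn]
      omega

private theorem tt_tri (F : NF A G π) (ψ : G → ℕ) (hψ : ∀ x y, ψ x ≤ F.l (x⁻¹ * y) + ψ y)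
    (l : List G) (b x : G) : tt F ψ b l ≤ F.l (b⁻¹ * x) + tt F ψ x l := by
  cases l with
  | nil => exact hψ b x
  | cons c l =>
    rw [tt, tt]
    have h := F.l_mul (b⁻¹ * x) (x⁻¹ * c)
    have e : b⁻¹ * x * (x⁻¹ * c) = b⁻¹ * c := by group
    rw [e] at h
    omega

private theorem tt_erase (F : NF A G π) (ψ : G → ℕ) (hψ : ∀ x y, ψ x ≤ F.l (x⁻¹ * y) + ψ y)
    (l : List G) (b : G) (i : ℕ) : tt F ψ b (l.eraseIdx i) ≤ tt F ψ b l := by
  induction l generalizing b i with
  | nil => simp
  | cons x l ih =>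
    cases i with
    | zero => exact tt_tri F ψ hψ l b x
    | succ i =>
      rw [List.eraseIdx_cons_succ, tt, tt]
      have := ih x i
      omega

private theorem inn_erase (F : NF A G π) (l : List G) (i : ℕ) :
    F.inn (l.eraseIdx i) ≤ F.inn l := by
  have h0 : ∀ (l : List G) (x : G), F.inn (x :: l) = tt F (fun _ => 0) x l := by
    intro l
    induction l with
    | nil => intro x; rfl
    | cons y l ih => intro x; rw [NF.inn, tt, ih]
  cases l with
  | nil => simp
  | cons x l =>
    cases i with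
    | zero =>
      cases l with
      | nil => simp [NF.inn]
      | cons y l => rw [List.eraseIdx_cons_zero, NF.inn]; omega
    | succ i =>
      rw [List.eraseIdx_cons_succ, h0, h0]
      exact tt_erase F _ (fun _ _ => Nat.zero_le _) l x i

private theorem cell_iff (F : NF A G π) (b : G) (ψ : G → ℕ) (m d k : ℕ) (hk : 0 < k)
    (l : List G) :
    Cell F b ψ m d k l ↔ nd l ∧ l.length = k ∧ F.inn l ≤ d ∧ tt F ψ b l ≤ m := by
  unfold Cell
  constructor
  · rintro ⟨h1, h2, h3, x, y, hx, hy, h4⟩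
    exact ⟨h1, h2, h3, by rw [tt_eq F ψ l b x y hx hy]; exact h4⟩
  · rintro ⟨h1, h2, h3, h4⟩
    refine ⟨h1, h2, h3, ?_⟩
    have hl : l ≠ [] := by
      rintro rfl
      simp at h2
      omega
    refine ⟨l.head hl, l.getLast hl, List.head?_eq_some_head hl, List.getLast?_eq_some_getLast hl, ?_⟩
    rw [← tt_eq F ψ l b _ _ (List.head?_eq_some_head hl) (List.getLast?_eq_some_getLast hl)]
    exact h4

private theorem step (F : NF A G π) (b : G) (ψ : G → ℕ)
    (hψ : ∀ x y, ψ x ≤ F.l (x⁻¹ * y) + ψ y) (m n d q : ℕ) (hd : n * F.N + 1 ≤ d) (hq : d ≤ q)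
    (ζ : Ch G) (hζ : ∀ l ∈ ζ.support, F.inn l ≤ d)
    (η : Ch G) (hη : ∀ l ∈ η.support, Cell F b ψ m (q + 1) (n + 2) l) (hD : D η = ζ) :
    ∃ η' : Ch G, (∀ l ∈ η'.support, Cell F b ψ m q (n + 2) l) ∧ D η' = ζ := by
  have hlow : ∀ c : Ch G, (∀ l ∈ c.support, F.inn l ≤ q) →
      fil (fun l => F.inn l = q + 1) (D c) = 0 := by
    intro c hc
    refine fil_eq_zero _ _ fun l hl => ?_
    obtain ⟨-, l', hl', i, -, rfl⟩ := mem_support_D hl
    have h1 := hc l' hl'
    have h2 := inn_erase F l' i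
    omega
  set ηt := fil (fun l => F.inn l = q + 1) η with hηt
  set ηl := fil (fun l => ¬ F.inn l = q + 1) η with hηl
  have hsplit : ∀ (P : List G → Prop) (c : Ch G), fil P c + fil (fun l => ¬ P l) c = c := by
    intro P c
    ext l
    rw [Finsupp.add_apply]
    by_cases h : P l
    · rw [fil_apply P c l h, fil_apply_of_not (fun l => ¬ P l) c l (not_not.2 h), add_zero]
    · rw [fil_apply_of_not P c l h, fil_apply (fun l => ¬ P l) c l h, zero_add]
  have hs : ηt + ηl = η := hsplit _ η
  have ht : ∀ l ∈ ηt.support, nd l ∧ l.length = n + 2 ∧ F.inn l = q + 1 := by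
    intro l hl
    rw [hηt, mem_support_fil] at hl
    have := hη l hl.1
    exact ⟨this.1, this.2.1, hl.2⟩
  have hz : fil (fun l => F.inn l = q + 1) (D ηt) = 0 := by
    have e : D ηt = ζ + D ηl := by
      rw [← hD, ← hs, map_add, add_assoc, add_self, add_zero]
    rw [e, map_add, hlow ηl, add_zero]
    · refine fil_eq_zero _ _ fun l hl => ?_
      have := hζ l hl
      omega
    · intro l hl
      rw [hηl, mem_support_fil] at hl
      have h1 := (hη l hl.1).2.2.1
      have h2 := hl.2
      omega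
  obtain ⟨θ, hθ, hθD⟩ := graded_exact F (q + 1) n (by omega) ηt ht hz
  refine ⟨η + D θ, ?_, by rw [map_add, D_D, add_zero, hD]⟩
  have e : η + D θ = ηl + fil (fun l => ¬ F.inn l = q + 1) (D θ) := by
    have h1 := hsplit (fun l => F.inn l = q + 1) (D θ)
    rw [hθD] at h1
    calc η + D θ = (ηt + ηl) + (ηt + fil (fun l => ¬ F.inn l = q + 1) (D θ)) := by rw [hs, h1]
      _ = (ηt + ηt) + (ηl + fil (fun l => ¬ F.inn l = q + 1) (D θ)) := by abel
      _ = ηl + fil (fun l => ¬ F.inn l = q + 1) (D θ) := by rw [add_self, zero_add]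
  intro l hl
  rw [e] at hl
  rcases mem_support_add hl with hl | hl
  · rw [hηl, mem_support_fil] at hl
    have h1 := hη l hl.1
    have h2 := hl.2
    refine ⟨h1.1, h1.2.1, ?_, h1.2.2.2⟩
    have := h1.2.2.1
    omega
  · rw [mem_support_fil] at hl
    obtain ⟨hl1, hl2⟩ := hl
    obtain ⟨hnd, l', hl', i, hi, rfl⟩ := mem_support_D hl1
    obtain ⟨h1, h2, h3, l'', hl'', h4, h5⟩ := hθ l' hl'
    rw [cell_iff F b ψ m q (n + 2) (by omega)]
    have hlen : (l'.eraseIdx i).length = n + 2 := by
      rw [List.length_eraseIdx_of_lt hi, h2]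
      rfl
    have hinn := inn_erase F l' i
    refine ⟨hnd, hlen, by omega, ?_⟩
    have htt : tt F ψ b l' = tt F ψ b l'' := by
      have hne : l' ≠ [] := by
        rintro rfl
        simp at h2
      have a1 := List.head?_eq_some_head hne
      have a2 := List.getLast?_eq_some_getLast hne
      rw [tt_eq F ψ l' b _ _ a1 a2, tt_eq F ψ l'' b _ _ (h4 ▸ a1) (h5 ▸ a2), h3, (ht l'' hl'').2.2]
    have h6 : tt F ψ b l'' ≤ m := by
      rw [hηt, mem_support_fil] at hl''
      exact ((cell_iff F b ψ m (q + 1) (n + 2) (by omega) l'').1 (hη l'' hl''.1)).2.2.2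
    have h7 := tt_erase F ψ hψ l' b i
    omega

theorem micro (F : NF A G π) (b : G) (ψ : G → ℕ) (hψ : ∀ x y, ψ x ≤ F.l (x⁻¹ * y) + ψ y)
    (m n d : ℕ) (hd : n * F.N + 1 ≤ d) (ζ : Ch G)
    (hζ : ∀ l ∈ ζ.support, Cell F b ψ m d (n + 1) l) (hz : D ζ = 0) :
    ∃ η : Ch G, (∀ l ∈ η.support, Cell F b ψ m d (n + 2) l) ∧ D η = ζ := by
  -- a first filling with cells of inner length at most `m`
  have h0 : ∃ η : Ch G, (∀ l ∈ η.support, Cell F b ψ m (d + m) (n + 2) l) ∧ D η = ζ := by
    refine ⟨fil nd (cone b ζ), ?_, ?_⟩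
    · intro l hl
      rw [mem_support_fil] at hl
      obtain ⟨l', hl', rfl⟩ := mem_support_cone hl.1
      have h1 := (cell_iff F b ψ m d (n + 1) (by omega) l').1 (hζ l' hl')
      rw [cell_iff F b ψ m (d + m) (n + 2) (by omega)]
      refine ⟨hl.2, by simp [h1.2.1], ?_, ?_⟩
      · cases l' with
        | nil => simp [NF.inn]
        | cons x l' =>
          rw [NF.inn]
          have h2 := h1.2.2.1
          have h3 := h1.2.2.2
          rw [tt] at h3
          omega
      · rw [tt, inv_mul_cancel, F.l_one, zero_add]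
        exact h1.2.2.2
    · rw [D_fil, D_cone, hz, map_zero, map_zero, add_zero]
      exact fil_eq_self _ _ fun l hl => (hζ l hl).1
  -- remove the large cells
  have key : ∀ j : ℕ, (∃ η : Ch G, (∀ l ∈ η.support, Cell F b ψ m (d + j) (n + 2) l) ∧ D η = ζ) →
      ∃ η : Ch G, (∀ l ∈ η.support, Cell F b ψ m d (n + 2) l) ∧ D η = ζ := by
    intro j
    induction j with
    | zero => exact id
    | succ j ih =>
      rintro ⟨η, hη, hD⟩
      exact ih (step F b ψ hψ m n d (d + j) hd (by omega) ζ (fun l hl => (hζ l hl).2.2.1) η hη hD)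
  exact key m h0

end Pool.Agent.VN
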