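import Pool.Agent.VN.End2
import Pool.Agent.VN.NFBasic
/-!
# A virtually nilpotent group with a finite complete ShortLex system is virtually abelian
-/
namespace Pool.Agent.VN
open Pool.Agent.SLX

theorem main {G : Type} [Group G] (hG : Group.IsVirtuallyNilpotent G) (h : HasSystem G) :
    ∃ H : Subgroup G, H.FiniteIndex ∧ ∀ a ∈ H, ∀ b ∈ H, a * b = b * a := by
  obtain ⟨N, hN, hfi⟩ := hG
  have := hN
  have := hfi
  obtain ⟨A, hA, hlo, π, E, hE⟩ := h
  obtain ⟨F⟩ := exists_NF hE
  exact vab F N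

end Pool.Agent.VN
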