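import Pool.Agent.VN.Half

/-!
# The end: powers of elements with finitely many conjugates, virtually nilpotent groups
-/

namespace Pool.Agent.VN
open Pool.Agent.SLX

variable {A G : Type} [Group G] {π : A → G}

theorem fc_len [Finite A] (F : NF A G π) {D : ℕ} (hP : VNP.PLab G D) (z : G)
    (hz : (Set.range (fun g : G => g⁻¹ * z * g)).Finite) :
    ∃ C3 : ℕ, ∀ m, 1 ≤ m → 2 * F.l (z ^ m) ≤ F.l (z ^ (2 * m)) + 2 * C3 := by
  obtain ⟨C, hC⟩ := half_len F hP
  obtain ⟨C0, hC0⟩ := VNP.conj_len F.l F.l_mul z hz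
  refine ⟨3 * C0 + C, fun m _ => ?_⟩
  have h1 := hC (z ^ m) (F.l (z ^ (2 * m)) + 2 * C0) (F.l (z ^ m) - 2 * C0) ?_ ?_
  · omega
  · intro x
    have h2 : z ^ m * z ^ m = z ^ (2 * m) := by
      rw [two_mul, pow_add]
    rw [h2]
    exact (hC0 (2 * m) x).1
  · intro x
    have := (hC0 m x).2
    omega

/-- A group with normal forms over a finite alphabet is finitely generated. -/
theorem fg_of_nf [Finite A] (F : NF A G π) : Group.FG G := by
  rw [Group.fg_iff]
  refine ⟨Set.range π, ?_, Set.finite_range π⟩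
  rw [eq_top_iff]
  intro g _
  rw [← F.val_nf g]
  unfold val
  apply Subgroup.list_prod_mem
  intro x hx
  rw [List.mem_map] at hx
  obtain ⟨a, _, rfl⟩ := hx
  exact Subgroup.subset_closure ⟨a, rfl⟩

theorem vab [Finite A] (F : NF A G π) (N : Subgroup G) [N.FiniteIndex]
    [Group.IsNilpotent N] : VNP.VAb G := by
  by_contra hcon
  have hfg : Group.FG G := fg_of_nf F
  have hfgN : Group.FG N := inferInstance
  obtain ⟨D, hD⟩ := VNP.plab_vnilp N
  obtain ⟨z, x, y, S, hS, hz1, hz2, hz3⟩ := VNP.dist_vnilp G N hcon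
  obtain ⟨C3, hC3⟩ := fc_len F hD z hz2
  exact VNP.end_group F.l F.l_one F.l_mul F.finite_ball z x y S hS hz1 hz3 C3 hC3

end Pool.Agent.VN
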