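import Pool.Agent.VN.IC
/-!
# Abelian and solvable subgroups of groups with many conjugacy classes
-/
namespace Pool.Agent.VN
open Pool.Agent.SLX

section icab
variable {G : Type} [Group G] (l : G → ℕ) (hone : l 1 = 0)
  (hmul : ∀ g h, l (g * h) ≤ l g + l h) {κ : ℕ} (hinv : ∀ g, l g⁻¹ ≤ κ * l g)
  (hcl : ∀ T : ℕ, ∃ S : Set G, S.Finite ∧ ∀ w, TauLe l T w → ∃ x, x⁻¹ * w * x ∈ S)

theorem tauLe_of_tors {e : ℕ} (he : 0 < e) {t : G} (ht : t ^ e = 1) : TauLe l 1 t := by
  refine ⟨∑ r ∈ Finset.range e, l (t ^ r), fun n => ?_⟩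
  have h1 : t ^ n = t ^ (n % e) := by
    conv_lhs => rw [← Nat.div_add_mod n e]
    rw [pow_add, pow_mul, ht, one_pow, one_mul]
  rw [h1]
  have h2 : l (t ^ (n % e)) ≤ ∑ r ∈ Finset.range e, l (t ^ r) :=
    Finset.single_le_sum (f := fun r => l (t ^ r)) (fun _ _ => Nat.zero_le _)
      (Finset.mem_range.2 (Nat.mod_lt _ he))
  omega

include hcl in
/-- The torsion of abelian subgroups is finite. -/
theorem ic_tors (hm : ManyClasses G) (A : Subgroup G) (hab : ∀ a ∈ A, ∀ b ∈ A, a * b = b * a)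
    {e : ℕ} (he : 0 < e) : {a : G | a ∈ A ∧ a ^ e = 1}.Finite := by
  by_contra hinf
  let T : Subgroup G :=
    { carrier := {a : G | a ∈ A ∧ a ^ e = 1}
      one_mem' := ⟨A.one_mem, one_pow e⟩
      mul_mem' := by
        rintro a b ⟨ha, ha'⟩ ⟨hb, hb'⟩
        have hc : Commute a b := hab a ha b hb
        exact ⟨A.mul_mem ha hb, by rw [hc.mul_pow, ha', hb', one_mul]⟩
      inv_mem' := by
        rintro a ⟨ha, ha'⟩
        exact ⟨A.inv_mem ha, by rw [inv_pow, ha', inv_one]⟩ }
  obtain ⟨S, hS, hS1⟩ := hcl 1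
  obtain ⟨a, ha, hax⟩ := hm T (fun a ha b hb => hab a ha.1 b hb.1) hinf S hS
  obtain ⟨x, hx⟩ := hS1 a (tauLe_of_tors l he ha.2)
  exact hax x hx

include hone hmul in
theorem l_zpow_le (g : G) (z : ℤ) : l (g ^ z) ≤ z.natAbs * (l g + l g⁻¹) := by
  rcases Int.eq_nat_or_neg z with ⟨k, hk | hk⟩
  · rw [hk, zpow_natCast, Int.natAbs_natCast]
    exact (l_pow_le l hone hmul g k).trans (Nat.mul_le_mul_left _ (Nat.le_add_right _ _))
  · rw [hk, zpow_neg, zpow_natCast, Int.natAbs_neg, Int.natAbs_natCast, ← inv_pow]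
    exact (l_pow_le l hone hmul g⁻¹ k).trans (Nat.mul_le_mul_left _ (Nat.le_add_left _ _))

include hone hmul in
theorem l_hom_abs {r : ℕ} (φ : Multiplicative (Fin r → ℤ) →* G) (s : Finset (Fin r)) :
    ∀ v : Fin r → ℤ, (∀ i, i ∉ s → v i = 0) →
    l (φ (Multiplicative.ofAdd v)) ≤
      ∑ i ∈ s, (v i).natAbs * (l (φ (Multiplicative.ofAdd (Pi.single i 1))) +
        l (φ (Multiplicative.ofAdd (Pi.single i 1)))⁻¹) := by
  classical
  induction s using Finset.induction_on with
  | empty =>
    intro v hv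
    have h1 : v = 0 := funext fun i => hv i (Finset.notMem_empty i)
    rw [h1, ofAdd_zero, map_one, hone]
    exact Nat.zero_le _
  | insert i s hi ih =>
    intro v hvs
    have h1 : v = (v i) • Pi.single i 1 + Function.update v i 0 := by
      funext j
      rw [Pi.add_apply, Pi.smul_apply]
      by_cases hj : j = i
      · subst hj
        rw [Pi.single_eq_same, Function.update_self, smul_eq_mul, mul_one, add_zero]
      · rw [Pi.single_eq_of_ne hj, Function.update_of_ne hj, smul_zero, zero_add]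
    have h2 := ih (Function.update v i 0) (fun j hj => by
      by_cases hj' : j = i
      · subst hj'
        rw [Function.update_self]
      · rw [Function.update_of_ne hj']
        apply hvs
        simp [hj, hj'])
    rw [Finset.sum_insert hi]
    have h3 : ∑ j ∈ s, (Function.update v i 0 j).natAbs *
        (l (φ (Multiplicative.ofAdd (Pi.single j 1))) +
          l (φ (Multiplicative.ofAdd (Pi.single j 1)))⁻¹) =
        ∑ j ∈ s, (v j).natAbs * (l (φ (Multiplicative.ofAdd (Pi.single j 1))) +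
          l (φ (Multiplicative.ofAdd (Pi.single j 1)))⁻¹) := by
      apply Finset.sum_congr rfl
      intro j hj
      rw [Function.update_of_ne]
      rintro rfl
      exact hi hj
    rw [h3] at h2
    have h4 : φ (Multiplicative.ofAdd v) =
        φ (Multiplicative.ofAdd (Pi.single i 1)) ^ (v i) *
          φ (Multiplicative.ofAdd (Function.update v i 0)) := by
      conv_lhs => rw [h1]
      rw [ofAdd_add, ofAdd_zsmul, map_mul, map_zpow]
    rw [h4]
    have h5 := hmul (φ (Multiplicative.ofAdd (Pi.single i 1)) ^ (v i))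
      (φ (Multiplicative.ofAdd (Function.update v i 0)))
    have h6 := l_zpow_le l hone hmul (φ (Multiplicative.ofAdd (Pi.single i 1))) (v i)
    omega

/-- Two integers with the same box. -/
theorem box_eq {m n X Y : ℤ} (hn : 0 < n) (h : m * X / n = m * Y / n) :
    m * (X - Y) < n ∧ m * (Y - X) < n := by
  have h1 := Int.mul_ediv_add_emod (m * X) n
  have h2 := Int.mul_ediv_add_emod (m * Y) n
  have h3 := Int.emod_nonneg (m * X) hn.ne'
  have h4 := Int.emod_nonneg (m * Y) hn.ne'
  have h5 := Int.emod_lt_of_pos (m * X) hn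
  have h6 := Int.emod_lt_of_pos (m * Y) hn
  rw [h] at h1
  constructor
  · have : m * (X - Y) = m * X - m * Y := by ring
    omega
  · have : m * (Y - X) = m * Y - m * X := by ring
    omega

include hone hmul in
/-- Dirichlet: a maximal independent family generates a subgroup of bounded exponent. -/
theorem ic_exp {e : ℕ} (he : 0 < e) (htr : ∀ w : G, w ^ e ≠ 1 → ∀ n : ℕ, n ≤ e * l (w ^ n))
    {r : ℕ} (φ : Multiplicative (Fin r → ℤ) →* G) (A : Subgroup G)
    (hab : ∀ a ∈ A, ∀ b ∈ A, a * b = b * a) (hφA : ∀ v, φ v ∈ A)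
    (hφ : ∀ a ∈ A, ∃ n : ℕ, 0 < n ∧ ∃ v, a ^ n = φ v) :
    ∃ E : ℕ, 0 < E ∧ ∀ a ∈ A, ∃ v, a ^ E = φ v := by
  classical
  set c : Fin r → ℕ := fun i => l (φ (Multiplicative.ofAdd (Pi.single i 1))) +
    l (φ (Multiplicative.ofAdd (Pi.single i 1)))⁻¹ with hc
  set C : ℕ := ∑ i, c i with hC
  set m : ℕ := e * C + 1 with hm
  have hm0 : 0 < m := Nat.succ_pos _
  refine ⟨e * (m ^ r).factorial, Nat.mul_pos he (Nat.factorial_pos _), ?_⟩
  intro a ha
  obtain ⟨n, hn, v, hv⟩ := hφ a ha
  have hn' : (0 : ℤ) < n := by exact_mod_cast hn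
  set X : ℕ → Fin r → ℤ := fun k i => ((k : ℤ) * Multiplicative.toAdd v i) % n with hX
  have hbox : ∀ k i, 0 ≤ (m : ℤ) * X k i / n ∧ (m : ℤ) * X k i / n < m := by
    intro k i
    have h1 := Int.emod_nonneg ((k : ℤ) * Multiplicative.toAdd v i) hn'.ne'
    have h2 := Int.emod_lt_of_pos ((k : ℤ) * Multiplicative.toAdd v i) hn'
    constructor
    · apply Int.ediv_nonneg
      · exact mul_nonneg (Int.natCast_nonneg _) h1
      · exact hn'.le
    · apply Int.ediv_lt_of_lt_mul hn'
      have hm' : (0 : ℤ) < m := by exact_mod_cast hm0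
      exact mul_lt_mul_of_pos_left h2 hm'
  set box : Fin (m ^ r + 1) → (Fin r → Fin m) := fun k i =>
    ⟨((m : ℤ) * X k i / n).toNat, by
      have := hbox k i
      omega⟩ with hboxd
  obtain ⟨x, y, hxy, hbxy⟩ := Fintype.exists_ne_map_eq_of_card_lt box (by
    rw [Fintype.card_fun, Fintype.card_fin, Fintype.card_fin, Fintype.card_fin]
    exact Nat.lt_succ_self _)
  -- the key step for `x < y`
  have key : ∀ x y : ℕ, x < y → y ≤ m ^ r → (∀ i, (m : ℤ) * X x i / n = (m : ℤ) * X y i / n) →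
      ∃ w, a ^ (e * (m ^ r).factorial) = φ w := by
    intro x y hxy hy hb
    obtain ⟨j, hj⟩ : ∃ j, y = x + j := ⟨y - x, by omega⟩
    have hj0 : 0 < j := by omega
    set z : Fin r → ℤ := fun i => ((y : ℤ) * Multiplicative.toAdd v i) / n -
      ((x : ℤ) * Multiplicative.toAdd v i) / n with hz
    set d : Fin r → ℤ := fun i => X y i - X x i with hd
    have hjd : ∀ i, (j : ℤ) * Multiplicative.toAdd v i - n * z i = d i := by
      intro i
      have h1 := Int.mul_ediv_add_emod ((y : ℤ) * Multiplicative.toAdd v i) n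
      have h2 := Int.mul_ediv_add_emod ((x : ℤ) * Multiplicative.toAdd v i) n
      simp only [hz, hd, hX]
      have h3 : (j : ℤ) = y - x := by rw [hj]; push_cast; ring
      rw [h3]
      linarith
    set δ : G := a ^ j * φ (Multiplicative.ofAdd (-z)) with hδ
    have hcm : ∀ k : ℕ, Commute (a ^ j) (φ (Multiplicative.ofAdd (-z))) := fun _ =>
      hab _ (A.pow_mem ha j) _ (hφA _)
    have hδn : δ ^ n = φ (Multiplicative.ofAdd d) := by
      rw [hδ, (hcm 0).mul_pow, ← pow_mul, mul_comm j n, pow_mul, hv, ← map_pow, ← map_pow,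
        ← map_mul]
      congr 1
      apply Multiplicative.toAdd.injective
      funext i
      have h5 : Multiplicative.toAdd (v ^ j * (Multiplicative.ofAdd (-z)) ^ n) i =
          j • Multiplicative.toAdd v i + n • (-(z i)) := rfl
      rw [h5]
      have h6 : Multiplicative.toAdd (Multiplicative.ofAdd d) i = d i := rfl
      rw [h6, ← hjd i, nsmul_eq_mul, nsmul_eq_mul]
      ring
    have hlδ : m * l (δ ^ n) ≤ n * C := by
      rw [hδn]
      have h7 := l_hom_abs l hone hmul φ Finset.univ d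
        (fun i hi => absurd (Finset.mem_univ i) hi)
      have h8 : m * l (φ (Multiplicative.ofAdd d)) ≤ ∑ i, m * ((d i).natAbs * c i) := by
        rw [← Finset.mul_sum]
        exact Nat.mul_le_mul_left _ h7
      refine h8.trans ?_
      rw [hC, Finset.mul_sum]
      apply Finset.sum_le_sum
      intro i _
      rw [← mul_assoc]
      apply Nat.mul_le_mul_right
      obtain ⟨h9, h10⟩ := box_eq hn' (hb i)
      have h11 : (m : ℤ) * |d i| ≤ n := by
        rcases abs_cases (d i) with ⟨h12, _⟩ | ⟨h12, _⟩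
        · rw [h12, hd]
          simp only
          linarith
        · rw [h12, hd]
          simp only
          have : (m : ℤ) * -(X y i - X x i) = m * (X x i - X y i) := by ring
          linarith
      have h13 : ((m * (d i).natAbs : ℕ) : ℤ) ≤ (n : ℤ) := by
        push_cast
        exact h11
      exact_mod_cast h13
    have hδe : δ ^ e = 1 := by
      by_contra hne
      have h14 := htr δ hne n
      have h15 : m * n ≤ e * (n * C) := by
        calc m * n ≤ m * (e * l (δ ^ n)) := Nat.mul_le_mul_left _ h14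
          _ = e * (m * l (δ ^ n)) := by ring
          _ ≤ e * (n * C) := Nat.mul_le_mul_left _ hlδ
      have h16 : m * n = e * (n * C) + n := by
        rw [hm]
        ring
      omega
    have hae : a ^ (j * e) = φ (Multiplicative.ofAdd z ^ e) := by
      rw [hδ, (hcm 0).mul_pow, ← pow_mul] at hδe
      have h17 : φ (Multiplicative.ofAdd (-z)) ^ e = (φ (Multiplicative.ofAdd z ^ e))⁻¹ := by
        rw [ofAdd_neg, map_inv, inv_pow, map_pow]
      rw [h17] at hδe
      exact mul_inv_eq_one.1 hδe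
    have hdvd : j ∣ (m ^ r).factorial := Nat.dvd_factorial hj0 (by omega)
    obtain ⟨q, hq⟩ := hdvd
    refine ⟨(Multiplicative.ofAdd z ^ e) ^ q, ?_⟩
    rw [map_pow, ← hae, ← pow_mul, hq]
    congr 1
    ring
  have hbox' : ∀ i, (m : ℤ) * X x i / n = (m : ℤ) * X y i / n := by
    intro i
    have h1 := congrArg Fin.val (congrFun hbxy i)
    simp only [hboxd] at h1
    have h2 := hbox x i
    have h3 := hbox y i
    omega
  rcases lt_or_gt_of_ne (fun h => hxy (Fin.ext h) : (x : ℕ) ≠ y) with h | h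
  · exact key x y h (by omega) hbox'
  · exact key y x h (by omega) (fun i => (hbox' i).symm)

include hone hmul hinv in
/-- Only finitely many elements of an abelian subgroup have bounded translation number. -/
theorem ic_fin {e : ℕ} (he : 0 < e) (htr : ∀ w : G, w ^ e ≠ 1 → ∀ n : ℕ, n ≤ e * l (w ^ n))
    {r : ℕ} (φ : Multiplicative (Fin r → ℤ) →* G) (A : Subgroup G)
    (hab : ∀ a ∈ A, ∀ b ∈ A, a * b = b * a) (hφA : ∀ v, φ v ∈ A)
    (hφ : ∀ a ∈ A, ∃ n : ℕ, 0 < n ∧ ∃ v, a ^ n = φ v)
    (htor : ∀ E : ℕ, 0 < E → {a : G | a ∈ A ∧ a ^ E = 1}.Finite) (T : ℕ) :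
    {w : G | w ∈ A ∧ TauLe l T w}.Finite := by
  obtain ⟨E, hE, hEφ⟩ := ic_exp l hone hmul he htr φ A hab hφA hφ
  have hBfg : φ.range.FG := by
    have h1 : AddGroup.FG (Fin r → ℤ) := Module.Finite.iff_addGroup_fg.1 inferInstance
    have h2 : Group.FG (Multiplicative (Fin r → ℤ)) := inferInstance
    exact (Group.fg_iff_subgroup_fg _).1 (Group.fg_range φ)
  have hBab : ∀ a ∈ φ.range, ∀ b ∈ φ.range, a * b = b * a := by
    rintro _ ⟨a, rfl⟩ _ ⟨b, rfl⟩
    exact hab _ (hφA a) _ (hφA b)
  have hfinB := tau_finite l hmul hinv he htr φ.range hBfg hBab (T * E)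
  apply Set.Finite.of_finite_fibers (fun w : G => w ^ E)
  · refine hfinB.subset ?_
    rintro _ ⟨w, ⟨hwA, c, hc⟩, rfl⟩
    obtain ⟨v, hv⟩ := hEφ w hwA
    refine ⟨⟨v, hv.symm⟩, c, fun n => ?_⟩
    show l ((w ^ E) ^ n) ≤ T * E * n + c
    rw [← pow_mul, mul_assoc]
    exact hc (E * n)
  · rintro _ ⟨w0, ⟨hw0A, _⟩, rfl⟩
    refine ((htor E hE).image (fun b => w0 * b)).subset ?_
    rintro w ⟨⟨hwA, _⟩, hw⟩
    have hw' : w ^ E = w0 ^ E := hw
    refine ⟨w0⁻¹ * w, ⟨A.mul_mem (A.inv_mem hw0A) hwA, ?_⟩, ?_⟩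
    · have hc : Commute w0⁻¹ w := hab _ (A.inv_mem hw0A) _ hwA
      rw [hc.mul_pow, inv_pow, hw']
      group
    · show w0 * (w0⁻¹ * w) = w
      group

include hone hmul in
/-- Finite generation from the finiteness of the sets of elements of bounded translation
number. -/
theorem ab_fg_of_fin {r : ℕ} (φ : Multiplicative (Fin r → ℤ) →* G) (A : Subgroup G)
    (hab : ∀ a ∈ A, ∀ b ∈ A, a * b = b * a) (hφA : ∀ v, φ v ∈ A)
    (hφ : ∀ a ∈ A, ∃ n : ℕ, 0 < n ∧ ∃ v, a ^ n = φ v)
    (hfin : ∀ T : ℕ, {w : G | w ∈ A ∧ TauLe l T w}.Finite) : A.FG := by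
  classical
  set b : Fin r → G := fun i => φ (Multiplicative.ofAdd (Pi.single i 1)) with hb
  set T : ℕ := ∑ i, l (b i) with hT
  have hgen : ∀ v, φ v ∈ Subgroup.closure (Set.range b) := by
    intro v
    have h1 : v = ∏ i, (Multiplicative.ofAdd (Pi.single i (1 : ℤ) : Fin r → ℤ)) ^
        (Multiplicative.toAdd v i) := by
      apply Multiplicative.toAdd.injective
      rw [toAdd_prod]
      funext j
      rw [Finset.sum_apply]
      simp only [toAdd_zpow, toAdd_ofAdd, Pi.smul_apply]
      rw [Finset.sum_eq_single j]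
      · simp
      · intro i _ hi
        rw [Pi.single_eq_of_ne hi.symm, smul_zero]
      · intro h
        exact absurd (Finset.mem_univ j) h
    have h2 : φ v ∈ Subgroup.closure (φ '' (Set.range
        (fun i : Fin r => Multiplicative.ofAdd (Pi.single i (1 : ℤ) : Fin r → ℤ)))) := by
      rw [← MonoidHom.map_closure]
      refine ⟨v, ?_, rfl⟩
      rw [h1]
      apply Subgroup.prod_mem
      intro i _
      exact Subgroup.zpow_mem _ (Subgroup.subset_closure (Set.mem_range_self i)) _
    have h3 : φ '' (Set.range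
        (fun i : Fin r => Multiplicative.ofAdd (Pi.single i (1 : ℤ) : Fin r → ℤ))) =
        Set.range b := by
      rw [← Set.range_comp]
      rfl
    rwa [h3] at h2
  refine ⟨((hfin T).union (Set.finite_range b)).toFinset, ?_⟩
  rw [Set.Finite.coe_toFinset]
  apply le_antisymm
  · rw [Subgroup.closure_le, Set.union_subset_iff]
    refine ⟨fun w hw => hw.1, ?_⟩
    rintro _ ⟨i, rfl⟩
    exact hφA _
  · intro a ha
    obtain ⟨n, hn, v, hv⟩ := hφ a ha
    set q : Fin r → ℤ := fun i => (Multiplicative.toAdd v i) / n with hq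
    set a' : G := a * φ (Multiplicative.ofAdd q)⁻¹ with ha'
    have haA : a' ∈ A := A.mul_mem ha (hφA _)
    have hpw : a' ^ n = φ (Multiplicative.ofAdd (fun i => (Multiplicative.toAdd v i) % n)) := by
      have hcm : Commute a (φ (Multiplicative.ofAdd q)⁻¹) := hab _ ha _ (hφA _)
      rw [ha', hcm.mul_pow, hv, ← map_pow, ← map_mul]
      congr 1
      apply Multiplicative.toAdd.injective
      funext i
      have h5 : Multiplicative.toAdd (v * (Multiplicative.ofAdd q)⁻¹ ^ n) i =
          Multiplicative.toAdd v i + n • (-(q i)) := rfl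
      rw [h5]
      have h6 : Multiplicative.toAdd (Multiplicative.ofAdd
        (fun i : Fin r => (Multiplicative.toAdd v i) % (n : ℤ))) i =
          (Multiplicative.toAdd v i) % (n : ℤ) := rfl
      rw [h6, hq, nsmul_eq_mul]
      have h7 := Int.mul_ediv_add_emod (Multiplicative.toAdd v i) n
      simp only [mul_neg]
      linarith
    have hta : TauLe l T a' := by
      apply tauLe_of_pow l hmul hn
      intro k
      rw [hpw, ← map_pow]
      have h8 : (Multiplicative.ofAdd
          (fun i : Fin r => (Multiplicative.toAdd v i) % (n : ℤ))) ^ k =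
          Multiplicative.ofAdd (k • fun i : Fin r => (Multiplicative.toAdd v i) % (n : ℤ)) := rfl
      rw [h8]
      have hn' : (0 : ℤ) < n := by exact_mod_cast hn
      have h9 := l_hom_le l hone hmul φ Finset.univ
        (k • fun i : Fin r => (Multiplicative.toAdd v i) % (n : ℤ)) (fun i => by
          rw [Pi.smul_apply, nsmul_eq_mul]
          exact mul_nonneg (Int.natCast_nonneg _) (Int.emod_nonneg _ hn'.ne'))
        (fun i hi => absurd (Finset.mem_univ i) hi)
      refine h9.trans ?_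
      rw [hT, Finset.sum_mul]
      apply Finset.sum_le_sum
      intro i _
      rw [mul_comm]
      apply Nat.mul_le_mul_left
      rw [Pi.smul_apply, nsmul_eq_mul]
      have h10 := Int.emod_lt_of_pos (Multiplicative.toAdd v i) hn'
      have h11 : (k : ℤ) * (Multiplicative.toAdd v i % (n : ℤ)) ≤ k * n :=
        mul_le_mul_of_nonneg_left h10.le (Int.natCast_nonneg _)
      rw [Int.toNat_le]
      push_cast
      linarith
    have h12 : a = a' * φ (Multiplicative.ofAdd q) := by
      rw [ha', map_inv]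
      group
    rw [h12]
    apply Subgroup.mul_mem
    · exact Subgroup.subset_closure (Or.inl ⟨haA, hta⟩)
    · exact Subgroup.closure_mono Set.subset_union_right (hgen _)

include hone hmul hinv hcl in
/-- All that is needed about abelian subgroups. -/
theorem ic_ab (hm : ManyClasses G) {D : ℕ}
    (hrk : ∀ (n : ℕ) (φ : Multiplicative (Fin n → ℤ) →* G), Function.Injective φ → n ≤ D)
    (A : Subgroup G) (hab : ∀ a ∈ A, ∀ b ∈ A, a * b = b * a) :
    A.FG ∧ ∀ T : ℕ, {w : G | w ∈ A ∧ TauLe l T w}.Finite := by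
  obtain ⟨e, he, htr⟩ := ic_trans l hone hmul hinv hcl hm
  obtain ⟨r, φ, hφA, hφ⟩ := exists_max_indep hrk A hab
  have hfin : ∀ T : ℕ, {w : G | w ∈ A ∧ TauLe l T w}.Finite :=
    fun T => ic_fin l hone hmul hinv he htr φ A hab hφA hφ
      (fun E hE => ic_tors l hcl hm A hab hE) T
  exact ⟨ab_fg_of_fin l hone hmul φ A hab hφA hφ hfin, hfin⟩

include hone hmul hinv hcl in
/-- The centralizer of an abelian subgroup has finite index in every subgroup normalizing it. -/
theorem ic_norm (hm : ManyClasses G) {D : ℕ}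
    (hrk : ∀ (n : ℕ) (φ : Multiplicative (Fin n → ℤ) →* G), Function.Injective φ → n ≤ D)
    (A : Subgroup G) (hab : ∀ a ∈ A, ∀ b ∈ A, a * b = b * a) (Q : Subgroup G)
    (hQ : ∀ q ∈ Q, ∀ a ∈ A, q * a * q⁻¹ ∈ A) :
    (Subgroup.centralizer (A : Set G)).relIndex Q ≠ 0 := by
  obtain ⟨hfg, hfin⟩ := ic_ab l hone hmul hinv hcl hm hrk A hab
  refine relIndex_centralizer_fg Q A hfg ?_
  intro v hv
  refine (hfin (l v)).subset ?_
  rintro _ ⟨q, hq, rfl⟩
  refine ⟨hQ q hq v hv, l q + l q⁻¹, fun n => ?_⟩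
  rw [conj_pow]
  have h1 := hmul (q * v ^ n) q⁻¹
  have h2 := hmul q (v ^ n)
  have h3 := l_pow_le l hone hmul v n
  rw [mul_comm (l v) n]
  omega

include hone hmul hinv hcl in
/-- Virtually solvable subgroups are finitely generated, virtually abelian and undistorted. -/
theorem ic_vsolvable (hm : ManyClasses G) {D : ℕ}
    (hrk : ∀ (n : ℕ) (φ : Multiplicative (Fin n → ℤ) →* G), Function.Injective φ → n ≤ D)
    (P P0 : Subgroup G) (h0 : P0 ≤ P) (h0i : P0.relIndex P ≠ 0) (h0s : Group.IsSolvable P0) :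
    Undistorted P ∧
      ∃ H : Subgroup G, H ≤ P ∧ H.relIndex P ≠ 0 ∧ ∀ a ∈ H, ∀ b ∈ H, a * b = b * a := by
  have hfg := fun A hA => (ic_ab l hone hmul hinv hcl hm hrk A hA).1
  obtain ⟨H, h1, h2, h3⟩ := solv_vab hfg
    (fun A hA Q hQ => ic_norm l hone hmul hinv hcl hm hrk A hA Q hQ) P0 h0s
  obtain ⟨e, he, htr⟩ := ic_trans l hone hmul hinv hcl hm
  have h4 := rf_undistorted_ab l hone hmul hinv he htr H (hfg H h3) h3
  have h5 : H.relIndex P ≠ 0 := by
    rw [← Subgroup.relIndex_mul_relIndex H P0 P h1 h0]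
    exact mul_ne_zero h2 h0i
  exact ⟨undistorted_of_fi (h1.trans h0) h5 h4, H, h1.trans h0, h5, h3⟩

end icab

end Pool.Agent.VN
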