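import Pool.Agent.VN.ResUnd
/-!
# Abelian and solvable subgroups of residually finite groups are finitely generated
-/
namespace Pool.Agent.VN
open Pool.Agent.SLX

section fin
variable {G : Type} [Group G] (l : G → ℕ) (hone : l 1 = 0)
  (hmul : ∀ g h, l (g * h) ≤ l g + l h) {κ : ℕ} (hinv : ∀ g, l g⁻¹ ≤ κ * l g)
  (hcl : ∀ T : ℕ, ∃ S : Set G, S.Finite ∧ ∀ w, TauLe l T w → ∃ x, x⁻¹ * w * x ∈ S)

include hmul hinv hcl in
/-- Only finitely many elements of an abelian subgroup have bounded translation number. -/
theorem tau_finite_ab (hr : ResFin G) (A : Subgroup G) (hab : ∀ a ∈ A, ∀ b ∈ A, a * b = b * a)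
    (T : ℕ) : {w : G | w ∈ A ∧ TauLe l T w}.Finite := by
  obtain ⟨K, hK, hK', hKc⟩ := rf_kernel l hcl hr (T + κ * T)
  apply Set.Finite.of_finite_image (f := fun w : G => (QuotientGroup.mk w : G ⧸ K))
  · exact Set.toFinite _
  · intro a ha b hb hab'
    have h1 : a⁻¹ * b ∈ K := QuotientGroup.eq.1 hab'
    have hcom : b * a⁻¹ = a⁻¹ * b := hab _ hb.1 _ (A.inv_mem ha.1)
    have h2 : TauLe l (T + κ * T) (b * a⁻¹) :=
      tauLe_mul l hmul hcom hb.2 (tauLe_inv l hinv ha.2)
    have h3 := hKc _ h1 (by rw [← hcom]; exact h2)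
    have h4 : a = a * (a⁻¹ * b) := by rw [h3, mul_one]
    rw [h4]
    group

include hone hmul in
theorem l_hom_le {r : ℕ} (φ : Multiplicative (Fin r → ℤ) →* G) (s : Finset (Fin r)) :
    ∀ v : Fin r → ℤ, (∀ i, 0 ≤ v i) → (∀ i, i ∉ s → v i = 0) →
    l (φ (Multiplicative.ofAdd v)) ≤
      ∑ i ∈ s, (v i).toNat * l (φ (Multiplicative.ofAdd (Pi.single i 1))) := by
  classical
  induction s using Finset.induction_on with
  | empty =>
    intro v _ hv
    have h1 : v = 0 := funext fun i => hv i (Finset.notMem_empty i)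
    rw [h1, ofAdd_zero, map_one, hone]
    exact Nat.zero_le _
  | insert i s hi ih =>
    intro v hv hvs
    have h1 : v = (v i).toNat • Pi.single i 1 + Function.update v i 0 := by
      funext j
      rw [Pi.add_apply, Pi.smul_apply]
      by_cases hj : j = i
      · subst hj
        rw [Pi.single_eq_same, Function.update_self, nsmul_eq_mul, mul_one, add_zero,
          Int.toNat_of_nonneg (hv j)]
      · rw [Pi.single_eq_of_ne hj, Function.update_of_ne hj, smul_zero, zero_add]
    have h2 := ih (Function.update v i 0) (fun j => by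
      by_cases hj : j = i
      · subst hj
        rw [Function.update_self]
      · rw [Function.update_of_ne hj]
        exact hv j) (fun j hj => by
      by_cases hj' : j = i
      · subst hj'
        rw [Function.update_self]
      · rw [Function.update_of_ne hj']
        apply hvs
        simp [hj, hj'])
    rw [Finset.sum_insert hi]
    have h3 : ∑ j ∈ s, (Function.update v i 0 j).toNat *
        l (φ (Multiplicative.ofAdd (Pi.single j 1))) =
        ∑ j ∈ s, (v j).toNat * l (φ (Multiplicative.ofAdd (Pi.single j 1))) := by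
      apply Finset.sum_congr rfl
      intro j hj
      rw [Function.update_of_ne]
      rintro rfl
      exact hi hj
    rw [h3] at h2
    have h4 : φ (Multiplicative.ofAdd v) =
        φ (Multiplicative.ofAdd (Pi.single i 1)) ^ (v i).toNat *
          φ (Multiplicative.ofAdd (Function.update v i 0)) := by
      conv_lhs => rw [h1]
      rw [ofAdd_add, ofAdd_nsmul, map_mul, map_pow]
    rw [h4]
    have h5 := hmul (φ (Multiplicative.ofAdd (Pi.single i 1)) ^ (v i).toNat)
      (φ (Multiplicative.ofAdd (Function.update v i 0)))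
    have h6 := l_pow_le l hone hmul (φ (Multiplicative.ofAdd (Pi.single i 1))) (v i).toNat
    omega

include hmul in
/-- translation number from a power -/
theorem tauLe_of_pow {T n : ℕ} (hn : 0 < n) {a : G} (h : ∀ k : ℕ, l ((a ^ n) ^ k) ≤ T * (n * k)) :
    TauLe l T a := by
  refine ⟨∑ r ∈ Finset.range n, l (a ^ r), ?_⟩
  intro m
  have h4 : a ^ m = (a ^ n) ^ (m / n) * a ^ (m % n) := by
    rw [← pow_mul, ← pow_add, Nat.div_add_mod]
  rw [h4]
  have h5 := hmul ((a ^ n) ^ (m / n)) (a ^ (m % n))
  have h6 := h (m / n)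
  have h7 : l (a ^ (m % n)) ≤ ∑ r ∈ Finset.range n, l (a ^ r) :=
    Finset.single_le_sum (f := fun r => l (a ^ r)) (fun _ _ => Nat.zero_le _)
      (Finset.mem_range.2 (Nat.mod_lt _ hn))
  have h8 : T * (n * (m / n)) ≤ T * m := Nat.mul_le_mul_left _ (Nat.mul_div_le m n)
  omega

/-- A maximal independent family of an abelian subgroup. -/
theorem exists_max_indep {D : ℕ}
    (hrk : ∀ (n : ℕ) (φ : Multiplicative (Fin n → ℤ) →* G), Function.Injective φ → n ≤ D)
    (A : Subgroup G) (hab : ∀ a ∈ A, ∀ b ∈ A, a * b = b * a) :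
    ∃ (r : ℕ) (φ : Multiplicative (Fin r → ℤ) →* G), (∀ v, φ v ∈ A) ∧
      ∀ a ∈ A, ∃ n : ℕ, 0 < n ∧ ∃ v, a ^ n = φ v := by
  classical
  set Q : ℕ → Prop := fun n => ∃ φ : Multiplicative (Fin n → ℤ) →* G, Function.Injective φ ∧
    ∀ v, φ v ∈ A with hQ
  have hQ0 : Q 0 := by
    refine ⟨1, ?_, fun v => A.one_mem⟩
    intro u v _
    apply Multiplicative.toAdd.injective
    exact Subsingleton.elim _ _
  set r := Nat.findGreatest Q D with hr
  have hQr : Q r := Nat.findGreatest_spec (P := Q) (Nat.zero_le D) hQ0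
  obtain ⟨φ, hφ, hφA⟩ := hQr
  refine ⟨r, φ, hφA, ?_⟩
  intro a ha
  by_contra hno
  push Not at hno
  have hnew : Q (r + 1) := by
    set ψ : Multiplicative (Fin (r + 1) → ℤ) →* G := MonoidHom.mk'
      (fun v => φ (Multiplicative.ofAdd (fun i => Multiplicative.toAdd v i.succ)) *
        a ^ (Multiplicative.toAdd v 0)) (by
        intro u v
        have h1 : (Multiplicative.ofAdd (fun i : Fin r => Multiplicative.toAdd (u * v) i.succ)) =
            Multiplicative.ofAdd (fun i : Fin r => Multiplicative.toAdd u i.succ) *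
            Multiplicative.ofAdd (fun i : Fin r => Multiplicative.toAdd v i.succ) := rfl
        have h2 : Multiplicative.toAdd (u * v) 0 = Multiplicative.toAdd u 0 +
            Multiplicative.toAdd v 0 := rfl
        rw [h1, h2, map_mul, zpow_add]
        have h3 := hab _ (hφA (Multiplicative.ofAdd
          (fun i : Fin r => Multiplicative.toAdd v i.succ))) _
          (A.zpow_mem ha (Multiplicative.toAdd u 0))
        rw [mul_assoc, mul_assoc, ← mul_assoc (φ (Multiplicative.ofAdd
          (fun i : Fin r => Multiplicative.toAdd v i.succ))) (a ^ (Multiplicative.toAdd u 0)), h3,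
          mul_assoc]) with hψ
    have hψv : ∀ v, ψ v = φ (Multiplicative.ofAdd (fun i => Multiplicative.toAdd v i.succ)) *
        a ^ (Multiplicative.toAdd v 0) := fun v => rfl
    refine ⟨ψ, ?_, ?_⟩
    · rw [injective_iff_map_eq_one]
      intro v hv
      rw [hψv] at hv
      have h0 : Multiplicative.toAdd v 0 = 0 := by
        by_contra hne
        have h1 : a ^ (Multiplicative.toAdd v 0) =
            φ (Multiplicative.ofAdd (fun i => Multiplicative.toAdd v i.succ))⁻¹ := by
          rw [map_inv]
          exact eq_inv_of_mul_eq_one_right hv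
        rcases lt_or_gt_of_ne hne with h2 | h2
        · apply hno (-(Multiplicative.toAdd v 0)).toNat (by omega)
            (Multiplicative.ofAdd (fun i => Multiplicative.toAdd v i.succ))
          rw [← zpow_natCast, Int.toNat_of_nonneg (by omega), zpow_neg, h1, map_inv, inv_inv]
        · apply hno (Multiplicative.toAdd v 0).toNat (by omega)
            (Multiplicative.ofAdd (fun i => Multiplicative.toAdd v i.succ))⁻¹
          rw [← zpow_natCast, Int.toNat_of_nonneg (by omega), h1]
      rw [h0, zpow_zero, mul_one] at hv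
      have h3 := (injective_iff_map_eq_one φ).1 hφ _ hv
      apply Multiplicative.toAdd.injective
      funext i
      refine Fin.cases ?_ (fun j => ?_) i
      · exact h0
      · exact congrFun (congrArg Multiplicative.toAdd h3) j
    · intro v
      rw [hψv]
      exact A.mul_mem (hφA _) (A.zpow_mem ha _)
  have hle : r + 1 ≤ D := by
    obtain ⟨ψ, hψ, _⟩ := hnew
    exact hrk _ ψ hψ
  have := Nat.le_findGreatest (P := Q) hle hnew
  omega

include hone hmul hinv hcl in
/-- Every abelian subgroup is finitely generated. -/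
theorem ab_fg (hr : ResFin G) {D : ℕ}
    (hrk : ∀ (n : ℕ) (φ : Multiplicative (Fin n → ℤ) →* G), Function.Injective φ → n ≤ D)
    (A : Subgroup G) (hab : ∀ a ∈ A, ∀ b ∈ A, a * b = b * a) : A.FG := by
  classical
  obtain ⟨r, φ, hφA, hφ⟩ := exists_max_indep hrk A hab
  set b : Fin r → G := fun i => φ (Multiplicative.ofAdd (Pi.single i 1)) with hb
  set T : ℕ := ∑ i, l (b i) with hT
  have hfin := tau_finite_ab l hmul hinv hcl hr A hab T
  have hgen : ∀ v, φ v ∈ Subgroup.closure (Set.range b) := by
    intro v
    have h1 : v = ∏ i, (Multiplicative.ofAdd (Pi.single i (1 : ℤ) : Fin r → ℤ)) ^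
        (Multiplicative.toAdd v i) := by
      apply Multiplicative.toAdd.injective
      rw [toAdd_prod]
      funext j
      rw [Finset.sum_apply]
      simp only [toAdd_zpow, toAdd_ofAdd, Pi.smul_apply]
      rw [Finset.sum_eq_single j]
      · simp
      · intro i _ hi
        rw [Pi.single_eq_of_ne hi.symm, smul_zero]
      · intro h
        exact absurd (Finset.mem_univ j) h
    have h2 : φ v ∈ Subgroup.closure (φ '' (Set.range
        (fun i : Fin r => Multiplicative.ofAdd (Pi.single i (1 : ℤ) : Fin r → ℤ)))) := by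
      rw [← MonoidHom.map_closure]
      refine ⟨v, ?_, rfl⟩
      rw [h1]
      apply Subgroup.prod_mem
      intro i _
      exact Subgroup.zpow_mem _ (Subgroup.subset_closure (Set.mem_range_self i)) _
    have h3 : φ '' (Set.range
        (fun i : Fin r => Multiplicative.ofAdd (Pi.single i (1 : ℤ) : Fin r → ℤ))) =
        Set.range b := by
      rw [← Set.range_comp]
      rfl
    rwa [h3] at h2
  refine ⟨(hfin.union (Set.finite_range b)).toFinset, ?_⟩
  rw [Set.Finite.coe_toFinset]
  apply le_antisymm
  · rw [Subgroup.closure_le, Set.union_subset_iff]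
    refine ⟨fun w hw => hw.1, ?_⟩
    rintro _ ⟨i, rfl⟩
    exact hφA _
  · intro a ha
    obtain ⟨n, hn, v, hv⟩ := hφ a ha
    set q : Fin r → ℤ := fun i => (Multiplicative.toAdd v i) / n with hq
    set a' : G := a * φ (Multiplicative.ofAdd q)⁻¹ with ha'
    have haA : a' ∈ A := A.mul_mem ha (hφA _)
    have hpw : a' ^ n = φ (Multiplicative.ofAdd (fun i => (Multiplicative.toAdd v i) % n)) := by
      have hcm : Commute a (φ (Multiplicative.ofAdd q)⁻¹) := hab _ ha _ (hφA _)
      rw [ha', hcm.mul_pow, hv, ← map_pow, ← map_mul]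
      congr 1
      apply Multiplicative.toAdd.injective
      funext i
      have h5 : Multiplicative.toAdd (v * (Multiplicative.ofAdd q)⁻¹ ^ n) i =
          Multiplicative.toAdd v i + n • (-(q i)) := rfl
      rw [h5]
      have h6 : Multiplicative.toAdd (Multiplicative.ofAdd
        (fun i : Fin r => (Multiplicative.toAdd v i) % (n : ℤ))) i =
          (Multiplicative.toAdd v i) % (n : ℤ) := rfl
      rw [h6, hq, nsmul_eq_mul]
      have h7 := Int.mul_ediv_add_emod (Multiplicative.toAdd v i) n
      simp only [mul_neg]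
      linarith
    have hta : TauLe l T a' := by
      apply tauLe_of_pow l hmul hn
      intro k
      rw [hpw, ← map_pow]
      have h8 : (Multiplicative.ofAdd
          (fun i : Fin r => (Multiplicative.toAdd v i) % (n : ℤ))) ^ k =
          Multiplicative.ofAdd (k • fun i : Fin r => (Multiplicative.toAdd v i) % (n : ℤ)) := rfl
      rw [h8]
      have hn' : (0 : ℤ) < n := by exact_mod_cast hn
      have h9 := l_hom_le l hone hmul φ Finset.univ
        (k • fun i : Fin r => (Multiplicative.toAdd v i) % (n : ℤ)) (fun i => by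
          rw [Pi.smul_apply, nsmul_eq_mul]
          exact mul_nonneg (Int.natCast_nonneg _) (Int.emod_nonneg _ hn'.ne'))
        (fun i hi => absurd (Finset.mem_univ i) hi)
      refine h9.trans ?_
      rw [hT, Finset.sum_mul]
      apply Finset.sum_le_sum
      intro i _
      rw [mul_comm]
      apply Nat.mul_le_mul_left
      rw [Pi.smul_apply, nsmul_eq_mul]
      have h10 := Int.emod_lt_of_pos (Multiplicative.toAdd v i) hn'
      have h11 : (k : ℤ) * (Multiplicative.toAdd v i % (n : ℤ)) ≤ k * n :=
        mul_le_mul_of_nonneg_left h10.le (Int.natCast_nonneg _)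
      rw [Int.toNat_le]
      push_cast
      linarith
    have h12 : a = a' * φ (Multiplicative.ofAdd q) := by
      rw [ha', map_inv]
      group
    rw [h12]
    apply Subgroup.mul_mem
    · exact Subgroup.subset_closure (Or.inl ⟨haA, hta⟩)
    · exact Subgroup.closure_mono Set.subset_union_right (hgen _)

include hone hmul hinv hcl in
/-- Virtually solvable subgroups are finitely generated, virtually abelian and undistorted. -/
theorem rf_vsolvable (hr : ResFin G) {D : ℕ}
    (hrk : ∀ (n : ℕ) (φ : Multiplicative (Fin n → ℤ) →* G), Function.Injective φ → n ≤ D)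
    (P P0 : Subgroup G) (h0 : P0 ≤ P) (h0i : P0.relIndex P ≠ 0) (h0s : Group.IsSolvable P0) :
    (∃ H : Subgroup G, H ≤ P ∧ H.relIndex P ≠ 0 ∧ (∀ a ∈ H, ∀ b ∈ H, a * b = b * a)) ∧
      P.FG ∧ Undistorted P := by
  have hfg := ab_fg l hone hmul hinv hcl hr hrk
  obtain ⟨H, h1, h2, h3⟩ := rf_solvable l hone hmul hcl hr P0 h0s (fun A _ hA => hfg A hA)
  obtain ⟨e, he, htr⟩ := rf_trans l hone hmul hcl hr
  have h4 := rf_undistorted_ab l hone hmul hinv he htr H (hfg H h3) h3
  have h5 : H.relIndex P ≠ 0 := by
    rw [← Subgroup.relIndex_mul_relIndex H P0 P h1 h0]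
    exact mul_ne_zero h2 h0i
  have h6 : Undistorted P := undistorted_of_fi (h1.trans h0) h5 h4
  refine ⟨⟨H, h1.trans h0, h5, h3⟩, ?_, h6⟩
  obtain ⟨S, hS, hSP, _⟩ := h6
  exact ⟨hS.toFinset, by rw [Set.Finite.coe_toFinset, hSP]⟩

end fin

end Pool.Agent.VN
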