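import Pool.Agent.SLX.Defs
/-!
# Subgroups all of whose elements have finitely many conjugates are undistorted

From an inequality `2 len z <= len (z^2) + C` (in the form of `half_len`) we deduce that finitely
generated subgroups all of whose elements have finitely many conjugates are undistorted.
-/
namespace Pool.Agent.VN
open Pool.Agent.SLX

variable {G : Type} [Group G]

/-- The centralizer of an element with finitely many conjugates has finite index. -/
theorem centralizer_fi (z : G) (hz : (Set.range (fun g : G => g⁻¹ * z * g)).Finite) :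
    (Subgroup.centralizer ({z} : Set G)).FiniteIndex := by
  have hz' : Finite (Set.range (fun g : G => g⁻¹ * z * g)) := hz
  have : Finite (G ⧸ Subgroup.centralizer ({z} : Set G)) := by
    apply Finite.of_injective
      (fun q : G ⧸ Subgroup.centralizer ({z} : Set G) =>
        (⟨(q.out⁻¹)⁻¹ * z * q.out⁻¹, q.out⁻¹, rfl⟩ : Set.range (fun g : G => g⁻¹ * z * g)))
    intro p q hpq
    have h1 : p.out * z * p.out⁻¹ = q.out * z * q.out⁻¹ := by
      have := congrArg Subtype.val hpq
      simpa using this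
    rw [← QuotientGroup.out_eq' p, ← QuotientGroup.out_eq' q, QuotientGroup.eq]
    rw [Subgroup.mem_centralizer_singleton_iff]
    calc (p.out)⁻¹ * q.out * z = (p.out)⁻¹ * (q.out * z * q.out⁻¹) * q.out := by group
      _ = (p.out)⁻¹ * (p.out * z * p.out⁻¹) * q.out := by rw [h1]
      _ = z * ((p.out)⁻¹ * q.out) := by group
  exact Subgroup.finiteIndex_of_finite_quotient

/-- The centralizer of a finitely generated subgroup all of whose elements have finitely many
conjugates has finite index. -/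
theorem centralizer_fi_of_fg (H : Subgroup G) (hH : H.FG)
    (hfc : ∀ h ∈ H, (Set.range (fun g : G => g⁻¹ * h * g)).Finite) :
    (Subgroup.centralizer (H : Set G)).FiniteIndex := by
  obtain ⟨S, hS⟩ := hH
  rw [← hS, Subgroup.centralizer_closure, Subgroup.centralizer_eq_iInf]
  refine Subgroup.finiteIndex_iInf' _ (fun s hs => centralizer_fi s (hfc s ?_))
  rw [← hS]
  exact Subgroup.subset_closure hs

/-- In a finitely generated abelian group every element is a square up to a finite set. -/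
theorem exists_sq_reps (B : Type) [Group B] [Group.FG B] (hc : ∀ x y : B, x * y = y * x) :
    ∃ T : Set B, T.Finite ∧ ∀ z : B, ∃ s ∈ T, ∃ y : B, z = s * (y * y) := by
  let _ : CommGroup B := { (inferInstance : Group B) with mul_comm := hc }
  set R : Subgroup B := (powMonoidHom 2 : B →* B).range with hR
  have hfin : Finite (B ⧸ R) := by
    apply CommGroup.finite_of_fg_isMulTorsion
    intro q
    rw [isOfFinOrder_iff_pow_eq_one]
    refine ⟨2, by norm_num, ?_⟩
    induction q using QuotientGroup.induction_on with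
    | H b =>
      rw [← QuotientGroup.mk_pow, QuotientGroup.eq_one_iff]
      exact ⟨b, rfl⟩
  refine ⟨Set.range (fun q : B ⧸ R => q.out), Set.finite_range _, fun z => ?_⟩
  refine ⟨(QuotientGroup.mk z : B ⧸ R).out, ⟨_, rfl⟩, ?_⟩
  have h1 : ((QuotientGroup.mk z : B ⧸ R).out)⁻¹ * z ∈ R := by
    rw [← QuotientGroup.eq, QuotientGroup.out_eq']
  obtain ⟨y, hy⟩ := h1
  refine ⟨y, ?_⟩
  have h2 : y * y = ((QuotientGroup.mk z : B ⧸ R).out)⁻¹ * z := by
    rw [← hy]
    simp [pow_two]
  rw [h2]
  group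

theorem isShort_mul' {S : Set G} {m n : ℕ} {g h : G} (hg : IsShort S m g) (hh : IsShort S n h) :
    IsShort S (m + n) (g * h) := by
  obtain ⟨v, h1, h2, h3⟩ := hg
  obtain ⟨w, k1, k2, k3⟩ := hh
  refine ⟨v ++ w, ?_, ?_, ?_⟩
  · intro x hx
    rcases List.mem_append.1 hx with hx | hx
    · exact h1 x hx
    · exact k1 x hx
  · rw [List.prod_append, h2, k2]
  · rw [List.length_append]
    omega

theorem isShort_of_mem' {S : Set G} {g : G} (hg : g ∈ S) : IsShort S 1 g :=
  ⟨[g], by simpa using hg, by simp, by simp⟩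

theorem isShort_mono' {S : Set G} {m n : ℕ} {g : G} (hmn : m ≤ n) (hg : IsShort S m g) :
    IsShort S n g := by
  obtain ⟨v, h1, h2, h3⟩ := hg
  exact ⟨v, h1, h2, h3.trans hmn⟩

theorem len_prod_le (len : G → ℕ) (hone : len 1 = 0)
    (hmul : ∀ g h, len (g * h) ≤ len g + len h) (b : ℕ) (v : List G)
    (hv : ∀ x ∈ v, len x ≤ b) : len v.prod ≤ b * v.length := by
  induction v with
  | nil => simp [hone]
  | cons x v ih =>
    rw [List.prod_cons, List.length_cons]
    have h1 := hmul x v.prod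
    have h2 := hv x (by simp)
    have h3 := ih (fun y hy => hv y (by simp [hy]))
    have h4 : b * (v.length + 1) = b * v.length + b := by ring
    omega

/-- **Finitely generated subgroups consisting of elements with finitely many conjugates are
undistorted**, if the length satisfies the conclusion of `half_len`. -/
theorem fc_undistorted (len : G → ℕ) (hone : len 1 = 0)
    (hmul : ∀ g h, len (g * h) ≤ len g + len h) (hball : ∀ n : ℕ, {g | len g ≤ n}.Finite)
    (hhalf : ∃ C : ℕ, ∀ (z : G) (M m0 : ℕ), (∀ x, len (x⁻¹ * (z * z) * x) ≤ M) →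
      (∀ x, m0 ≤ len (x⁻¹ * z * x)) → 2 * m0 ≤ M + C)
    (H : Subgroup G) (hH : H.FG)
    (hfc : ∀ h ∈ H, (Set.range (fun g : G => g⁻¹ * h * g)).Finite) : Undistorted H := by
  classical
  obtain ⟨C, hC⟩ := hhalf
  set K : Subgroup G := Subgroup.centralizer (H : Set G) with hK
  have hKfi : K.FiniteIndex := centralizer_fi_of_fg H hH hfc
  have hHfg : Group.FG H := (Group.fg_iff_subgroup_fg H).2 hH
  have hBfi : (K.subgroupOf H).FiniteIndex := inferInstance
  have hBfg : Group.FG (K.subgroupOf H) := inferInstance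
  have hBc : ∀ x y : (K.subgroupOf H), x * y = y * x := by
    intro x y
    have h1 : ((y : H) : G) ∈ K := y.2
    have h2 := (Subgroup.mem_centralizer_iff.1 h1) ((x : H) : G) (x : H).2
    apply Subtype.ext
    apply Subtype.ext
    simpa using h2
  obtain ⟨T0, hT0, hsq⟩ := exists_sq_reps (K.subgroupOf H) hBc
  -- representatives of the cosets of `K ∩ H` in `H`
  set Q : Set H := Set.range (fun q : H ⧸ (K.subgroupOf H) => q.out) with hQ
  have hQfin : Q.Finite := Set.finite_range _
  -- all elements of `H` are squares up to a finite set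
  set T : Set G := Set.image2 (fun (r : H) (s : (K.subgroupOf H)) => (r : G) * ((s : H) : G)) Q T0
    with hT
  have hTfin : T.Finite := Set.Finite.image2 _ hQfin hT0
  set T1 : Set G := (fun s : (K.subgroupOf H) => ((s : H) : G)) '' T0 with hT1
  have hT1fin : T1.Finite := hT0.image _
  have hstepH : ∀ z ∈ H, ∃ s ∈ T, s ∈ H ∧ ∃ y, y ∈ H ∧ y ∈ K ∧ z = s * (y * y) := by
    intro z hz
    set q : H ⧸ (K.subgroupOf H) := QuotientGroup.mk (⟨z, hz⟩ : H) with hq
    have h1 : (q.out)⁻¹ * (⟨z, hz⟩ : H) ∈ K.subgroupOf H := by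
      rw [← QuotientGroup.eq, QuotientGroup.out_eq']
    obtain ⟨s, hs, y, hy⟩ := hsq ⟨_, h1⟩
    refine ⟨(q.out : G) * ((s : H) : G), ⟨q.out, ⟨q, rfl⟩, s, hs, rfl⟩,
      H.mul_mem (q.out).2 (s : H).2, ((y : H) : G), (y : H).2, y.2, ?_⟩
    have h2 : ((q.out : H) : G)⁻¹ * z = ((s : H) : G) * (((y : H) : G) * ((y : H) : G)) := by
      have := congrArg (fun t : (K.subgroupOf H) => ((t : H) : G)) hy
      simpa using this
    rw [mul_assoc, ← h2]
    group
  have hstepK : ∀ z, z ∈ H → z ∈ K → ∃ s ∈ T1, s ∈ H ∧ ∃ y, y ∈ H ∧ y ∈ K ∧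
      z = s * (y * y) := by
    intro z hz hzK
    obtain ⟨s, hs, y, hy⟩ := hsq ⟨⟨z, hz⟩, hzK⟩
    refine ⟨((s : H) : G), ⟨s, hs, rfl⟩, (s : H).2, ((y : H) : G), (y : H).2, y.2, ?_⟩
    have := congrArg (fun t : (K.subgroupOf H) => ((t : H) : G)) hy
    simpa using this
  -- a finite set of representatives of the cosets of `K`
  set R : Set G := Set.range (fun q : G ⧸ K => q.out) with hR
  have hRfin : R.Finite := Set.finite_range _
  have hbd : ∀ U : Set G, U.Finite → ∃ b : ℕ, ∀ x ∈ U, len x ≤ b := by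
    intro U hU
    obtain ⟨b, hb⟩ := (hU.image len).bddAbove
    exact ⟨b, fun x hx => hb ⟨x, hx, rfl⟩⟩
  obtain ⟨b1, hb1⟩ := hbd R hRfin
  obtain ⟨b2, hb2⟩ := hbd ((fun x => x⁻¹) '' R) (hRfin.image _)
  -- conjugation changes the lengths of the elements of `H` commuting with `K` by at most `b1 + b2`
  have hconj : ∀ y, y ∈ H → ∀ x, len (x⁻¹ * y * x) ≤ len y + (b1 + b2) ∧
      len y ≤ len (x⁻¹ * y * x) + (b1 + b2) := by
    intro y hy x
    set q : G ⧸ K := QuotientGroup.mk x⁻¹ with hq
    have h1 : (q.out)⁻¹ * x⁻¹ ∈ K := by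
      rw [← QuotientGroup.eq, QuotientGroup.out_eq']
    have hcen : ∀ k ∈ K, k * y = y * k := by
      intro k hk
      rw [hK, Subgroup.mem_centralizer_iff] at hk
      exact (hk y hy).symm
    have h2 : x⁻¹ * y * x = q.out * y * (q.out)⁻¹ := by
      have h3 := hcen _ h1
      calc x⁻¹ * y * x = q.out * (((q.out)⁻¹ * x⁻¹) * y) * x := by group
        _ = q.out * (y * ((q.out)⁻¹ * x⁻¹)) * x := by rw [h3]
        _ = q.out * y * (q.out)⁻¹ := by group
    have h4 : len q.out ≤ b1 := hb1 _ ⟨q, rfl⟩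
    have h5 : len (q.out)⁻¹ ≤ b2 := hb2 _ ⟨_, ⟨q, rfl⟩, rfl⟩
    rw [h2]
    constructor
    · have h6 := hmul (q.out * y) (q.out)⁻¹
      have h7 := hmul q.out y
      omega
    · have h6 : y = (q.out)⁻¹ * (q.out * y * (q.out)⁻¹) * q.out := by group
      have h7 := hmul ((q.out)⁻¹ * (q.out * y * (q.out)⁻¹)) q.out
      have h8 := hmul (q.out)⁻¹ (q.out * y * (q.out)⁻¹)
      rw [← h6] at h7
      omega
  have hhalf' : ∀ y, y ∈ H → 2 * len y ≤ len (y * y) + (3 * (b1 + b2) + C) := by
    intro y hy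
    have h1 := hC y (len (y * y) + (b1 + b2)) (len y - (b1 + b2))
      (fun x => (hconj (y * y) (H.mul_mem hy hy) x).1)
      (fun x => by
        have := (hconj y hy x).2
        omega)
    omega
  obtain ⟨b3, hb3⟩ := hbd ((fun x => x⁻¹) '' T ∪ (fun x => x⁻¹) '' T1)
    ((hTfin.image _).union (hT1fin.image _))
  obtain ⟨b4, hb4⟩ := hbd (T ∪ T1) (hTfin.union hT1fin)
  set c : ℕ := 3 * (b1 + b2) + C + b3 with hc
  have hroot : ∀ z s y, s ∈ T ∪ T1 → y ∈ H → z = s * (y * y) → 2 * len y ≤ len z + c := by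
    intro z s y hs hy hz
    have h1 := hhalf' y hy
    have h2 : y * y = s⁻¹ * z := by
      rw [hz]
      group
    have h3 : len s⁻¹ ≤ b3 := by
      rcases hs with hs | hs
      · exact hb3 _ (Or.inl ⟨s, hs, rfl⟩)
      · exact hb3 _ (Or.inr ⟨s, hs, rfl⟩)
    have h4 := hmul s⁻¹ z
    rw [h2] at h1
    omega
  -- the generating set
  set S : Set G := {h | h ∈ H ∧ len h ≤ b4 + c + 1} with hS
  have hSfin : S.Finite := (hball (b4 + c + 1)).subset (fun h hh => hh.2)
  have key : ∀ m : ℕ, ∀ z, z ∈ H → z ∈ K → len z ≤ 2 ^ m + c → IsShort S (2 ^ (m + 1) - 1) z := by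
    intro m
    induction m with
    | zero =>
      intro z hz _ hl
      exact isShort_of_mem' ⟨hz, by simp at hl; omega⟩
    | succ m ih =>
      intro z hz hzK hl
      obtain ⟨s, hs, hsH, y, hy, hyK, hzy⟩ := hstepK z hz hzK
      have h1 := hroot z s y (Or.inr hs) hy hzy
      have h2 : (2 : ℕ) ^ (m + 1) = 2 * 2 ^ m := by ring
      have h3 := ih y hy hyK (by omega)
      have h4 : IsShort S 1 s := isShort_of_mem' ⟨hsH, by
        have := hb4 s (Or.inr hs)
        omega⟩
      have h5 := isShort_mul' h4 (isShort_mul' h3 h3)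
      rw [← hzy] at h5
      refine isShort_mono' ?_ h5
      have h6 : (2 : ℕ) ^ (m + 1 + 1) = 2 * 2 ^ (m + 1) := by ring
      have h7 : 1 ≤ 2 ^ m := Nat.one_le_two_pow
      omega
  have hall : ∀ h ∈ H, IsShort S (8 * len h + 8) h := by
    intro z hz
    obtain ⟨s, hs, hsH, y, hy, hyK, hzy⟩ := hstepH z hz
    have h1 := hroot z s y (Or.inl hs) hy hzy
    -- `2 ^ m` comparable with `len z`
    obtain ⟨m, hm1, hm2⟩ : ∃ m : ℕ, len z ≤ 2 ^ m ∧ 2 ^ m ≤ 2 * len z + 1 := by
      rcases Nat.eq_zero_or_pos (len z) with h0 | h0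
      · exact ⟨0, by omega, by simp⟩
      · refine ⟨Nat.log 2 (len z) + 1, (Nat.lt_pow_succ_log_self (by norm_num) _).le, ?_⟩
        have := Nat.pow_log_le_self 2 (x := len z) (by omega)
        rw [pow_succ]
        omega
    have h3 := key m y hy hyK (by omega)
    have h4 : IsShort S 1 s := isShort_of_mem' ⟨hsH, by
      have := hb4 s (Or.inl hs)
      omega⟩
    have h5 := isShort_mul' h4 (isShort_mul' h3 h3)
    rw [← hzy] at h5
    refine isShort_mono' ?_ h5
    have h6 : (2 : ℕ) ^ (m + 1) = 2 * 2 ^ m := by ring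
    omega
  refine ⟨S, hSfin, ?_, ?_⟩
  · apply le_antisymm
    · rw [Subgroup.closure_le]
      exact fun h hh => hh.1
    · intro h hh
      obtain ⟨v, h1, h2, _⟩ := hall h hh
      rw [← h2]
      exact Subgroup.list_prod_mem _ (fun x hx => Subgroup.subset_closure (h1 x hx))
  · intro X hX
    obtain ⟨b, hb⟩ := hbd X hX
    refine ⟨8 * b + 8, fun n g hg hgH => ?_⟩
    obtain ⟨v, h1, h2, h3⟩ := hg
    have h4 := len_prod_le len hone hmul b v (fun x hx => hb x (h1 x hx))
    rw [h2] at h4
    refine isShort_mono' ?_ (hall g hgH)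
    have h5 : b * v.length ≤ b * n := Nat.mul_le_mul_left _ h3
    have h6 : (8 * b + 8) * n + (8 * b + 8) = 8 * (b * n) + 8 * n + 8 * b + 8 := by ring
    omega

end Pool.Agent.VN
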