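import Pool.Agent.VN.Defs
/-!
# Mod 2 chains on lists: basic lemmas
-/
namespace Pool.Agent.VN
open Pool.Agent.SLX

section C1
variable {V W : Type}

theorem fil_single (P : List V → Prop) (l : List V) (h : P l) :
    fil P (Finsupp.single l (1 : ZMod 2)) = Finsupp.single l 1 := by
  simp [fil, h]

theorem fil_single_of_not (P : List V → Prop) (l : List V) (h : ¬ P l) :
    fil P (Finsupp.single l (1 : ZMod 2)) = 0 := by
  simp [fil, h]

open Classical in
private theorem c1_fil_eq (P : List V → Prop) (c : Ch V) (l : List V) :
    fil P c l = if P l then c l else 0 := by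
  induction c using Finsupp.induction_linear with
  | zero => simp
  | add c c' h h' =>
    rw [map_add, Finsupp.add_apply, Finsupp.add_apply, h, h']
    split_ifs <;> simp
  | single l' a =>
    have e : Finsupp.single l' a = a • Finsupp.single l' (1 : ZMod 2) := by simp
    rw [e, map_smul, Finsupp.smul_apply, Finsupp.smul_apply]
    by_cases h' : P l'
    · rw [fil_single P l' h']
      by_cases hl : l' = l
      · subst hl; simp [h']
      · simp [hl]
    · rw [fil_single_of_not P l' h']
      by_cases hl : l' = l
      · subst hl; simp [h']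
      · simp [hl]

theorem fil_apply (P : List V → Prop) (c : Ch V) (l : List V) (h : P l) : fil P c l = c l := by
  rw [c1_fil_eq, if_pos h]

theorem fil_apply_of_not (P : List V → Prop) (c : Ch V) (l : List V) (h : ¬ P l) :
    fil P c l = 0 := by
  rw [c1_fil_eq, if_neg h]

theorem fil_eq_self (P : List V → Prop) (c : Ch V) (h : ∀ l ∈ c.support, P l) :
    fil P c = c := by
  ext l
  by_cases hl : P l
  · rw [fil_apply P c l hl]
  · rw [fil_apply_of_not P c l hl]
    by_contra hne
    exact hl (h l (Finsupp.mem_support_iff.2 (Ne.symm hne)))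

theorem fil_eq_zero (P : List V → Prop) (c : Ch V) (h : ∀ l ∈ c.support, ¬ P l) :
    fil P c = 0 := by
  ext l
  rw [Finsupp.zero_apply]
  by_cases hl : P l
  · rw [fil_apply P c l hl]
    by_contra hne
    exact h l (Finsupp.mem_support_iff.2 hne) hl
  · rw [fil_apply_of_not P c l hl]

theorem bd_single (l : List V) : bd (Finsupp.single l (1 : ZMod 2)) =
    ∑ i ∈ Finset.range l.length, Finsupp.single (l.eraseIdx i) (1 : ZMod 2) := by
  simp [bd]

theorem cone_single (a : V) (l : List V) :
    cone a (Finsupp.single l (1 : ZMod 2)) = Finsupp.single (a :: l) 1 := by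
  simp [cone, Finsupp.lmapDomain]

theorem mapC_single (f : V → W) (l : List V) :
    mapC f (Finsupp.single l (1 : ZMod 2)) = Finsupp.single (l.map f) 1 := by
  simp [mapC, Finsupp.lmapDomain]

theorem mem_support_fil {P : List V → Prop} {c : Ch V} {l : List V} :
    l ∈ (fil P c).support ↔ l ∈ c.support ∧ P l := by
  rw [Finsupp.mem_support_iff, Finsupp.mem_support_iff]
  by_cases hl : P l
  · rw [fil_apply P c l hl]; simp [hl]
  · rw [fil_apply_of_not P c l hl]; simp [hl]

/-- Induction on chains: `single l 1` and sums. -/
@[elab_as_elim]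
private theorem c1_ind {p : Ch V → Prop} (c : Ch V) (h0 : p 0)
    (hs : ∀ l, p (Finsupp.single l 1)) (ha : ∀ c c', p c → p c' → p (c + c')) : p c := by
  induction c using Finsupp.induction_linear with
  | zero => exact h0
  | add c c' h h' => exact ha c c' h h'
  | single l a =>
    have h2 : a = 0 ∨ a = 1 := by
      revert a; decide
    rcases h2 with rfl | rfl
    · simpa using h0
    · exact hs l

theorem mem_support_bd {c : Ch V} {l : List V} (h : l ∈ (bd c).support) :
    ∃ l' ∈ c.support, ∃ i < l'.length, l = l'.eraseIdx i := by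
  classical
  by_contra hcon
  push Not at hcon
  rw [Finsupp.mem_support_iff] at h
  apply h
  rw [bd, Finsupp.linearCombination_apply, Finsupp.sum, Finsupp.finsetSum_apply]
  refine Finset.sum_eq_zero fun l' hl' => ?_
  rw [Finsupp.smul_apply, Finsupp.finsetSum_apply, Finset.sum_eq_zero, smul_zero]
  intro i hi
  rw [Finsupp.single_apply, if_neg]
  exact fun he => hcon l' hl' i (Finset.mem_range.1 hi) he.symm

theorem mem_support_D {c : Ch V} {l : List V} (h : l ∈ (D c).support) :
    nd l ∧ ∃ l' ∈ c.support, ∃ i < l'.length, l = l'.eraseIdx i := by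
  rw [D, LinearMap.comp_apply, mem_support_fil] at h
  exact ⟨h.2, mem_support_bd h.1⟩

theorem mem_support_cone {a : V} {c : Ch V} {l : List V} (h : l ∈ (cone a c).support) :
    ∃ l' ∈ c.support, l = a :: l' := by
  classical
  have h1 := Finsupp.mapDomain_support h
  rw [Finset.mem_image] at h1
  obtain ⟨l', h2, h3⟩ := h1
  exact ⟨l', h2, h3.symm⟩

theorem mem_support_mapC {f : V → W} {c : Ch V} {l : List W} (h : l ∈ (mapC f c).support) :
    ∃ l' ∈ c.support, l = l'.map f := by
  classical
  have h1 := Finsupp.mapDomain_support h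
  rw [Finset.mem_image] at h1
  obtain ⟨l', h2, h3⟩ := h1
  exact ⟨l', h2, h3.symm⟩

/-- Two mod 2 chains: the support of the sum. -/
theorem mem_support_add {c c' : Ch V} {l : List V} (h : l ∈ (c + c').support) :
    l ∈ c.support ∨ l ∈ c'.support := by
  classical
  exact Finset.mem_union.1 (Finsupp.support_add h)

theorem add_self (c : Ch V) : c + c = 0 := by
  ext l
  rw [Finsupp.add_apply, Finsupp.zero_apply]
  exact CharTwo.add_self_eq_zero _

private theorem c1_erase_erase (l : List V) {i j : ℕ} (h : j < i) :
    (l.eraseIdx i).eraseIdx j = (l.eraseIdx j).eraseIdx (i - 1) := by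
  apply List.ext_getElem?
  intro k
  simp only [List.getElem?_eraseIdx]
  split_ifs <;> first | rfl | omega

private theorem c1_bd_bd_single (l : List V) : bd (bd (Finsupp.single l (1 : ZMod 2))) = 0 := by
  classical
  rw [bd_single, map_sum]
  have e1 : ∀ i ∈ Finset.range l.length, bd (Finsupp.single (l.eraseIdx i) (1 : ZMod 2)) =
      ∑ j ∈ Finset.range (l.length - 1), Finsupp.single ((l.eraseIdx i).eraseIdx j) 1 := by
    intro i hi
    rw [bd_single, List.length_eraseIdx_of_lt (Finset.mem_range.1 hi)]
  rw [Finset.sum_congr rfl e1, ← Finset.sum_product']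
  refine Finset.sum_involution
    (fun p _ => if p.2 < p.1 then (p.2, p.1 - 1) else (p.2 + 1, p.1)) ?_ ?_ ?_ ?_
  · rintro ⟨i, j⟩ _
    by_cases h : j < i
    · simp only [if_pos h]
      rw [c1_erase_erase l h]
      exact add_self _
    · simp only [if_neg h]
      have h2 : i < j + 1 := by omega
      have := c1_erase_erase l h2
      rw [Nat.add_sub_cancel] at this
      rw [← this]
      exact add_self _
  · rintro ⟨i, j⟩ _ _
    by_cases h : j < i
    · simp only [if_pos h]
      intro he
      rw [Prod.mk.injEq] at he
      omega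
    · simp only [if_neg h]
      intro he
      rw [Prod.mk.injEq] at he
      omega
  · rintro ⟨i, j⟩ hp
    rw [Finset.mem_product, Finset.mem_range, Finset.mem_range] at hp
    by_cases h : j < i
    · simp only [if_pos h, Finset.mem_product, Finset.mem_range]
      simp only at hp
      omega
    · simp only [if_neg h, Finset.mem_product, Finset.mem_range]
      simp only at hp
      omega
  · rintro ⟨i, j⟩ _
    by_cases h : j < i
    · have h2 : ¬ i - 1 < j := by omega
      simp only [if_pos h, if_neg h2]
      rw [Prod.mk.injEq]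
      omega
    · have h2 : i < j + 1 := by omega
      simp only [if_neg h, if_pos h2]
      rw [Prod.mk.injEq]
      omega

private theorem c1_bd_bd (c : Ch V) : bd (bd c) = 0 := by
  refine c1_ind c ?_ c1_bd_bd_single fun c c' h h' => ?_
  · simp
  rw [map_add, map_add, h, h', add_zero]

private theorem c1_not_nd {l : List V} (h : ¬ nd l) :
    ∃ i, ∃ x, l[i]? = some x ∧ l[i + 1]? = some x := by
  unfold nd at h
  rw [List.isChain_iff_getElem] at h
  push Not at h
  obtain ⟨i, hi, he⟩ := h
  refine ⟨i, l[i], List.getElem?_eq_getElem _, ?_⟩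
  rw [List.getElem?_eq_getElem hi, he]

private theorem c1_not_nd_of {l : List V} {i : ℕ} {x : V} (h1 : l[i]? = some x)
    (h2 : l[i + 1]? = some x) : ¬ nd l := by
  unfold nd
  rw [List.isChain_iff_getElem]
  push Not
  obtain ⟨hi, e1⟩ := List.getElem?_eq_some_iff.1 h1
  obtain ⟨hi', e2⟩ := List.getElem?_eq_some_iff.1 h2
  exact ⟨i, hi', by rw [e1, e2]⟩

private theorem c1_fil_bd_single {l : List V} (h : ¬ nd l) :
    fil nd (bd (Finsupp.single l (1 : ZMod 2))) = 0 := by
  classical
  obtain ⟨i, x, h1, h2⟩ := c1_not_nd h
  obtain ⟨hi', -⟩ := List.getElem?_eq_some_iff.1 h2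
  rw [bd_single, map_sum]
  have e1 : l.eraseIdx i = l.eraseIdx (i + 1) := by
    apply List.ext_getElem?
    intro k
    simp only [List.getElem?_eraseIdx]
    by_cases hk : k < i
    · rw [if_pos hk, if_pos (by omega)]
    · by_cases hk' : k = i
      · subst hk'
        rw [if_neg hk, if_pos (by omega), h1, h2]
      · rw [if_neg hk, if_neg (by omega)]
  have hz : ∀ j ∈ Finset.range l.length, j ∉ ({i, i + 1} : Finset ℕ) →
      fil nd (Finsupp.single (l.eraseIdx j) (1 : ZMod 2)) = 0 := by
    intro j _ hj
    rw [Finset.mem_insert, Finset.mem_singleton, not_or] at hj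
    refine fil_single_of_not nd _ ?_
    by_cases hji : j < i
    · refine c1_not_nd_of (i := i - 1) (x := x) ?_ ?_
      · rw [List.getElem?_eraseIdx, if_neg (by omega)]
        rw [show i - 1 + 1 = i from by omega]; exact h1
      · rw [List.getElem?_eraseIdx, if_neg (by omega)]
        rw [show i - 1 + 1 + 1 = i + 1 from by omega]; exact h2
    · refine c1_not_nd_of (i := i) (x := x) ?_ ?_
      · rw [List.getElem?_eraseIdx, if_pos (by omega)]; exact h1
      · rw [List.getElem?_eraseIdx, if_pos (by omega)]; exact h2
  have hsub : ({i, i + 1} : Finset ℕ) ⊆ Finset.range l.length := by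
    intro j hj
    rw [Finset.mem_insert, Finset.mem_singleton] at hj
    rw [Finset.mem_range]
    omega
  rw [← Finset.sum_subset hsub hz, Finset.sum_pair (by omega), e1]
  exact add_self _

theorem D_fil (c : Ch V) : D (fil nd c) = D c := by
  refine c1_ind c ?_ (fun l => ?_) fun c c' h h' => ?_
  · simp
  · by_cases h : nd l
    · rw [fil_single nd l h]
    · rw [fil_single_of_not nd l h, map_zero, D, LinearMap.comp_apply, c1_fil_bd_single h]
  · rw [map_add, map_add, map_add, h, h']

theorem D_D (c : Ch V) : D (D c) = 0 := by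
  have e : D c = fil nd (bd c) := rfl
  rw [e, D_fil, D, LinearMap.comp_apply, c1_bd_bd, map_zero]

private theorem c1_bd_cone (a : V) (c : Ch V) : bd (cone a c) = c + cone a (bd c) := by
  refine c1_ind c ?_ (fun l => ?_) fun c c' h h' => ?_
  · simp
  · rw [cone_single, bd_single, bd_single, map_sum, List.length_cons, Finset.sum_range_succ',
      List.eraseIdx_cons_zero, add_comm]
    congr 1
    refine Finset.sum_congr rfl fun i _ => ?_
    rw [cone_single, List.eraseIdx_cons_succ]
  · rw [map_add, map_add, map_add, map_add, h, h']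
    abel

private theorem c1_fil_cone (a : V) (c : Ch V) :
    fil nd (cone a c) = fil nd (cone a (fil nd c)) := by
  refine c1_ind c ?_ (fun l => ?_) fun c c' h h' => ?_
  · simp
  · by_cases h : nd l
    · rw [fil_single nd l h]
    · rw [fil_single_of_not nd l h, map_zero, map_zero, cone_single]
      refine fil_single_of_not nd _ fun h' => h ?_
      unfold nd at h' ⊢
      exact List.IsChain.tail h'
  · simp only [map_add] at *
    rw [h, h']

theorem D_cone (a : V) (c : Ch V) : D (cone a c) = fil nd c + fil nd (cone a (D c)) := by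
  have e : D c = fil nd (bd c) := rfl
  rw [e, ← c1_fil_cone, D, LinearMap.comp_apply, c1_bd_cone, map_add]

private theorem c1_bd_mapC (f : V → W) (c : Ch V) : bd (mapC f c) = mapC f (bd c) := by
  refine c1_ind c ?_ (fun l => ?_) fun c c' h h' => ?_
  · simp
  · rw [mapC_single, bd_single, bd_single, map_sum, List.length_map]
    refine Finset.sum_congr rfl fun i _ => ?_
    rw [mapC_single, List.eraseIdx_map]
  · rw [map_add, map_add, map_add, map_add, h, h']

private theorem c1_fil_mapC (f : V → W) (c : Ch V) :
    fil nd (mapC f c) = fil nd (mapC f (fil nd c)) := by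
  refine c1_ind c ?_ (fun l => ?_) fun c c' h h' => ?_
  · simp
  · by_cases h : nd l
    · rw [fil_single nd l h]
    · rw [fil_single_of_not nd l h, map_zero, map_zero, mapC_single]
      refine fil_single_of_not nd _ ?_
      obtain ⟨i, x, h1, h2⟩ := c1_not_nd h
      refine c1_not_nd_of (i := i) (x := f x) ?_ ?_
      · rw [List.getElem?_map, h1]; rfl
      · rw [List.getElem?_map, h2]; rfl
  · simp only [map_add] at *
    rw [h, h']

theorem D_mapC (f : V → W) (c : Ch V) : D (mapC f c) = fil nd (mapC f (D c)) := by
  have e : D c = fil nd (bd c) := rfl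
  rw [e, ← c1_fil_mapC, D, LinearMap.comp_apply, c1_bd_mapC]

theorem mapC_mapC {X : Type} (f : V → W) (g : W → X) (c : Ch V) :
    mapC g (mapC f c) = mapC (g ∘ f) c := by
  refine c1_ind c ?_ (fun l => ?_) fun c c' h h' => ?_
  · simp
  · rw [mapC_single, mapC_single, mapC_single, List.map_map]
  · rw [map_add, map_add, map_add, h, h']

end C1

end Pool.Agent.VN
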