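import Pool.Agent.SLX.Rewriting
/-!
# Virtually nilpotent groups with a finite complete ShortLex system: shared definitions
-/
namespace Pool.Agent.VN
open Pool.Agent.SLX

/-! ## Mod 2 chains on lists -/

/-- Mod 2 chains on lists of points; a list of length `k + 1` is a simplex of dimension `k`, the
empty list has dimension `-1`. -/
abbrev Ch (V : Type) := List V →₀ ZMod 2

/-- Consecutive entries are different. -/
def nd {V : Type} (l : List V) : Prop := List.IsChain (· ≠ ·) l

/-- The unnormalised boundary: delete one entry in all possible ways. -/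
noncomputable def bd {V : Type} : Ch V →ₗ[ZMod 2] Ch V :=
  Finsupp.linearCombination (ZMod 2)
    (fun l : List V => ∑ i ∈ Finset.range l.length, Finsupp.single (l.eraseIdx i) (1 : ZMod 2))

open Classical in
/-- Keep only the lists with property `P`. -/
noncomputable def fil {V : Type} (P : List V → Prop) : Ch V →ₗ[ZMod 2] Ch V :=
  Finsupp.linearCombination (ZMod 2)
    (fun l : List V => if P l then Finsupp.single l (1 : ZMod 2) else 0)

/-- The normalised boundary. -/
noncomputable def D {V : Type} : Ch V →ₗ[ZMod 2] Ch V := (fil nd).comp bd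

/-- Prepend `a` to all lists. -/
noncomputable def cone {V : Type} (a : V) : Ch V →ₗ[ZMod 2] Ch V :=
  Finsupp.lmapDomain (ZMod 2) (ZMod 2) (List.cons a)

/-- Apply `f` to all entries. -/
noncomputable def mapC {V W : Type} (f : V → W) : Ch V →ₗ[ZMod 2] Ch W :=
  Finsupp.lmapDomain (ZMod 2) (ZMod 2) (List.map f)

/-! ## Normal forms -/

/-- ShortLex normal forms of a group, with a rank function `rk` for the lexicographic order on
strings of equal length and the locality constant `N`. -/
structure NF (A G : Type) [Group G] (π : A → G) where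
  nf : G → List A
  rk : List A → ℕ
  N : ℕ
  val_nf : ∀ g, val π (nf g) = g
  nf_le : ∀ w, (nf (val π w)).length ≤ w.length
  rk_lt : ∀ w, (nf (val π w)).length = w.length → nf (val π w) ≠ w → rk (nf (val π w)) < rk w
  rk_app : ∀ p q v v' : List A, v.length = v'.length → rk v < rk v' →
    rk (p ++ v ++ q) < rk (p ++ v' ++ q)
  loc : ∀ w, (∀ p f q, w = p ++ f ++ q → f.length ≤ N → nf (val π f) = f) → nf (val π w) = w

variable {A G : Type} [Group G] {π : A → G}

/-- The word length. -/
def NF.l (F : NF A G π) (g : G) : ℕ := (F.nf g).length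

/-- The concatenated normal forms of the increments of a list of points. -/
def NF.wd (F : NF A G π) : List G → List A
  | [] => []
  | [_] => []
  | x :: y :: l => F.nf (x⁻¹ * y) ++ F.wd (y :: l)

/-- The inner length of a list of points. -/
def NF.inn (F : NF A G π) : List G → ℕ
  | [] => 0
  | [_] => 0
  | x :: y :: l => F.l (x⁻¹ * y) + F.inn (y :: l)

/-- Micro cells: nondegenerate lists of `k` points with inner length at most `d` and such that
(distance from `b` to the first point) + (inner length) + (`ψ` of the last point) is at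
most `m`. -/
def Cell (F : NF A G π) (b : G) (ψ : G → ℕ) (m d k : ℕ) (l : List G) : Prop :=
  nd l ∧ l.length = k ∧ F.inn l ≤ d ∧
    ∃ x y, l.head? = some x ∧ l.getLast? = some y ∧ F.l (b⁻¹ * x) + F.inn l + ψ y ≤ m

/-- All entries are at mutual distance at most `f`. -/
def Msh (F : NF A G π) (f : ℕ) (l : List G) : Prop := ∀ x ∈ l, ∀ y ∈ l, F.l (x⁻¹ * y) ≤ f

/-- The ellipse with foci `1` and `z`. -/
def El (F : NF A G π) (z : G) (m : ℕ) (x : G) : Prop := F.l x + F.l (x⁻¹ * z) ≤ m

/-! ## The three properties of a subgroup used in the topological argument -/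

/-- Conjugation is continuous at linear scale. -/
def HConj (F : NF A G π) (H : Subgroup G) : Prop :=
  ∀ R p : ℕ, ∃ q n0 : ℕ, ∀ n ≥ n0, ∀ x ∈ H, ∀ b ∈ H,
    F.l x ≤ R * n → q * F.l b ≤ n → p * F.l (x * b * x⁻¹) ≤ n

/-- If `t ^ 2` is small at linear scale then `t` is. -/
def HRoot (F : NF A G π) (H : Subgroup G) : Prop :=
  ∀ R p : ℕ, ∃ q n0 : ℕ, ∀ n ≥ n0, ∀ t ∈ H,
    F.l t ≤ R * n → q * F.l (t * t) ≤ n → p * F.l t ≤ n

/-- Bounded covering numbers at linear scale. -/
def HCov (F : NF A G π) (H : Subgroup G) : Prop :=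
  ∀ R p : ℕ, ∃ J n0 : ℕ, ∀ n ≥ n0, ∃ S : Finset G, S.card ≤ J ∧
    ∀ x ∈ H, F.l x ≤ R * n → ∃ y ∈ S, p * F.l (y⁻¹ * x) ≤ n ∧ p * F.l (x⁻¹ * y) ≤ n

/-- A central element of `H` of infinite order whose powers have length `O(sqrt K)`. -/
def HDist (F : NF A G π) (H : Subgroup G) : Prop :=
  ∃ w ∈ H, (∀ h ∈ H, w * h = h * w) ∧ (∀ k : ℕ, 0 < k → w ^ k ≠ 1) ∧
    ∃ C : ℕ, ∀ K lam : ℕ, K ≤ lam * lam → F.l (w ^ K) ≤ C * lam + C

/-- Approximate square roots of central elements of `H`. -/
def HApx (F : NF A G π) (H : Subgroup G) : Prop :=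
  ∀ p : ℕ, ∃ n0 : ℕ, ∀ z ∈ H, (∀ h ∈ H, z * h = h * z) → n0 ≤ F.l z →
    ∃ x ∈ H, p * (F.l x + F.l (x⁻¹ * z)) ≤ (p + 1) * F.l z ∧
      p * F.l (x⁻¹ * x⁻¹ * z) ≤ F.l z ∧ p * F.l ((x⁻¹ * x⁻¹ * z)⁻¹) ≤ F.l z

end Pool.Agent.VN
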