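import Pool.Agent.VN.PBasic
import Pool.Agent.VNP.Chain
/-!
# From pairs of cells to tuples of pairs of points
-/
namespace Pool.Agent.VN
open Pool.Agent.SLX

namespace Tup

variable {G : Type}

theorem qc_decomp (c : QC G) :
    c = ∑ p ∈ c.support, c p • Finsupp.single p (1 : ZMod 2) := by
  conv_lhs => rw [← Finsupp.sum_single c]
  rw [Finsupp.sum]
  refine Finset.sum_congr rfl fun t _ => ?_
  rw [Finsupp.smul_single, smul_eq_mul, mul_one]

theorem qc_map {M : Type} [AddCommGroup M] [Module (ZMod 2) M] (f : QC G →ₗ[ZMod 2] M)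
    (S : Submodule (ZMod 2) M) (c : QC G)
    (h : ∀ p ∈ c.support, f (Finsupp.single p 1) ∈ S) : f c ∈ S := by
  rw [qc_decomp c, map_sum]
  refine Submodule.sum_mem _ fun p hp => ?_
  rw [map_smul]
  exact Submodule.smul_mem _ _ (h p hp)

theorem qc_ext {M : Type} [AddCommGroup M] [Module (ZMod 2) M] (f g : QC G →ₗ[ZMod 2] M)
    (c : QC G) (h : ∀ p ∈ c.support, f (Finsupp.single p 1) = g (Finsupp.single p 1)) :
    f c = g c := by
  have h1 : (f - g) c ∈ (⊥ : Submodule (ZMod 2) M) := by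
    apply qc_map
    intro p hp
    rw [LinearMap.sub_apply, h p hp, sub_self]
    exact Submodule.zero_mem _
  rw [Submodule.mem_bot, LinearMap.sub_apply, sub_eq_zero] at h1
  exact h1

theorem d1_sup {p p' : List G × List G} (h : p' ∈ (d1 (Finsupp.single p (1 : ZMod 2))).support) :
    (∀ x ∈ p'.1, x ∈ p.1) ∧ ∀ x ∈ p'.2, x ∈ p.2 := by
  classical
  unfold d1 at h
  rw [Finsupp.linearCombination_single, one_smul] at h
  obtain ⟨i, -, hi⟩ := Finsupp.mem_support_finsetSum p' h
  split_ifs at hi with h1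
  · have h2 := Finsupp.support_single_subset hi
    rw [Finset.mem_singleton] at h2
    subst h2
    exact ⟨fun x hx => (List.eraseIdx_sublist _ _).subset hx, fun x hx => hx⟩
  · simp at hi

theorem d2_sup {p p' : List G × List G} (h : p' ∈ (d2 (Finsupp.single p (1 : ZMod 2))).support) :
    (∀ x ∈ p'.1, x ∈ p.1) ∧ ∀ x ∈ p'.2, x ∈ p.2 := by
  classical
  unfold d2 at h
  rw [Finsupp.linearCombination_single, one_smul] at h
  obtain ⟨i, -, hi⟩ := Finsupp.mem_support_finsetSum p' h
  split_ifs at hi with h1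
  · have h2 := Finsupp.support_single_subset hi
    rw [Finset.mem_singleton] at h2
    subst h2
    exact ⟨fun x hx => hx, fun x hx => (List.eraseIdx_sublist _ _).subset hx⟩
  · simp at hi

theorem dQ_sup {p p' : List G × List G} (h : p' ∈ (dQ (Finsupp.single p (1 : ZMod 2))).support) :
    (∀ x ∈ p'.1, x ∈ p.1) ∧ ∀ x ∈ p'.2, x ∈ p.2 := by
  classical
  unfold dQ at h
  rw [LinearMap.add_apply] at h
  rcases Finset.mem_union.mp (Finsupp.support_add h) with h1 | h1
  · exact d1_sup h1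
  · exact d2_sup h1

variable [Group G]

/-- The chain map from pairs of cells to tuples of pairs. -/
noncomputable def Phi : ℕ → QC G →ₗ[ZMod 2] VNP.Ch (G × G)
  | 0 => Finsupp.linearCombination (ZMod 2) (fun p : List G × List G =>
      Finsupp.single [(p.1.headD 1, p.2.headD 1)] (1 : ZMod 2))
  | n + 1 => Finsupp.linearCombination (ZMod 2) (fun p : List G × List G =>
      VNP.cone (p.1.headD 1, p.2.headD 1) (Phi n (dQ (Finsupp.single p 1))))

theorem Phi_zero (p : List G × List G) :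
    Phi 0 (Finsupp.single p (1 : ZMod 2)) =
      Finsupp.single [(p.1.headD 1, p.2.headD 1)] (1 : ZMod 2) := by
  unfold Phi
  rw [Finsupp.linearCombination_single, one_smul]

theorem Phi_succ (n : ℕ) (p : List G × List G) :
    Phi (n + 1) (Finsupp.single p (1 : ZMod 2)) =
      VNP.cone (p.1.headD 1, p.2.headD 1) (Phi n (dQ (Finsupp.single p 1))) := by
  rw [Phi, Finsupp.linearCombination_single, one_smul]

theorem Phi_swap (n : ℕ) (c : QC G) : Phi n (swQ c) = VNP.mapC Prod.swap (Phi n c) := by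
  induction n generalizing c with
  | zero =>
    have := qc_ext ((Phi 0).comp swQ) ((VNP.mapC Prod.swap).comp (Phi 0)) c ?_
    · exact this
    · intro p _
      rw [LinearMap.comp_apply, LinearMap.comp_apply, Phi_zero, VNP.mapC_single]
      unfold swQ
      rw [Finsupp.lmapDomain_apply, Finsupp.mapDomain_single, Phi_zero]
      rfl
  | succ n ih =>
    have := qc_ext ((Phi (n + 1)).comp swQ) ((VNP.mapC Prod.swap).comp (Phi (n + 1))) c ?_
    · exact this
    · intro p _
      have h1 : swQ (Finsupp.single p (1 : ZMod 2)) = Finsupp.single p.swap (1 : ZMod 2) := by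
        unfold swQ
        rw [Finsupp.lmapDomain_apply, Finsupp.mapDomain_single]
      rw [LinearMap.comp_apply, LinearMap.comp_apply, h1, Phi_succ, Phi_succ, ← h1, dQ_swQ, ih,
        VNP.mapC_cone]
      rfl

variable {A : Type} {π : A → G}

theorem Phi_bd_zero (F : NF A G π) (z : G) (ell d : ℕ) (p : List G × List G)
    (hp : QCell F z ell d 1 p) : VNP.bd (Phi 0 (dQ (Finsupp.single p (1 : ZMod 2)))) = 0 := by
  classical
  have key : ∀ p' : List G × List G, VNP.bd (Phi 0 (Finsupp.single p' (1 : ZMod 2))) =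
      Finsupp.single [] 1 := by
    intro p'
    rw [Phi_zero, VNP.bd_single_one, VNP.bdL_cons, VNP.bdL_nil, map_zero, add_zero]
  obtain ⟨h1, h2, h3, h4, h5, -⟩ := hp
  obtain ⟨l, l'⟩ := p
  simp only at h1 h2 h3 h4 h5
  have hnd : ∀ x : G, nd [x] := fun x => List.isChain_singleton x
  match l, l', h1, h2, h3, h4, h5 with
  | [x, x'], [y], h1, h2, h3, h4, h5 =>
    have e1 : dQ (Finsupp.single (([x, x'], [y]) : List G × List G) (1 : ZMod 2)) =
        Finsupp.single ([x'], [y]) 1 + Finsupp.single ([x], [y]) 1 := by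
      unfold dQ d1 d2
      rw [LinearMap.add_apply, Finsupp.linearCombination_single, Finsupp.linearCombination_single,
        one_smul, one_smul]
      simp [Finset.sum_range_succ, hnd]
    rw [e1, map_add, map_add, key, key]
    exact VNP.ch_add_self _
  | [x], [y, y'], h1, h2, h3, h4, h5 =>
    have e1 : dQ (Finsupp.single (([x], [y, y']) : List G × List G) (1 : ZMod 2)) =
        Finsupp.single ([x], [y']) 1 + Finsupp.single ([x], [y]) 1 := by
      unfold dQ d1 d2
      rw [LinearMap.add_apply, Finsupp.linearCombination_single, Finsupp.linearCombination_single,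
        one_smul, one_smul]
      simp [Finset.sum_range_succ, hnd]
    rw [e1, map_add, map_add, key, key]
    exact VNP.ch_add_self _
  | [], _, _, _, h3, _, _ => exact absurd rfl h3
  | _, [], _, _, _, h4, _ => exact absurd rfl h4
  | [_], [_], _, _, _, _, h5 => simp at h5
  | _ :: _ :: _ :: _, _ :: _, _, _, _, _, h5 => simp at h5; omega
  | _ :: _ :: _, _ :: _ :: _, _, _, _, _, h5 => simp at h5; omega
  | _ :: _, _ :: _ :: _ :: _, _, _, _, _, h5 => simp at h5; omega

theorem Phi_bd (F : NF A G π) (z : G) (ell d n : ℕ) (c : QC G)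
    (hc : ∀ p ∈ c.support, QCell F z ell d (n + 1) p) :
    VNP.bd (Phi (n + 1) c) = Phi n (dQ c) := by
  induction n generalizing c with
  | zero =>
    have := qc_ext (VNP.bd.comp (Phi (0 + 1))) ((Phi 0).comp dQ) c ?_
    · exact this
    · intro p hp
      rw [LinearMap.comp_apply, LinearMap.comp_apply, Phi_succ, VNP.bd_cone,
        Phi_bd_zero F z ell d p (hc p hp), map_zero, add_zero]
  | succ n ih =>
    have := qc_ext (VNP.bd.comp (Phi (n + 1 + 1))) ((Phi (n + 1)).comp dQ) c ?_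
    · exact this
    · intro p hp
      have hp' := hc p hp
      have hs : ∀ p' ∈ (Finsupp.single p (1 : ZMod 2)).support,
          QCell F z ell d (n + 1 + 1) p' := by
        intro p' h'
        have := Finsupp.support_single_subset h'
        rw [Finset.mem_singleton] at this
        rw [this]
        exact hp'
      have h1 := dQ_cell F z ell d (n + 1) (Finsupp.single p 1) hs
      have h2 : dQ (dQ (Finsupp.single p (1 : ZMod 2))) = 0 :=
        dQ_dQ _ (fun p' h' => ⟨(hs p' h').1, (hs p' h').2.1⟩)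
      rw [LinearMap.comp_apply, LinearMap.comp_apply, Phi_succ, VNP.bd_cone, ih _ h1, h2,
        map_zero, map_zero, add_zero]

theorem Phi_on (F : NF A G π) (z : G) (ell d n : ℕ) (p : List G × List G)
    (hp : QCell F z ell d n p) :
    Phi n (Finsupp.single p (1 : ZMod 2)) ∈ VNP.On (fun t => t.length = n + 1 ∧
      ∀ v ∈ t, v.1 ∈ p.1 ∧ v.2 ∈ p.2) := by
  have hd1 : p.1.headD 1 ∈ p.1 := by
    obtain ⟨-, -, h3, -⟩ := hp
    cases h : p.1 with
    | nil => exact absurd h h3
    | cons x t => simp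
  have hd2 : p.2.headD 1 ∈ p.2 := by
    obtain ⟨-, -, -, h4, -⟩ := hp
    cases h : p.2 with
    | nil => exact absurd h h4
    | cons x t => simp
  induction n generalizing p with
  | zero =>
    rw [Phi_zero]
    apply VNP.single_mem_on
    refine ⟨rfl, fun v hv => ?_⟩
    rw [List.mem_singleton] at hv
    rw [hv]
    exact ⟨hd1, hd2⟩
  | succ n ih =>
    rw [Phi_succ]
    have hs : ∀ p' ∈ (Finsupp.single p (1 : ZMod 2)).support, QCell F z ell d (n + 1) p' := by
      intro p' h'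
      have := Finsupp.support_single_subset h'
      rw [Finset.mem_singleton] at this
      rw [this]
      exact hp
    have h1 := dQ_cell F z ell d n (Finsupp.single p 1) hs
    apply VNP.cone_mem_on (P := fun t => t.length = n + 1 ∧ ∀ v ∈ t, v.1 ∈ p.1 ∧ v.2 ∈ p.2)
    · rintro t ⟨h2, h3⟩
      refine ⟨by rw [List.length_cons, h2], fun v hv => ?_⟩
      rcases List.mem_cons.mp hv with rfl | hv
      · exact ⟨hd1, hd2⟩
      · exact h3 v hv
    · apply qc_map
      intro p' hp'
      have h2 := h1 p' hp'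
      have h3 := dQ_sup hp'
      have hd1' : p'.1.headD 1 ∈ p'.1 := by
        obtain ⟨-, -, h3, -⟩ := h2
        cases h : p'.1 with
        | nil => exact absurd h h3
        | cons x t => simp
      have hd2' : p'.2.headD 1 ∈ p'.2 := by
        obtain ⟨-, -, -, h4, -⟩ := h2
        cases h : p'.2 with
        | nil => exact absurd h h4
        | cons x t => simp
      refine VNP.on_mono ?_ (ih p' h2 hd1' hd2')
      rintro t ⟨h4, h5⟩
      exact ⟨h4, fun v hv => ⟨h3.1 _ (h5 v hv).1, h3.2 _ (h5 v hv).2⟩⟩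

theorem l_one' (F : NF A G π) : F.l 1 = 0 := by
  have h := F.nf_le []
  have h1 : val π ([] : List A) = 1 := rfl
  rw [h1] at h
  unfold NF.l
  simpa using h

theorem l_mul' (F : NF A G π) (g h : G) : F.l (g * h) ≤ F.l g + F.l h := by
  have h0 := F.nf_le (F.nf g ++ F.nf h)
  have h1 : val π (F.nf g ++ F.nf h) = val π (F.nf g) * val π (F.nf h) := by
    unfold val
    rw [List.map_append, List.prod_append]
  rw [h1, F.val_nf, F.val_nf, List.length_append] at h0
  exact h0

theorem inn_split (F : NF A G π) (l : List G) (x : G) (hx : x ∈ l) :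
    ∃ a b, a + b = F.inn l ∧ F.l ((l.headD 1)⁻¹ * x) ≤ a ∧ F.l (x⁻¹ * l.getLastD 1) ≤ b := by
  induction l generalizing x with
  | nil => simp at hx
  | cons u t ih =>
    cases t with
    | nil =>
      rw [List.mem_singleton] at hx
      subst hx
      refine ⟨0, 0, rfl, ?_, ?_⟩
      · simp [l_one' F]
      · simp [l_one' F]
    | cons v t =>
      have hlast : (u :: v :: t).getLastD 1 = (v :: t).getLastD 1 := by
        simp
      have hinn : F.inn (u :: v :: t) = F.l (u⁻¹ * v) + F.inn (v :: t) := rfl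
      have hhead : (u :: v :: t).headD 1 = u := rfl
      have hhead' : (v :: t).headD 1 = v := rfl
      rcases List.mem_cons.mp hx with rfl | hx
      · obtain ⟨a, b, h1, h2, h3⟩ := ih v List.mem_cons_self
        refine ⟨0, F.inn (x :: v :: t), by omega, ?_, ?_⟩
        · rw [hhead, inv_mul_cancel, l_one' F]
        · rw [hlast, hinn]
          have := l_mul' F (x⁻¹ * v) (v⁻¹ * (v :: t).getLastD 1)
          rw [show x⁻¹ * v * (v⁻¹ * (v :: t).getLastD 1) = x⁻¹ * (v :: t).getLastD 1 by group]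
            at this
          omega
      · obtain ⟨a, b, h1, h2, h3⟩ := ih x hx
        refine ⟨F.l (u⁻¹ * v) + a, b, by rw [hinn]; omega, ?_, ?_⟩
        · rw [hhead]
          rw [hhead'] at h2
          have := l_mul' F (u⁻¹ * v) (v⁻¹ * x)
          rw [show u⁻¹ * v * (v⁻¹ * x) = u⁻¹ * x by group] at this
          omega
        · rw [hlast]
          exact h3

theorem near_of_cell (F : NF A G π) (z : G) (κ : ℕ) (hκ : ∀ g, F.l g⁻¹ ≤ κ * F.l g)
    (ell d n : ℕ) (p : List G × List G) (hp : QCell F z ell d n p) (v v' : G × G)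
    (hv : v.1 ∈ p.1 ∧ v.2 ∈ p.2) (hv' : v'.1 ∈ p.1 ∧ v'.2 ∈ p.2) :
    Near F z ell ((1 + κ) * d) v v' := by
  obtain ⟨-, -, -, -, -, h6, h7, h8⟩ := hp
  have loop : ∀ w : G × G, w.1 ∈ p.1 ∧ w.2 ∈ p.2 →
      F.l (w.1⁻¹ * z * w.2) + F.l (w.2⁻¹ * z * w.1) ≤ ell := by
    rintro ⟨x, y⟩ ⟨hx, hy⟩
    simp only at hx hy ⊢
    obtain ⟨a, b, hab, ha, hb⟩ := inn_split F p.1 x hx
    obtain ⟨a', b', hab', ha', hb'⟩ := inn_split F p.2 y hy
    unfold per at h8
    have e1 := l_mul' F (x⁻¹ * p.1.getLastD 1)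
      (((p.1.getLastD 1)⁻¹ * z * p.2.headD 1) * ((p.2.headD 1)⁻¹ * y))
    have e2 := l_mul' F ((p.1.getLastD 1)⁻¹ * z * p.2.headD 1) ((p.2.headD 1)⁻¹ * y)
    rw [show x⁻¹ * p.1.getLastD 1 * ((p.1.getLastD 1)⁻¹ * z * p.2.headD 1 *
      ((p.2.headD 1)⁻¹ * y)) = x⁻¹ * z * y by group] at e1
    have e3 := l_mul' F (y⁻¹ * p.2.getLastD 1)
      (((p.2.getLastD 1)⁻¹ * z * p.1.headD 1) * ((p.1.headD 1)⁻¹ * x))
    have e4 := l_mul' F ((p.2.getLastD 1)⁻¹ * z * p.1.headD 1) ((p.1.headD 1)⁻¹ * x)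
    rw [show y⁻¹ * p.2.getLastD 1 * ((p.2.getLastD 1)⁻¹ * z * p.1.headD 1 *
      ((p.1.headD 1)⁻¹ * x)) = y⁻¹ * z * x by group] at e3
    omega
  have dist : ∀ (l : List G), F.inn l ≤ d → ∀ x ∈ l, ∀ y ∈ l,
      F.l (x⁻¹ * y) ≤ (1 + κ) * d := by
    intro l hl x hx y hy
    obtain ⟨a, b, hab, ha, -⟩ := inn_split F l x hx
    obtain ⟨a', b', hab', ha', -⟩ := inn_split F l y hy
    have e1 := l_mul' F (x⁻¹ * l.headD 1) ((l.headD 1)⁻¹ * y)
    rw [show x⁻¹ * l.headD 1 * ((l.headD 1)⁻¹ * y) = x⁻¹ * y by group] at e1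
    have e2 := hκ ((l.headD 1)⁻¹ * x)
    rw [mul_inv_rev, inv_inv] at e2
    have e3 : κ * F.l ((l.headD 1)⁻¹ * x) ≤ κ * d := Nat.mul_le_mul_left _ (by omega)
    have e4 : (1 + κ) * d = d + κ * d := by ring
    omega
  exact ⟨loop v hv, loop v' hv', dist _ h6 _ hv.1 _ hv'.1, dist _ h7 _ hv.2 _ hv'.2⟩

end Tup

variable {A G : Type} [Group G] {π : A → G}

theorem exists_tuples (F : NF A G π) (z : G) (κ : ℕ) (hκ : ∀ g, F.l g⁻¹ ≤ κ * F.l g)
    (K d ell : ℕ) (q : ℕ → QC G) (hq0 : q 0 = Finsupp.single ([1], [z⁻¹]) 1)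
    (hq : ∀ k < K, dQ (q (k + 1)) = q k + swQ (q k))
    (hqc : ∀ k ≤ K, ∀ p ∈ (q k).support, QCell F z ell d k p) :
    ∃ c : ℕ → VNP.Ch (G × G), c 0 = Finsupp.single [(1, z⁻¹)] 1 ∧
      (∀ k < K, VNP.bd (c (k + 1)) = c k + VNP.mapC Prod.swap (c k)) ∧
      ∀ k ≤ K, c k ∈ VNP.On (fun t => t.length = k + 1 ∧
        ∀ p ∈ t, ∀ p' ∈ t, Near F z ell ((1 + κ) * d) p p') := by
  refine ⟨fun k => Tup.Phi k (q k), ?_, ?_, ?_⟩
  · show Tup.Phi 0 (q 0) = _
    rw [hq0, Tup.Phi_zero]
    rfl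
  · intro k hk
    show VNP.bd (Tup.Phi (k + 1) (q (k + 1))) = Tup.Phi k (q k) +
      VNP.mapC Prod.swap (Tup.Phi k (q k))
    rw [Tup.Phi_bd F z ell d k _ (hqc (k + 1) (by omega)), hq k hk, map_add, Tup.Phi_swap]
  · intro k hk
    show Tup.Phi k (q k) ∈ _
    apply Tup.qc_map
    intro p hp
    have hcell := hqc k hk p hp
    refine VNP.on_mono ?_ (Tup.Phi_on F z ell d k p hcell)
    rintro t ⟨h1, h2⟩
    exact ⟨h1, fun v hv v' hv' =>
      Tup.near_of_cell F z κ hκ ell d k p hcell v v' (h2 v hv) (h2 v' hv')⟩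

end Pool.Agent.VN
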