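import Pool.Agent.VN.QChain
import Pool.Agent.VN.Tuples
import Pool.Agent.VN.NFBasic
import Pool.Agent.VNP.KyFan
import Pool.Agent.VNP.PLab
import Pool.Agent.VNP.Dist
import Pool.Agent.VNP.End

/-!
# Half lengths: the element `z` is at least half as long as its square, up to a constant
-/

namespace Pool.Agent.VN
open Pool.Agent.SLX

variable {A G : Type} [Group G] {π : A → G}

theorem half_len [Finite A] (F : NF A G π) {D : ℕ} (hP : VNP.PLab G D) : ∃ C : ℕ,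
    ∀ (z : G) (M m0 : ℕ), (∀ x, F.l (x⁻¹ * (z * z) * x) ≤ M) →
      (∀ x, m0 ≤ F.l (x⁻¹ * z * x)) → 2 * m0 ≤ M + C := by
  classical
  obtain ⟨κ, hκ⟩ := F.exists_inv
  set d : ℕ := D * F.N + 1 with hd
  set R0 : ℕ := (1 + κ) * d with hR0
  obtain ⟨K, lam, hK, hKs, hl1, hl2, hl3⟩ := hP {g | F.l g ≤ R0} (F.finite_ball R0)
  obtain ⟨B, hB⟩ : ∃ B : ℕ, ∀ g ∈ K, F.l g ≤ B ∧ F.l g⁻¹ ≤ B := by
    obtain ⟨B1, hB1⟩ := (hK.image fun g => F.l g).bddAbove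
    obtain ⟨B2, hB2⟩ := (hK.image fun g => F.l g⁻¹).bddAbove
    refine ⟨B1 + B2, fun g hg => ⟨?_, ?_⟩⟩
    · have : F.l g ≤ B1 := hB1 ⟨g, hg, rfl⟩
      omega
    · have : F.l g⁻¹ ≤ B2 := hB2 ⟨g, hg, rfl⟩
      omega
  refine ⟨R0 + 2 * B, fun z M m0 hM hm0 => ?_⟩
  by_contra hcon
  push Not at hcon
  set ell : ℕ := M + (1 + κ) * d with hell
  obtain ⟨q, hq0, hq1, hq2⟩ := exists_q F z κ M hκ hM D d ell le_rfl le_rfl
  obtain ⟨c, hc0, hc1, hc2⟩ := exists_tuples F z κ hκ D d ell q hq0 hq1 hq2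
  have hfar : ∀ p : G × G, Near F z ell ((1 + κ) * d) p p → p.1⁻¹ * p.2 ∉ K := by
    intro p hp hpK
    obtain ⟨hp1, _, _, _⟩ := hp
    obtain ⟨hb1, hb2⟩ := hB _ hpK
    have h1 := F.l_mul (p.1⁻¹ * z * p.2) (p.1⁻¹ * p.2)⁻¹
    have h2 : p.1⁻¹ * z * p.2 * (p.1⁻¹ * p.2)⁻¹ = p.1⁻¹ * z * p.1 := by group
    rw [h2] at h1
    have h3 := F.l_mul (p.2⁻¹ * z * p.1) (p.1⁻¹ * p.2)
    have h4 : p.2⁻¹ * z * p.1 * (p.1⁻¹ * p.2) = p.2⁻¹ * z * p.2 := by group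
    rw [h4] at h3
    have h5 := hm0 p.1
    have h6 := hm0 p.2
    omega
  have hself : ∀ p p' : G × G, Near F z ell ((1 + κ) * d) p p' →
      Near F z ell ((1 + κ) * d) p p ∧ Near F z ell ((1 + κ) * d) p' p' := by
    intro p p' hp
    obtain ⟨h1, h2, _, _⟩ := hp
    refine ⟨⟨h1, h1, ?_, ?_⟩, ⟨h2, h2, ?_, ?_⟩⟩
    · rw [inv_mul_cancel, F.l_one]
      exact Nat.zero_le _
    · rw [inv_mul_cancel, F.l_one]
      exact Nat.zero_le _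
    · rw [inv_mul_cancel, F.l_one]
      exact Nat.zero_le _
    · rw [inv_mul_cancel, F.l_one]
      exact Nat.zero_le _
  refine VNP.kyFan lam Prod.swap (Near F z ell ((1 + κ) * d)) D c (1, z⁻¹) hc0 hc2 hc1 ?_ ?_ ?_
  · intro p hp
    exact hl2 p.1 p.2 (hfar p hp)
  · intro p hp
    exact hl1 p.1 p.2 (hfar p hp)
  · intro p p' hp
    obtain ⟨hs, hs'⟩ := hself p p' hp
    obtain ⟨_, _, h3, h4⟩ := hp
    exact hl3 p.1 p.2 p'.1 p'.2 h3 h4 (hfar p hs) (hfar p' hs')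

end Pool.Agent.VN
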