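import Pool.Agent.VN.ResFin
import Pool.Agent.VN.NormalAb
/-!
# Solvable subgroups of groups whose abelian subgroups are finitely generated and have centralizers
of finite index in the normalizers
-/
namespace Pool.Agent.VN

open scoped commutatorElement

section solv
variable {G : Type} [Group G]

/-- An element with finitely many conjugates under `Q` has a centralizer of finite index. -/
theorem relIndex_centralizer_one (Q : Subgroup G) (v : G)
    (hfin : {w : G | ∃ q ∈ Q, w = q * v * q⁻¹}.Finite) :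
    (Subgroup.centralizer ({v} : Set G)).relIndex Q ≠ 0 := by
  classical
  have h1 : Finite {w : G | ∃ q ∈ Q, w = q * v * q⁻¹} := hfin
  have h2 : Finite (Q ⧸ (Subgroup.centralizer ({v} : Set G)).subgroupOf Q) := by
    refine Finite.of_injective (β := {w : G | ∃ q ∈ Q, w = q * v * q⁻¹})
      (Quotient.lift (fun q : Q => (⟨(q : G) * v * (q : G)⁻¹, q, q.2, rfl⟩ :
        {w : G | ∃ q ∈ Q, w = q * v * q⁻¹})) ?_) ?_
    · intro a b hab
      apply Subtype.ext
      show (a : G) * v * (a : G)⁻¹ = (b : G) * v * (b : G)⁻¹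
      have h3 := QuotientGroup.leftRel_apply.1 hab
      rw [Subgroup.mem_subgroupOf, Subgroup.mem_centralizer_singleton_iff] at h3
      have h4 : v * ((a : G)⁻¹ * b) = ((a : G)⁻¹ * b) * v := h3.symm
      have h5 : (b : G) = a * ((a : G)⁻¹ * b) := by group
      rw [h5]
      have h6 : (a : G) * ((a : G)⁻¹ * b) * v * ((a : G) * ((a : G)⁻¹ * b))⁻¹ =
        (a : G) * (((a : G)⁻¹ * b) * v) * ((a : G)⁻¹ * b)⁻¹ * (a : G)⁻¹ := by group
      rw [h6, ← h4]
      group
    · intro a b
      refine Quotient.inductionOn₂ a b ?_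
      intro a b hab
      apply Quotient.sound
      apply QuotientGroup.leftRel_apply.2
      rw [Subgroup.mem_subgroupOf, Subgroup.mem_centralizer_singleton_iff]
      have h3 : (a : G) * v * (a : G)⁻¹ = (b : G) * v * (b : G)⁻¹ := congrArg Subtype.val hab
      show ((a : G)⁻¹ * b) * v = v * ((a : G)⁻¹ * b)
      have h4 : ((a : G)⁻¹ * b) * v = (a : G)⁻¹ * ((b : G) * v * (b : G)⁻¹) * b := by group
      rw [h4, ← h3]
      group
  exact Nat.card_pos.ne'

theorem relIndex_centralizer_finset (Q : Subgroup G) (S : Finset G)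
    (h : ∀ v ∈ S, {w : G | ∃ q ∈ Q, w = q * v * q⁻¹}.Finite) :
    (Subgroup.centralizer (S : Set G)).relIndex Q ≠ 0 := by
  classical
  induction S using Finset.induction_on with
  | empty =>
    have h1 : Subgroup.centralizer ((∅ : Finset G) : Set G) = ⊤ := by
      rw [eq_top_iff]
      intro x _
      rw [Subgroup.mem_centralizer_iff]
      intro y hy
      exact absurd hy (by simp)
    rw [h1, Subgroup.relIndex_top_left]
    exact one_ne_zero
  | insert v S _ ih =>
    have h1 : Subgroup.centralizer ((insert v S : Finset G) : Set G) =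
        Subgroup.centralizer ({v} : Set G) ⊓ Subgroup.centralizer (S : Set G) := by
      ext x
      rw [Subgroup.mem_inf, Subgroup.mem_centralizer_iff, Subgroup.mem_centralizer_iff,
        Subgroup.mem_centralizer_iff]
      simp
    rw [h1]
    exact Subgroup.relIndex_inf_ne_zero
      (relIndex_centralizer_one Q v (h v (Finset.mem_insert_self v S)))
      (ih (fun w hw => h w (Finset.mem_insert_of_mem hw)))

/-- The centralizer of a finitely generated subgroup, all of whose elements have finitely many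
conjugates under `Q`. -/
theorem relIndex_centralizer_fg (Q A : Subgroup G) (hA : A.FG)
    (h : ∀ v ∈ A, {w : G | ∃ q ∈ Q, w = q * v * q⁻¹}.Finite) :
    (Subgroup.centralizer (A : Set G)).relIndex Q ≠ 0 := by
  obtain ⟨S, hS⟩ := hA
  have h1 : Subgroup.centralizer (A : Set G) = Subgroup.centralizer (S : Set G) := by
    rw [← hS, Subgroup.centralizer_closure]
  rw [h1]
  exact relIndex_centralizer_finset Q S (fun v hv => h v (hS ▸ Subgroup.subset_closure hv))

theorem der_succ' (s : ℕ) (P : Subgroup G) : der s ⁅P, P⁆ = der (s + 1) P := by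
  induction s with
  | zero => rfl
  | succ s ih =>
    show ⁅der s ⁅P, P⁆, der s ⁅P, P⁆⁆ = ⁅der (s + 1) P, der (s + 1) P⁆
    rw [ih]

/-- A maximal abelian subgroup. -/
theorem exists_max_ab (P : Subgroup G) : ∃ M : Subgroup G, M ≤ P ∧
    (∀ a ∈ M, ∀ b ∈ M, a * b = b * a) ∧ ∀ x ∈ P, (∀ a ∈ M, x * a = a * x) → x ∈ M := by
  obtain ⟨M, _, hM⟩ := zorn_le_nonempty₀
    {M : Subgroup G | M ≤ P ∧ ∀ a ∈ M, ∀ b ∈ M, a * b = b * a} (by
      intro c hc hchain y hy
      refine ⟨sSup c, ⟨?_, ?_⟩, fun z hz => le_sSup hz⟩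
      · exact sSup_le fun z hz => (hc hz).1
      · intro a ha b hb
        rw [Subgroup.mem_sSup_of_directedOn ⟨y, hy⟩ hchain.directedOn] at ha hb
        obtain ⟨s, hs, has⟩ := ha
        obtain ⟨t, ht, hbt⟩ := hb
        rcases hchain.total hs ht with h1 | h1
        · exact (hc ht).2 a (h1 has) b hbt
        · exact (hc hs).2 a has b (h1 hbt)) ⊥
    ⟨bot_le, fun a ha b hb => by
      rw [Subgroup.mem_bot] at ha hb
      rw [ha, hb]⟩
  refine ⟨M, hM.prop.1, hM.prop.2, ?_⟩
  intro x hx hxM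
  have h1 : Subgroup.closure ((M : Set G) ∪ {x}) ∈
      {M : Subgroup G | M ≤ P ∧ ∀ a ∈ M, ∀ b ∈ M, a * b = b * a} := by
    refine ⟨?_, ?_⟩
    · rw [Subgroup.closure_le, Set.union_subset_iff]
      exact ⟨hM.prop.1, by rw [Set.singleton_subset_iff]; exact hx⟩
    · have h2 : ∀ a ∈ (M : Set G) ∪ {x}, ∀ b ∈ (M : Set G) ∪ {x}, a * b = b * a := by
        rintro a (ha | ha) b (hb | hb)
        · exact hM.prop.2 a ha b hb
        · rw [Set.mem_singleton_iff] at hb
          rw [hb]
          exact (hxM a ha).symm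
        · rw [Set.mem_singleton_iff] at ha
          rw [ha]
          exact hxM b hb
        · rw [Set.mem_singleton_iff] at ha hb
          rw [ha, hb]
      have h3 : Subgroup.closure ((M : Set G) ∪ {x}) ≤
          Subgroup.centralizer ((M : Set G) ∪ {x}) := by
        rw [Subgroup.closure_le]
        intro a ha
        rw [SetLike.mem_coe, Subgroup.mem_centralizer_iff]
        intro b hb
        exact h2 b hb a ha
      have h4 : Subgroup.closure ((M : Set G) ∪ {x}) ≤
          Subgroup.centralizer (Subgroup.closure ((M : Set G) ∪ {x}) : Set G) := by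
        rw [Subgroup.closure_le]
        intro a ha
        rw [SetLike.mem_coe, Subgroup.mem_centralizer_iff]
        intro b hb
        have h5 := h3 hb
        rw [Subgroup.mem_centralizer_iff] at h5
        exact (h5 a ha).symm
      intro a ha b hb
      have h5 := h4 ha
      rw [Subgroup.mem_centralizer_iff] at h5
      exact (h5 b hb).symm
  have h2 : M ≤ Subgroup.closure ((M : Set G) ∪ {x}) := fun a ha =>
    Subgroup.subset_closure (Or.inl ha)
  exact hM.le_of_ge h1 h2 (Subgroup.subset_closure (Or.inr rfl))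

/-- The finite index subgroup generated by powers. -/
theorem exists_power_subgroup (hfg : ∀ A : Subgroup G, (∀ a ∈ A, ∀ b ∈ A, a * b = b * a) → A.FG)
    (P' H : Subgroup G) (hHP : H ≤ P') (hi : H.relIndex P' ≠ 0)
    (hab : ∀ a ∈ H, ∀ b ∈ H, a * b = b * a) :
    ∃ m : ℕ, 0 < m ∧ Subgroup.closure {g : G | ∃ x ∈ P', g = x ^ m} ≤ H ∧
      (Subgroup.closure {g : G | ∃ x ∈ P', g = x ^ m}).relIndex P' ≠ 0 := by
  classical
  set m := (H.relIndex P').factorial with hm
  have hm0 : 0 < m := Nat.factorial_pos _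
  set A0 := Subgroup.closure {g : G | ∃ x ∈ P', g = x ^ m} with hA0
  refine ⟨m, hm0, ?_, ?_⟩
  · rw [Subgroup.closure_le]
    rintro _ ⟨x, hx, rfl⟩
    have h1 := Subgroup.pow_mem_of_relIndex_ne_zero_of_dvd hi hx (n := m)
      (fun k hk hk' => Nat.dvd_factorial hk hk')
    exact h1.1
  · have hHfg : Group.FG H := (Group.fg_iff_subgroup_fg H).2 (hfg H hab)
    let _ : CommGroup H := { (inferInstance : Group H) with
      mul_comm := fun a b => Subtype.ext (hab a a.2 b b.2) }
    have h2 := fg_ab_pow_finite H m hm0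
    have h3 : A0.relIndex H ≠ 0 := by
      have h4 : (powMonoidHom m : H →* H).range ≤ A0.subgroupOf H := by
        rintro _ ⟨x, rfl⟩
        rw [Subgroup.mem_subgroupOf]
        exact Subgroup.subset_closure ⟨x, hHP x.2, rfl⟩
      have h5 : ((powMonoidHom m : H →* H).range).FiniteIndex :=
        Subgroup.finiteIndex_of_finite_quotient
      have h6 : (A0.subgroupOf H).FiniteIndex := Subgroup.finiteIndex_of_le h4
      exact h6.index_ne_zero
    exact Subgroup.relIndex_ne_zero_trans h3 hi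

variable (hfg : ∀ A : Subgroup G, (∀ a ∈ A, ∀ b ∈ A, a * b = b * a) → A.FG)
  (hnc : ∀ A : Subgroup G, (∀ a ∈ A, ∀ b ∈ A, a * b = b * a) → ∀ Q : Subgroup G,
    (∀ q ∈ Q, ∀ a ∈ A, q * a * q⁻¹ ∈ A) → (Subgroup.centralizer (A : Set G)).relIndex Q ≠ 0)

include hfg hnc in
theorem solv_aux (s : ℕ) : ∀ P : Subgroup G, der s P = ⊥ →
    ∃ H : Subgroup G, H ≤ P ∧ H.relIndex P ≠ 0 ∧ ∀ a ∈ H, ∀ b ∈ H, a * b = b * a := by
  classical
  induction s with
  | zero =>
    intro P hP
    have hP' : P = ⊥ := hP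
    refine ⟨P, le_rfl, by rw [Subgroup.relIndex_self]; exact one_ne_zero, ?_⟩
    intro a ha b hb
    rw [hP', Subgroup.mem_bot] at ha hb
    rw [ha, hb]
  | succ s ih =>
    intro P hP
    set P' : Subgroup G := ⁅P, P⁆ with hP'
    have hP'P : P' ≤ P := der_succ_le 0 P
    obtain ⟨H, hH1, hH2, hH3⟩ := ih P' (by rw [der_succ', hP])
    obtain ⟨m, hm, hAH, hAi⟩ := exists_power_subgroup hfg P' H hH1 hH2 hH3
    set A0 := Subgroup.closure {g : G | ∃ x ∈ P', g = x ^ m} with hA0
    have hAab : ∀ a ∈ A0, ∀ b ∈ A0, a * b = b * a := fun a ha b hb =>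
      hH3 a (hAH ha) b (hAH hb)
    have hAfg : A0.FG := hfg A0 hAab
    have hAn : ∀ q ∈ P, ∀ a ∈ A0, q * a * q⁻¹ ∈ A0 := by
      intro q hq a ha
      have h1 : A0.map (MulAut.conj q).toMonoidHom ≤ A0 := by
        rw [hA0, MonoidHom.map_closure, Subgroup.closure_le]
        rintro _ ⟨_, ⟨x, hx, rfl⟩, rfl⟩
        refine Subgroup.subset_closure ⟨q * x * q⁻¹, ?_, ?_⟩
        · exact der_conj 1 hq hx
        · show q * x ^ m * q⁻¹ = (q * x * q⁻¹) ^ m
          rw [conj_pow]
      exact h1 ⟨a, ha, rfl⟩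
    have hC : (Subgroup.centralizer (A0 : Set G)).relIndex P ≠ 0 := hnc A0 hAab P hAn
    set P2 : Subgroup G := P ⊓ Subgroup.centralizer (A0 : Set G) with hP2
    have hP2i : P2.relIndex P ≠ 0 := by
      rw [hP2, Subgroup.inf_relIndex_left]
      exact hC
    set Q : Subgroup G := P' ⊓ Subgroup.centralizer (A0 : Set G) with hQ
    have hA0P' : A0 ≤ P' := hAH.trans hH1
    have hA0Q : A0 ≤ Q := by
      refine le_inf hA0P' ?_
      intro a ha
      rw [Subgroup.mem_centralizer_iff]
      intro b hb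
      exact hAab b hb a ha
    have hA0Qi : A0.relIndex Q ≠ 0 := fun h =>
      hAi (Subgroup.relIndex_eq_zero_of_le_right inf_le_left h)
    -- representatives of `Q / A0`
    have hQfin : Finite (Q ⧸ A0.subgroupOf Q) := by
      have : (A0.subgroupOf Q).FiniteIndex := ⟨hA0Qi⟩
      infer_instance
    set Y : Finset G := (Set.finite_range
      (fun t : Q ⧸ A0.subgroupOf Q => ((t.out : Q) : G))).toFinset with hY
    have hYQ : ∀ y ∈ Y, y ∈ Q := by
      intro y hy
      rw [hY, Set.Finite.mem_toFinset] at hy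
      obtain ⟨t, rfl⟩ := hy
      exact (t.out : Q).2
    have hrep : ∀ q ∈ Q, ∃ y ∈ Y, ∃ a ∈ A0, q = y * a := by
      intro q hq
      set t : Q ⧸ A0.subgroupOf Q := QuotientGroup.mk ⟨q, hq⟩ with ht
      refine ⟨((t.out : Q) : G), ?_, ((t.out : Q) : G)⁻¹ * q, ?_, by group⟩
      · rw [hY, Set.Finite.mem_toFinset]
        exact ⟨t, rfl⟩
      · have h1 : (t.out)⁻¹ * (⟨q, hq⟩ : Q) ∈ A0.subgroupOf Q := by
          rw [← QuotientGroup.eq, QuotientGroup.out_eq']
        simpa [Subgroup.mem_subgroupOf] using h1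
    -- torsion of `A0`
    have hAfg' : Group.FG A0 := (Group.fg_iff_subgroup_fg A0).2 hAfg
    let _ : CommGroup A0 := { (inferInstance : Group A0) with
      mul_comm := fun a b => Subtype.ext (hAab a a.2 b b.2) }
    have htor : {a : G | a ∈ A0 ∧ a ^ m = 1}.Finite := by
      refine ((fg_ab_torsion_finite A0).image (fun a : A0 => (a : G))).subset ?_
      rintro a ⟨ha, ha'⟩
      refine ⟨⟨a, ha⟩, ?_, rfl⟩
      show IsOfFinOrder (⟨a, ha⟩ : A0)
      rw [isOfFinOrder_iff_pow_eq_one]
      exact ⟨m, hm, Subtype.ext ha'⟩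
    -- elements of `Q` have finitely many conjugates under `P2`
    have hQpow : ∀ q ∈ Q, q ^ m ∈ A0 := fun q hq => Subgroup.subset_closure ⟨q, hq.1, rfl⟩
    have horb : ∀ q ∈ Q, {w : G | ∃ p ∈ P2, w = p * q * p⁻¹}.Finite := by
      intro q hq
      have h1 : {w : G | ∃ p ∈ P2, w = p * q * p⁻¹} ⊆ {w : G | w ∈ Q ∧ w ^ m = q ^ m} := by
        rintro _ ⟨p, hp, rfl⟩
        refine ⟨⟨der_conj 1 hp.1 hq.1, ?_⟩, ?_⟩
        · exact (Subgroup.centralizer (A0 : Set G)).mul_mem
            ((Subgroup.centralizer (A0 : Set G)).mul_mem hp.2 hq.2)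
            ((Subgroup.centralizer (A0 : Set G)).inv_mem hp.2)
        · rw [conj_pow]
          have h2 : p ∈ Subgroup.centralizer (A0 : Set G) := hp.2
          rw [Subgroup.mem_centralizer_iff] at h2
          rw [← h2 _ (hQpow q hq)]
          group
      refine Set.Finite.subset ?_ h1
      have h3 : ∀ y ∈ Y, {w : G | ∃ a ∈ A0, w = y * a ∧ w ^ m = q ^ m}.Finite := by
        intro y hy
        by_cases hne : {w : G | ∃ a ∈ A0, w = y * a ∧ w ^ m = q ^ m}.Nonempty
        · obtain ⟨w0, a0, ha0, hw0, hw0'⟩ := hne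
          refine (htor.image (fun b => w0 * b)).subset ?_
          rintro w ⟨a, ha, hw, hw'⟩
          refine ⟨a0⁻¹ * a, ⟨A0.mul_mem (A0.inv_mem ha0) ha, ?_⟩, ?_⟩
          · have hcy : ∀ b ∈ A0, Commute y b := by
              intro b hb
              have : y ∈ Subgroup.centralizer (A0 : Set G) := (hYQ y hy).2
              rw [Subgroup.mem_centralizer_iff] at this
              exact (this b hb).symm
            have h5 : y ^ m * a0 ^ m = y ^ m * a ^ m := by
              rw [← (hcy a0 ha0).mul_pow, ← (hcy a ha).mul_pow, ← hw0, ← hw, hw0', hw']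
            have h6 : a0 ^ m = a ^ m := mul_left_cancel h5
            have h7 : Commute a0⁻¹ a := hAab _ (A0.inv_mem ha0) _ ha
            rw [h7.mul_pow, inv_pow, h6]
            group
          · show w0 * (a0⁻¹ * a) = w
            rw [hw0, hw]
            group
        · rw [Set.not_nonempty_iff_eq_empty] at hne
          rw [hne]
          exact Set.finite_empty
      refine (Set.Finite.biUnion Y.finite_toSet h3).subset ?_
      rintro w ⟨hwQ, hwm⟩
      obtain ⟨y, hy, a, ha, hw⟩ := hrep w hwQ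
      exact Set.mem_biUnion hy ⟨a, ha, hw, hwm⟩
    have hCY := relIndex_centralizer_finset P2 Y (fun v hv => horb v (hYQ v hv))
    set P3 : Subgroup G := P2 ⊓ Subgroup.centralizer (Y : Set G) with hP3
    have hP3i : P3.relIndex P2 ≠ 0 := by
      rw [hP3, Subgroup.inf_relIndex_left]
      exact hCY
    have hP3Q : ∀ p ∈ P3, ∀ q ∈ Q, p * q = q * p := by
      intro p hp q hq
      obtain ⟨y, hy, a, ha, rfl⟩ := hrep q hq
      have h1 : p ∈ Subgroup.centralizer (Y : Set G) := hp.2
      have h2 : p ∈ Subgroup.centralizer (A0 : Set G) := hp.1.2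
      rw [Subgroup.mem_centralizer_iff] at h1 h2
      have h3 := h1 y hy
      have h4 := h2 a ha
      rw [← mul_assoc, ← h3, mul_assoc, ← h4, mul_assoc]
    have hcomm : ∀ a ∈ P3, ∀ b ∈ P3, ⁅a, b⁆ ∈ Q := by
      intro a ha b hb
      refine ⟨Subgroup.commutator_mem_commutator ha.1.1 hb.1.1, ?_⟩
      rw [commutatorElement_def]
      exact (Subgroup.centralizer (A0 : Set G)).mul_mem
        ((Subgroup.centralizer (A0 : Set G)).mul_mem
          ((Subgroup.centralizer (A0 : Set G)).mul_mem ha.1.2 hb.1.2)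
          ((Subgroup.centralizer (A0 : Set G)).inv_mem ha.1.2))
        ((Subgroup.centralizer (A0 : Set G)).inv_mem hb.1.2)
    have hcomm3 : ∀ a ∈ P3, ∀ b ∈ P3, ⁅a, b⁆ ∈ P3 := by
      intro a ha b hb
      rw [commutatorElement_def]
      exact P3.mul_mem (P3.mul_mem (P3.mul_mem ha hb) (P3.inv_mem ha)) (P3.inv_mem hb)
    obtain ⟨M, hM1, hM2, hM3⟩ := exists_max_ab P3
    have hMn : ∀ q ∈ P3, ∀ a ∈ M, q * a * q⁻¹ ∈ M := by
      intro q hq a ha
      have h1 : ⁅q, a⁆ ∈ M := hM3 _ (hcomm3 q hq a (hM1 ha)) (fun b hb =>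
        (hP3Q b (hM1 hb) _ (hcomm q hq a (hM1 ha))).symm)
      have h2 : q * a * q⁻¹ = ⁅q, a⁆ * a := by
        rw [commutatorElement_def]
        group
      rw [h2]
      exact M.mul_mem h1 ha
    have hMi : M.relIndex P3 ≠ 0 := by
      have h1 := hnc M hM2 P3 hMn
      have h2 : Subgroup.centralizer (M : Set G) ⊓ P3 ≤ M := by
        intro x hxx
        have hx : x ∈ Subgroup.centralizer (M : Set G) := hxx.1
        have hx3 : x ∈ P3 := hxx.2
        rw [Subgroup.mem_centralizer_iff] at hx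
        exact hM3 x hx3 (fun a ha => (hx a ha).symm)
      rw [← Subgroup.inf_relIndex_right] at h1
      intro h3
      exact h1 (Subgroup.relIndex_eq_zero_of_le_left h2 h3)
    exact ⟨M, hM1.trans (inf_le_left.trans inf_le_left),
      Subgroup.relIndex_ne_zero_trans (Subgroup.relIndex_ne_zero_trans hMi hP3i) hP2i, hM2⟩

include hfg hnc in
/-- Solvable subgroups are virtually abelian. -/
theorem solv_vab (P : Subgroup G) (hP : Group.IsSolvable P) :
    ∃ H : Subgroup G, H ≤ P ∧ H.relIndex P ≠ 0 ∧ ∀ a ∈ H, ∀ b ∈ H, a * b = b * a := by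
  obtain ⟨n, hn⟩ := der_bot_of_solvable P hP
  exact solv_aux hfg hnc n P hn

end solv

end Pool.Agent.VN
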