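import Pool.Agent.VN.ResAb
import Pool.Agent.VN.Solv
import Pool.Agent.VS.Cor
/-!
# Groups in which infinite abelian subgroups meet infinitely many conjugacy classes
-/
namespace Pool.Agent.VN
open Pool.Agent.SLX

/-- Every infinite abelian subgroup of `G` meets infinitely many conjugacy classes of `G`. -/
def ManyClasses (G : Type) [Group G] : Prop :=
  ∀ A : Subgroup G, (∀ a ∈ A, ∀ b ∈ A, a * b = b * a) → (A : Set G).Infinite →
    ∀ S : Set G, S.Finite → ∃ a ∈ A, ∀ x : G, x⁻¹ * a * x ∉ S

/-- Residually finite groups have this property. -/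
theorem manyClasses_of_resFin {G : Type} [Group G] (hr : ResFin G) : ManyClasses G := by
  classical
  intro A _ hinf S hS
  by_contra hno
  push Not at hno
  obtain ⟨K, h1, h2, h3⟩ := rf_avoid hr hS
  apply hinf
  apply Set.Finite.of_finite_image (f := fun w : G => (QuotientGroup.mk w : G ⧸ K))
  · exact Set.toFinite _
  · intro a ha b hb hab
    have h4 : a⁻¹ * b ∈ K := QuotientGroup.eq.1 hab
    obtain ⟨x, hx⟩ := hno (a⁻¹ * b) (A.mul_mem (A.inv_mem ha) hb)
    have h5 : x⁻¹ * (a⁻¹ * b) * x ∈ K := by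
      have := h1.conj_mem _ h4 x⁻¹
      rwa [inv_inv] at this
    have h6 := h3 _ hx h5
    have h7 : a⁻¹ * b = x * (x⁻¹ * (a⁻¹ * b) * x) * x⁻¹ := by group
    rw [h6] at h7
    have h8 : a⁻¹ * b = 1 := by rw [h7]; group
    exact (inv_mul_eq_one.1 h8)

section ic
variable {G : Type} [Group G] (l : G → ℕ) (hone : l 1 = 0)
  (hmul : ∀ g h, l (g * h) ≤ l g + l h) {κ : ℕ} (hinv : ∀ g, l g⁻¹ ≤ κ * l g)
  (hcl : ∀ T : ℕ, ∃ S : Set G, S.Finite ∧ ∀ w, TauLe l T w → ∃ x, x⁻¹ * w * x ∈ S)

/-- logarithms are small -/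
theorem ic_log (K : ℕ) : ∃ c : ℕ, ∀ n : ℕ, K * Nat.log 2 n ≤ n + c := by
  refine ⟨2 ^ (K * K + 2 * K + 2), fun n => ?_⟩
  rcases Nat.eq_zero_or_pos n with rfl | hn
  · simp
  · set L := Nat.log 2 n with hL
    have h1 : 2 ^ L ≤ n := Nat.pow_log_le_self 2 hn.ne'
    by_cases hLK : L ≤ K
    · have h2 : K * L ≤ K * K := Nat.mul_le_mul_left _ hLK
      have h3 : K * K + 2 * K + 2 < 2 ^ (K * K + 2 * K + 2) := Nat.lt_two_pow_self
      omega
    · by_cases hLK2 : L ≤ 2 * K
      · have h2 : K * L ≤ K * (2 * K) := Nat.mul_le_mul_left _ hLK2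
        have h3 : ∀ m : ℕ, 2 * m ≤ 2 ^ m := by
          intro m
          induction m with
          | zero => simp
          | succ m ih =>
            rcases Nat.eq_zero_or_pos m with rfl | hm
            · simp
            · rw [pow_succ]
              have : 2 ≤ 2 ^ m := by
                calc 2 = 2 ^ 1 := by norm_num
                  _ ≤ 2 ^ m := Nat.pow_le_pow_right (by norm_num) hm
              omega
        have h4 := h3 (K * K + 2 * K + 2)
        have h5 : K * (2 * K) = 2 * (K * K) := by ring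
        omega
      · -- `2 K < L`
        have h2 : ∀ m : ℕ, 2 ^ (2 * m) ≥ m * m + m := by
          intro m
          have h3 : m + 1 ≤ 2 ^ m := Nat.lt_two_pow_self
          calc m * m + m = m * (m + 1) := by ring
            _ ≤ 2 ^ m * 2 ^ m := Nat.mul_le_mul (by omega) h3
            _ = 2 ^ (2 * m) := by rw [← pow_add]; congr 1; ring
        have h3 : K * L ≤ 2 ^ L := by
          obtain ⟨d, hd⟩ : ∃ d, L = 2 * K + d := ⟨L - 2 * K, by omega⟩
          have h4 : d + 1 ≤ 2 ^ d := Nat.lt_two_pow_self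
          have h5 : 2 * K + 1 ≤ 2 ^ (2 * K) := Nat.lt_two_pow_self
          have h6 := h2 K
          have h7 : K * K + K ≤ 2 ^ (2 * K) := h6
          -- 2^L = 2^(2K) * 2^d ≥ (K^2+K)(d+1)
          rw [hd, pow_add]
          by_cases hK : K = 0
          · rw [hK]
            simp
          · have h9 : K * (2 * K + d) ≤ (K * K + K) * (d + 1) := by
              have hd1 : 1 ≤ d := by omega
              nlinarith [Nat.mul_le_mul (Nat.le_refl (K * K)) hd1]
            exact h9.trans (Nat.mul_le_mul h7 h4)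
        exact (h3.trans h1).trans (Nat.le_add_right _ _)

include hone hmul hinv hcl in
/-- Translation numbers are bounded away from zero. -/
theorem ic_trans (hm : ManyClasses G) : ∃ e : ℕ, 0 < e ∧ ∀ w : G, w ^ e ≠ 1 → ∀ n : ℕ,
    n ≤ e * l (w ^ n) := by
  classical
  obtain ⟨ρ, K, hdich⟩ := VS.dichotomy_abs l hone hmul hcl
  obtain ⟨S, hS, hS1⟩ := hcl 1
  -- elements of finite order
  set e0 : ℕ := ∏ s ∈ hS.toFinset, (if orderOf s = 0 then 1 else orderOf s) with he0
  have he0p : 0 < e0 := by
    apply Finset.prod_pos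
    intro s _
    split_ifs with h
    · exact Nat.one_pos
    · exact Nat.pos_of_ne_zero h
  have htor : ∀ t : G, IsOfFinOrder t → t ^ e0 = 1 := by
    intro t ht
    have h1 : TauLe l 1 t := by
      refine ⟨∑ r ∈ Finset.range (orderOf t), l (t ^ r), fun n => ?_⟩
      rw [← pow_mod_orderOf]
      have h2 : l (t ^ (n % orderOf t)) ≤ ∑ r ∈ Finset.range (orderOf t), l (t ^ r) :=
        Finset.single_le_sum (f := fun r => l (t ^ r)) (fun _ _ => Nat.zero_le _)
          (Finset.mem_range.2 (Nat.mod_lt _ ht.orderOf_pos))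
      omega
    obtain ⟨x, hx⟩ := hS1 t h1
    have h3 : orderOf (x⁻¹ * t * x) = orderOf t := by
      have : x⁻¹ * t * x = (MulAut.conj x⁻¹) t := by simp
      rw [this]
      exact MulEquiv.orderOf_eq (MulAut.conj x⁻¹) t
    have h4 : orderOf t ∣ e0 := by
      rw [← h3]
      have h5 : (if orderOf (x⁻¹ * t * x) = 0 then 1 else orderOf (x⁻¹ * t * x)) =
          orderOf (x⁻¹ * t * x) := by
        rw [if_neg]
        rw [h3]
        exact ht.orderOf_pos.ne'
      have h6 := Finset.dvd_prod_of_mem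
        (fun s : G => if orderOf s = 0 then 1 else orderOf s) (hS.mem_toFinset.2 hx)
      simp only [h5] at h6
      exact h6
    exact orderOf_dvd_iff_pow_eq_one.1 h4
  refine ⟨e0 * (ρ + 1), Nat.mul_pos he0p (Nat.succ_pos _), ?_⟩
  intro w hw
  have hwinf : ¬ IsOfFinOrder w := by
    intro h
    apply hw
    rw [pow_mul, htor w h, one_pow]
  rcases hdich w with h1 | ⟨C, hC⟩
  · intro n
    refine (h1 n).trans (Nat.mul_le_mul_right _ ?_)
    nlinarith
  · exfalso
    obtain ⟨c, hc⟩ := ic_log K
    obtain ⟨c', hc'⟩ := ic_log (κ * K)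
    have hinf : ((Subgroup.zpowers w : Subgroup G) : Set G).Infinite := by
      intro hf
      apply hwinf
      exact finite_zpowers.1 hf
    obtain ⟨a, ha, hax⟩ := hm (Subgroup.zpowers w) (by
      rintro a ⟨i, rfl⟩ b ⟨j, rfl⟩
      show w ^ i * w ^ j = w ^ j * w ^ i
      rw [← zpow_add, ← zpow_add, add_comm]) hinf S hS
    obtain ⟨i, rfl⟩ := ha
    have hlog : ∀ k n : ℕ, Nat.log 2 (k * n) ≤ k + Nat.log 2 n := by
      intro k n
      rcases Nat.eq_zero_or_pos n with rfl | hn
      · simp
      · rcases Nat.eq_zero_or_pos k with rfl | hk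
        · simp
        · apply Nat.lt_succ_iff.1
          apply Nat.log_lt_of_lt_pow (by positivity)
          have h2 : k < 2 ^ k := Nat.lt_two_pow_self
          have h3 : n < 2 ^ (Nat.log 2 n + 1) := Nat.lt_pow_succ_log_self (by norm_num) n
          calc k * n < 2 ^ k * 2 ^ (Nat.log 2 n + 1) :=
                Nat.mul_lt_mul_of_lt_of_lt h2 h3
            _ = 2 ^ (k + Nat.log 2 n).succ := by
              rw [← pow_add]
              rfl
    have h5 : TauLe l 1 (w ^ i) := by
      rcases Int.eq_nat_or_neg i with ⟨k, hk | hk⟩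
      · refine ⟨K * k + C + c, fun n => ?_⟩
        rw [hk, zpow_natCast, ← pow_mul]
        have h6 := hC (k * n)
        have h7 := Nat.mul_le_mul_left K (hlog k n)
        have h8 := hc n
        rw [Nat.mul_add] at h7
        omega
      · refine ⟨κ * (K * k + C) + c', fun n => ?_⟩
        rw [hk, zpow_neg, zpow_natCast, inv_pow, ← pow_mul]
        have h6 := hC (k * n)
        have h7 := Nat.mul_le_mul_left K (hlog k n)
        rw [Nat.mul_add] at h7
        have h8 := hc' n
        have h9 := hinv (w ^ (k * n))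
        have h10 := Nat.mul_le_mul_left κ (h6.trans (Nat.add_le_add_right h7 C))
        have h11 : κ * (K * k + K * Nat.log 2 n + C) = κ * (K * k + C) +
            κ * K * Nat.log 2 n := by ring
        omega
    obtain ⟨x, hx⟩ := hS1 _ h5
    exact hax x hx

end ic

end Pool.Agent.VN
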