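import Pool.Agent.VN.Half

/-!
# Square roots of the elements of a finite conjugation invariant set
-/

namespace Pool.Agent.VN
open Pool.Agent.SLX

variable {A G : Type} [Group G] {π : A → G}

/-- The square roots of the elements of a finite set `T` of elements with finitely many conjugates
lie in finitely many conjugacy classes. -/
theorem sqrt_classes [Finite A] (F : NF A G π) {D : ℕ} (hP : VNP.PLab G D) (T : Set G)
    (hT : T.Finite) (hTn : ∀ t ∈ T, (Set.range (fun g : G => g⁻¹ * t * g)).Finite) :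
    ∃ S : Set G, S.Finite ∧ ∀ z : G, z * z ∈ T → ∃ x : G, x⁻¹ * z * x ∈ S := by
  classical
  obtain ⟨C, hC⟩ := half_len F hP
  -- a bound for the lengths of the conjugates of the elements of T
  have hfin : (⋃ t ∈ T, Set.range (fun g : G => g⁻¹ * t * g)).Finite := hT.biUnion hTn
  obtain ⟨M, hM⟩ := (hfin.image fun g => F.l g).bddAbove
  refine ⟨{g | F.l g ≤ M + C}, F.finite_ball _, fun z hz => ?_⟩
  by_contra hcon
  push Not at hcon
  have h1 := hC z M (M + C + 1) ?_ ?_
  · omega
  · intro x
    apply hM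
    refine ⟨x⁻¹ * (z * z) * x, ?_, rfl⟩
    rw [Set.mem_iUnion₂]
    exact ⟨z * z, hz, x, rfl⟩
  · intro x
    have h2 : ¬ F.l (x⁻¹ * z * x) ≤ M + C := fun h => hcon x h
    omega

/-- There are finitely many conjugacy classes of elements with `z ^ 2 = 1`. -/
theorem invol_classes [Finite A] (F : NF A G π) {D : ℕ} (hP : VNP.PLab G D) :
    ∃ S : Set G, S.Finite ∧ ∀ z : G, z * z = 1 → ∃ x : G, x⁻¹ * z * x ∈ S := by
  have h1 : ∀ t ∈ ({1} : Set G), (Set.range (fun g : G => g⁻¹ * t * g)).Finite := by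
    intro t ht
    rw [Set.mem_singleton_iff.1 ht]
    apply (Set.finite_singleton (1 : G)).subset
    rintro _ ⟨g, rfl⟩
    simp
  obtain ⟨S, hS, h⟩ := sqrt_classes F hP {1} (Set.finite_singleton 1) h1
  exact ⟨S, hS, fun z hz => h z (show z * z ∈ ({1} : Set G) from hz)⟩

end Pool.Agent.VN
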