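import Pool.Agent.SLX.Defs
/-!
# Nilpotent groups: letters, weighted words (shared definitions)
-/
namespace Pool.Agent.VN
open Pool.Agent.SLX

/-- The lower central series, indexed from `1`: `gam N 1 = N`, `gam N (a + 1) = [gam N a, N]`
for `a` at least `1` (and `gam N 0 = N`). -/
def gam (N : Type) [Group N] (a : ℕ) : Subgroup N := (⊤ : Subgroup N).lowerCentralSeries (a - 1)

/-- Letters: for every weight `a` at most `c` a list `h a j`, `j < r a`, of elements of `gam N a`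
whose classes are a basis of the abelian group `gam N a / gam N (a + 1)` with orders `d a j`
(`0` for infinite order). -/
structure Lt (N : Type) [Group N] where
  c : ℕ
  bot : gam N (c + 1) = ⊥
  r : ℕ → ℕ
  h : ℕ → ℕ → N
  d : ℕ → ℕ → ℕ
  mem : ∀ a j, j < r a → h a j ∈ gam N a
  span : ∀ a, 1 ≤ a → a ≤ c → ∀ g ∈ gam N a, ∃ m : ℕ → ℤ,
    (((List.range (r a)).map (fun j => h a j ^ m j)).prod)⁻¹ * g ∈ gam N (a + 1)
  dvd : ∀ a, 1 ≤ a → a ≤ c → ∀ m : ℕ → ℤ,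
    ((List.range (r a)).map (fun j => h a j ^ m j)).prod ∈ gam N (a + 1) →
    ∀ j, j < r a → (d a j : ℤ) ∣ m j
  pow : ∀ a j, 1 ≤ a → a ≤ c → j < r a → h a j ^ d a j ∈ gam N (a + 1)

variable {N : Type} [Group N]

/-- The ordered product of powers of the letters of weight `a`. -/
def Lt.sp (L : Lt N) (a : ℕ) (m : ℕ → ℤ) : N :=
  ((List.range (L.r a)).map (fun j => L.h a j ^ m j)).prod

/-- `g` is a letter of weight `a` or the inverse of one. -/
def Lt.IsLet (L : Lt N) (a : ℕ) (g : N) : Prop :=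
  1 ≤ a ∧ a ≤ L.c ∧ ∃ j, j < L.r a ∧ (g = L.h a j ∨ g = (L.h a j)⁻¹)

/-- `x` is a product of letters and inverses of letters of weights at least `i`, with at most
`M * lam ^ (a - i)` of weight `a`. -/
def Lt.P (L : Lt N) (lam i M : ℕ) (x : N) : Prop :=
  ∃ w : List (ℕ × N), (∀ p ∈ w, i ≤ p.1 ∧ L.IsLet p.1 p.2) ∧ (w.map Prod.snd).prod = x ∧
    ∀ a, i ≤ a → w.countP (fun p => p.1 = a) ≤ M * lam ^ (a - i)

/-- A finite symmetric generating set. -/
structure IsGen (S : Set N) : Prop where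
  fin : S.Finite
  inv : ∀ s ∈ S, s⁻¹ ∈ S
  gen : Subgroup.closure S = ⊤

/-- Conjugation is continuous at linear scale. -/
def NConj (S : Set N) : Prop :=
  ∀ R p : ℕ, ∃ q n0 : ℕ, ∀ n ≥ n0, ∀ x b : N, ∀ k : ℕ,
    IsShort S (R * n) x → IsShort S k b → q * k ≤ n →
      ∃ k', IsShort S k' (x * b * x⁻¹) ∧ p * k' ≤ n

/-- If `t ^ 2` is small at linear scale then `t` is. -/
def NRoot (S : Set N) : Prop :=
  ∀ R p : ℕ, ∃ q n0 : ℕ, ∀ n ≥ n0, ∀ t : N, ∀ k : ℕ,
    IsShort S (R * n) t → IsShort S k (t * t) → q * k ≤ n → ∃ k', IsShort S k' t ∧ p * k' ≤ n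

/-- Bounded covering numbers at linear scale. -/
def NCov (S : Set N) : Prop :=
  ∀ R p : ℕ, ∃ J n0 : ℕ, ∀ n ≥ n0, ∃ T : Finset N, T.card ≤ J ∧
    ∀ x, IsShort S (R * n) x → ∃ y ∈ T, ∃ k, IsShort S k (y⁻¹ * x) ∧ p * k ≤ n

/-- A central element of infinite order whose powers have length `O(sqrt K)`. -/
def NDist (S : Set N) : Prop :=
  ∃ w : N, (∀ h, w * h = h * w) ∧ (∀ k : ℕ, 0 < k → w ^ k ≠ 1) ∧
    ∃ C : ℕ, ∀ K lam : ℕ, K ≤ lam * lam → IsShort S (C * lam + C) (w ^ K)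

end Pool.Agent.VN
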