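import Pool.Agent.VN.NDefs
/-!
# The lower central series
-/
namespace Pool.Agent.VN
open Pool.Agent.SLX
open scoped commutatorElement

variable {N : Type} [Group N]

theorem gam_anti {a b : ℕ} (h : a ≤ b) : gam N b ≤ gam N a :=
  Subgroup.lowerCentralSeries_antitone (⊤ : Subgroup N) (Nat.sub_le_sub_right h 1)

instance gam_normal (a : ℕ) : (gam N a).Normal := by
  unfold gam
  infer_instance

/-- Three subgroups lemma modulo a normal subgroup. -/
theorem three_sub {H₁ H₂ H₃ K : Subgroup N} [K.Normal] (h1 : ⁅⁅H₂, H₃⁆, H₁⁆ ≤ K)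
    (h2 : ⁅⁅H₃, H₁⁆, H₂⁆ ≤ K) : ⁅⁅H₁, H₂⁆, H₃⁆ ≤ K := by
  have key : ∀ H : Subgroup N, H ≤ K ↔ H.map (QuotientGroup.mk' K) = ⊥ := by
    intro H
    rw [Subgroup.map_eq_bot_iff, QuotientGroup.ker_mk']
  rw [key] at h1 h2 ⊢
  simp only [Subgroup.map_commutator] at h1 h2 ⊢
  exact Subgroup.commutator_commutator_eq_bot_of_rotate h1 h2

theorem lcs_comm (m n : ℕ) :
    ⁅(⊤ : Subgroup N).lowerCentralSeries m, (⊤ : Subgroup N).lowerCentralSeries n⁆ ≤
      (⊤ : Subgroup N).lowerCentralSeries (m + n + 1) := by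
  induction n generalizing m with
  | zero => exact le_refl _
  | succ n ih =>
    rw [Subgroup.commutator_comm, Subgroup.lowerCentralSeries_succ]
    have h := three_sub (H₁ := (⊤ : Subgroup N).lowerCentralSeries n) (H₂ := ⊤)
      (H₃ := (⊤ : Subgroup N).lowerCentralSeries m)
      (K := (⊤ : Subgroup N).lowerCentralSeries (m + (n + 1) + 1)) ?_ ?_
    · exact h
    · rw [Subgroup.commutator_comm (⊤ : Subgroup N), ← Subgroup.lowerCentralSeries_succ]
      have := ih (m + 1)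
      rwa [show m + 1 + n + 1 = m + (n + 1) + 1 by ring] at this
    · have := Subgroup.commutator_mono (ih m) (le_refl (⊤ : Subgroup N))
      rwa [← Subgroup.lowerCentralSeries_succ] at this

theorem gam_comm {a b : ℕ} {x y : N} (hx : x ∈ gam N a) (hy : y ∈ gam N b) :
    x⁻¹ * y⁻¹ * x * y ∈ gam N (a + b) := by
  rcases Nat.eq_zero_or_pos a with ha | ha
  · subst ha
    rw [Nat.zero_add]
    have h1 : x⁻¹ * y⁻¹ * x⁻¹⁻¹ ∈ gam N b := (gam_normal b).conj_mem _ (inv_mem hy) _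
    rw [inv_inv] at h1
    exact mul_mem h1 hy
  rcases Nat.eq_zero_or_pos b with hb | hb
  · subst hb
    rw [Nat.add_zero]
    have h1 : y⁻¹ * x * y⁻¹⁻¹ ∈ gam N a := (gam_normal a).conj_mem _ hx _
    rw [inv_inv] at h1
    have h2 := mul_mem (inv_mem hx) h1
    rwa [← mul_assoc, ← mul_assoc] at h2
  have h := lcs_comm (N := N) (a - 1) (b - 1)
    (Subgroup.commutator_mem_commutator (inv_mem hx) (inv_mem hy))
  rw [commutatorElement_def, inv_inv, inv_inv] at h
  unfold gam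
  rwa [show a - 1 + (b - 1) + 1 = a + b - 1 by omega] at h

theorem gam_one (x : N) : x ∈ gam N 1 := by
  unfold gam
  exact Subgroup.mem_top x

/-- induction principle for `gam N (a + 1)` modulo nothing: it is the subgroup generated by the
commutators of `gam N a` with `N`. -/
theorem gam_succ_induction {a : ℕ} (ha : 1 ≤ a) {Q : N → Prop} (h1 : Q 1)
    (hm : ∀ x y, Q x → Q y → Q (x * y)) (hi : ∀ x, Q x → Q x⁻¹)
    (hc : ∀ x ∈ gam N a, ∀ y : N, Q (x⁻¹ * y⁻¹ * x * y)) {g : N} (hg : g ∈ gam N (a + 1)) :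
    Q g := by
  obtain ⟨k, rfl⟩ : ∃ k, a = k + 1 := ⟨a - 1, by omega⟩
  have hg' : g ∈ Subgroup.closure {x | ∃ p ∈ (⊤ : Subgroup N).lowerCentralSeries k,
      ∃ q ∈ (⊤ : Subgroup N), ⁅p, q⁆ = x} := hg
  clear hg
  induction hg' using Subgroup.closure_induction with
  | mem x hx =>
    obtain ⟨p, hp, q, -, rfl⟩ := hx
    have hp' : p⁻¹ ∈ gam N (k + 1) := by
      unfold gam
      exact inv_mem hp
    have := hc p⁻¹ hp' q⁻¹
    rwa [inv_inv, inv_inv] at this
  | one => exact h1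
  | mul x y hx hy ihx ihy => exact hm _ _ ihx ihy
  | inv x hx ihx => exact hi _ ihx

end Pool.Agent.VN
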