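import Pool.Agent.VN.NDefs
import Pool.Agent.VN.NGam
/-!
# Short representatives of powers in the lower central series (VN, module N4)
-/
namespace Pool.Agent.VN
open Pool.Agent.SLX

namespace N4

section short
variable {N : Type} [Group N] {S : Set N}

theorem one (n : ℕ) : IsShort S n (1 : N) := ⟨[], by simp, by simp, by simp⟩

theorem mono {n n' : ℕ} {x : N} (h : n ≤ n') (hx : IsShort S n x) : IsShort S n' x := by
  obtain ⟨v, h1, h2, h3⟩ := hx
  exact ⟨v, h1, h2, h3.trans h⟩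

theorem mul {n n' : ℕ} {x y : N} (hx : IsShort S n x) (hy : IsShort S n' y) :
    IsShort S (n + n') (x * y) := by
  obtain ⟨v, h1, h2, h3⟩ := hx
  obtain ⟨w, k1, k2, k3⟩ := hy
  refine ⟨v ++ w, ?_, by rw [List.prod_append, h2, k2], by rw [List.length_append]; omega⟩
  intro z hz
  rcases List.mem_append.1 hz with hz | hz
  · exact h1 z hz
  · exact k1 z hz

theorem inv (hS : IsGen S) {n : ℕ} {x : N} (hx : IsShort S n x) : IsShort S n x⁻¹ := by
  obtain ⟨v, h1, h2, h3⟩ := hx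
  refine ⟨(v.map (·⁻¹)).reverse, ?_, ?_, ?_⟩
  · intro z hz
    rw [List.mem_reverse, List.mem_map] at hz
    obtain ⟨u, hu, rfl⟩ := hz
    exact hS.inv u (h1 u hu)
  · rw [← List.prod_inv_reverse, h2]
  · simpa using h3

theorem pow {n : ℕ} {x : N} (hx : IsShort S n x) (k : ℕ) : IsShort S (k * n) (x ^ k) := by
  induction k with
  | zero => simpa using one (S := S) (N := N) 0
  | succ k ih => rw [pow_succ, Nat.succ_mul]; exact mul ih hx

theorem comm (hS : IsGen S) {n n' : ℕ} {x y : N} (hx : IsShort S n x) (hy : IsShort S n' y) :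
    IsShort S (2 * (n + n')) (x⁻¹ * y⁻¹ * x * y) :=
  mono (by omega) (mul (mul (mul (inv hS hx) (inv hS hy)) hx) hy)

theorem ex (hS : IsGen S) (g : N) : ∃ L : ℕ, IsShort S L g := by
  have hg : g ∈ Subgroup.closure S := by rw [hS.gen]; trivial
  induction hg using Subgroup.closure_induction with
  | mem x hx => exact ⟨1, [x], by simpa using hx, by simp, by simp⟩
  | one => exact ⟨0, one 0⟩
  | mul x y _ _ hx hy =>
    obtain ⟨a, ha⟩ := hx
    obtain ⟨b, hb⟩ := hy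
    exact ⟨a + b, mul ha hb⟩
  | inv x _ hx =>
    obtain ⟨a, ha⟩ := hx
    exact ⟨a, inv hS ha⟩

end short

/-! ### commutators with central value -/

theorem comm_pow {G : Type} [Group G] {X A c : G} (hc : ∀ g, c * g = g * c)
    (h : X⁻¹ * A⁻¹ * X * A = c) (q l : ℕ) :
    (X ^ q)⁻¹ * (A ^ l)⁻¹ * X ^ q * A ^ l = c ^ (q * l) := by
  have h1 : A⁻¹ * X * A = X * c := by rw [← h]; group
  have hcp : ∀ (l : ℕ) (g : G), c ^ l * g = g * c ^ l := fun l g =>
    ((show Commute c g from hc g).pow_left l).eq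
  have h2 : ∀ l : ℕ, (A ^ l)⁻¹ * X * A ^ l = X * c ^ l := by
    intro l
    induction l with
    | zero => simp
    | succ l ih =>
      calc (A ^ (l + 1))⁻¹ * X * A ^ (l + 1) = A⁻¹ * ((A ^ l)⁻¹ * X * A ^ l) * A := by
            rw [pow_succ]; group
        _ = A⁻¹ * X * (c ^ l * A) := by rw [ih]; group
        _ = A⁻¹ * X * A * c ^ l := by rw [hcp]; group
        _ = X * c ^ (l + 1) := by rw [h1, mul_assoc, ← pow_succ']
  have h3 : (A ^ l)⁻¹ * X ^ q * A ^ l = X ^ q * c ^ (q * l) := by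
    have h4 : (A ^ l)⁻¹ * X ^ q * A ^ l = ((A ^ l)⁻¹ * X * A ^ l) ^ q := by
      have := conj_pow (i := q) (a := (A ^ l)⁻¹) (b := X)
      rw [inv_inv] at this
      exact this.symm
    rw [h4, h2, (show Commute X (c ^ l) from (hcp l X).symm).mul_pow, ← pow_mul, mul_comm l q]
  calc (X ^ q)⁻¹ * (A ^ l)⁻¹ * X ^ q * A ^ l = (X ^ q)⁻¹ * ((A ^ l)⁻¹ * X ^ q * A ^ l) := by group
    _ = c ^ (q * l) := by rw [h3]; group

theorem comm_central {G : Type} [Group G] {X Y B : G} (hc : ∀ g, (Y⁻¹ * X) * g = g * (Y⁻¹ * X)) :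
    Y⁻¹ * B⁻¹ * Y * B = X⁻¹ * B⁻¹ * X * B := by
  have h1 : X = Y * (Y⁻¹ * X) := by group
  set Z := Y⁻¹ * X with hZ
  have h2 : Z⁻¹ * (Y⁻¹ * B⁻¹ * Y) * Z = Y⁻¹ * B⁻¹ * Y := by
    rw [mul_assoc, ← hc (Y⁻¹ * B⁻¹ * Y)]; group
  calc Y⁻¹ * B⁻¹ * Y * B = Z⁻¹ * (Y⁻¹ * B⁻¹ * Y) * Z * B := by rw [h2]
    _ = (Y * Z)⁻¹ * B⁻¹ * (Y * Z) * B := by group
    _ = X⁻¹ * B⁻¹ * X * B := by rw [← h1]

/-! ### the quotient by `gam` -/
section quo
variable {N : Type} [Group N]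

theorem mk_comm {i k : ℕ} (hk : k ≤ i + 1) {x : N} (hx : x ∈ gam N i) (g : N ⧸ gam N k) :
    (QuotientGroup.mk x : N ⧸ gam N k) * g = g * QuotientGroup.mk x := by
  obtain ⟨y, rfl⟩ := QuotientGroup.mk_surjective g
  rw [← QuotientGroup.mk_mul, ← QuotientGroup.mk_mul, eq_comm, QuotientGroup.eq]
  have h := gam_comm hx (gam_one y)
  have h2 := gam_anti hk h
  have h3 : (y * x)⁻¹ * (x * y) = x⁻¹ * y⁻¹ * x * y := by group
  rw [h3]; exact h2

end quo

end N4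

variable {N : Type} [Group N]

open N4 in
theorem pow_short {S : Set N} (hS : IsGen S) (i : ℕ) (hi : 1 ≤ i) {h : N} (hh : h ∈ gam N i) :
    ∃ C : ℕ, ∀ lam : ℕ, 1 ≤ lam → ∀ m : ℕ, m ≤ lam ^ i →
      ∃ y, IsShort S (C * lam) y ∧ y ∈ gam N i ∧ y⁻¹ * h ^ m ∈ gam N (i + 1) := by
  induction i, hi using Nat.le_induction generalizing h with
  | base =>
    obtain ⟨L, hL⟩ := ex hS h
    refine ⟨L, fun lam hlam m hm => ⟨h ^ m, ?_, gam_one _, by simp⟩⟩
    refine mono ?_ (N4.pow hL m)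
    rw [pow_one] at hm
    rw [mul_comm]
    exact Nat.mul_le_mul_left _ hm
  | succ i hi ih =>
    -- the property
    suffices hQ : h ∈ gam N (i + 1) ∧ ∃ C : ℕ, ∀ lam : ℕ, 1 ≤ lam → ∀ m : ℕ, m ≤ lam ^ (i + 1) →
        ∃ y, IsShort S (C * lam) y ∧ y ∈ gam N (i + 1) ∧ y⁻¹ * h ^ m ∈ gam N (i + 1 + 1) from hQ.2
    refine gam_succ_induction (Q := fun h => h ∈ gam N (i + 1) ∧ ∃ C : ℕ, ∀ lam : ℕ, 1 ≤ lam →
        ∀ m : ℕ, m ≤ lam ^ (i + 1) →
        ∃ y, IsShort S (C * lam) y ∧ y ∈ gam N (i + 1) ∧ y⁻¹ * h ^ m ∈ gam N (i + 1 + 1))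
      hi ?_ ?_ ?_ ?_ hh
    · exact ⟨one_mem _, 0, fun lam _ m _ => ⟨1, N4.one _, one_mem _, by simp [one_mem]⟩⟩
    · rintro x y ⟨hx, C1, h1⟩ ⟨hy, C2, h2⟩
      refine ⟨mul_mem hx hy, C1 + C2, fun lam hlam m hm => ?_⟩
      obtain ⟨u, hu1, hu2, hu3⟩ := h1 lam hlam m hm
      obtain ⟨v, hv1, hv2, hv3⟩ := h2 lam hlam m hm
      refine ⟨u * v, by rw [Nat.add_mul]; exact N4.mul hu1 hv1, mul_mem hu2 hv2, ?_⟩
      rw [← QuotientGroup.eq] at hu3 hv3 ⊢
      rw [QuotientGroup.mk_mul, hu3, hv3, QuotientGroup.mk_pow _ (x * y), QuotientGroup.mk_mul,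
        (show Commute (QuotientGroup.mk x : N ⧸ gam N (i + 1 + 1)) (QuotientGroup.mk y) from
          mk_comm le_rfl hx _).mul_pow, QuotientGroup.mk_pow, QuotientGroup.mk_pow]
    · rintro x ⟨hx, C1, h1⟩
      refine ⟨inv_mem hx, C1, fun lam hlam m hm => ?_⟩
      obtain ⟨u, hu1, hu2, hu3⟩ := h1 lam hlam m hm
      refine ⟨u⁻¹, N4.inv hS hu1, inv_mem hu2, ?_⟩
      rw [← QuotientGroup.eq] at hu3 ⊢
      rw [QuotientGroup.mk_inv, hu3, QuotientGroup.mk_pow, QuotientGroup.mk_pow,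
        QuotientGroup.mk_inv, inv_pow]
    · intro x hx a
      refine ⟨gam_comm hx (gam_one a), ?_⟩
      obtain ⟨C0, h0⟩ := ih hx
      obtain ⟨La, hLa⟩ := ex hS a
      obtain ⟨Lx, hLx⟩ := ex hS x
      refine ⟨2 * (C0 + La) + 2 * (Lx + La), fun lam hlam m hm => ?_⟩
      have hq : m / lam ≤ lam ^ i := by
        apply Nat.div_le_of_le_mul
        rw [← pow_succ']; exact hm
      have hr : m % lam ≤ lam := (Nat.mod_lt _ hlam).le
      obtain ⟨y, hy1, hy2, hy3⟩ := h0 lam hlam (m / lam) hq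
      refine ⟨(y⁻¹ * (a ^ lam)⁻¹ * y * a ^ lam) *
        (x⁻¹ * (a ^ (m % lam))⁻¹ * x * a ^ (m % lam)), ?_,
        mul_mem (gam_comm hy2 (gam_one _)) (gam_comm hx (gam_one _)), ?_⟩
      · refine mono ?_ (N4.mul (N4.comm hS hy1 (N4.pow hLa lam))
          (N4.comm hS hLx (N4.pow hLa (m % lam))))
        have e1 : m % lam * La ≤ lam * La := Nat.mul_le_mul_right _ hr
        have e2 : Lx ≤ Lx * lam := Nat.le_mul_of_pos_right _ hlam
        nlinarith
      · rw [← QuotientGroup.eq]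
        -- notation in the quotient
        set X : N ⧸ gam N (i + 1 + 1) := QuotientGroup.mk x with hX
        set A : N ⧸ gam N (i + 1 + 1) := QuotientGroup.mk a with hA
        set Y : N ⧸ gam N (i + 1 + 1) := QuotientGroup.mk y with hY
        have hcen : ∀ g, (X⁻¹ * A⁻¹ * X * A) * g = g * (X⁻¹ * A⁻¹ * X * A) := by
          intro g
          have := mk_comm (le_refl (i + 1 + 1)) (gam_comm hx (gam_one a)) g
          simpa only [QuotientGroup.mk_mul, QuotientGroup.mk_inv] using this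
        have hY2 : ∀ g, (Y⁻¹ * X ^ (m / lam)) * g = g * (Y⁻¹ * X ^ (m / lam)) := by
          intro g
          have := mk_comm (le_refl (i + 1 + 1)) hy3 g
          simpa only [QuotientGroup.mk_mul, QuotientGroup.mk_inv, QuotientGroup.mk_pow] using this
        have k1 := comm_central (B := A ^ lam) hY2
        have k2 := comm_pow hcen rfl (m / lam) lam
        have k3 := comm_pow hcen rfl 1 (m % lam)
        simp only [QuotientGroup.mk_mul, QuotientGroup.mk_inv, QuotientGroup.mk_pow]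
        rw [← hX, ← hA, ← hY, k1, k2]
        rw [pow_one] at k3
        rw [k3, one_mul, ← pow_add, Nat.div_add_mod' m lam]

open N4 in
theorem sp_short_aux {S : Set N} (hS : IsGen S) (K i : ℕ) (hi : 1 ≤ i) {h : N}
    (hh : h ∈ gam N i) : ∃ C : ℕ, ∀ lam : ℕ, 1 ≤ lam → ∀ e : ℤ, |e| ≤ K * lam ^ i →
      ∃ y, IsShort S (C * lam) y ∧ y ∈ gam N i ∧ y⁻¹ * h ^ e ∈ gam N (i + 1) := by
  obtain ⟨C, hC⟩ := pow_short hS i hi hh
  refine ⟨(K + 1) * C, fun lam hlam e he => ?_⟩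
  -- natural exponents
  have hnat : ∀ n : ℕ, n ≤ K * lam ^ i → ∃ y, IsShort S ((K + 1) * C * lam) y ∧ y ∈ gam N i ∧
      y⁻¹ * h ^ n ∈ gam N (i + 1) := by
    intro n hn
    have hl : 0 < lam ^ i := Nat.pow_pos hlam
    have hq : n / lam ^ i ≤ K := by
      apply Nat.div_le_of_le_mul
      rw [mul_comm]; exact hn
    obtain ⟨y1, a1, a2, a3⟩ := hC lam hlam (lam ^ i) le_rfl
    obtain ⟨y2, b1, b2, b3⟩ := hC lam hlam (n % lam ^ i) (Nat.mod_lt _ hl).le
    refine ⟨y1 ^ (n / lam ^ i) * y2, ?_, mul_mem (pow_mem a2 _) b2, ?_⟩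
    · refine mono ?_ (N4.mul (N4.pow a1 (n / lam ^ i)) b1)
      have : n / lam ^ i * (C * lam) ≤ K * (C * lam) := Nat.mul_le_mul_right _ hq
      nlinarith
    · rw [← QuotientGroup.eq] at a3 b3 ⊢
      rw [QuotientGroup.mk_mul, QuotientGroup.mk_pow, a3, b3, QuotientGroup.mk_pow,
        QuotientGroup.mk_pow, QuotientGroup.mk_pow, ← pow_mul, ← pow_add, Nat.div_add_mod]
  rcases Int.natAbs_eq e with h1 | h1
  · have h2 : e.natAbs ≤ K * lam ^ i := by
      have : ((e.natAbs : ℕ) : ℤ) ≤ ((K * lam ^ i : ℕ) : ℤ) := by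
        rw [Int.natCast_natAbs]; push_cast; exact he
      exact_mod_cast this
    obtain ⟨y, c1, c2, c3⟩ := hnat _ h2
    refine ⟨y, c1, c2, ?_⟩
    rw [h1, zpow_natCast]; exact c3
  · have h2 : e.natAbs ≤ K * lam ^ i := by
      have : ((e.natAbs : ℕ) : ℤ) ≤ ((K * lam ^ i : ℕ) : ℤ) := by
        rw [Int.natCast_natAbs]; push_cast; exact he
      exact_mod_cast this
    obtain ⟨y, c1, c2, c3⟩ := hnat _ h2
    refine ⟨y⁻¹, N4.inv hS c1, inv_mem c2, ?_⟩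
    rw [← QuotientGroup.eq] at c3 ⊢
    rw [h1, zpow_neg, zpow_natCast, QuotientGroup.mk_inv, QuotientGroup.mk_inv, c3]

open N4 in
theorem Lt.sp_short (L : Lt N) {S : Set N} (hS : IsGen S) (K i : ℕ) (hi : 1 ≤ i) :
    ∃ C : ℕ, ∀ lam : ℕ, 1 ≤ lam → ∀ m : ℕ → ℤ, (∀ j, |m j| ≤ K * lam ^ i) →
      ∃ y, IsShort S (C * lam) y ∧ y ∈ gam N i ∧ y⁻¹ * L.sp i m ∈ gam N (i + 1) := by
  have key : ∀ n : ℕ, n ≤ L.r i → ∃ C : ℕ, ∀ lam : ℕ, 1 ≤ lam → ∀ m : ℕ → ℤ,
      (∀ j, |m j| ≤ K * lam ^ i) → ∃ y, IsShort S (C * lam) y ∧ y ∈ gam N i ∧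
        y⁻¹ * ((List.range n).map (fun j => L.h i j ^ m j)).prod ∈ gam N (i + 1) := by
    intro n
    induction n with
    | zero => exact fun _ => ⟨0, fun lam _ m _ => ⟨1, N4.one _, one_mem _, by simp [one_mem]⟩⟩
    | succ n ih =>
      intro hn
      obtain ⟨C1, h1⟩ := ih (by omega)
      obtain ⟨C2, h2⟩ := sp_short_aux hS K i hi (L.mem i n (by omega))
      refine ⟨C1 + C2, fun lam hlam m hm => ?_⟩
      obtain ⟨u, u1, u2, u3⟩ := h1 lam hlam m hm
      obtain ⟨v, v1, v2, v3⟩ := h2 lam hlam (m n) (hm n)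
      refine ⟨u * v, by rw [Nat.add_mul]; exact N4.mul u1 v1, mul_mem u2 v2, ?_⟩
      rw [List.range_succ, List.map_append, List.prod_append, List.map_singleton,
        List.prod_singleton]
      rw [← QuotientGroup.eq] at u3 v3 ⊢
      rw [QuotientGroup.mk_mul, QuotientGroup.mk_mul, u3, v3]
  exact key _ le_rfl

end Pool.Agent.VN
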