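import Pool.Agent.VN.PDefs
import Pool.Agent.VN.Chain
/-!
# Pairs of cells: basics
-/
namespace Pool.Agent.VN
open Pool.Agent.SLX

section P0

private theorem p0_congr {α M : Type} [AddCommGroup M] [Module (ZMod 2) M]
    (f g : (α →₀ ZMod 2) →ₗ[ZMod 2] M) (c : α →₀ ZMod 2)
    (h : ∀ l ∈ c.support, f (Finsupp.single l 1) = g (Finsupp.single l 1)) : f c = g c := by
  have e : c = ∑ l ∈ c.support, c l • Finsupp.single l (1 : ZMod 2) := by
    conv_lhs => rw [← Finsupp.sum_single c]
    rw [Finsupp.sum]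
    refine Finset.sum_congr rfl fun l _ => ?_
    simp
  rw [e, map_sum, map_sum]
  refine Finset.sum_congr rfl fun l hl => ?_
  rw [map_smul, map_smul, h l hl]

private theorem p0_add_self {α : Type} (c : α →₀ ZMod 2) : c + c = 0 := by
  ext l
  rw [Finsupp.add_apply, Finsupp.zero_apply]
  exact CharTwo.add_self_eq_zero _

variable {A G : Type} [Group G] {π : A → G}

open Classical in
private theorem p0_d1 (l l' : List G) :
    d1 (Finsupp.single (l, l') (1 : ZMod 2)) =
      ∑ i ∈ Finset.range l.length, if nd (l.eraseIdx i) ∧ l.eraseIdx i ≠ [] then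
        Finsupp.single (l.eraseIdx i, l') (1 : ZMod 2) else 0 := by
  simp [d1]

open Classical in
private theorem p0_d2 (l l' : List G) :
    d2 (Finsupp.single (l, l') (1 : ZMod 2)) =
      ∑ i ∈ Finset.range l'.length, if nd (l'.eraseIdx i) ∧ l'.eraseIdx i ≠ [] then
        Finsupp.single (l, l'.eraseIdx i) (1 : ZMod 2) else 0 := by
  simp [d2]

private theorem p0_sw (l l' : List G) :
    swQ (Finsupp.single (l, l') (1 : ZMod 2)) = Finsupp.single (l', l) 1 := by
  simp [swQ, Finsupp.lmapDomain]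

theorem swQ_swQ (c : QC G) : swQ (swQ c) = c := by
  have h := p0_congr ((swQ (G := G)).comp swQ) LinearMap.id c ?_
  · simpa using h
  · rintro ⟨l, l'⟩ _
    rw [LinearMap.comp_apply, p0_sw, p0_sw, LinearMap.id_apply]

private theorem p0_d1_sw (c : QC G) : d1 (swQ c) = swQ (d2 c) := by
  classical
  refine p0_congr ((d1 (G := G)).comp swQ) (swQ.comp d2) c ?_
  rintro ⟨l, l'⟩ _
  rw [LinearMap.comp_apply, LinearMap.comp_apply, p0_sw, p0_d1, p0_d2, map_sum]
  refine Finset.sum_congr rfl fun i _ => ?_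
  split_ifs
  · rw [p0_sw]
  · rw [map_zero]

private theorem p0_d2_sw (c : QC G) : d2 (swQ c) = swQ (d1 c) := by
  have h := p0_d1_sw (swQ c)
  rw [swQ_swQ] at h
  rw [h, swQ_swQ]

private theorem p0_d2_eq (c : QC G) : d2 c = swQ (d1 (swQ c)) := by
  rw [p0_d1_sw, swQ_swQ]

private theorem p0_sw_lmap (l : List G) (c : Ch G) :
    swQ (Finsupp.lmapDomain (ZMod 2) (ZMod 2) (fun t => (t, l)) c) =
      Finsupp.lmapDomain (ZMod 2) (ZMod 2) (fun t => (l, t)) c := by
  refine p0_congr ((swQ (G := G)).comp (Finsupp.lmapDomain (ZMod 2) (ZMod 2) (fun t => (t, l))))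
    (Finsupp.lmapDomain (ZMod 2) (ZMod 2) (fun t => (l, t))) c fun t _ => ?_
  rw [LinearMap.comp_apply]
  simp only [Finsupp.lmapDomain_apply, Finsupp.mapDomain_single]
  rw [p0_sw]

theorem d1_single (l l' : List G) (h : 2 ≤ l.length) :
    d1 (Finsupp.single (l, l') (1 : ZMod 2)) =
      Finsupp.lmapDomain (ZMod 2) (ZMod 2) (fun t => (t, l')) (D (Finsupp.single l 1)) := by
  classical
  rw [p0_d1, D, LinearMap.comp_apply, bd_single, map_sum, map_sum]
  refine Finset.sum_congr rfl fun i hi => ?_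
  have hi' := Finset.mem_range.1 hi
  have hne : l.eraseIdx i ≠ [] := by
    intro h0
    have h1 := List.length_eraseIdx_of_lt hi'
    rw [h0, List.length_nil] at h1
    omega
  by_cases hn : nd (l.eraseIdx i)
  · rw [if_pos ⟨hn, hne⟩, fil_single _ _ hn]
    simp [Finsupp.lmapDomain]
  · rw [if_neg (fun h => hn h.1), fil_single_of_not _ _ hn, map_zero]

theorem d1_single_one (x : G) (l' : List G) :
    d1 (Finsupp.single ([x], l') (1 : ZMod 2)) = 0 := by
  classical
  rw [p0_d1]
  refine Finset.sum_eq_zero fun i hi => ?_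
  rw [List.length_singleton, Finset.mem_range, Nat.lt_one_iff] at hi
  subst hi
  simp

theorem d2_single (l l' : List G) (h : 2 ≤ l'.length) :
    d2 (Finsupp.single (l, l') (1 : ZMod 2)) =
      Finsupp.lmapDomain (ZMod 2) (ZMod 2) (fun t => (l, t)) (D (Finsupp.single l' 1)) := by
  rw [p0_d2_eq, p0_sw, d1_single _ _ h, p0_sw_lmap]

theorem d2_single_one (l : List G) (y : G) :
    d2 (Finsupp.single (l, [y]) (1 : ZMod 2)) = 0 := by
  rw [p0_d2_eq, p0_sw, d1_single_one, map_zero]

private theorem p0_d1_nil (l' : List G) :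
    d1 (Finsupp.single (([] : List G), l') (1 : ZMod 2)) = 0 := by
  classical
  rw [p0_d1]
  simp

private theorem p0_d1_lmap (l' : List G) (c : Ch G) (h : ∀ l ∈ c.support, 2 ≤ l.length) :
    d1 (Finsupp.lmapDomain (ZMod 2) (ZMod 2) (fun t => (t, l')) c) =
      Finsupp.lmapDomain (ZMod 2) (ZMod 2) (fun t => (t, l')) (D c) := by
  refine p0_congr ((d1 (G := G)).comp (Finsupp.lmapDomain (ZMod 2) (ZMod 2) (fun t => (t, l'))))
    ((Finsupp.lmapDomain (ZMod 2) (ZMod 2) (fun t => (t, l'))).comp D) c fun t ht => ?_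
  rw [LinearMap.comp_apply, LinearMap.comp_apply, ← d1_single t l' (h t ht)]
  simp [Finsupp.lmapDomain]

private theorem p0_d1_lmap_zero (l' : List G) (c : Ch G) (h : ∀ l ∈ c.support, l.length ≤ 1) :
    d1 (Finsupp.lmapDomain (ZMod 2) (ZMod 2) (fun t => (t, l')) c) = 0 := by
  refine p0_congr ((d1 (G := G)).comp (Finsupp.lmapDomain (ZMod 2) (ZMod 2) (fun t => (t, l'))))
    0 c fun t ht => ?_
  rw [LinearMap.comp_apply, LinearMap.zero_apply]
  simp only [Finsupp.lmapDomain_apply, Finsupp.mapDomain_single]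
  have h1 := h t ht
  match t, h1 with
  | [], _ => exact p0_d1_nil l'
  | [x], _ => exact d1_single_one x l'
  | _ :: _ :: _, h2 => simp at h2

private theorem p0_d1_d1 (c : QC G) : d1 (d1 c) = 0 := by
  refine p0_congr ((d1 (G := G)).comp d1) 0 c ?_
  rintro ⟨l, l'⟩ _
  rw [LinearMap.comp_apply, LinearMap.zero_apply]
  rcases Nat.lt_or_ge l.length 2 with h | h
  · match l, h with
    | [], _ => rw [p0_d1_nil, map_zero]
    | [x], _ => rw [d1_single_one, map_zero]
    | _ :: _ :: _, h2 => simp at h2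
  · rw [d1_single _ _ h]
    have hs : ∀ t ∈ (D (Finsupp.single l (1 : ZMod 2))).support, t.length = l.length - 1 := by
      intro t ht
      obtain ⟨-, t', ht', i, hi, rfl⟩ := mem_support_D ht
      have h1 : t' = l := by
        have := Finsupp.support_single_subset ht'
        simpa using this
      subst h1
      exact List.length_eraseIdx_of_lt hi
    rcases Nat.lt_or_ge l.length 3 with h3 | h3
    · exact p0_d1_lmap_zero _ _ fun t ht => by rw [hs t ht]; omega
    · rw [p0_d1_lmap _ _ fun t ht => by rw [hs t ht]; omega, D_D, map_zero]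

theorem d1_d1 (c : QC G) (hc : ∀ p ∈ c.support, nd p.1) : d1 (d1 c) = 0 :=
  p0_d1_d1 c

theorem d2_d2 (c : QC G) (hc : ∀ p ∈ c.support, nd p.2) : d2 (d2 c) = 0 := by
  rw [p0_d2_eq, p0_d2_eq c, swQ_swQ, p0_d1_d1, map_zero]

theorem d1_d2 (c : QC G) : d1 (d2 c) = d2 (d1 c) := by
  classical
  refine p0_congr ((d1 (G := G)).comp d2) (d2.comp d1) c ?_
  rintro ⟨l, l'⟩ _
  rw [LinearMap.comp_apply, LinearMap.comp_apply, p0_d1, p0_d2, map_sum, map_sum]
  have e1 : ∀ j ∈ Finset.range l'.length,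
      d1 (if nd (l'.eraseIdx j) ∧ l'.eraseIdx j ≠ [] then
        Finsupp.single (l, l'.eraseIdx j) (1 : ZMod 2) else 0) =
      ∑ i ∈ Finset.range l.length, if nd (l'.eraseIdx j) ∧ l'.eraseIdx j ≠ [] then
        (if nd (l.eraseIdx i) ∧ l.eraseIdx i ≠ [] then
          Finsupp.single (l.eraseIdx i, l'.eraseIdx j) (1 : ZMod 2) else 0) else 0 := by
    intro j _
    by_cases h : nd (l'.eraseIdx j) ∧ l'.eraseIdx j ≠ []
    · simp only [if_pos h]
      rw [p0_d1]
    · simp only [if_neg h, Finset.sum_const_zero, map_zero]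
  have e2 : ∀ i ∈ Finset.range l.length,
      d2 (if nd (l.eraseIdx i) ∧ l.eraseIdx i ≠ [] then
        Finsupp.single (l.eraseIdx i, l') (1 : ZMod 2) else 0) =
      ∑ j ∈ Finset.range l'.length, if nd (l'.eraseIdx j) ∧ l'.eraseIdx j ≠ [] then
        (if nd (l.eraseIdx i) ∧ l.eraseIdx i ≠ [] then
          Finsupp.single (l.eraseIdx i, l'.eraseIdx j) (1 : ZMod 2) else 0) else 0 := by
    intro i _
    by_cases h : nd (l.eraseIdx i) ∧ l.eraseIdx i ≠ []
    · simp only [if_pos h]
      rw [p0_d2]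
    · simp only [if_neg h, ite_self, Finset.sum_const_zero, map_zero]
  rw [Finset.sum_congr rfl e1, Finset.sum_congr rfl e2, Finset.sum_comm]

theorem dQ_dQ (c : QC G) (hc : ∀ p ∈ c.support, nd p.1 ∧ nd p.2) : dQ (dQ c) = 0 := by
  have e : ∀ c : QC G, dQ c = d1 c + d2 c := fun c => rfl
  rw [e, e, map_add, map_add, d1_d1 c fun p hp => (hc p hp).1, d2_d2 c fun p hp => (hc p hp).2,
    d1_d2, zero_add, add_zero, p0_add_self]

theorem dQ_swQ (c : QC G) : dQ (swQ c) = swQ (dQ c) := by
  have e : ∀ c : QC G, dQ c = d1 c + d2 c := fun c => rfl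
  rw [e, e, map_add, p0_d1_sw, p0_d2_sw, add_comm]

theorem QCell.swap {F : NF A G π} {z : G} {ell d n : ℕ} {p : List G × List G}
    (h : QCell F z ell d n p) : QCell F z ell d n p.swap := by
  obtain ⟨h1, h2, h3, h4, h5, h6, h7, h8⟩ := h
  refine ⟨h2, h1, h4, h3, ?_, h7, h6, ?_⟩
  · simp only [Prod.fst_swap, Prod.snd_swap]
    omega
  · unfold per at h8 ⊢
    simp only [Prod.fst_swap, Prod.snd_swap]
    omega

private theorem p0_l_mul (F : NF A G π) (g h : G) : F.l (g * h) ≤ F.l g + F.l h := by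
  have h1 := F.nf_le (F.nf g ++ F.nf h)
  have h2 : val π (F.nf g ++ F.nf h) = g * h := by
    have e1 := F.val_nf g
    have e2 := F.val_nf h
    unfold val at e1 e2 ⊢
    rw [List.map_append, List.prod_append, e1, e2]
  rw [h2, List.length_append] at h1
  exact h1

private theorem p0_lastD (x a b : G) (s : List G) :
    (x :: s).getLastD a = (x :: s).getLastD b := by
  rw [List.getLastD_cons, List.getLastD_cons]

private theorem p0_lastD_cons (x : G) {s : List G} (hs : s ≠ []) :
    (x :: s).getLastD 1 = s.getLastD 1 := by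
  match s, hs with
  | y :: t, _ => rw [List.getLastD_cons, p0_lastD y x 1 t]

private theorem p0_inn_cons (F : NF A G π) (x : G) {s : List G} (hs : s ≠ []) :
    F.inn (x :: s) = F.l (x⁻¹ * s.headD 1) + F.inn s := by
  match s, hs with
  | y :: t, _ => rfl

private theorem p0_erase (F : NF A G π) (ψ : G → ℕ)
    (hψ : ∀ x y, ψ x ≤ F.l (x⁻¹ * y) + ψ y) : ∀ (l : List G) (φ : G → ℕ)
    (_ : ∀ x y, φ y ≤ φ x + F.l (x⁻¹ * y)) (i : ℕ), l.eraseIdx i ≠ [] →
    φ ((l.eraseIdx i).headD 1) + F.inn (l.eraseIdx i) + ψ ((l.eraseIdx i).getLastD 1) ≤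
      φ (l.headD 1) + F.inn l + ψ (l.getLastD 1)
  | [], _, _, i, h => by simp at h
  | [x], φ, _, 0, h => by simp at h
  | [x], φ, _, i + 1, _ => by simp
  | x :: y :: t, φ, hφ, 0, _ => by
    rw [List.eraseIdx_cons_zero, p0_inn_cons F x (List.cons_ne_nil y t),
      p0_lastD_cons x (List.cons_ne_nil y t), List.headD_cons, List.headD_cons]
    have := hφ x y
    omega
  | x :: y :: t, φ, hφ, i + 1, _ => by
    rw [List.eraseIdx_cons_succ]
    by_cases hs : (y :: t).eraseIdx i = []
    · have ht : t = [] := by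
        match i, hs with
        | 0, hs => simpa using hs
        | j + 1, hs => simp at hs
      subst ht
      rw [hs]
      have h1 := hψ x y
      have e1 : F.inn [x] = 0 := rfl
      have e2 : F.inn [x, y] = F.l (x⁻¹ * y) + 0 := rfl
      rw [e1, e2, List.getLastD_cons, List.getLastD_cons, List.getLastD_cons, List.headD_cons,
        List.headD_cons]
      simp only [List.getLastD_nil]
      omega
    · have ih := p0_erase F ψ hψ (y :: t) (fun w => F.l (x⁻¹ * w)) (fun v w => by
        have := p0_l_mul F (x⁻¹ * v) (v⁻¹ * w)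
        have e : x⁻¹ * v * (v⁻¹ * w) = x⁻¹ * w := by group
        rw [e] at this
        exact this) i hs
      rw [p0_inn_cons F x hs, p0_inn_cons F x (List.cons_ne_nil y t), p0_lastD_cons x hs,
        p0_lastD_cons x (List.cons_ne_nil y t), List.headD_cons, List.headD_cons]
      simp only [List.headD_cons] at ih ⊢
      omega

private theorem p0_mem_d1 {c : QC G} {p : List G × List G} (h : p ∈ (d1 c).support) :
    ∃ q ∈ c.support, ∃ i < q.1.length, nd (q.1.eraseIdx i) ∧ q.1.eraseIdx i ≠ [] ∧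
      p = (q.1.eraseIdx i, q.2) := by
  classical
  by_contra hcon
  push Not at hcon
  rw [Finsupp.mem_support_iff] at h
  apply h
  rw [d1, Finsupp.linearCombination_apply, Finsupp.sum, Finsupp.finsetSum_apply]
  refine Finset.sum_eq_zero fun q hq => ?_
  rw [Finsupp.smul_apply, Finsupp.finsetSum_apply, Finset.sum_eq_zero, smul_zero]
  intro i hi
  split_ifs with h1
  · rw [Finsupp.single_apply, if_neg]
    exact fun he => hcon q hq i (Finset.mem_range.1 hi) h1.1 h1.2 he.symm
  · rw [Finsupp.zero_apply]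

private theorem p0_mem_sw {c : QC G} {p : List G × List G} (h : p ∈ (swQ c).support) :
    p.swap ∈ c.support := by
  classical
  have h1 := Finsupp.mapDomain_support h
  rw [Finset.mem_image] at h1
  obtain ⟨q, h2, h3⟩ := h1
  rw [← h3, Prod.swap_swap]
  exact h2

private theorem p0_d1_cell (F : NF A G π) (z : G) (ell d n : ℕ) (c : QC G)
    (hc : ∀ p ∈ c.support, QCell F z ell d (n + 1) p) :
    ∀ p ∈ (d1 c).support, QCell F z ell d n p := by
  intro p hp
  obtain ⟨⟨l, l'⟩, hq, i, hi, hn, hne, rfl⟩ := p0_mem_d1 hp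
  obtain ⟨h1, h2, h3, h4, h5, h6, h7, h8⟩ := hc _ hq
  simp only at hi hn hne h1 h2 h3 h4 h5 h6 h7 h8
  refine ⟨hn, h2, hne, h4, ?_, ?_, h7, ?_⟩
  · have := List.length_eraseIdx_of_lt hi
    simp only
    omega
  · have := p0_erase F (fun _ => 0) (fun _ _ => Nat.zero_le _) l (fun _ => 0)
      (fun _ _ => Nat.zero_le _) i hne
    simp only at this ⊢
    omega
  · have := p0_erase F (fun x => F.l (x⁻¹ * z * l'.headD 1)) (fun x y => by
      have h := p0_l_mul F (x⁻¹ * y) (y⁻¹ * z * l'.headD 1)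
      have e : x⁻¹ * y * (y⁻¹ * z * l'.headD 1) = x⁻¹ * z * l'.headD 1 := by group
      rw [e] at h
      exact h) l (fun x => F.l ((l'.getLastD 1)⁻¹ * z * x)) (fun x y => by
      have h := p0_l_mul F ((l'.getLastD 1)⁻¹ * z * x) (x⁻¹ * y)
      have e : (l'.getLastD 1)⁻¹ * z * x * (x⁻¹ * y) = (l'.getLastD 1)⁻¹ * z * y := by group
      rw [e] at h
      exact h) i hne
    unfold per at h8 ⊢
    simp only at this h8 ⊢
    omega

theorem dQ_cell (F : NF A G π) (z : G) (ell d n : ℕ) (c : QC G)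
    (hc : ∀ p ∈ c.support, QCell F z ell d (n + 1) p) :
    ∀ p ∈ (dQ c).support, QCell F z ell d n p := by
  classical
  intro p hp
  have e : dQ c = d1 c + d2 c := rfl
  rw [e] at hp
  rcases Finset.mem_union.1 (Finsupp.support_add hp) with h | h
  · exact p0_d1_cell F z ell d n c hc p h
  · rw [p0_d2_eq] at h
    have h1 := p0_d1_cell F z ell d n (swQ c) (fun q hq => by
      have := (hc _ (p0_mem_sw hq)).swap
      rwa [Prod.swap_swap] at this) _ (p0_mem_sw h)
    have h2 := h1.swap
    rwa [Prod.swap_swap] at h2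

end P0

end Pool.Agent.VN
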