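import Pool.Agent.VN.Defs
/-!
# Pairs of cells
-/
namespace Pool.Agent.VN
open Pool.Agent.SLX

/-- Mod 2 chains on pairs of lists. -/
abbrev QC (G : Type) := (List G × List G) →₀ ZMod 2

open Classical in
/-- Boundary in the first list (nondegenerate nonempty faces only). -/
noncomputable def d1 {G : Type} : QC G →ₗ[ZMod 2] QC G :=
  Finsupp.linearCombination (ZMod 2) (fun p : List G × List G =>
    ∑ i ∈ Finset.range p.1.length,
      if nd (p.1.eraseIdx i) ∧ p.1.eraseIdx i ≠ [] then
        Finsupp.single (p.1.eraseIdx i, p.2) (1 : ZMod 2) else 0)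

open Classical in
/-- Boundary in the second list (nondegenerate nonempty faces only). -/
noncomputable def d2 {G : Type} : QC G →ₗ[ZMod 2] QC G :=
  Finsupp.linearCombination (ZMod 2) (fun p : List G × List G =>
    ∑ i ∈ Finset.range p.2.length,
      if nd (p.2.eraseIdx i) ∧ p.2.eraseIdx i ≠ [] then
        Finsupp.single (p.1, p.2.eraseIdx i) (1 : ZMod 2) else 0)

/-- The boundary of the complex of pairs. -/
noncomputable def dQ {G : Type} : QC G →ₗ[ZMod 2] QC G := d1 + d2

/-- The swap. -/
noncomputable def swQ {G : Type} : QC G →ₗ[ZMod 2] QC G :=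
  Finsupp.lmapDomain (ZMod 2) (ZMod 2) Prod.swap

variable {A G : Type} [Group G] {π : A → G}

/-- The perimeter of a pair of lists: (inner lengths) + (distance from the end of the first list
to the beginning of `z *` second list) + (distance from the end of the second list to the beginning
of `z *` first list). -/
def per (F : NF A G π) (z : G) (p : List G × List G) : ℕ :=
  F.inn p.1 + F.l ((p.1.getLastD 1)⁻¹ * z * p.2.headD 1) +
    F.inn p.2 + F.l ((p.2.getLastD 1)⁻¹ * z * p.1.headD 1)

/-- Cells of the pair complex, of dimension `n`. -/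
def QCell (F : NF A G π) (z : G) (ell d n : ℕ) (p : List G × List G) : Prop :=
  nd p.1 ∧ nd p.2 ∧ p.1 ≠ [] ∧ p.2 ≠ [] ∧ p.1.length + p.2.length = n + 2 ∧
    F.inn p.1 ≤ d ∧ F.inn p.2 ≤ d ∧ per F z p ≤ ell

/-- Two pairs of points that occur in a small tuple of opposite points of short loops. -/
def Near (F : NF A G π) (z : G) (ell R : ℕ) (p q : G × G) : Prop :=
  F.l (p.1⁻¹ * z * p.2) + F.l (p.2⁻¹ * z * p.1) ≤ ell ∧
    F.l (q.1⁻¹ * z * q.2) + F.l (q.2⁻¹ * z * q.1) ≤ ell ∧
    F.l (p.1⁻¹ * q.1) ≤ R ∧ F.l (p.2⁻¹ * q.2) ≤ R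

end Pool.Agent.VN
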