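import Pool.Agent.VNP.Dist
/-!
# Virtually polycyclic groups: the algebraic end

A group all of whose subgroups are finitely generated, with a solvable subgroup of finite index,
in which abelian normal subgroups have centralizers of finite index and which contains no
quadratically distorted element with finitely many conjugates, is virtually abelian.
-/
namespace Pool.Agent.VN
open Subgroup
open scoped commutatorElement

/-- Maximal abelian normal subgroups exist. -/
theorem exists_max_ab (G : Type) [Group G] : ∃ A : Subgroup G, A.Normal ∧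
    (∀ a ∈ A, ∀ b ∈ A, a * b = b * a) ∧
    ∀ B : Subgroup G, B.Normal → (∀ a ∈ B, ∀ b ∈ B, a * b = b * a) → A ≤ B → B ≤ A := by
  set s : Set (Subgroup G) := {A | A.Normal ∧ ∀ a ∈ A, ∀ b ∈ A, a * b = b * a} with hs
  have h0 : (⊥ : Subgroup G) ∈ s := by
    refine ⟨inferInstance, ?_⟩
    intro a ha b hb
    rw [mem_bot] at ha hb
    rw [ha, hb]
  have hz : ∃ A, ⊥ ≤ A ∧ Maximal (fun A => A ∈ s) A := by
    refine zorn_le_nonempty₀ s ?_ ⊥ h0
    intro c hc hch y hy
    have hne : c.Nonempty := ⟨y, hy⟩
    have hdir : DirectedOn (· ≤ ·) c := hch.directedOn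
    refine ⟨sSup c, ⟨⟨?_⟩, ?_⟩, fun z hz => le_sSup hz⟩
    · intro n hn g
      rw [mem_sSup_of_directedOn hne hdir] at hn ⊢
      obtain ⟨B, hB, hnB⟩ := hn
      exact ⟨B, hB, (hc hB).1.conj_mem n hnB g⟩
    · intro a ha b hb
      rw [mem_sSup_of_directedOn hne hdir] at ha hb
      obtain ⟨B, hB, haB⟩ := ha
      obtain ⟨B', hB', hbB⟩ := hb
      obtain ⟨B'', hB'', h1, h2⟩ := hdir B hB B' hB'
      exact (hc hB'').2 a (h1 haB) b (h2 hbB)
  obtain ⟨A, _, hA⟩ := hz
  exact ⟨A, hA.prop.1, hA.prop.2, fun B hB hB' hAB => hA.2 ⟨hB, hB'⟩ hAB⟩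

/-- The derived series of a subgroup, as subgroups of the ambient group. -/
def dser {Q : Type} [Group Q] (K : Subgroup Q) : ℕ → Subgroup Q
  | 0 => K
  | n + 1 => ⁅dser K n, dser K n⁆

theorem dser_normal {Q : Type} [Group Q] (K : Subgroup Q) [K.Normal] (n : ℕ) :
    (dser K n).Normal := by
  induction n with
  | zero => exact (inferInstance : K.Normal)
  | succ n ih =>
    show (⁅dser K n, dser K n⁆).Normal
    infer_instance

theorem dser_le {Q : Type} [Group Q] (K : Subgroup Q) [K.Normal] (n : ℕ) : dser K n ≤ K := by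
  induction n with
  | zero => exact le_rfl
  | succ n ih =>
    have := dser_normal K n
    exact (commutator_le_left (dser K n) (dser K n)).trans ih

theorem dser_eq {Q : Type} [Group Q] (K : Subgroup Q) (n : ℕ) :
    dser K n = (derivedSeries K n).map K.subtype := by
  induction n with
  | zero =>
    rw [derivedSeries_zero, ← MonoidHom.range_eq_map, K.range_subtype]
    rfl
  | succ n ih =>
    rw [derivedSeries_succ, map_commutator, ← ih]
    rfl

/-- An infinite solvable normal subgroup contains an infinite abelian normal subgroup, if all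
subgroups are finitely generated. -/
theorem exists_inf_ab {Q : Type} [Group Q] (K : Subgroup Q) [K.Normal] [Group.IsSolvable K]
    (hinf : ¬ (K : Set Q).Finite) (hfg : ∀ D : Subgroup Q, D.FG) :
    ∃ Z : Subgroup Q, Z.Normal ∧ Z ≤ K ∧ (∀ a ∈ Z, ∀ b ∈ Z, a * b = b * a) ∧
      ¬ (Z : Set Q).Finite := by
  classical
  have hex : ∃ n, (dser K n : Set Q).Finite := by
    obtain ⟨n, hn⟩ := (Group.isSolvable_def K).1 inferInstance
    refine ⟨n, ?_⟩
    rw [dser_eq, hn, Subgroup.map_bot]
    simp
  obtain ⟨n, hn, hn'⟩ : ∃ n, ¬ (dser K n : Set Q).Finite ∧ (dser K (n + 1) : Set Q).Finite := by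
    have h1 := Nat.find_spec hex
    have h2 : Nat.find hex ≠ 0 := by
      intro h
      rw [h] at h1
      exact hinf h1
    obtain ⟨m, hm⟩ := Nat.exists_eq_succ_of_ne_zero h2
    refine ⟨m, Nat.find_min hex (by omega), ?_⟩
    rw [hm] at h1
    exact h1
  set E : Subgroup Q := dser K n with hE
  have hEn : E.Normal := dser_normal K n
  have hEfg : Group.FG E := (Group.fg_iff_subgroup_fg E).2 (hfg E)
  have hcs : Finite (commutatorSet E) := by
    apply Set.Finite.to_subtype
    apply (hn'.preimage (f := fun a : E => (a : Q)) Subtype.val_injective.injOn).subset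
    rintro g ⟨a, b, rfl⟩
    show ((⁅a, b⁆ : E) : Q) ∈ ⁅dser K n, dser K n⁆
    exact commutator_mem_commutator a.2 b.2
  have hfi : (center E).FiniteIndex := finiteIndex_center (G := E)
  refine ⟨(center E).map E.subtype, inferInstance, ?_, ?_, ?_⟩
  · exact (map_subtype_le _).trans (dser_le K n)
  · rintro _ ⟨a, ha, rfl⟩ _ ⟨b, hb, rfl⟩
    have h4 := mem_center_iff.1 hb a
    exact congrArg Subtype.val h4
  · intro hfin
    apply hn
    have h1 : Finite (center E) := by
      have h2 : ((fun a : E => (a : Q)) '' (center E : Set E)).Finite := hfin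
      have h3 : (center E : Set E).Finite := h2.of_finite_image Subtype.val_injective.injOn
      exact h3.to_subtype
    have h2 : Finite (E ⧸ center E) := inferInstance
    have h3 : Finite E := Finite.of_equiv _ (groupEquivQuotientProdSubgroup (s := center E)).symm
    exact Set.toFinite _

/-- An element commuting with a subgroup of finite index has finitely many conjugates. -/
theorem conj_finite_of_fi {G : Type} [Group G] (C : Subgroup G) [C.FiniteIndex] (z : G)
    (hz : ∀ c ∈ C, c * z = z * c) : (Set.range (fun g : G => g⁻¹ * z * g)).Finite := by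
  have : Finite (G ⧸ C) := inferInstance
  apply (Set.finite_range (fun q : G ⧸ C => q.out * z * (q.out)⁻¹)).subset
  rintro _ ⟨g, rfl⟩
  refine ⟨QuotientGroup.mk g⁻¹, ?_⟩
  set q : G ⧸ C := QuotientGroup.mk g⁻¹ with hq
  have h1 : (q.out)⁻¹ * g⁻¹ ∈ C := by
    rw [← QuotientGroup.eq, QuotientGroup.out_eq']
  have h2 := hz _ h1
  show q.out * z * (q.out)⁻¹ = g⁻¹ * z * g
  calc q.out * z * (q.out)⁻¹ = q.out * (z * ((q.out)⁻¹ * g⁻¹)) * g := by group
    _ = q.out * (((q.out)⁻¹ * g⁻¹) * z) * g := by rw [h2]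
    _ = g⁻¹ * z * g := by group

/-- **The algebraic end**, in terms of commutators with finitely many conjugates. -/
theorem poly_vab_comm (G : Type) [Group G] (hfg : ∀ H : Subgroup G, H.FG) (S : Subgroup G)
    [S.FiniteIndex] [Group.IsSolvable S]
    (hab : ∀ A : Subgroup G, A.Normal → (∀ a ∈ A, ∀ b ∈ A, a * b = b * a) →
      (centralizer (A : Set G)).FiniteIndex)
    (hcf : ∀ x y z : G, z = x * y * x⁻¹ * y⁻¹ → x * z = z * x → y * z = z * y →
      (Set.range (fun g : G => g⁻¹ * z * g)).Finite → IsOfFinOrder z) : VNP.VAb G := by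
  classical
  by_contra hv
  obtain ⟨A, hAn, hA, hmax⟩ := exists_max_ab G
  have hAfi : ¬ A.FiniteIndex := fun h => hv ⟨A, h, hA⟩
  set C : Subgroup G := centralizer (A : Set G) with hC
  have hCfi : C.FiniteIndex := hab A hAn hA
  have hCn : C.Normal := by
    rw [hC]
    infer_instance
  have hCA : ∀ c ∈ C, ∀ a ∈ A, c * a = a * c := by
    intro c hc a ha
    exact (mem_centralizer_iff.1 hc a ha).symm
  have hAC : A ≤ C := by
    intro a ha
    rw [hC, mem_centralizer_iff]
    exact fun b hb => hA b hb a ha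
  -- a solvable normal subgroup of finite index centralizing `A`
  set K : Subgroup G := S.normalCore ⊓ C with hK
  have hKn : K.Normal := inferInstance
  have hKfi : K.FiniteIndex := inferInstance
  have hKS : K ≤ S := inf_le_left.trans S.normalCore_le
  have hKsol : Group.IsSolvable K := Group.isSolvable_of_isSolvable_injective (inclusion_injective hKS)
  set f : G →* G ⧸ A := QuotientGroup.mk' A with hf
  have hfs : Function.Surjective f := QuotientGroup.mk'_surjective A
  have hker : ∀ g, f g = 1 ↔ g ∈ A := fun g => QuotientGroup.eq_one_iff g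
  set Kb : Subgroup (G ⧸ A) := K.map f with hKb
  have hKbn : Kb.Normal := hKn.map f hfs
  have hKbsol : Group.IsSolvable Kb :=
    Group.isSolvable_of_surjective (f := f.subgroupMap K) (f.subgroupMap_surjective K)
  have hKbinf : ¬ (Kb : Set (G ⧸ A)).Finite := by
    intro hfin
    apply hAfi
    have h1 : Kb.index ≠ 0 := by
      intro h
      have := index_map_dvd K hfs
      rw [← hKb, h, zero_dvd_iff] at this
      exact hKfi.index_ne_zero this
    have h2 : Kb.FiniteIndex := ⟨h1⟩
    have h3 : Finite Kb := hfin.to_subtype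
    have h4 : Finite ((G ⧸ A) ⧸ Kb) := inferInstance
    have h5 : Finite (G ⧸ A) := Finite.of_equiv _ (groupEquivQuotientProdSubgroup (s := Kb)).symm
    exact finiteIndex_of_finite_quotient
  have hfgQ : ∀ D : Subgroup (G ⧸ A), D.FG := by
    intro D
    obtain ⟨T, hT⟩ := hfg (D.comap f)
    refine ⟨T.image f, ?_⟩
    rw [Finset.coe_image, ← MonoidHom.map_closure, hT, map_comap_eq_self_of_surjective hfs]
  obtain ⟨Z, hZn, hZK, hZab, hZinf⟩ := exists_inf_ab Kb hKbinf hfgQ
  set M : Subgroup G := Z.comap f with hM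
  have hMn : M.Normal := hZn.comap f
  have hAM : A ≤ M := by
    intro a ha
    rw [hM, mem_comap, (hker a).2 ha]
    exact Z.one_mem
  have hMC : M ≤ C := by
    intro m hm
    rw [hM, mem_comap] at hm
    obtain ⟨k, hk, hkm⟩ := hZK hm
    have h1 : k⁻¹ * m ∈ A := by
      rw [← hker, map_mul, map_inv, hkm]
      group
    have h2 : m = k * (k⁻¹ * m) := by group
    rw [h2]
    exact C.mul_mem hk.2 (hAC h1)
  have hMcomm : ∀ x y : M, ((⁅x, y⁆ : M) : G) ∈ A := by
    intro x y
    rw [← hker]
    have h1 := hZab _ x.2 _ y.2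
    have h2 : ((⁅x, y⁆ : M) : G) = (x : G) * y * (x : G)⁻¹ * (y : G)⁻¹ := rfl
    rw [h2, map_mul, map_mul, map_mul, map_inv, map_inv, h1]
    group
  have hcen : ∀ x : M, (x : G) ∈ A → x ∈ center M := by
    intro x hx
    rw [mem_center_iff]
    intro y
    exact Subtype.ext (hCA _ (hMC y.2) _ hx)
  have hfo : ∀ x y : M, IsOfFinOrder (⁅x, y⁆ : M) := by
    intro x y
    have h1 : IsOfFinOrder ((⁅x, y⁆ : M) : G) := by
      refine hcf x y _ rfl ?_ ?_ ?_
      · exact hCA _ (hMC x.2) _ (hMcomm x y)
      · exact hCA _ (hMC y.2) _ (hMcomm x y)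
      · exact conj_finite_of_fi C _ (fun c hc => hCA c hc _ (hMcomm x y))
    obtain ⟨k, hk, hk'⟩ := isOfFinOrder_iff_pow_eq_one.1 h1
    rw [isOfFinOrder_iff_pow_eq_one]
    refine ⟨k, hk, Subtype.ext ?_⟩
    simpa using hk'
  have hMfg : Group.FG M := (Group.fg_iff_subgroup_fg M).2 (hfg M)
  have hcomm_le : _root_.commutator M ≤ center M := by
    rw [commutator_eq_closure, closure_le]
    rintro g ⟨a, b, rfl⟩
    exact hcen _ (hMcomm a b)
  have hcommfg : (_root_.commutator M).FG := by
    have h1 : ((_root_.commutator M).map M.subtype).FG := hfg _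
    have h2 : Group.FG ((_root_.commutator M).map M.subtype) := (Group.fg_iff_subgroup_fg _).2 h1
    have e := (_root_.commutator M).equivMapOfInjective M.subtype M.subtype_injective
    have h3 : Group.FG (_root_.commutator M) :=
      Group.fg_of_surjective (f := e.symm.toMonoidHom) e.symm.surjective
    exact (Group.fg_iff_subgroup_fg _).1 h3
  have hcfin : ((_root_.commutator M : Subgroup M) : Set M).Finite :=
    VNP.fin_of_gen (_root_.commutator M) hcomm_le hcommfg (commutatorSet M)
      (commutator_eq_closure M) (by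
        rintro g ⟨a, b, rfl⟩
        exact hfo a b)
  have hcs : Finite (commutatorSet M) := by
    apply Set.Finite.to_subtype
    apply hcfin.subset
    rw [commutator_eq_closure]
    exact subset_closure
  have hfi : (center M).FiniteIndex := finiteIndex_center (G := M)
  have hle : (center M).map M.subtype ≤ A := by
    apply hmax
    · infer_instance
    · rintro _ ⟨a, ha, rfl⟩ _ ⟨b, hb, rfl⟩
      exact congrArg Subtype.val (mem_center_iff.1 hb a)
    · intro a ha
      exact ⟨⟨a, hAM ha⟩, hcen ⟨a, hAM ha⟩ ha, rfl⟩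
  apply hZinf
  have hfq : Finite (M ⧸ center M) := inferInstance
  apply (Set.finite_range (fun q : M ⧸ center M => f ((q.out : M) : G))).subset
  intro z hz
  obtain ⟨g, rfl⟩ := hfs z
  have hg : g ∈ M := hz
  refine ⟨QuotientGroup.mk (⟨g, hg⟩ : M), ?_⟩
  set q : M ⧸ center M := QuotientGroup.mk (⟨g, hg⟩ : M) with hq
  have h1 : (q.out)⁻¹ * (⟨g, hg⟩ : M) ∈ center M := by
    rw [← QuotientGroup.eq, QuotientGroup.out_eq']
  have h2 : ((q.out : M) : G)⁻¹ * g ∈ A := hle ⟨_, h1, rfl⟩
  rw [← hker, map_mul, map_inv] at h2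
  show f ((q.out : M) : G) = f g
  exact (inv_mul_eq_one.1 h2)

/-- **The algebraic end**, in terms of distorted elements. -/
theorem poly_vab (G : Type) [Group G] (hfg : ∀ H : Subgroup G, H.FG) (S : Subgroup G)
    [S.FiniteIndex] [Group.IsSolvable S]
    (hab : ∀ A : Subgroup G, A.Normal → (∀ a ∈ A, ∀ b ∈ A, a * b = b * a) →
      (centralizer (A : Set G)).FiniteIndex)
    (hnd : ¬ VNP.HasDist G) : VNP.VAb G := by
  refine poly_vab_comm G hfg S hab ?_
  intro x y z hz hx hy hfc
  by_contra hno
  apply hnd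
  refine ⟨z, x, y, {1}, Set.finite_singleton 1, ?_, hfc, ?_⟩
  · intro n hn h
    exact hno (isOfFinOrder_iff_pow_eq_one.2 ⟨n, hn, h⟩)
  · intro n
    refine ⟨1, rfl, ?_⟩
    rw [mul_one, hz]
    have hz' : z = ⁅x, y⁆ := hz
    -- `[x, y ^ k] = z ^ k` and `[x ^ n, y ^ k] = z ^ (n k)`
    have h1 : ∀ k : ℕ, ⁅x, y ^ k⁆ = z ^ k := by
      intro k
      induction k with
      | zero => simp
      | succ k ih =>
        have h2 : ⁅x, y ^ (k + 1)⁆ = ⁅x, y ^ k⁆ * (y ^ k * ⁅x, y⁆ * (y ^ k)⁻¹) := by
          rw [commutatorElement_def, commutatorElement_def, commutatorElement_def, pow_succ]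
          group
        have h3 : y ^ k * z = z * y ^ k := ((show Commute y z from hy).pow_left k).eq
        rw [h2, ih, ← hz', h3, mul_assoc, mul_inv_cancel, mul_one, pow_succ]
    have h4 : ∀ m k : ℕ, ⁅x ^ m, y ^ k⁆ = z ^ (m * k) := by
      intro m k
      induction m with
      | zero => simp
      | succ m ih =>
        have h2 : ⁅x ^ (m + 1), y ^ k⁆ = x ^ m * ⁅x, y ^ k⁆ * (x ^ m)⁻¹ * ⁅x ^ m, y ^ k⁆ := by
          rw [commutatorElement_def, commutatorElement_def, commutatorElement_def, pow_succ]
          group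
        have h3 : x ^ m * z ^ k = z ^ k * x ^ m :=
          ((show Commute x z from hx).pow_pow m k).eq
        rw [h2, ih, h1, h3, mul_assoc (z ^ k), mul_inv_cancel, mul_one, ← pow_add]
        congr 1
        ring
    have h5 := h4 n n
    rw [commutatorElement_def] at h5
    rw [h5, hz', commutatorElement_def, pow_two]

end Pool.Agent.VN
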