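import Pool.Agent.VN.PBasic
import Pool.Agent.VN.NFBasic
import Pool.Agent.VN.Micro
/-!
# Exactness of the complex of pairs of cells
-/
namespace Pool.Agent.VN
open Pool.Agent.SLX

section P1

private theorem p1_congr {α M : Type} [AddCommGroup M] [Module (ZMod 2) M]
    (f g : (α →₀ ZMod 2) →ₗ[ZMod 2] M) (c : α →₀ ZMod 2)
    (h : ∀ l ∈ c.support, f (Finsupp.single l 1) = g (Finsupp.single l 1)) : f c = g c := by
  have e : c = ∑ l ∈ c.support, c l • Finsupp.single l (1 : ZMod 2) := by
    conv_lhs => rw [← Finsupp.sum_single c]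
    rw [Finsupp.sum]
    refine Finset.sum_congr rfl fun l _ => ?_
    simp
  rw [e, map_sum, map_sum]
  refine Finset.sum_congr rfl fun l hl => ?_
  rw [map_smul, map_smul, h l hl]

private theorem p1_add_self {α : Type} (c : α →₀ ZMod 2) : c + c = 0 := by
  ext l
  rw [Finsupp.add_apply, Finsupp.zero_apply]
  exact CharTwo.add_self_eq_zero _

private theorem p1_single_eq {α : Type} {a b : α}
    (h : a ∈ (Finsupp.single b (1 : ZMod 2)).support) : a = b := by
  have := Finsupp.support_single_subset h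
  simpa using this

variable {A G : Type} [Group G] {π : A → G}

private theorem p1_inj (l : List G) : Function.Injective (fun t : List G => (l, t)) :=
  fun _ _ h => (Prod.mk.inj h).2

/-- The slice over a first list. -/
private noncomputable def p1_sl (l : List G) : QC G →ₗ[ZMod 2] Ch G :=
  Finsupp.lcomapDomain (fun t : List G => (l, t)) (p1_inj l)

private theorem p1_sl_apply (l : List G) (c : QC G) (t : List G) : p1_sl l c t = c (l, t) := rfl

/-- Insertion as a slice. -/
private noncomputable def p1_in (l : List G) : Ch G →ₗ[ZMod 2] QC G :=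
  Finsupp.lmapDomain (ZMod 2) (ZMod 2) (fun t : List G => (l, t))

private theorem p1_in_single (l t : List G) :
    p1_in l (Finsupp.single t (1 : ZMod 2)) = Finsupp.single (l, t) 1 := by
  simp [p1_in, Finsupp.lmapDomain]

private theorem p1_in_apply (l : List G) (c : Ch G) (t : List G) : p1_in l c (l, t) = c t :=
  Finsupp.mapDomain_apply (p1_inj l) c t

private theorem p1_mem_in {l : List G} {c : Ch G} {p : List G × List G}
    (h : p ∈ (p1_in l c).support) : p.1 = l ∧ p.2 ∈ c.support := by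
  classical
  have h1 := Finsupp.mapDomain_support h
  rw [Finset.mem_image] at h1
  obtain ⟨t, h2, h3⟩ := h1
  rw [← h3]
  exact ⟨rfl, h2⟩

private theorem p1_in_apply_ne {l : List G} (c : Ch G) {p : List G × List G} (h : p.1 ≠ l) :
    p1_in l c p = 0 := by
  by_contra hne
  exact h (p1_mem_in (Finsupp.mem_support_iff.2 hne)).1

private theorem p1_sl_in (l : List G) (c : Ch G) : p1_sl l (p1_in l c) = c := by
  ext t
  rw [p1_sl_apply, p1_in_apply]

private theorem p1_sl_in_ne {l l' : List G} (h : l' ≠ l) (c : Ch G) :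
    p1_sl l (p1_in l' c) = 0 := by
  ext t
  rw [p1_sl_apply, Finsupp.zero_apply]
  exact p1_in_apply_ne c (Ne.symm h)

private theorem p1_d2_in (l : List G) (c : Ch G) (h : ∀ t ∈ c.support, 2 ≤ t.length) :
    d2 (p1_in l c) = p1_in l (D c) := by
  refine p1_congr ((d2 (G := G)).comp (p1_in l)) ((p1_in l).comp D) c fun t ht => ?_
  rw [LinearMap.comp_apply, LinearMap.comp_apply, p1_in_single, d2_single _ _ (h t ht)]
  rfl

private theorem p1_mem_d1 {c : QC G} {p : List G × List G} (h : p ∈ (d1 c).support) :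
    ∃ q ∈ c.support, ∃ i < q.1.length, nd (q.1.eraseIdx i) ∧ q.1.eraseIdx i ≠ [] ∧
      p = (q.1.eraseIdx i, q.2) := by
  classical
  by_contra hcon
  push Not at hcon
  rw [Finsupp.mem_support_iff] at h
  apply h
  rw [d1, Finsupp.linearCombination_apply, Finsupp.sum, Finsupp.finsetSum_apply]
  refine Finset.sum_eq_zero fun q hq => ?_
  rw [Finsupp.smul_apply, Finsupp.finsetSum_apply, Finset.sum_eq_zero, smul_zero]
  intro i hi
  split_ifs with h1
  · rw [Finsupp.single_apply, if_neg]
    exact fun he => hcon q hq i (Finset.mem_range.1 hi) h1.1 h1.2 he.symm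
  · rw [Finsupp.zero_apply]

private theorem p1_d1_zero {c : QC G} {r : ℕ} (h : ∀ q ∈ c.support, q.1.length ≤ r)
    {p : List G × List G} (hp : r ≤ p.1.length) (hp0 : 1 ≤ p.1.length) : d1 c p = 0 := by
  by_contra hne
  obtain ⟨q, hq, i, hi, -, -, he⟩ := p1_mem_d1 (Finsupp.mem_support_iff.2 hne)
  have h1 := h q hq
  have h2 := List.length_eraseIdx_of_lt hi
  rw [he] at hp
  simp only at hp
  omega

private theorem p1_sl_dQ (l : List G) (hl0 : 1 ≤ l.length) (c : QC G)
    (h : ∀ p ∈ c.support, p.1.length ≤ l.length ∧ 2 ≤ p.2.length) :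
    p1_sl l (dQ c) = D (p1_sl l c) := by
  refine p1_congr ((p1_sl l).comp dQ) (D.comp (p1_sl l)) c ?_
  rintro ⟨l0, t0⟩ hp
  obtain ⟨h1, h2⟩ := h _ hp
  rw [LinearMap.comp_apply, LinearMap.comp_apply]
  have e : dQ (Finsupp.single (l0, t0) (1 : ZMod 2)) =
    d1 (Finsupp.single (l0, t0) 1) + d2 (Finsupp.single (l0, t0) 1) := rfl
  have e1 : p1_sl l (d1 (Finsupp.single (l0, t0) (1 : ZMod 2))) = 0 := by
    ext t
    rw [p1_sl_apply, Finsupp.zero_apply]
    refine p1_d1_zero (r := l.length) (fun q hq => ?_) le_rfl hl0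
    rw [p1_single_eq hq]
    exact h1
  have e2 : d2 (Finsupp.single (l0, t0) (1 : ZMod 2)) = p1_in l0 (D (Finsupp.single t0 1)) :=
    d2_single _ _ h2
  rw [e, map_add, e1, zero_add, e2, ← p1_in_single l0 t0]
  by_cases hl : l0 = l
  · subst hl
    rw [p1_sl_in, p1_sl_in]
  · rw [p1_sl_in_ne hl, p1_sl_in_ne hl, map_zero]

/-- The sum of the first lists over the pairs whose second list is a point. -/
private noncomputable def p1_e2 : QC G →ₗ[ZMod 2] Ch G :=
  Finsupp.linearCombination (ZMod 2) (fun p : List G × List G =>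
    if p.2.length = 1 then Finsupp.single p.1 (1 : ZMod 2) else 0)

private theorem p1_e2_single (l t : List G) :
    p1_e2 (Finsupp.single (l, t) (1 : ZMod 2)) =
      if t.length = 1 then Finsupp.single l 1 else 0 := by
  simp [p1_e2]

private theorem p1_mem_e2 {c : QC G} {l : List G} (h : l ∈ (p1_e2 c).support) :
    ∃ p ∈ c.support, p.1 = l ∧ p.2.length = 1 := by
  classical
  by_contra hcon
  push Not at hcon
  rw [Finsupp.mem_support_iff] at h
  apply h
  rw [p1_e2, Finsupp.linearCombination_apply, Finsupp.sum, Finsupp.finsetSum_apply]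
  refine Finset.sum_eq_zero fun q hq => ?_
  rw [Finsupp.smul_apply]
  split_ifs with h1
  · rw [Finsupp.single_apply, if_neg, smul_zero]
    exact fun he => hcon q hq he h1
  · rw [Finsupp.zero_apply, smul_zero]

private theorem p1_e2_d2 (c : QC G) : p1_e2 (d2 c) = 0 := by
  classical
  refine p1_congr ((p1_e2 (G := G)).comp d2) 0 c ?_
  rintro ⟨l, t⟩ _
  rw [LinearMap.comp_apply, LinearMap.zero_apply]
  have e : d2 (Finsupp.single (l, t) (1 : ZMod 2)) =
      ∑ i ∈ Finset.range t.length, if nd (t.eraseIdx i) ∧ t.eraseIdx i ≠ [] then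
        Finsupp.single (l, t.eraseIdx i) (1 : ZMod 2) else 0 := by
    simp [d2]
  rw [e, map_sum]
  match t with
  | [] => simp
  | [a] => simp
  | [a, b] =>
    have n1 : nd [a] := by unfold nd; simp
    have n2 : nd [b] := by unfold nd; simp
    rw [List.length_cons, List.length_singleton, Finset.sum_range_succ, Finset.sum_range_one]
    have e0 : [a, b].eraseIdx 0 = [b] := rfl
    have e1 : [a, b].eraseIdx 1 = [a] := rfl
    rw [e0, e1, if_pos ⟨n2, List.cons_ne_nil _ _⟩, if_pos ⟨n1, List.cons_ne_nil _ _⟩,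
      p1_e2_single, p1_e2_single, if_pos (show [b].length = 1 from rfl),
      if_pos (show [a].length = 1 from rfl)]
    exact p1_add_self _
  | a :: b :: x :: s =>
    refine Finset.sum_eq_zero fun i hi => ?_
    have h1 := List.length_eraseIdx_of_lt (Finset.mem_range.1 hi)
    simp only [List.length_cons] at h1
    split_ifs
    · rw [p1_e2_single, if_neg]
      omega
    · rw [map_zero]

private theorem p1_e2_lmap (t : List G) (x : Ch G) :
    p1_e2 (Finsupp.lmapDomain (ZMod 2) (ZMod 2) (fun s => (s, t)) x) =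
      if t.length = 1 then x else 0 := by
  by_cases h : t.length = 1
  · rw [if_pos h]
    refine p1_congr ((p1_e2 (G := G)).comp
      (Finsupp.lmapDomain (ZMod 2) (ZMod 2) (fun s => (s, t)))) LinearMap.id x fun s _ => ?_
    rw [LinearMap.comp_apply, LinearMap.id_apply, Finsupp.lmapDomain_apply,
      Finsupp.mapDomain_single, p1_e2_single, if_pos h]
  · rw [if_neg h]
    refine p1_congr ((p1_e2 (G := G)).comp
      (Finsupp.lmapDomain (ZMod 2) (ZMod 2) (fun s => (s, t)))) 0 x fun s _ => ?_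
    rw [LinearMap.comp_apply, LinearMap.zero_apply, Finsupp.lmapDomain_apply,
      Finsupp.mapDomain_single, p1_e2_single, if_neg h]

private theorem p1_e2_d1 (c : QC G) (h : ∀ p ∈ c.support, 2 ≤ p.1.length) :
    p1_e2 (d1 c) = D (p1_e2 c) := by
  refine p1_congr ((p1_e2 (G := G)).comp d1) (D.comp p1_e2) c ?_
  rintro ⟨l, t⟩ hp
  rw [LinearMap.comp_apply, LinearMap.comp_apply, d1_single _ _ (h _ hp), p1_e2_lmap,
    p1_e2_single]
  split_ifs
  · rfl
  · rw [map_zero]

private theorem p1_D_point (x : G) :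
    D (Finsupp.single [x] (1 : ZMod 2)) = Finsupp.single [] 1 := by
  have h : nd ([] : List G) := by unfold nd; simp
  rw [D, LinearMap.comp_apply, bd_single, List.length_singleton, Finset.sum_range_one]
  exact fil_single _ _ h

private theorem p1_len_one {t : List G} (h : t.length = 1) : ∃ x, t = [x] :=
  List.length_eq_one_iff.1 h

private theorem p1_D_e2_zero (c : QC G)
    (h : ∀ p ∈ c.support, p.1.length = 1 ∧ p.2.length = 1) :
    D (p1_e2 c) = (c.sum fun _ a => a) • Finsupp.single [] 1 := by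
  have e : D (p1_e2 c) = Finsupp.linearCombination (ZMod 2)
      (fun _ : List G × List G => (Finsupp.single [] (1 : ZMod 2) : Ch G)) c := by
    refine p1_congr (D.comp p1_e2) (Finsupp.linearCombination (ZMod 2)
      (fun _ : List G × List G => (Finsupp.single [] (1 : ZMod 2) : Ch G))) c ?_
    rintro ⟨l, t⟩ hp
    obtain ⟨h1, h2⟩ := h _ hp
    obtain ⟨x, rfl⟩ := p1_len_one h1
    rw [LinearMap.comp_apply, p1_e2_single, if_pos h2, p1_D_point,
      Finsupp.linearCombination_single, one_smul]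
  rw [e, Finsupp.linearCombination_apply, Finsupp.sum, Finsupp.sum, Finset.sum_smul]

private theorem p1_D_sl_top (l : List G) (c : QC G)
    (h : ∀ p ∈ c.support, p.1 = l → p.2.length = 1) :
    D (p1_sl l c) = (p1_e2 c l) • Finsupp.single [] 1 := by
  classical
  refine p1_congr (D.comp (p1_sl l)) ((LinearMap.toSpanSingleton (ZMod 2) (Ch G)
    (Finsupp.single [] 1)).comp ((Finsupp.lapply l).comp p1_e2)) c ?_
  rintro ⟨l0, t0⟩ hp
  rw [LinearMap.comp_apply, LinearMap.comp_apply, LinearMap.comp_apply,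
    LinearMap.toSpanSingleton_apply, Finsupp.lapply_apply, p1_e2_single, ← p1_in_single l0 t0]
  by_cases hl : l0 = l
  · subst hl
    have h1 := h _ hp rfl
    obtain ⟨x, hx⟩ := p1_len_one h1
    simp only at hx
    rw [p1_sl_in, hx, p1_D_point]
    simp
  · rw [p1_sl_in_ne hl, map_zero]
    split_ifs
    · rw [Finsupp.single_apply, if_neg hl, zero_smul]
    · rw [Finsupp.zero_apply, zero_smul]

private theorem p1_head {l : List G} (h : l ≠ []) : l.head? = some (l.headD 1) := by
  match l, h with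
  | x :: t, _ => rfl

private theorem p1_lastD {l : List G} (h : l ≠ []) : l.getLastD 1 = l.getLast h := by
  match l, h with
  | x :: t, h => rw [List.getLastD_cons, List.getLast_eq_getLastD]

private theorem p1_last {l : List G} (h : l ≠ []) : l.getLast? = some (l.getLastD 1) := by
  rw [p1_lastD h]
  exact List.getLast?_eq_some_getLast h

private theorem p1_cell_iff (F : NF A G π) (b : G) (ψ : G → ℕ) (m d k : ℕ) {l : List G}
    (h : l ≠ []) : Cell F b ψ m d k l ↔ nd l ∧ l.length = k ∧ F.inn l ≤ d ∧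
      F.l (b⁻¹ * l.headD 1) + F.inn l + ψ (l.getLastD 1) ≤ m := by
  unfold Cell
  constructor
  · rintro ⟨h1, h2, h3, x, y, h4, h5, h6⟩
    rw [p1_head h, Option.some.injEq] at h4
    rw [p1_last h, Option.some.injEq] at h5
    rw [h4, h5]
    exact ⟨h1, h2, h3, h6⟩
  · rintro ⟨h1, h2, h3, h6⟩
    exact ⟨h1, h2, h3, _, _, p1_head h, p1_last h, h6⟩

private theorem p1_inn_ge (F : NF A G π) : ∀ l : List G, l ≠ [] →
    F.l ((l.headD 1)⁻¹ * l.getLastD 1) ≤ F.inn l
  | [], h => absurd rfl h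
  | [x], _ => by
    have e : ([x] : List G).getLastD 1 = x := rfl
    rw [e, List.headD_cons, inv_mul_cancel, F.l_one]
    exact Nat.zero_le _
  | x :: y :: t, _ => by
    have ih := p1_inn_ge F (y :: t) (List.cons_ne_nil _ _)
    have e1 : (x :: y :: t).getLastD 1 = (y :: t).getLastD 1 := by
      rw [p1_lastD (List.cons_ne_nil _ _), p1_lastD (List.cons_ne_nil _ _),
        List.getLast_cons (List.cons_ne_nil _ _)]
    have e2 : F.inn (x :: y :: t) = F.l (x⁻¹ * y) + F.inn (y :: t) := rfl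
    rw [e1, e2, List.headD_cons]
    rw [List.headD_cons] at ih
    have h1 := F.l_mul (x⁻¹ * y) (y⁻¹ * (y :: t).getLastD 1)
    have e3 : x⁻¹ * y * (y⁻¹ * (y :: t).getLastD 1) = x⁻¹ * (y :: t).getLastD 1 := by group
    rw [e3] at h1
    omega

private theorem p1_ne_nil {l : List G} {n : ℕ} (h : l.length = n + 1) : l ≠ [] := by
  intro h0
  rw [h0] at h
  simp at h

/-- Step (a): make the sum of the first lists vanish. -/
private theorem p1_step_a (F : NF A G π) (z : G) (κ M : ℕ) (hκ : ∀ g, F.l g⁻¹ ≤ κ * F.l g)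
    (hM : ∀ x, F.l (x⁻¹ * (z * z) * x) ≤ M) (n d ell : ℕ) (hd : n * F.N + 1 ≤ d)
    (hell : M + (1 + κ) * d ≤ ell) (c : QC G)
    (hc : ∀ p ∈ c.support, QCell F z ell d n p) (hz : dQ c = 0)
    (h0 : n = 0 → (c.sum fun _ a => a) = 0) :
    ∃ e : QC G, (∀ p ∈ e.support, QCell F z ell d (n + 1) p) ∧ p1_e2 (c + dQ e) = 0 := by
  classical
  have hD : D (p1_e2 c) = 0 := by
    rcases Nat.eq_zero_or_pos n with hn | hn
    · rw [p1_D_e2_zero c, h0 hn, zero_smul]
      intro p hp
      obtain ⟨-, -, h3, h4, h5, -⟩ := hc p hp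
      have := List.length_pos_of_ne_nil h3
      have := List.length_pos_of_ne_nil h4
      omega
    · -- only the pairs with a second list of at most two points matter
      have e : p1_e2 (dQ c) = p1_e2 (d1 c) := by
        have e0 : dQ c = d1 c + d2 c := rfl
        rw [e0, map_add, p1_e2_d2, add_zero]
      have e1 : p1_e2 (d1 c) = D (p1_e2 c) := by
        refine p1_congr ((p1_e2 (G := G)).comp d1) (D.comp p1_e2) c ?_
        rintro ⟨l, t⟩ hp
        obtain ⟨-, -, h3, h4, h5, -⟩ := hc _ hp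
        simp only at h3 h4 h5
        rw [LinearMap.comp_apply, LinearMap.comp_apply]
        by_cases ht : t.length = 1
        · rw [d1_single _ _ (by omega), p1_e2_lmap, p1_e2_single, if_pos ht, if_pos ht]
        · rw [p1_e2_single, if_neg ht, map_zero]
          ext s
          rw [Finsupp.zero_apply]
          by_contra hne
          obtain ⟨q, hq, -, hq2⟩ := p1_mem_e2 (Finsupp.mem_support_iff.2 hne)
          obtain ⟨q', hq', i, -, -, -, he⟩ := p1_mem_d1 hq
          rw [p1_single_eq hq'] at he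
          rw [he] at hq2
          exact ht hq2
      rw [← e1, ← e, hz, map_zero]
  have hζ0 : ∀ l ∈ (p1_e2 c).support, nd l ∧ l.length = n + 1 ∧ F.inn l ≤ d := by
    intro l hl
    obtain ⟨p, hp, rfl, h1⟩ := p1_mem_e2 hl
    obtain ⟨h2, -, -, -, h5, h6, -⟩ := hc p hp
    exact ⟨h2, by omega, h6⟩
  obtain ⟨f, hf, hDf⟩ := micro F 1 (fun _ => 0) (fun _ _ => Nat.zero_le _)
    ((p1_e2 c).support.sup fun l => F.l ((1 : G)⁻¹ * l.headD 1) + F.inn l) n d hd (p1_e2 c)
    (fun l hl => by
      obtain ⟨h1, h2, h3⟩ := hζ0 l hl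
      rw [p1_cell_iff F _ _ _ _ _ (p1_ne_nil h2)]
      refine ⟨h1, h2, h3, ?_⟩
      exact Finset.le_sup (f := fun l : List G => F.l ((1 : G)⁻¹ * l.headD 1) + F.inn l) hl) hD
  set φ : List G → List G × List G := fun l => (l, [z⁻¹ * l.getLastD 1]) with hφ
  have hmem : ∀ p ∈ (Finsupp.lmapDomain (ZMod 2) (ZMod 2) φ f).support,
      ∃ l ∈ f.support, p = φ l := by
    intro p hp
    have h1 := Finsupp.mapDomain_support hp
    rw [Finset.mem_image] at h1
    obtain ⟨l, h2, h3⟩ := h1
    exact ⟨l, h2, h3.symm⟩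
  have hcell : ∀ p ∈ (Finsupp.lmapDomain (ZMod 2) (ZMod 2) φ f).support,
      QCell F z ell d (n + 1) p := by
    intro p hp
    obtain ⟨l, hl, rfl⟩ := hmem p hp
    have hc1 := hf l hl
    have hne : l ≠ [] := p1_ne_nil hc1.2.1
    obtain ⟨h1, h2, h3, -⟩ := hc1
    have hn1 : nd [z⁻¹ * l.getLastD 1] := by unfold nd; simp
    refine ⟨h1, hn1, hne, List.cons_ne_nil _ _, ?_, h3, ?_, ?_⟩
    · simp only [hφ, List.length_singleton]
      omega
    · exact Nat.zero_le _
    · have e1 : F.inn [z⁻¹ * l.getLastD 1] = 0 := rfl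
      have e2 : ([z⁻¹ * l.getLastD 1] : List G).getLastD 1 = z⁻¹ * l.getLastD 1 := rfl
      have e3 : (l.getLastD 1)⁻¹ * z * (z⁻¹ * l.getLastD 1) = 1 := by group
      have e4 : (z⁻¹ * l.getLastD 1)⁻¹ * z * l.headD 1 =
          ((l.headD 1)⁻¹ * l.getLastD 1)⁻¹ * ((l.headD 1)⁻¹ * (z * z) * l.headD 1) := by group
      unfold per
      simp only [hφ]
      rw [e1, e2, List.headD_cons, e3, e4, F.l_one]
      have g1 := F.l_mul ((l.headD 1)⁻¹ * l.getLastD 1)⁻¹ ((l.headD 1)⁻¹ * (z * z) * l.headD 1)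
      have g2 := hM (l.headD 1)
      have g3 := hκ ((l.headD 1)⁻¹ * l.getLastD 1)
      have g4 := p1_inn_ge F l hne
      have g5 : κ * F.l ((l.headD 1)⁻¹ * l.getLastD 1) ≤ κ * d :=
        Nat.mul_le_mul_left _ (g4.trans h3)
      have g6 : (1 + κ) * d = d + κ * d := by ring
      omega
  refine ⟨Finsupp.lmapDomain (ZMod 2) (ZMod 2) φ f, hcell, ?_⟩
  have e1 : p1_e2 (Finsupp.lmapDomain (ZMod 2) (ZMod 2) φ f) = f := by
    refine p1_congr ((p1_e2 (G := G)).comp (Finsupp.lmapDomain (ZMod 2) (ZMod 2) φ))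
      LinearMap.id f fun l _ => ?_
    rw [LinearMap.comp_apply, LinearMap.id_apply, Finsupp.lmapDomain_apply,
      Finsupp.mapDomain_single, hφ, p1_e2_single, if_pos (List.length_singleton)]
  have e2 : dQ (Finsupp.lmapDomain (ZMod 2) (ZMod 2) φ f) =
    d1 (Finsupp.lmapDomain (ZMod 2) (ZMod 2) φ f) +
      d2 (Finsupp.lmapDomain (ZMod 2) (ZMod 2) φ f) := rfl
  rw [map_add, e2, map_add, p1_e2_d2, add_zero, p1_e2_d1, e1, hDf]
  · exact p1_add_self _
  · intro p hp
    obtain ⟨l, hl, rfl⟩ := hmem p hp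
    have := (hf l hl).2.1
    simp only [hφ]
    omega

/-- Fill all slices over the lists of length `r`. -/
private theorem p1_fill (F : NF A G π) (z : G) (n d ell r : ℕ) (hd : n * F.N + 1 ≤ d)
    (hr : 1 ≤ r) (hrn : r ≤ n + 1) (c : QC G)
    (hc : ∀ p ∈ c.support, QCell F z ell d n p ∧ p.1.length ≤ r)
    (hs : ∀ l : List G, l.length = r → D (p1_sl l c) = 0) :
    ∃ e : QC G, (∀ p ∈ e.support, QCell F z ell d (n + 1) p) ∧
      ∀ p ∈ (c + dQ e).support, QCell F z ell d n p ∧ p.1.length < r := by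
  classical
  set L : Finset (List G) := (c.support.image Prod.fst).filter (fun l => l.length = r) with hL
  have key : ∀ l ∈ L, ∃ g : Ch G, (∀ t ∈ g.support, t.length = n + 3 - r ∧
      QCell F z ell d (n + 1) (l, t)) ∧ D g = p1_sl l c := by
    intro l hl
    rw [hL, Finset.mem_filter, Finset.mem_image] at hl
    obtain ⟨⟨p0, hp0, hp1⟩, hlr⟩ := hl
    obtain ⟨⟨a1, -, a3, -, -, a6, -, a8⟩, -⟩ := hc p0 hp0
    rw [hp1] at a1 a3 a6
    have hinn : F.inn l ≤ ell := by
      unfold per at a8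
      rw [hp1] at a8
      omega
    have hmono : (n + 1 - r) * F.N + 1 ≤ d := by
      have : (n + 1 - r) * F.N ≤ n * F.N := Nat.mul_le_mul_right _ (by omega)
      omega
    obtain ⟨g, hg, hDg⟩ := micro F (z⁻¹ * l.getLastD 1) (fun y => F.l (y⁻¹ * z * l.headD 1))
      (fun x y => by
        have h := F.l_mul (x⁻¹ * y) (y⁻¹ * z * l.headD 1)
        have e : x⁻¹ * y * (y⁻¹ * z * l.headD 1) = x⁻¹ * z * l.headD 1 := by group
        rw [e] at h
        exact h) (ell - F.inn l) (n + 1 - r) d hmono (p1_sl l c) (fun t ht => by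
        have hp : (l, t) ∈ c.support := by
          rw [Finsupp.mem_support_iff] at ht ⊢
          rwa [p1_sl_apply] at ht
        obtain ⟨⟨-, b2, -, b4, b5, -, b7, b8⟩, -⟩ := hc _ hp
        simp only at b2 b4 b5 b7
        rw [p1_cell_iff F _ _ _ _ _ b4]
        refine ⟨b2, by omega, b7, ?_⟩
        have e : (z⁻¹ * l.getLastD 1)⁻¹ * t.headD 1 = (l.getLastD 1)⁻¹ * z * t.headD 1 := by
          group
        unfold per at b8
        simp only at b8 ⊢
        rw [e]
        omega) (hs l hlr)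
    refine ⟨g, fun t ht => ?_, hDg⟩
    have hc1 := hg t ht
    have hne : t ≠ [] := p1_ne_nil (n := n + 1 - r + 1) hc1.2.1
    rw [p1_cell_iff F _ _ _ _ _ hne] at hc1
    obtain ⟨h1, h2, h3, h4⟩ := hc1
    refine ⟨by omega, a1, h1, a3, hne, ?_, a6, h3, ?_⟩
    · simp only
      omega
    · have e : (z⁻¹ * l.getLastD 1)⁻¹ * t.headD 1 = (l.getLastD 1)⁻¹ * z * t.headD 1 := by
        group
      rw [e] at h4
      unfold per
      simp only
      omega
  choose! g hg hDg using key
  have hsup : ∀ p ∈ (∑ l ∈ L, p1_in l (g l)).support, p.1 ∈ L ∧ p.2 ∈ (g p.1).support := by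
    intro p hp
    rw [Finsupp.mem_support_iff, Finsupp.finsetSum_apply] at hp
    obtain ⟨l, hl, hne⟩ := Finset.exists_ne_zero_of_sum_ne_zero hp
    obtain ⟨h1, h2⟩ := p1_mem_in (Finsupp.mem_support_iff.2 hne)
    rw [h1]
    exact ⟨hl, h2⟩
  have hlen : ∀ l ∈ L, l.length = r := fun l hl => (Finset.mem_filter.1 hl).2
  have hcell : ∀ p ∈ (∑ l ∈ L, p1_in l (g l)).support, QCell F z ell d (n + 1) p := by
    intro p hp
    obtain ⟨h1, h2⟩ := hsup p hp
    exact (hg p.1 h1 p.2 h2).2
  refine ⟨∑ l ∈ L, p1_in l (g l), hcell, ?_⟩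
  have hd2 : d2 (∑ l ∈ L, p1_in l (g l)) = ∑ l ∈ L, p1_in l (p1_sl l c) := by
    rw [map_sum]
    refine Finset.sum_congr rfl fun l hl => ?_
    rw [p1_d2_in, hDg l hl]
    intro t ht
    have := (hg l hl t ht).1
    omega
  have hsum : ∀ p : List G × List G, d2 (∑ l ∈ L, p1_in l (g l)) p =
      if p.1 ∈ L then c p else 0 := by
    intro p
    rw [hd2, Finsupp.finsetSum_apply]
    split_ifs with h
    · rw [Finset.sum_eq_single p.1]
      · have : p = (p.1, p.2) := rfl
        rw [this, p1_in_apply, p1_sl_apply]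
      · intro l _ hne
        exact p1_in_apply_ne _ (Ne.symm hne)
      · exact fun hn => absurd h hn
    · refine Finset.sum_eq_zero fun l hl => ?_
      refine p1_in_apply_ne _ fun he => h ?_
      rw [he]
      exact hl
  intro p hp
  have hq : QCell F z ell d n p := by
    rcases Finset.mem_union.1 (Finsupp.support_add hp) with h | h
    · exact (hc p h).1
    · exact dQ_cell F z ell d n _ hcell p h
  refine ⟨hq, ?_⟩
  by_contra hlt
  push Not at hlt
  rw [Finsupp.mem_support_iff] at hp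
  apply hp
  have e : dQ (∑ l ∈ L, p1_in l (g l)) = d1 (∑ l ∈ L, p1_in l (g l)) +
    d2 (∑ l ∈ L, p1_in l (g l)) := rfl
  have h1 : d1 (∑ l ∈ L, p1_in l (g l)) p = 0 := by
    refine p1_d1_zero (r := r) (fun q hq => ?_) hlt (by omega)
    rw [hlen _ (hsup q hq).1]
  rw [Finsupp.add_apply, e, Finsupp.add_apply, h1, zero_add, hsum]
  split_ifs with h
  · exact CharTwo.add_self_eq_zero _
  · rw [add_zero]
    by_contra hne
    have hps := Finsupp.mem_support_iff.2 hne
    have h2 := (hc p hps).2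
    apply h
    rw [hL, Finset.mem_filter, Finset.mem_image]
    exact ⟨⟨p, hps, rfl⟩, by omega⟩

private theorem p1_cancel (c : QC G) (x : QC G) : x + (c + x) = c := by
  rw [add_left_comm, p1_add_self, add_zero]

/-- Cycles with short first lists. -/
private theorem p1_Z (F : NF A G π) (z : G) (n d ell : ℕ) (hd : n * F.N + 1 ≤ d) :
    ∀ r, r ≤ n → ∀ c : QC G, (∀ p ∈ c.support, QCell F z ell d n p ∧ p.1.length ≤ r) →
      dQ c = 0 → ∃ e : QC G, (∀ p ∈ e.support, QCell F z ell d (n + 1) p) ∧ dQ e = c := by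
  classical
  intro r
  induction r with
  | zero =>
    intro _ c hc _
    have h0 : c = 0 := by
      rw [← Finsupp.support_eq_empty, Finset.eq_empty_iff_forall_notMem]
      intro p hp
      obtain ⟨⟨-, -, h3, -⟩, h⟩ := hc p hp
      exact h3 (List.length_eq_zero_iff.1 (Nat.le_zero.1 h))
    refine ⟨0, fun p hp => ?_, ?_⟩
    · simp at hp
    · rw [map_zero, h0]
  | succ r ih =>
    intro hr c hc hz
    obtain ⟨e1, he1, hc1⟩ := p1_fill F z n d ell (r + 1) hd (by omega) (by omega) c hc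
      (fun l hl => by
        rw [← p1_sl_dQ l (by omega) c, hz, map_zero]
        intro p hp
        obtain ⟨⟨-, -, -, -, h5, -⟩, h⟩ := hc p hp
        omega)
    have hz1 : dQ (c + dQ e1) = 0 := by
      rw [map_add, hz, dQ_dQ e1 (fun p hp => ⟨(he1 p hp).1, (he1 p hp).2.1⟩), add_zero]
    obtain ⟨e2, he2, hde2⟩ := ih (by omega) (c + dQ e1)
      (fun p hp => ⟨(hc1 p hp).1, by have := (hc1 p hp).2; omega⟩) hz1
    refine ⟨e1 + e2, fun p hp => ?_, ?_⟩
    · rcases Finset.mem_union.1 (Finsupp.support_add hp) with h | h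
      · exact he1 p h
      · exact he2 p h
    · rw [map_add, hde2, p1_cancel]

theorem quad_exact (F : NF A G π) (z : G) (κ M : ℕ) (hκ : ∀ g, F.l g⁻¹ ≤ κ * F.l g)
    (hM : ∀ x, F.l (x⁻¹ * (z * z) * x) ≤ M) (n d ell : ℕ) (hd : n * F.N + 1 ≤ d)
    (hell : M + (1 + κ) * d ≤ ell) (c : QC G)
    (hc : ∀ p ∈ c.support, QCell F z ell d n p) (hz : dQ c = 0)
    (h0 : n = 0 → (c.sum fun _ a => a) = 0) :
    ∃ e : QC G, (∀ p ∈ e.support, QCell F z ell d (n + 1) p) ∧ dQ e = c := by
  classical
  obtain ⟨ea, hea, hza⟩ := p1_step_a F z κ M hκ hM n d ell hd hell c hc hz h0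
  have hca : ∀ p ∈ (c + dQ ea).support, QCell F z ell d n p := by
    intro p hp
    rcases Finset.mem_union.1 (Finsupp.support_add hp) with h | h
    · exact hc p h
    · exact dQ_cell F z ell d n _ hea p h
  have hda : dQ (c + dQ ea) = 0 := by
    rw [map_add, hz, dQ_dQ ea (fun p hp => ⟨(hea p hp).1, (hea p hp).2.1⟩), add_zero]
  obtain ⟨eb, heb, hcb⟩ := p1_fill F z n d ell (n + 1) hd (by omega) le_rfl (c + dQ ea)
    (fun p hp => by
      refine ⟨hca p hp, ?_⟩
      obtain ⟨-, -, -, h4, h5, -⟩ := hca p hp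
      have := List.length_pos_of_ne_nil h4
      omega)
    (fun l hl => by
      rw [p1_D_sl_top l, hza, Finsupp.zero_apply, zero_smul]
      intro p hp hpl
      obtain ⟨-, -, -, -, h5, -⟩ := hca p hp
      rw [hpl] at h5
      omega)
  have hdb : dQ (c + dQ ea + dQ eb) = 0 := by
    rw [map_add, hda, dQ_dQ eb (fun p hp => ⟨(heb p hp).1, (heb p hp).2.1⟩), add_zero]
  obtain ⟨ec, hec, hdc⟩ := p1_Z F z n d ell hd n le_rfl (c + dQ ea + dQ eb)
    (fun p hp => ⟨(hcb p hp).1, by have := (hcb p hp).2; omega⟩) hdb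
  refine ⟨ea + (eb + ec), fun p hp => ?_, ?_⟩
  · rcases Finset.mem_union.1 (Finsupp.support_add hp) with h | h
    · exact hea p h
    · rcases Finset.mem_union.1 (Finsupp.support_add h) with h' | h'
      · exact heb p h'
      · exact hec p h'
  · rw [map_add, map_add, hdc, p1_cancel, p1_cancel]

end P1

end Pool.Agent.VN
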