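import Pool.Agent.VN.PBasic
import Pool.Agent.VN.Quad
/-!
# The equivariant chains of pairs of cells
-/
namespace Pool.Agent.VN
open Pool.Agent.SLX

section P2

private theorem p2_add_self {α : Type} (c : α →₀ ZMod 2) : c + c = 0 := by
  ext l
  rw [Finsupp.add_apply, Finsupp.zero_apply]
  exact CharTwo.add_self_eq_zero _

variable {A G : Type} [Group G] {π : A → G}

private theorem p2_mem_sw {c : QC G} {p : List G × List G} (h : p ∈ (swQ c).support) :
    p.swap ∈ c.support := by
  classical
  have h1 := Finsupp.mapDomain_support h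
  rw [Finset.mem_image] at h1
  obtain ⟨q, h2, h3⟩ := h1
  rw [← h3, Prod.swap_swap]
  exact h2

private theorem p2_cell_sw {F : NF A G π} {z : G} {ell d n : ℕ} {c : QC G}
    (hc : ∀ p ∈ c.support, QCell F z ell d n p) :
    ∀ p ∈ (c + swQ c).support, QCell F z ell d n p := by
  classical
  intro p hp
  rcases Finset.mem_union.1 (Finsupp.support_add hp) with h | h
  · exact hc p h
  · have := (hc _ (p2_mem_sw h)).swap
    rwa [Prod.swap_swap] at this

private theorem p2_cyc {c c' : QC G} (h : dQ c = c' + swQ c') : dQ (c + swQ c) = 0 := by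
  rw [map_add, dQ_swQ, h, map_add, swQ_swQ, add_comm (swQ c') c']
  exact p2_add_self _

private theorem p2_cyc0 (x y : G) :
    dQ (Finsupp.single ([x], [y]) (1 : ZMod 2) + swQ (Finsupp.single ([x], [y]) 1)) = 0 := by
  have h : dQ (Finsupp.single ([x], [y]) (1 : ZMod 2)) = 0 := by
    have e : dQ (Finsupp.single ([x], [y]) (1 : ZMod 2)) =
      d1 (Finsupp.single ([x], [y]) (1 : ZMod 2)) + d2 (Finsupp.single ([x], [y]) 1) := rfl
    rw [e, d1_single_one, d2_single_one, add_zero]
  rw [map_add, dQ_swQ, h, map_zero, add_zero]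

private theorem p2_sum0 (p : List G × List G) :
    ((Finsupp.single p (1 : ZMod 2) + swQ (Finsupp.single p 1)).sum fun _ a => a) = 0 := by
  classical
  have e : swQ (Finsupp.single p (1 : ZMod 2)) = Finsupp.single p.swap 1 := by
    simp [swQ, Finsupp.lmapDomain]
  rw [e, Finsupp.sum_add_index' (fun _ => rfl) (fun _ _ _ => rfl), Finsupp.sum_single_index rfl,
    Finsupp.sum_single_index rfl]
  exact CharTwo.add_self_eq_zero _

/-- The chains of pairs of cells. -/
theorem exists_q (F : NF A G π) (z : G) (κ M : ℕ) (hκ : ∀ g, F.l g⁻¹ ≤ κ * F.l g)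
    (hM : ∀ x, F.l (x⁻¹ * (z * z) * x) ≤ M) (K d ell : ℕ) (hd : K * F.N + 1 ≤ d)
    (hell : M + (1 + κ) * d ≤ ell) :
    ∃ q : ℕ → QC G, q 0 = Finsupp.single ([1], [z⁻¹]) 1 ∧
      (∀ k < K, dQ (q (k + 1)) = q k + swQ (q k)) ∧
      ∀ k ≤ K, ∀ p ∈ (q k).support, QCell F z ell d k p := by
  classical
  have key : ∀ k ≤ K, ∃ q : ℕ → QC G, q 0 = Finsupp.single ([1], [z⁻¹]) 1 ∧
      (∀ j < k, dQ (q (j + 1)) = q j + swQ (q j)) ∧
      ∀ j ≤ k, ∀ p ∈ (q j).support, QCell F z ell d j p := by
    intro k
    induction k with
    | zero =>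
      intro _
      refine ⟨fun _ => Finsupp.single ([1], [z⁻¹]) 1, rfl, fun j hj => absurd hj (by omega), ?_⟩
      intro j hj p hp
      obtain rfl : j = 0 := by omega
      have hp' : p = ([1], [z⁻¹]) := by
        have := Finsupp.support_single_subset hp
        simpa using this
      subst hp'
      have h1 : F.l (1 : G) = 0 := by
        have := F.nf_le []
        have e : val π ([] : List A) = 1 := by simp [val]
        rw [e] at this
        exact Nat.le_zero.1 this
      have h2 := hM 1
      simp only [inv_one, one_mul, mul_one] at h2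
      refine ⟨?_, ?_, by simp, by simp, by simp, ?_, ?_, ?_⟩
      · simp [nd]
      · simp [nd]
      · simp [NF.inn]
      · simp [NF.inn]
      · simp only [per, NF.inn, List.getLastD_cons, List.getLastD_nil, List.headD_cons, inv_one,
          one_mul, mul_one, mul_inv_cancel, inv_inv, h1]
        simp
        nlinarith
    | succ k ih =>
      intro hk
      obtain ⟨q, h0, hq, hc⟩ := ih (by omega)
      have hkN : k * F.N + 1 ≤ d := by
        have := Nat.mul_le_mul_right F.N (show k ≤ K by omega)
        omega
      have hz : dQ (q k + swQ (q k)) = 0 := by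
        rcases Nat.eq_zero_or_pos k with rfl | hpos
        · rw [h0]
          exact p2_cyc0 _ _
        · obtain ⟨j, rfl⟩ : ∃ j, k = j + 1 := ⟨k - 1, by omega⟩
          exact p2_cyc (hq j (by omega))
      have hs : k = 0 → ((q k + swQ (q k)).sum fun _ a => a) = 0 := by
        rintro rfl
        rw [h0]
        exact p2_sum0 _
      obtain ⟨e, he1, he2⟩ := quad_exact F z κ M hκ hM k d ell hkN hell (q k + swQ (q k))
        (p2_cell_sw (hc k le_rfl)) hz hs
      refine ⟨fun j => if j ≤ k then q j else e, ?_, ?_, ?_⟩
      · simpa using h0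
      · intro j hj
        rcases Nat.lt_or_ge j k with h | h
        · simp only [if_pos (show j + 1 ≤ k by omega), if_pos (show j ≤ k by omega)]
          exact hq j h
        · obtain rfl : j = k := by omega
          simp only [if_neg (show ¬ (j + 1 ≤ j) by omega), le_refl, if_true]
          exact he2
      · intro j hj p hp
        rcases Nat.lt_or_ge k j with h | h
        · obtain rfl : j = k + 1 := by omega
          simp only [if_neg (show ¬ (k + 1 ≤ k) by omega)] at hp
          exact he1 p hp
        · simp only [if_pos h] at hp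
          exact hc j h p hp
  exact key K le_rfl

end P2

end Pool.Agent.VN
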