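import Mathlib
/-!
# Residually finite groups in which the conjugacy classes of small translation number are finite
in number
-/
namespace Pool.Agent.VN

open scoped commutatorElement

/-- Residually finite. -/
def ResFin (G : Type) [Group G] : Prop :=
  ∀ g : G, g ≠ 1 → ∃ K : Subgroup G, K.Normal ∧ K.FiniteIndex ∧ g ∉ K

/-- The translation number of `w` for the length `l` is at most `T`. -/
def TauLe {G : Type} [Group G] (l : G → ℕ) (T : ℕ) (w : G) : Prop :=
  ∃ c : ℕ, ∀ n : ℕ, l (w ^ n) ≤ T * n + c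

section rf
variable {G : Type} [Group G]

theorem rf_avoid (hr : ResFin G) {B : Set G} (hB : B.Finite) :
    ∃ K : Subgroup G, K.Normal ∧ K.FiniteIndex ∧ ∀ g ∈ B, g ∈ K → g = 1 := by
  induction B, hB using Set.Finite.induction_on with
  | empty => exact ⟨⊤, inferInstance, inferInstance, by simp⟩
  | insert _ _ ih =>
    rename_i a s _ _
    obtain ⟨K, h1, h2, h3⟩ := ih
    by_cases ha : a = 1
    · refine ⟨K, h1, h2, ?_⟩
      intro g hg hgK
      rcases hg with h4 | h4
      · rw [h4, ha]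
      · exact h3 g h4 hgK
    · obtain ⟨K', h4, h5, h6⟩ := hr a ha
      refine ⟨K ⊓ K', inferInstance, inferInstance, ?_⟩
      intro g hg hgK
      rcases hg with h7 | h7
      · exact absurd hgK.2 (h7 ▸ h6)
      · exact h3 g h7 hgK.1

variable (l : G → ℕ) (hone : l 1 = 0) (hmul : ∀ g h, l (g * h) ≤ l g + l h)
  (hcl : ∀ T : ℕ, ∃ S : Set G, S.Finite ∧ ∀ w, TauLe l T w → ∃ x, x⁻¹ * w * x ∈ S)

include hone hmul in
theorem l_pow_le (g : G) (n : ℕ) : l (g ^ n) ≤ n * l g := by
  induction n with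
  | zero => simp [hone]
  | succ n ih =>
    rw [pow_succ]
    have := hmul (g ^ n) g
    rw [Nat.succ_mul]
    omega

include hcl in
theorem rf_kernel (hr : ResFin G) (T : ℕ) : ∃ K : Subgroup G, K.Normal ∧ K.FiniteIndex ∧
    ∀ w ∈ K, TauLe l T w → w = 1 := by
  obtain ⟨S, hS, hw⟩ := hcl T
  obtain ⟨K, h1, h2, h3⟩ := rf_avoid hr hS
  refine ⟨K, h1, h2, ?_⟩
  intro w hwK ht
  obtain ⟨x, hx⟩ := hw w ht
  have h4 : x⁻¹ * w * x ∈ K := by
    have := h1.conj_mem w hwK x⁻¹
    rwa [inv_inv] at this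
  have h5 := h3 _ hx h4
  have h6 : w = x * (x⁻¹ * w * x) * x⁻¹ := by group
  rw [h6, h5]
  group

include hone hmul hcl in
/-- Translation numbers are bounded away from zero. -/
theorem rf_trans (hr : ResFin G) : ∃ e : ℕ, 0 < e ∧ ∀ w : G, w ^ e ≠ 1 → ∀ n : ℕ,
    n ≤ e * l (w ^ n) := by
  obtain ⟨K, h1, h2, h3⟩ := rf_kernel l hcl hr 1
  refine ⟨K.index, Nat.pos_of_ne_zero h2.index_ne_zero, ?_⟩
  intro w hw n
  by_contra hn
  push Not at hn
  apply hw
  apply h3 _ (Subgroup.pow_index_mem K w)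
  have hn0 : 0 < n := by omega
  refine ⟨∑ r ∈ Finset.range n, l (w ^ r), ?_⟩
  intro m
  set e := K.index with he
  have he0 : 0 < e := Nat.pos_of_ne_zero h2.index_ne_zero
  have h4 : (w ^ e) ^ m = (w ^ n) ^ (e * m / n) * w ^ (e * m % n) := by
    rw [← pow_mul, ← pow_mul, ← pow_add, Nat.div_add_mod]
  rw [h4]
  have h5 := hmul ((w ^ n) ^ (e * m / n)) (w ^ (e * m % n))
  have h6 := l_pow_le l hone hmul (w ^ n) (e * m / n)
  have h7 : l (w ^ (e * m % n)) ≤ ∑ r ∈ Finset.range n, l (w ^ r) :=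
    Finset.single_le_sum (f := fun r => l (w ^ r)) (fun _ _ => Nat.zero_le _)
      (Finset.mem_range.2 (Nat.mod_lt _ hn0))
  have h8 : (e * m / n) * l (w ^ n) ≤ m := by
    have h9 : e * ((e * m / n) * l (w ^ n)) ≤ e * m := by
      calc e * ((e * m / n) * l (w ^ n)) = (e * m / n) * (e * l (w ^ n)) := by ring
        _ ≤ (e * m / n) * n := Nat.mul_le_mul_left _ hn.le
        _ ≤ e * m := Nat.div_mul_le_self _ _
    exact Nat.le_of_mul_le_mul_left h9 he0
  omega

include hone hmul hcl in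
/-- If `v` commutes with its conjugate by an element `y` of a suitable subgroup of finite index
then `v` commutes with `y`. -/
theorem rf_comm (hr : ResFin G) (v : G) : ∃ K : Subgroup G, K.Normal ∧ K.FiniteIndex ∧
    ∀ y ∈ K, v * (y * v * y⁻¹) = (y * v * y⁻¹) * v → v * y = y * v := by
  obtain ⟨K, h1, h2, h3⟩ := rf_kernel l hcl hr (l v + l v⁻¹)
  refine ⟨K, h1, h2, ?_⟩
  intro y hy hc
  have hu : y * v * y⁻¹ * v⁻¹ ∈ K := by
    have h4 := K.mul_mem hy (h1.conj_mem y⁻¹ (K.inv_mem hy) v)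
    have h5 : y * v * y⁻¹ * v⁻¹ = y * (v * y⁻¹ * v⁻¹) := by group
    rw [h5]
    exact h4
  have h6 := h3 _ hu (by
    refine ⟨l y + l y⁻¹, ?_⟩
    intro n
    have hcom : Commute (y * v * y⁻¹) v⁻¹ := by
      apply Commute.inv_right
      exact hc.symm
    rw [hcom.mul_pow, conj_pow]
    have h7 := hmul (y * v ^ n * y⁻¹) (v⁻¹ ^ n)
    have h8 := hmul (y * v ^ n) y⁻¹
    have h9 := hmul y (v ^ n)
    have h10 := l_pow_le l hone hmul v n
    have h11 := l_pow_le l hone hmul v⁻¹ n
    have h12 : (l v + l v⁻¹) * n = n * l v + n * l v⁻¹ := by ring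
    omega)
  have h7 : v * y = (y * v * y⁻¹ * v⁻¹)⁻¹ * (y * v) := by group
  rw [h7, h6]
  group

include hone hmul hcl in
/-- The centralizer of a finitely generated abelian subgroup has finite index in the
normalizer. -/
theorem rf_normalizer (hr : ResFin G) (A : Subgroup G) (hA : A.FG)
    (hab : ∀ a ∈ A, ∀ b ∈ A, a * b = b * a) : ∃ K : Subgroup G, K.Normal ∧ K.FiniteIndex ∧
    ∀ y ∈ K, (∀ a ∈ A, y * a * y⁻¹ ∈ A) → ∀ a ∈ A, a * y = y * a := by
  obtain ⟨S, hS⟩ := hA
  have key : ∀ S' : Finset G, (S' : Set G) ⊆ A → ∃ K : Subgroup G, K.Normal ∧ K.FiniteIndex ∧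
      ∀ y ∈ K, (∀ a ∈ A, y * a * y⁻¹ ∈ A) → ∀ a ∈ S', a * y = y * a := by
    intro S'
    classical
    induction S' using Finset.induction_on with
    | empty => exact fun _ => ⟨⊤, inferInstance, inferInstance, by simp⟩
    | insert v S'' hv ih =>
      intro hsub
      rw [Finset.coe_insert, Set.insert_subset_iff] at hsub
      obtain ⟨K, h1, h2, h3⟩ := ih hsub.2
      obtain ⟨K', h4, h5, h6⟩ := rf_comm l hone hmul hcl hr v
      refine ⟨K ⊓ K', inferInstance, inferInstance, ?_⟩
      intro y hy hn a ha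
      rcases Finset.mem_insert.1 ha with h7 | h7
      · rw [h7]
        exact h6 y hy.2 (hab v hsub.1 _ (hn v hsub.1))
      · exact h3 y hy.1 hn a h7
  obtain ⟨K, h1, h2, h3⟩ := key S (by rw [← hS]; exact Subgroup.subset_closure)
  refine ⟨K, h1, h2, ?_⟩
  intro y hy hn a ha
  rw [← hS] at ha
  have hle : A = Subgroup.closure (S : Set G) := hS.symm
  have h4 : Subgroup.closure (S : Set G) ≤ Subgroup.centralizer {y} := by
    rw [Subgroup.closure_le]
    intro b hb
    rw [SetLike.mem_coe, Subgroup.mem_centralizer_singleton_iff]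
    exact (h3 y hy hn b hb)
  have h5 := h4 ha
  rw [Subgroup.mem_centralizer_singleton_iff] at h5
  exact h5

end rf

/-! ### The derived series of a subgroup -/

/-- The derived series of a subgroup. -/
def der {G : Type} [Group G] : ℕ → Subgroup G → Subgroup G
  | 0, P => P
  | n + 1, P => ⁅der n P, der n P⁆

section der
variable {G : Type} [Group G]

theorem der_mono (n : ℕ) {P Q : Subgroup G} (h : P ≤ Q) : der n P ≤ der n Q := by
  induction n with
  | zero => exact h
  | succ n ih => exact Subgroup.commutator_mono ih ih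

theorem der_succ_le (n : ℕ) (P : Subgroup G) : der (n + 1) P ≤ der n P := by
  show ⁅der n P, der n P⁆ ≤ der n P
  rw [Subgroup.commutator_le]
  intro a ha b hb
  rw [commutatorElement_def]
  exact (der n P).mul_mem ((der n P).mul_mem ((der n P).mul_mem ha hb)
    ((der n P).inv_mem ha)) ((der n P).inv_mem hb)

theorem der_le (n : ℕ) (P : Subgroup G) : der n P ≤ P := by
  induction n with
  | zero => exact le_rfl
  | succ n ih => exact (der_succ_le n P).trans ih

theorem der_conj (n : ℕ) {P : Subgroup G} {y x : G} (hy : y ∈ P) (hx : x ∈ der n P) :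
    y * x * y⁻¹ ∈ der n P := by
  have key : ∀ n : ℕ, ∀ y ∈ P, (der n P).map (MulAut.conj y).toMonoidHom ≤ der n P := by
    intro n
    induction n with
    | zero =>
      intro y hy
      rintro _ ⟨x, hx, rfl⟩
      exact P.mul_mem (P.mul_mem hy hx) (P.inv_mem hy)
    | succ n ih =>
      intro y hy
      show (⁅der n P, der n P⁆ : Subgroup G).map _ ≤ ⁅der n P, der n P⁆
      rw [Subgroup.map_commutator]
      exact Subgroup.commutator_mono (ih y hy) (ih y hy)
  exact key n y hy ⟨x, hx, rfl⟩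

theorem der_map (P : Subgroup G) (n : ℕ) : (derivedSeries P n).map P.subtype = der n P := by
  induction n with
  | zero =>
    rw [derivedSeries_zero, ← MonoidHom.range_eq_map, Subgroup.range_subtype]
    rfl
  | succ n ih =>
    rw [derivedSeries_succ, Subgroup.map_commutator, ih]
    rfl

theorem der_bot_of_solvable (P : Subgroup G) (h : Group.IsSolvable P) : ∃ n, der n P = ⊥ := by
  obtain ⟨n, hn⟩ := h.solvable
  exact ⟨n, by rw [← der_map, hn, Subgroup.map_bot]⟩

end der

section solv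
variable {G : Type} [Group G]

/-- Powers of two elements that commute with their commutator. -/
theorem comm_sq (x y : G) (hx : Commute ⁅x, y⁆ x) (hy : Commute ⁅x, y⁆ y) (n m : ℕ) :
    x ^ n * y ^ m = ⁅x, y⁆ ^ (n * m) * (y ^ m * x ^ n) := by
  set z := ⁅x, y⁆ with hz
  have h0 : x * y = z * (y * x) := by
    rw [hz, commutatorElement_def]
    group
  have h1 : ∀ m : ℕ, x * y ^ m = z ^ m * (y ^ m * x) := by
    intro m
    induction m with
    | zero => simp
    | succ m ih =>
      calc x * y ^ (m + 1) = x * y ^ m * y := by rw [pow_succ, mul_assoc]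
        _ = z ^ m * (y ^ m * (x * y)) := by rw [ih]; group
        _ = z ^ m * ((y ^ m * z) * (y * x)) := by rw [h0]; group
        _ = z ^ m * ((z * y ^ m) * (y * x)) := by rw [(hy.pow_right m).eq]
        _ = z ^ (m + 1) * (y ^ (m + 1) * x) := by rw [pow_succ, pow_succ]; group
  induction n with
  | zero => simp
  | succ n ih =>
    calc x ^ (n + 1) * y ^ m = x * (x ^ n * y ^ m) := by rw [pow_succ']; group
      _ = x * (z ^ (n * m) * (y ^ m * x ^ n)) := by rw [ih]
      _ = (x * z ^ (n * m)) * (y ^ m * x ^ n) := by group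
      _ = (z ^ (n * m) * x) * (y ^ m * x ^ n) := by rw [(hx.pow_left (n * m)).eq]
      _ = z ^ (n * m) * (x * y ^ m) * x ^ n := by group
      _ = z ^ (n * m) * (z ^ m * (y ^ m * x)) * x ^ n := by rw [h1]
      _ = z ^ ((n + 1) * m) * (y ^ m * x ^ (n + 1)) := by
        rw [Nat.succ_mul, pow_add, pow_succ']
        group

/-- A finitely generated abelian subgroup generated by elements of bounded order is finite. -/
theorem finite_of_gen_pow (E : Subgroup G) (hab : ∀ a ∈ E, ∀ b ∈ E, a * b = b * a) (hfg : E.FG)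
    (X : Set G) (hX : E = Subgroup.closure X) (e : ℕ) (he : 0 < e) (hp : ∀ x ∈ X, x ^ e = 1) :
    (E : Set G).Finite := by
  have h1 : ∀ a ∈ E, a ^ e = 1 := by
    intro a ha
    have hle : Subgroup.closure X ≤ E := hX.ge
    rw [hX] at ha
    refine Subgroup.closure_induction (p := fun a _ => a ^ e = 1) ?_ ?_ ?_ ?_ ha
    · intro x hx
      exact hp x hx
    · exact one_pow e
    · intro a b ha' hb' ha hb
      have : Commute a b := hab a (hle ha') b (hle hb')
      rw [this.mul_pow, ha, hb, one_mul]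
    · intro a _ ha
      rw [inv_pow, ha, inv_one]
  have : Group.FG E := (Group.fg_iff_subgroup_fg E).2 hfg
  let : CommGroup E := { (inferInstance : Group E) with
    mul_comm := fun a b => Subtype.ext (hab a a.2 b b.2) }
  have h2 : Finite E := by
    apply CommGroup.finite_of_fg_isMulTorsion
    intro a
    exact isOfFinOrder_iff_pow_eq_one.2 ⟨e, he, Subtype.ext (h1 a.1 a.2)⟩
  exact Set.toFinite _

variable (l : G → ℕ) (hone : l 1 = 0) (hmul : ∀ g h, l (g * h) ≤ l g + l h)
  (hcl : ∀ T : ℕ, ∃ S : Set G, S.Finite ∧ ∀ w, TauLe l T w → ∃ x, x⁻¹ * w * x ∈ S)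

include hone hmul in
theorem comm_torsion {e : ℕ} (htr : ∀ w : G, w ^ e ≠ 1 → ∀ n : ℕ, n ≤ e * l (w ^ n)) (x y : G)
    (hx : Commute ⁅x, y⁆ x) (hy : Commute ⁅x, y⁆ y) : ⁅x, y⁆ ^ e = 1 := by
  by_contra hne
  set c := l x + l y + l x⁻¹ + l y⁻¹ with hc
  have h1 : ∀ n : ℕ, l (⁅x, y⁆ ^ (n * n)) ≤ n * c := by
    intro n
    have h2 := comm_sq x y hx hy n n
    have h3 : ⁅x, y⁆ ^ (n * n) = x ^ n * y ^ n * (x⁻¹ ^ n * y⁻¹ ^ n) := by
      rw [h2, inv_pow, inv_pow]
      group
    rw [h3]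
    have h4 := hmul (x ^ n * y ^ n) (x⁻¹ ^ n * y⁻¹ ^ n)
    have h5 := hmul (x ^ n) (y ^ n)
    have h6 := hmul (x⁻¹ ^ n) (y⁻¹ ^ n)
    have h7 := l_pow_le l hone hmul x n
    have h8 := l_pow_le l hone hmul y n
    have h9 := l_pow_le l hone hmul x⁻¹ n
    have h10 := l_pow_le l hone hmul y⁻¹ n
    have h11 : n * c = n * l x + n * l y + n * l x⁻¹ + n * l y⁻¹ := by
      rw [hc]
      ring
    omega
  have h2 := htr _ hne ((e * c + 1) * (e * c + 1))
  have h3 := h1 (e * c + 1)
  have h4 : e * l (⁅x, y⁆ ^ ((e * c + 1) * (e * c + 1))) ≤ e * ((e * c + 1) * c) :=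
    Nat.mul_le_mul_left _ h3
  have h5 : e * ((e * c + 1) * c) = (e * c + 1) * (e * c) := by ring
  have h6 : (e * c + 1) * (e * c) < (e * c + 1) * (e * c + 1) :=
    Nat.mul_lt_mul_of_pos_left (Nat.lt_succ_self _) (Nat.succ_pos _)
  omega

include hone hmul hcl in
theorem rf_solv_aux (hr : ResFin G) (s : ℕ) : ∀ P : Subgroup G, der s P = ⊥ →
    (∀ A : Subgroup G, A ≤ P → (∀ a ∈ A, ∀ b ∈ A, a * b = b * a) → A.FG) →
    ∃ H : Subgroup G, H ≤ P ∧ H.relIndex P ≠ 0 ∧ ∀ a ∈ H, ∀ b ∈ H, a * b = b * a := by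
  obtain ⟨e, he, htr⟩ := rf_trans l hone hmul hcl hr
  induction s with
  | zero =>
    intro P hP _
    have hP' : P = ⊥ := hP
    refine ⟨P, le_rfl, by rw [Subgroup.relIndex_self]; exact one_ne_zero, ?_⟩
    intro a ha b hb
    rw [hP', Subgroup.mem_bot] at ha hb
    rw [ha, hb]
  | succ s ih =>
    intro P hP hfg
    cases s with
    | zero =>
      refine ⟨P, le_rfl, by rw [Subgroup.relIndex_self]; exact one_ne_zero, ?_⟩
      intro a ha b hb
      have hP' : ⁅P, P⁆ = ⊥ := hP
      have h1 : ⁅a, b⁆ ∈ ⁅P, P⁆ := Subgroup.commutator_mem_commutator ha hb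
      rw [hP', Subgroup.mem_bot, commutatorElement_eq_one_iff_mul_comm] at h1
      exact h1
    | succ s =>
      set A := der (s + 1) P with hA
      have hAab : ∀ a ∈ A, ∀ b ∈ A, a * b = b * a := by
        intro a ha b hb
        have hP' : ⁅A, A⁆ = ⊥ := hP
        have h1 : ⁅a, b⁆ ∈ ⁅A, A⁆ := Subgroup.commutator_mem_commutator ha hb
        rw [hP', Subgroup.mem_bot, commutatorElement_eq_one_iff_mul_comm] at h1
        exact h1
      have hAfg : A.FG := hfg A (der_le _ P) hAab
      obtain ⟨K1, hK1, hK1', hK1c⟩ := rf_normalizer l hone hmul hcl hr A hAfg hAab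
      set P1 := P ⊓ K1 with hP1
      have hcen : ∀ y ∈ P1, ∀ a ∈ A, a * y = y * a := by
        intro y hy a ha
        exact hK1c y hy.2 (fun a ha => der_conj _ hy.1 ha) a ha
      set M := der s P1 with hM
      set E := der (s + 1) P1 with hE
      have hEA : E ≤ A := der_mono _ inf_le_left
      have hEab : ∀ a ∈ E, ∀ b ∈ E, a * b = b * a := fun a ha b hb =>
        hAab a (hEA ha) b (hEA hb)
      have hEfg : E.FG := hfg E ((der_le _ P1).trans inf_le_left) hEab
      have hEfin : (E : Set G).Finite := by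
        refine finite_of_gen_pow E hEab hEfg {g | ∃ g₁ ∈ M, ∃ g₂ ∈ M, ⁅g₁, g₂⁆ = g} ?_ e he ?_
        · show (⁅M, M⁆ : Subgroup G) = _
          rw [Subgroup.commutator_def]
        · rintro g ⟨x, hx, y, hy, rfl⟩
          have hz : ⁅x, y⁆ ∈ A := hEA (Subgroup.commutator_mem_commutator hx hy)
          have hxP : x ∈ P1 := der_le s P1 hx
          have hyP : y ∈ P1 := der_le s P1 hy
          exact comm_torsion l hone hmul htr x y (hcen x hxP _ hz) (hcen y hyP _ hz)
      obtain ⟨K2, hK2, hK2', hK2c⟩ := rf_avoid hr hEfin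
      set P2 := P1 ⊓ K2 with hP2
      have hd : der (s + 1) P2 = ⊥ := by
        rw [eq_bot_iff]
        intro g hg
        rw [Subgroup.mem_bot]
        exact hK2c g (der_mono _ inf_le_left hg) (inf_le_right (a := P1) (der_le _ P2 hg))
      have hle2 : P2 ≤ P := inf_le_left.trans inf_le_left
      obtain ⟨H, h1, h2, h3⟩ := ih P2 hd (fun A' h4 h5 => hfg A' (h4.trans hle2) h5)
      refine ⟨H, h1.trans hle2, ?_, h3⟩
      rw [← Subgroup.relIndex_mul_relIndex H P2 P h1 hle2]
      apply mul_ne_zero h2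
      have h6 : P2 = (K1 ⊓ K2) ⊓ P := by
        rw [hP2, hP1]
        ac_rfl
      rw [h6, Subgroup.inf_relIndex_right]
      have h7 : (K1 ⊓ K2).FiniteIndex := inferInstance
      exact fun h8 => h7.index_ne_zero (by
        have h9 := Subgroup.relIndex_dvd_index_of_normal (K1 ⊓ K2) P
        rw [h8] at h9
        exact Nat.eq_zero_of_zero_dvd h9)

include hone hmul hcl in
/-- Solvable subgroups whose abelian subgroups are finitely generated are virtually abelian. -/
theorem rf_solvable (hr : ResFin G) (P : Subgroup G) (hP : Group.IsSolvable P)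
    (hfg : ∀ A : Subgroup G, A ≤ P → (∀ a ∈ A, ∀ b ∈ A, a * b = b * a) → A.FG) :
    ∃ H : Subgroup G, H ≤ P ∧ H.relIndex P ≠ 0 ∧ ∀ a ∈ H, ∀ b ∈ H, a * b = b * a := by
  obtain ⟨n, hn⟩ := der_bot_of_solvable P hP
  exact rf_solv_aux l hone hmul hcl hr n P hn hfg

end solv

end Pool.Agent.VN
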