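import Pool.Agent.VN.ResFin
import Pool.Agent.VN.NormalAb
/-!
# Abelian subgroups of residually finite groups are undistorted
-/
namespace Pool.Agent.VN
open Pool.Agent.SLX

section tau
variable {G : Type} [Group G] (l : G → ℕ) (hone : l 1 = 0)
  (hmul : ∀ g h, l (g * h) ≤ l g + l h)

include hone hmul in
theorem tauLe_self (g : G) : TauLe l (l g) g :=
  ⟨0, fun n => by
    have := l_pow_le l hone hmul g n
    rw [mul_comm]
    omega⟩

theorem tauLe_mono {T T' : ℕ} (h : T ≤ T') {g : G} (hg : TauLe l T g) : TauLe l T' g := by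
  obtain ⟨c, hc⟩ := hg
  exact ⟨c, fun n => (hc n).trans (Nat.add_le_add_right (Nat.mul_le_mul_right _ h) _)⟩

include hmul in
theorem tauLe_mul {T T' : ℕ} {g h : G} (hgh : g * h = h * g) (hg : TauLe l T g)
    (hh : TauLe l T' h) : TauLe l (T + T') (g * h) := by
  obtain ⟨c, hc⟩ := hg
  obtain ⟨c', hc'⟩ := hh
  refine ⟨c + c', fun n => ?_⟩
  have hcm : Commute g h := hgh
  rw [hcm.mul_pow]
  have h1 := hmul (g ^ n) (h ^ n)
  have h2 := hc n
  have h3 := hc' n
  have h4 : (T + T') * n = T * n + T' * n := by ring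
  omega

theorem tauLe_inv {κ : ℕ} (hinv : ∀ g, l g⁻¹ ≤ κ * l g) {T : ℕ} {g : G} (hg : TauLe l T g) :
    TauLe l (κ * T) g⁻¹ := by
  obtain ⟨c, hc⟩ := hg
  refine ⟨κ * c, fun n => ?_⟩
  rw [inv_pow]
  have h1 := hinv (g ^ n)
  have h2 := Nat.mul_le_mul_left κ (hc n)
  have h3 : κ * (T * n + c) = κ * T * n + κ * c := by ring
  omega

include hmul in
/-- halving -/
theorem tauLe_half {K : ℕ} {y : G} (h : TauLe l (2 * K) (y * y)) : TauLe l K y := by
  obtain ⟨c, hc⟩ := h
  refine ⟨c + l y, fun n => ?_⟩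
  have h1 := hc (n / 2)
  rcases Nat.even_or_odd' n with ⟨k, hk | hk⟩
  · have h2 : n / 2 = k := by omega
    rw [h2, ← pow_two, ← pow_mul] at h1
    rw [hk]
    have h3 : 2 * K * k = K * (2 * k) := by ring
    omega
  · have h2 : n / 2 = k := by omega
    rw [h2, ← pow_two, ← pow_mul] at h1
    rw [hk, pow_succ]
    have h4 := hmul (y ^ (2 * k)) y
    have h3 : K * (2 * k + 1) = 2 * K * k + K := by ring
    omega

/-- roots of high order have small translation number -/
theorem tau_root_one {e : ℕ} (htr : ∀ w : G, w ^ e ≠ 1 → ∀ n : ℕ, n ≤ e * l (w ^ n)) {u : G}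
    {N T : ℕ} (hN : e * T < N) (h : TauLe l T (u ^ N)) : u ^ e = 1 := by
  by_contra hne
  obtain ⟨c, hc⟩ := h
  have h1 := htr u hne (N * (e * c + 1))
  have h2 := hc (e * c + 1)
  rw [← pow_mul] at h2
  have h3 := Nat.mul_le_mul_left e h2
  have h4 : e * (T * (e * c + 1) + c) = (e * T) * (e * c + 1) + e * c := by ring
  have h5 : (e * T + 1) * (e * c + 1) ≤ N * (e * c + 1) := Nat.mul_le_mul_right _ hN
  have h6 : (e * T + 1) * (e * c + 1) = (e * T) * (e * c + 1) + (e * c + 1) := by ring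
  omega

end tau

section main
variable {G : Type} [Group G] (l : G → ℕ) (hone : l 1 = 0)
  (hmul : ∀ g h, l (g * h) ≤ l g + l h) {κ : ℕ} (hinv : ∀ g, l g⁻¹ ≤ κ * l g)
  {e : ℕ} (he : 0 < e) (htr : ∀ w : G, w ^ e ≠ 1 → ∀ n : ℕ, n ≤ e * l (w ^ n))

include hmul hinv he htr in
/-- Only finitely many elements of a finitely generated abelian subgroup have bounded
translation number. -/
theorem tau_finite (A : Subgroup G) (hA : A.FG) (hab : ∀ a ∈ A, ∀ b ∈ A, a * b = b * a)
    (T : ℕ) : {w : G | w ∈ A ∧ TauLe l T w}.Finite := by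
  classical
  by_contra hinf
  have hinf : {w : G | w ∈ A ∧ TauLe l T w}.Infinite := hinf
  have hAfg : Group.FG A := (Group.fg_iff_subgroup_fg A).2 hA
  let _ : CommGroup A := { (inferInstance : Group A) with
    mul_comm := fun a b => Subtype.ext (hab a a.2 b b.2) }
  set N : ℕ := e * (T + κ * T) + 1 with hN
  have hQ := fg_ab_pow_finite A N (by omega)
  set R : Subgroup A := (powMonoidHom N : A →* A).range with hR
  set cl : {w : G | w ∈ A ∧ TauLe l T w} → A ⧸ R := fun t =>
    QuotientGroup.mk ⟨t.1, t.2.1⟩ with hcl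
  have hInf : Infinite {w : G | w ∈ A ∧ TauLe l T w} := hinf.to_subtype
  obtain ⟨c, hcinf⟩ := Finite.exists_infinite_fiber cl
  have hcinf' : (cl ⁻¹' {c}).Infinite := Set.infinite_coe_iff.1 hcinf
  obtain ⟨t0, ht0⟩ := hcinf'.nonempty
  have hinj : Function.Injective (fun t : {w : G | w ∈ A ∧ TauLe l T w} =>
      (t : G) * (t0 : G)⁻¹) := by
    intro a b hab
    simp only at hab
    exact Subtype.ext (mul_right_cancel hab)
  have hinf2 : ((fun t : {w : G | w ∈ A ∧ TauLe l T w} => (t : G) * (t0 : G)⁻¹) ''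
      (cl ⁻¹' {c})).Infinite := hcinf'.image hinj.injOn
  apply hinf2
  have htor : ((fun a : A => (a : G) ^ N) '' {b : A | IsOfFinOrder b}).Finite :=
    (fg_ab_torsion_finite A).image _
  apply htor.subset
  rintro _ ⟨t, ht, rfl⟩
  have ht1 : cl t = cl t0 := by
    rw [Set.mem_preimage, Set.mem_singleton_iff] at ht ht0
    rw [ht, ht0]
  have ht2 := QuotientGroup.eq.1 ht1.symm
  obtain ⟨u, hu⟩ := ht2
  have hu' : (u : G) ^ N = (t0 : G)⁻¹ * t := by
    have := congrArg (fun a : A => (a : G)) hu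
    simpa using this
  have hcom : (t : G) * (t0 : G)⁻¹ = (t0 : G)⁻¹ * t :=
    hab _ t.2.1 _ (A.inv_mem t0.2.1)
  have h1 : TauLe l (T + κ * T) ((u : G) ^ N) := by
    rw [hu', ← hcom]
    exact tauLe_mul l hmul hcom t.2.2 (tauLe_inv l hinv t0.2.2)
  have h2 : (u : G) ^ e = 1 := tau_root_one l htr (by omega) h1
  refine ⟨u, ?_, ?_⟩
  · show IsOfFinOrder u
    rw [isOfFinOrder_iff_pow_eq_one]
    exact ⟨e, he, Subtype.ext (by simpa using h2)⟩
  · show (u : G) ^ N = (t : G) * (t0 : G)⁻¹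
    rw [hu', hcom]

include hone hmul hinv he htr in
/-- Finitely generated abelian subgroups are undistorted. -/
theorem rf_undistorted_ab (A : Subgroup G) (hA : A.FG)
    (hab : ∀ a ∈ A, ∀ b ∈ A, a * b = b * a) : Undistorted A := by
  classical
  have hAfg : Group.FG A := (Group.fg_iff_subgroup_fg A).2 hA
  obtain ⟨T0, hT0, hsq⟩ := exists_sq_reps A (fun a b => Subtype.ext (hab a a.2 b b.2))
  obtain ⟨c, hc⟩ : ∃ c : ℕ, ∀ s ∈ T0, l ((s : G)⁻¹) ≤ c := by
    obtain ⟨c, hc⟩ := (hT0.image (fun s : A => l ((s : G)⁻¹))).bddAbove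
    exact ⟨c, fun s hs => hc ⟨s, hs, rfl⟩⟩
  set S : Set G := {w : G | w ∈ A ∧ TauLe l (1 + c) w} ∪ (fun s : A => (s : G)) '' T0 with hS
  have hSfin : S.Finite :=
    (tau_finite l hmul hinv he htr A hA hab (1 + c)).union (hT0.image _)
  have hSA : S ⊆ A := by
    rintro w (hw | ⟨s, _, rfl⟩)
    · exact hw.1
    · exact s.2
  have key : ∀ m : ℕ, ∀ b ∈ A, TauLe l (2 ^ m + c) b → IsShort S (2 ^ (m + 1) - 1) b := by
    intro m
    induction m with
    | zero =>
      intro b hb hbt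
      have h1 : b ∈ S := Or.inl ⟨hb, by simpa using hbt⟩
      exact isShort_of_mem' h1
    | succ m ih =>
      intro b hb hbt
      obtain ⟨s, hs, y, hy⟩ := hsq ⟨b, hb⟩
      have hb' : b = (s : G) * ((y : G) * (y : G)) := by
        have := congrArg (fun a : A => (a : G)) hy
        simpa using this
      have hyy : (y : G) * (y : G) = (s : G)⁻¹ * b := by
        rw [hb']
        group
      have h2 : TauLe l (2 * (2 ^ m + c)) ((y : G) * (y : G)) := by
        rw [hyy]
        have h3 : TauLe l (c + (2 ^ (m + 1) + c)) ((s : G)⁻¹ * b) :=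
          tauLe_mul l hmul (hab _ (A.inv_mem s.2) _ hb)
            (tauLe_mono l (hc s hs) (tauLe_self l hone hmul _)) hbt
        apply tauLe_mono l _ h3
        rw [pow_succ]
        omega
      have h4 := ih (y : G) y.2 (tauLe_half l hmul h2)
      have h5 : IsShort S 1 (s : G) := isShort_of_mem' (Or.inr ⟨s, hs, rfl⟩)
      have h6 := isShort_mul' h5 (isShort_mul' h4 h4)
      rw [← hb'] at h6
      apply isShort_mono' _ h6
      have h7 : 0 < 2 ^ (m + 1) := pow_pos (by norm_num) _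
      rw [pow_succ 2 (m + 1)]
      omega
  have hpow : ∀ n : ℕ, ∃ m : ℕ, n ≤ 2 ^ m ∧ 2 ^ m ≤ 2 * n + 1 := by
    intro n
    rcases Nat.eq_zero_or_pos n with rfl | hn
    · exact ⟨0, by norm_num, by norm_num⟩
    · refine ⟨Nat.clog 2 n, Nat.le_pow_clog (by norm_num) n, ?_⟩
      rcases Nat.eq_zero_or_pos (Nat.clog 2 n) with h | h
      · rw [h]
        omega
      · rcases Nat.lt_or_ge 1 n with h1 | h1
        · have h2 := Nat.pow_pred_clog_lt_self (b := 2) (by norm_num) h1
          obtain ⟨k, hk⟩ : ∃ k, Nat.clog 2 n = k + 1 := ⟨Nat.clog 2 n - 1, by omega⟩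
          rw [hk] at h2 ⊢
          simp only [Nat.pred_eq_sub_one, Nat.add_sub_cancel] at h2
          rw [pow_succ]
          omega
        · have h3 : n = 1 := by omega
          rw [h3] at h ⊢
          simp at h
  refine ⟨S, hSfin, ?_, ?_⟩
  · apply le_antisymm
    · rw [Subgroup.closure_le]
      exact hSA
    · intro b hb
      obtain ⟨m, hm, _⟩ := hpow (l b)
      obtain ⟨v, h1, h2, _⟩ := key m b hb
        (tauLe_mono l (by omega) (tauLe_self l hone hmul b))
      rw [← h2]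
      exact Subgroup.list_prod_mem _ (fun x hx => Subgroup.subset_closure (h1 x hx))
  · intro X hX
    obtain ⟨B, hB⟩ : ∃ B : ℕ, ∀ x ∈ X, l x ≤ B := by
      obtain ⟨B, hB⟩ := (hX.image l).bddAbove
      exact ⟨B, fun x hx => hB ⟨x, hx, rfl⟩⟩
    refine ⟨4 * B + 2, ?_⟩
    intro n g hg hgA
    obtain ⟨v, h1, h2, h3⟩ := hg
    have h4 : l g ≤ B * n := by
      rw [← h2]
      exact (len_prod_le l hone hmul B v (fun x hx => hB x (h1 x hx))).trans
        (Nat.mul_le_mul_left _ h3)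
    obtain ⟨m, hm, hm'⟩ := hpow (B * n)
    have h5 := key m g hgA (tauLe_mono l (by omega) (tauLe_self l hone hmul g))
    apply isShort_mono' _ h5
    have h6 : (4 * B + 2) * n = 4 * (B * n) + 2 * n := by ring
    rw [pow_succ]
    omega

end main

/-- An overgroup of finite index of an undistorted subgroup is undistorted. -/
theorem undistorted_of_fi {G : Type} [Group G] {H P : Subgroup G} (hHP : H ≤ P)
    (hfi : H.relIndex P ≠ 0) (hH : Undistorted H) : Undistorted P := by
  classical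
  obtain ⟨S, hS, hSH, hund⟩ := hH
  have hfin : Finite (P ⧸ H.subgroupOf P) := by
    have : (H.subgroupOf P).FiniteIndex := ⟨hfi⟩
    infer_instance
  set R : Set G := Set.range (fun q : P ⧸ H.subgroupOf P => ((q.out : P) : G)⁻¹) with hR
  have hRfin : R.Finite := Set.finite_range _
  have hRP : ∀ r ∈ R, r ∈ P := by
    rintro _ ⟨q, rfl⟩
    exact P.inv_mem (q.out : P).2
  have hdec : ∀ g ∈ P, ∃ r ∈ R, g * r⁻¹ ∈ H := by
    intro g hg
    set q : P ⧸ H.subgroupOf P := QuotientGroup.mk (⟨g, hg⟩⁻¹ : P) with hq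
    refine ⟨((q.out : P) : G)⁻¹, ⟨q, rfl⟩, ?_⟩
    have h1 : (q.out)⁻¹ * (⟨g, hg⟩⁻¹ : P) ∈ H.subgroupOf P := by
      rw [← QuotientGroup.eq, QuotientGroup.out_eq']
    have h2 : ((q.out : P) : G)⁻¹ * g⁻¹ ∈ H := by
      simpa [Subgroup.mem_subgroupOf] using h1
    have h3 := H.inv_mem h2
    rw [mul_inv_rev, inv_inv, inv_inv] at h3
    rw [inv_inv]
    exact h3
  refine ⟨S ∪ R, hS.union hRfin, ?_, ?_⟩
  · apply le_antisymm
    · rw [Subgroup.closure_le, Set.union_subset_iff]
      refine ⟨?_, fun r hr => hRP r hr⟩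
      intro s hs
      apply hHP
      rw [← hSH]
      exact Subgroup.subset_closure hs
    · intro g hg
      obtain ⟨r, hr, h1⟩ := hdec g hg
      have h2 : g = (g * r⁻¹) * r := by group
      rw [h2]
      apply Subgroup.mul_mem
      · rw [← hSH] at h1
        exact Subgroup.closure_mono Set.subset_union_left h1
      · exact Subgroup.subset_closure (Or.inr hr)
  · intro X hX
    obtain ⟨L, hL⟩ := hund (X ∪ (fun r => r⁻¹) '' R) (hX.union (hRfin.image _))
    refine ⟨2 * L + 1, ?_⟩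
    intro n g hg hgP
    obtain ⟨r, hr, h1⟩ := hdec g hgP
    obtain ⟨v, h2, h3, h4⟩ := hg
    have h5 : IsShort (X ∪ (fun r => r⁻¹) '' R) (n + 1) (g * r⁻¹) := by
      refine isShort_mul' ⟨v, fun x hx => Or.inl (h2 x hx), h3, h4⟩ ?_
      exact isShort_of_mem' (Or.inr ⟨r, hr, rfl⟩)
    obtain ⟨v', h6, h7, h8⟩ := hL (n + 1) _ h5 h1
    have h9 : IsShort (S ∪ R) (L * (n + 1) + L) (g * r⁻¹) :=
      ⟨v', fun x hx => Or.inl (h6 x hx), h7, h8⟩
    have h10 := isShort_mul' h9 (isShort_of_mem' (S := S ∪ R) (Or.inr hr))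
    have h11 : g * r⁻¹ * r = g := by group
    rw [h11] at h10
    apply isShort_mono' _ h10
    have h12 : (2 * L + 1) * n = L * n + L * n + n := by ring
    rw [Nat.mul_succ]
    nlinarith

end Pool.Agent.VN
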